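import Pool.Agent.helper75.Pel.Gauss

/-!
# Ell : elementary properties of `ell`

`g ↦ ‖∑ g_i x_i‖` is continuous and `≤ ∑ |g_i| ‖x_i‖`; coordinate moments from `Gauss`.
-/

namespace Pool.Agent.helper75.Pel
open MeasureTheory ProbabilityTheory

universe u
variable {E : Type u} [NormedAddCommGroup E] [NormedSpace ℝ E]
variable {ι κ : Type} [Fintype ι] [Fintype κ]

private lemma Ell_cont (x : ι → E) : Continuous (fun g : ι → ℝ => ‖∑ i, g i • x i‖) := by
  fun_prop

private lemma Ell_int_abs (x : ι → E) :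
    Integrable (fun g : ι → ℝ => ∑ i, |g i| * ‖x i‖) (gam ι) :=
  integrable_finsetSum _ fun i _ => ((integrable_coord i).abs).mul_const _

private lemma Ell_pt (x : ι → E) (g : ι → ℝ) : ‖∑ i, g i • x i‖ ≤ ∑ i, |g i| * ‖x i‖ := by
  refine (norm_sum_le _ _).trans (Finset.sum_le_sum fun i _ => ?_)
  rw [norm_smul, Real.norm_eq_abs]

theorem integrable_norm_sum (x : ι → E) : Integrable (fun g : ι → ℝ => ‖∑ i, g i • x i‖) (gam ι) := by
  refine (Ell_int_abs x).mono' (Ell_cont x).aestronglyMeasurable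
    (Filter.Eventually.of_forall fun g => ?_)
  rw [norm_norm]
  exact Ell_pt x g

theorem ell_nonneg (x : ι → E) : 0 ≤ ell x := integral_nonneg fun _ => norm_nonneg _

theorem ell_add_le (x y : ι → E) : ell (fun i => x i + y i) ≤ ell x + ell y := by
  unfold ell
  rw [← integral_add (integrable_norm_sum x) (integrable_norm_sum y)]
  apply integral_mono (integrable_norm_sum _)
    ((integrable_norm_sum x).add (integrable_norm_sum y))
  intro g
  have h : ∑ i, g i • (x i + y i) = ∑ i, g i • x i + ∑ i, g i • y i := by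
    rw [← Finset.sum_add_distrib]
    exact Finset.sum_congr rfl fun i _ => smul_add _ _ _
  simp only [h]
  exact norm_add_le _ _

theorem ell_smul (c : ℝ) (x : ι → E) : ell (fun i => c • x i) = |c| * ell x := by
  unfold ell
  rw [← integral_const_mul]
  congr 1
  funext g
  have h : ∑ i, g i • c • x i = c • ∑ i, g i • x i := by
    rw [Finset.smul_sum]
    exact Finset.sum_congr rfl fun i _ => smul_comm _ _ _
  rw [h, norm_smul, Real.norm_eq_abs]

/-- `ell` is a seminorm: Jensen for finite averages. -/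
theorem ell_sum_le {J : Type} (s : Finset J) (p : J → ℝ) (hp : ∀ j ∈ s, 0 ≤ p j) (x : J → ι → E) :
    ell (fun i => ∑ j ∈ s, p j • x j i) ≤ ∑ j ∈ s, p j * ell (x j) := by
  unfold ell
  have e : ∑ j ∈ s, p j * ∫ g, ‖∑ i, g i • x j i‖ ∂(gam ι) =
      ∫ g, ∑ j ∈ s, p j * ‖∑ i, g i • x j i‖ ∂(gam ι) := by
    rw [integral_finsetSum _ fun j _ => (integrable_norm_sum (x j)).const_mul _]
    exact Finset.sum_congr rfl fun j _ => (integral_const_mul _ _).symm
  rw [e]
  apply integral_mono (integrable_norm_sum _)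
    (integrable_finsetSum _ fun j _ => (integrable_norm_sum (x j)).const_mul _)
  intro g
  have h : ∑ i, g i • ∑ j ∈ s, p j • x j i = ∑ j ∈ s, p j • ∑ i, g i • x j i := by
    simp only [Finset.smul_sum]
    rw [Finset.sum_comm]
    exact Finset.sum_congr rfl fun j _ => Finset.sum_congr rfl fun i _ => smul_comm _ _ _
  simp only [h]
  refine (norm_sum_le _ _).trans (Finset.sum_le_sum fun j hj => ?_)
  rw [norm_smul, Real.norm_eq_abs, abs_of_nonneg (hp j hj)]

theorem ell_le_sum_norm (x : ι → E) : ell x ≤ ∑ i, ‖x i‖ := by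
  have h1 : ell x ≤ ∫ g, ∑ i, |g i| * ‖x i‖ ∂(gam ι) :=
    integral_mono (integrable_norm_sum x) (Ell_int_abs x) (Ell_pt x)
  refine h1.trans ?_
  rw [integral_finsetSum _ fun i _ => ((integrable_coord i).abs).mul_const _]
  refine Finset.sum_le_sum fun i _ => ?_
  rw [integral_mul_const]
  have := integral_abs_coord_le i
  exact mul_le_of_le_one_left (norm_nonneg _) this

/-- `ell x ≤ σ E|g| ≤ σ √card` (Jensen / Cauchy-Schwarz: `E √(∑ g_i²) ≤ √(E ∑ g_i²)`). -/
theorem ell_le_of_opB {x : ι → E} {σ : ℝ} (hσ : 0 ≤ σ) (h : OpB x σ) :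
    ell x ≤ σ * Real.sqrt (Fintype.card ι) := by
  rcases isEmpty_or_nonempty ι with hι | hι
  · have h0 : ell x = 0 := by
      unfold ell
      simp
    rw [h0]
    positivity
  · have hN : 0 < (Fintype.card ι : ℝ) := by exact_mod_cast Fintype.card_pos
    have hs : 0 < Real.sqrt (Fintype.card ι : ℝ) := Real.sqrt_pos.2 hN
    have hint : Integrable (fun g : ι → ℝ => ∑ i, (g i) ^ 2) (gam ι) :=
      integrable_finsetSum _ fun i _ => (integral_sq_coord i).1
    have hint2 : Integrable (fun g : ι → ℝ => σ * (((∑ i, (g i) ^ 2) /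
        Real.sqrt (Fintype.card ι) + Real.sqrt (Fintype.card ι)) / 2)) (gam ι) :=
      (((hint.div_const _).add (integrable_const _)).div_const 2).const_mul σ
    have h1 : ell x ≤ ∫ g, σ * (((∑ i, (g i) ^ 2) /
        Real.sqrt (Fintype.card ι) + Real.sqrt (Fintype.card ι)) / 2) ∂(gam ι) := by
      apply integral_mono (integrable_norm_sum x) hint2
      intro g
      refine (h g).trans (mul_le_mul_of_nonneg_left ?_ hσ)
      have h2 : 0 ≤ ∑ i, (g i) ^ 2 := Finset.sum_nonneg fun i _ => sq_nonneg _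
      have h3 := Real.sq_sqrt h2
      have h4 := sq_nonneg (Real.sqrt (∑ i, (g i) ^ 2) - Real.sqrt (Fintype.card ι))
      have h5 := Real.sq_sqrt hN.le
      rw [le_div_iff₀ (by norm_num)]
      have h6 : (∑ i, (g i) ^ 2) / Real.sqrt (Fintype.card ι) + Real.sqrt (Fintype.card ι) =
          ((∑ i, (g i) ^ 2) + Real.sqrt (Fintype.card ι) ^ 2) / Real.sqrt (Fintype.card ι) := by
        field_simp
      rw [h6, le_div_iff₀ hs]
      nlinarith
    refine h1.trans (le_of_eq ?_)
    rw [integral_const_mul, integral_div, integral_add (hint.div_const _) (integrable_const _),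
      integral_div, integral_finsetSum _ fun i _ => (integral_sq_coord i).1]
    have h7 : ∑ i : ι, ∫ g : ι → ℝ, (g i) ^ 2 ∂(gam ι) = Fintype.card ι := by
      rw [Finset.sum_congr rfl fun i _ => (integral_sq_coord i).2]
      simp
    rw [h7]
    have h8 : (Fintype.card ι : ℝ) / Real.sqrt (Fintype.card ι) = Real.sqrt (Fintype.card ι) :=
      Real.div_sqrt
    rw [h8]
    simp

private lemma Ell_mp_inl (ι κ : Type) [Fintype ι] [Fintype κ] :
    MeasurePreserving (fun g : ι ⊕ κ → ℝ => fun i => g (Sum.inl i)) (gam (ι ⊕ κ)) (gam ι) := by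
  have h1 := measurePreserving_sumPiEquivProdPi (fun _ : ι ⊕ κ => gaussianReal 0 1)
  have h2 : MeasurePreserving Prod.fst
      ((Measure.pi fun _ : ι => gaussianReal 0 1).prod
        (Measure.pi fun _ : κ => gaussianReal 0 1)) (Measure.pi fun _ : ι => gaussianReal 0 1) :=
    measurePreserving_fst
  exact h2.comp h1

private lemma Ell_mp_inr (ι κ : Type) [Fintype ι] [Fintype κ] :
    MeasurePreserving (fun g : ι ⊕ κ → ℝ => fun i => g (Sum.inr i)) (gam (ι ⊕ κ)) (gam κ) := by
  have h1 := measurePreserving_sumPiEquivProdPi (fun _ : ι ⊕ κ => gaussianReal 0 1)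
  have h2 : MeasurePreserving Prod.snd
      ((Measure.pi fun _ : ι => gaussianReal 0 1).prod
        (Measure.pi fun _ : κ => gaussianReal 0 1)) (Measure.pi fun _ : κ => gaussianReal 0 1) :=
    measurePreserving_snd
  exact h2.comp h1

private lemma Ell_inl (x : ι → E) : ∫ g : ι ⊕ κ → ℝ, ‖∑ i, g (Sum.inl i) • x i‖ ∂(gam (ι ⊕ κ))
    = ell x := by
  unfold ell
  rw [← (Ell_mp_inl ι κ).map_eq, integral_map (Ell_mp_inl ι κ).measurable.aemeasurable
    (Ell_cont x).aestronglyMeasurable]

private lemma Ell_inr (y : κ → E) : ∫ g : ι ⊕ κ → ℝ, ‖∑ i, g (Sum.inr i) • y i‖ ∂(gam (ι ⊕ κ))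
    = ell y := by
  unfold ell
  rw [← (Ell_mp_inr ι κ).map_eq, integral_map (Ell_mp_inr ι κ).measurable.aemeasurable
    (Ell_cont y).aestronglyMeasurable]

private lemma Ell_int_inl (x : ι → E) :
    Integrable (fun g : ι ⊕ κ → ℝ => ‖∑ i, g (Sum.inl i) • x i‖) (gam (ι ⊕ κ)) :=
  ((Ell_mp_inl ι κ).integrable_comp (Ell_cont x).aestronglyMeasurable).mpr (integrable_norm_sum x)

private lemma Ell_int_inr (y : κ → E) :
    Integrable (fun g : ι ⊕ κ → ℝ => ‖∑ i, g (Sum.inr i) • y i‖) (gam (ι ⊕ κ)) :=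
  ((Ell_mp_inr ι κ).integrable_comp (Ell_cont y).aestronglyMeasurable).mpr (integrable_norm_sum y)

/-- change of signs in `ell` -/
private lemma Ell_signs (x : ι → E) (ε : ι → ℝ) (hε : ∀ i, ε i = 1 ∨ ε i = -1) :
    ell (fun i => ε i • x i) = ell x := by
  unfold ell
  have h := measurePreserving_signs ε hε
  conv_rhs => rw [← h.map_eq]
  rw [integral_map h.measurable.aemeasurable (Ell_cont x).aestronglyMeasurable]
  congr 1
  funext g
  congr 1
  refine Finset.sum_congr rfl fun i _ => ?_
  rw [smul_smul, mul_comm]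

/-- Appending vectors increases `ell`: `gam (ι ⊕ κ)` is the product measure
(`MeasureTheory.measurePreserving_sumPiEquivProdPi`) and `‖a‖ ≤ E ‖a + Y‖` for symmetric `Y`
(`‖a‖ = ‖E (a + Y)‖`, `norm_integral_le_integral_norm`; or `2‖a‖ ≤ ‖a + Y‖ + ‖a - Y‖`). -/
theorem ell_le_sumElim (x : ι → E) (y : κ → E) : ell x ≤ ell (Sum.elim x y) := by
  have h1 := Ell_signs (Sum.elim x y) (Sum.elim (fun _ => 1) (fun _ => -1)) (by
    rintro (i | i)
    · exact Or.inl rfl
    · exact Or.inr rfl)
  have h2 : 2 * ell x ≤ ell (Sum.elim x y) +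
      ell (fun i => (Sum.elim (fun _ : ι => (1 : ℝ)) (fun _ : κ => -1)) i • Sum.elim x y i) := by
    rw [← Ell_inl (κ := κ) x]
    unfold ell
    rw [← integral_const_mul, ← integral_add (integrable_norm_sum _) (integrable_norm_sum _)]
    apply integral_mono ((Ell_int_inl x).const_mul 2)
      ((integrable_norm_sum _).add (integrable_norm_sum _))
    intro g
    simp only [Fintype.sum_sum_type, Sum.elim_inl, Sum.elim_inr, one_smul, neg_smul, smul_neg,
      Finset.sum_neg_distrib, Pi.add_apply]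
    obtain ⟨a, ha⟩ : ∃ a, a = ∑ i, g (Sum.inl i) • x i := ⟨_, rfl⟩
    obtain ⟨b, hb⟩ : ∃ b, b = ∑ i, g (Sum.inr i) • y i := ⟨_, rfl⟩
    rw [← ha, ← hb]
    have e : (2 : ℝ) • a = (a + b) + (a + -b) := by rw [two_smul]; abel
    have n : ‖(2 : ℝ) • a‖ = 2 * ‖a‖ := by rw [norm_smul]; norm_num
    rw [← n, e]
    exact norm_add_le _ _
  rw [h1] at h2
  linarith

theorem ell_sumElim_le (x : ι → E) (y : κ → E) : ell (Sum.elim x y) ≤ ell x + ell y := by
  rw [← Ell_inl (κ := κ) x, ← Ell_inr (ι := ι) y, ← integral_add (Ell_int_inl x) (Ell_int_inr y)]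
  unfold ell
  apply integral_mono (integrable_norm_sum _) ((Ell_int_inl x).add (Ell_int_inr y))
  intro g
  simp only [Fintype.sum_sum_type, Sum.elim_inl, Sum.elim_inr]
  exact norm_add_le _ _

/-- `QF` of a disjoint union. -/
theorem QF_sumElim (x : ι → E) (y : κ → E) (ξ : E →L[ℝ] ℝ) :
    QF (Sum.elim x y) ξ = QF x ξ + QF y ξ := by
  simp [QF, Fintype.sum_sum_type]

/-- One vector: `‖x_i‖/2 ≤ ell x` (`2‖x_i g_i‖ ≤ ‖a + g_i x_i‖ + ‖-a + g_i x_i‖`, or change the sign of
the other coordinates: the map `g ↦ g` with all coordinates but `i` negated preserves `gam ι`). -/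
theorem ell_ge_single (x : ι → E) (i : ι) : ‖x i‖ / 2 ≤ ell x := by
  classical
  have h1 := Ell_signs x (fun j => if j = i then 1 else -1) (by
    intro j
    by_cases h : j = i
    · simp [h]
    · simp [h])
  have h2 : ∫ g : ι → ℝ, 2 * (|g i| * ‖x i‖) ∂(gam ι) ≤
      ell x + ell (fun j => (if j = i then (1 : ℝ) else -1) • x j) := by
    unfold ell
    rw [← integral_add (integrable_norm_sum _) (integrable_norm_sum _)]
    apply integral_mono (((integrable_coord i).abs.mul_const _).const_mul 2)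
      ((integrable_norm_sum _).add (integrable_norm_sum _))
    intro g
    simp only
    have e : (2 : ℝ) • (g i • x i) = (∑ j, g j • x j) +
        ∑ j, g j • (if j = i then (1 : ℝ) else -1) • x j := by
      rw [← Finset.sum_add_distrib, Finset.sum_eq_single i]
      · simp [two_smul]
      · intro j _ hj
        simp [hj]
      · intro h
        exact absurd (Finset.mem_univ i) h
    have n : ‖(2 : ℝ) • (g i • x i)‖ = 2 * (|g i| * ‖x i‖) := by
      rw [norm_smul, norm_smul, Real.norm_eq_abs, Real.norm_eq_abs]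
      norm_num
    rw [← n, e]
    exact norm_add_le _ _
  rw [h1, integral_const_mul, integral_mul_const] at h2
  have h3 := integral_abs_coord_ge i
  have h4 := norm_nonneg (x i)
  nlinarith

end Pool.Agent.helper75.Pel
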