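import Pool.Agent.helper75.Pel.Defs

/-!
# Law : the law of `∑ g_i x_i` is determined by the covariance form

`law x` is the image of `gam ι` on `E`.  `charFunDual (law x) ξ = exp (- QF x ξ / 2)`
(`charFunDual_map`/`charFunDual_apply`, product measure: `integral_fintype_prod_eq_prod`,
`charFun_gaussianReal`; compare the proof of `charFun_stdGaussian` in
`Mathlib/Probability/Distributions/Gaussian/Multivariate.lean`).  `law x` is Gaussian
(`isGaussian_iff_charFunDual_eq` or as image of the Gaussian measure on the product), has mean zero and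
variances `QF x ξ`.  Equal forms give equal laws (`Measure.ext_of_charFunDual`; a finite-dimensional
space is complete and second countable: `FiniteDimensional.complete ℝ E`,
`FiniteDimensional.proper_real`, `secondCountable_of_proper`), hence equal `ell`
(in `ell_congr` put `letI : MeasurableSpace E := borel E; haveI : BorelSpace E := ⟨rfl⟩`).
-/

namespace Pool.Agent.helper75.Pel
open MeasureTheory ProbabilityTheory

universe u
variable {E : Type u} [NormedAddCommGroup E] [NormedSpace ℝ E] [FiniteDimensional ℝ E]

/-- The law of `∑ g_i x_i`. -/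
noncomputable def law [MeasurableSpace E] {ι : Type} [Fintype ι] (x : ι → E) : Measure E :=
  (gam ι).map fun g => ∑ i, g i • x i

/-- `g ↦ ∑ g_i x_i` as a continuous linear map. -/
private noncomputable def lawLin {ι : Type} [Fintype ι] (x : ι → E) : (ι → ℝ) →L[ℝ] E :=
  ∑ i, (ContinuousLinearMap.proj (R := ℝ) (φ := fun _ : ι => ℝ) i).smulRight (x i)

omit [FiniteDimensional ℝ E] in
private lemma lawLin_apply {ι : Type} [Fintype ι] (x : ι → E) (g : ι → ℝ) :
    lawLin x g = ∑ i, g i • x i := by
  simp [lawLin]

omit [FiniteDimensional ℝ E] in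
private lemma law_eq_map [MeasurableSpace E] {ι : Type} [Fintype ι] (x : ι → E) :
    law x = (gam ι).map (lawLin x) := by
  unfold law
  congr 1
  funext g
  rw [lawLin_apply]

private lemma law_measurable [MeasurableSpace E] [BorelSpace E] {ι : Type} [Fintype ι]
    (x : ι → E) : Measurable fun g : ι → ℝ => ∑ i, g i • x i := by
  have h : (fun g : ι → ℝ => ∑ i, g i • x i) = lawLin x := by
    funext g
    rw [lawLin_apply]
  rw [h]
  exact (lawLin x).continuous.measurable

theorem isProbabilityMeasure_law [MeasurableSpace E] [BorelSpace E] {ι : Type} [Fintype ι]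
    (x : ι → E) : IsProbabilityMeasure (law x) :=
  Measure.isProbabilityMeasure_map (law_measurable x).aemeasurable

theorem charFunDual_law [MeasurableSpace E] [BorelSpace E] {ι : Type} [Fintype ι] (x : ι → E)
    (ξ : E →L[ℝ] ℝ) : charFunDual (law x) ξ = Complex.exp (-(QF x ξ : ℂ) / 2) := by
  classical
  rw [law_eq_map, charFunDual_map, gam, charFunDual_pi]
  have h : ∀ i, charFunDual (gaussianReal 0 1)
      ((ξ.comp (lawLin x)).comp (.single ℝ (fun _ : ι => ℝ) i))
      = Complex.exp (-(((ξ (x i)) ^ 2 : ℝ) : ℂ) / 2) := by
    intro i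
    have h1 : ∀ v : ℝ, ((ξ.comp (lawLin x)).comp (.single ℝ (fun _ : ι => ℝ) i)) v
        = ξ (x i) * v := by
      intro v
      simp only [ContinuousLinearMap.comp_apply, ContinuousLinearMap.single_apply, lawLin_apply]
      rw [Finset.sum_eq_single i]
      · simp [mul_comm]
      · intro j _ hj
        simp [hj]
      · intro h
        exact absurd (Finset.mem_univ i) h
    rw [charFunDual_apply]
    simp only [h1]
    have h2 := charFun_gaussianReal (μ := 0) (v := 1) (ξ (x i))
    rw [charFun_apply_real] at h2
    push_cast
    rw [h2]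
    congr 1
    push_cast
    ring
  rw [Finset.prod_congr rfl (fun i _ => h i), ← Complex.exp_sum]
  congr 1
  rw [← Finset.sum_div, Finset.sum_neg_distrib]
  simp [QF]

private lemma law_map [MeasurableSpace E] [BorelSpace E] {ι : Type} [Fintype ι] (x : ι → E)
    (ξ : E →L[ℝ] ℝ) : (law x).map ξ = gaussianReal 0 (QF x ξ).toNNReal := by
  have := isProbabilityMeasure_law x
  have : IsFiniteMeasure ((law x).map ξ) := by
    have := Measure.isProbabilityMeasure_map (μ := law x) ξ.continuous.measurable.aemeasurable
    infer_instance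
  refine Measure.ext_of_charFun (funext fun t => ?_)
  have h1 : charFun ((law x).map ξ) t = charFunDual (law x) (t • ξ) := by
    rw [charFunDual_eq_charFun_map_one, charFun_apply_real, charFun_apply_real,
      integral_map ξ.continuous.measurable.aemeasurable (by fun_prop),
      integral_map (t • ξ).continuous.measurable.aemeasurable (by fun_prop)]
    congr 1
    funext z
    simp
  have hQ : QF x (t • ξ) = t ^ 2 * QF x ξ := by
    unfold QF
    rw [Finset.mul_sum]
    refine Finset.sum_congr rfl fun i _ => ?_
    simp [mul_pow]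
  have h0 : 0 ≤ QF x ξ := Finset.sum_nonneg fun i _ => sq_nonneg _
  rw [h1, charFunDual_law, charFun_gaussianReal, hQ, Real.coe_toNNReal _ h0]
  congr 1
  push_cast
  ring

theorem isGaussian_law [MeasurableSpace E] [BorelSpace E] {ι : Type} [Fintype ι] (x : ι → E) :
    IsGaussian (law x) :=
  isGaussian_of_map_eq_gaussianReal fun ξ => ⟨0, (QF x ξ).toNNReal, law_map x ξ⟩

theorem mean_law [MeasurableSpace E] [BorelSpace E] {ι : Type} [Fintype ι] (x : ι → E) :
    ∫ z, z ∂(law x) = 0 := by
  have := isGaussian_law x
  have : CompleteSpace E := FiniteDimensional.complete ℝ E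
  have : ProperSpace E := FiniteDimensional.proper_real E
  have : SecondCountableTopology E := secondCountable_of_proper
  have hint : Integrable (fun z : E => z) (law x) := IsGaussian.integrable_id
  refine SeparatingDual.eq_zero_of_forall_dual_eq_zero (R := ℝ) fun ξ => ?_
  rw [← ContinuousLinearMap.integral_comp_comm ξ hint]
  have h1 : ∫ z, ξ z ∂(law x) = ∫ t, t ∂((law x).map ξ) := by
    rw [integral_map ξ.continuous.measurable.aemeasurable (by fun_prop)]
  rw [h1, law_map, integral_id_gaussianReal]

theorem var_law [MeasurableSpace E] [BorelSpace E] {ι : Type} [Fintype ι] (x : ι → E)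
    (ξ : E →L[ℝ] ℝ) : Var[ξ; law x] = QF x ξ := by
  have h0 : 0 ≤ QF x ξ := Finset.sum_nonneg fun i _ => sq_nonneg _
  rw [← variance_id_map ξ.continuous.measurable.aemeasurable, law_map,
    variance_id_gaussianReal, Real.coe_toNNReal _ h0]

/-- Gaussian integral: `∫ exp (s ξ(z)) d law = exp (s² QF x ξ / 2)`. -/
theorem integral_exp_law [MeasurableSpace E] [BorelSpace E] {ι : Type} [Fintype ι] (x : ι → E)
    (ξ : E →L[ℝ] ℝ) (s : ℝ) :
    Integrable (fun z => Real.exp (s * ξ z)) (law x) ∧
    ∫ z, Real.exp (s * ξ z) ∂(law x) = Real.exp (s ^ 2 * QF x ξ / 2) := by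
  have h0 : 0 ≤ QF x ξ := Finset.sum_nonneg fun i _ => sq_nonneg _
  constructor
  · have h := integrable_exp_mul_gaussianReal (μ := 0) (v := (QF x ξ).toNNReal) s
    rw [← law_map x ξ] at h
    exact (integrable_map_measure h.aestronglyMeasurable
      ξ.continuous.measurable.aemeasurable).mp h
  · have h := mgf_gaussianReal (law_map x ξ) s
    rw [mgf] at h
    rw [h, Real.coe_toNNReal _ h0]
    congr 1
    ring

theorem law_congr [MeasurableSpace E] [BorelSpace E] {ι κ : Type} [Fintype ι] [Fintype κ]
    {x : ι → E} {y : κ → E} (h : ∀ ξ, QF x ξ = QF y ξ) : law x = law y := by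
  have := isProbabilityMeasure_law x
  have := isProbabilityMeasure_law y
  have : CompleteSpace E := FiniteDimensional.complete ℝ E
  have : ProperSpace E := FiniteDimensional.proper_real E
  have : SecondCountableTopology E := secondCountable_of_proper
  refine Measure.ext_of_charFunDual (funext fun ξ => ?_)
  rw [charFunDual_law, charFunDual_law, h ξ]

theorem ell_eq_law [MeasurableSpace E] [BorelSpace E] {ι : Type} [Fintype ι] (x : ι → E) :
    ell x = ∫ z, ‖z‖ ∂(law x) := by
  have : ProperSpace E := FiniteDimensional.proper_real E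
  have : SecondCountableTopology E := secondCountable_of_proper
  unfold law
  rw [integral_map (law_measurable x).aemeasurable
    continuous_norm.aestronglyMeasurable]
  rfl

theorem ell_congr {ι κ : Type} [Fintype ι] [Fintype κ]
    {x : ι → E} {y : κ → E} (h : ∀ ξ, QF x ξ = QF y ξ) : ell x = ell y := by
  letI : MeasurableSpace E := borel E
  have : BorelSpace E := ⟨rfl⟩
  rw [ell_eq_law, ell_eq_law, law_congr h]

end Pool.Agent.helper75.Pel
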