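import Pool.Agent.helper75.Pel.Dom

/-!
# Block : the block norm `bN y β a = ell ((a_{β i} y_i)_i)`

Everything follows from `ell_add_le`, `ell_smul`, `ell_mono` (forms).
`bN_mono`: `QF ((a_{β i} y_i)) ξ = ∑ a_{β i}² ξ(y_i)²`.
-/

namespace Pool.Agent.helper75.Pel
open MeasureTheory ProbabilityTheory

universe u
variable {E : Type u} [NormedAddCommGroup E] [NormedSpace ℝ E] [FiniteDimensional ℝ E]
variable {ι κ : Type} [Fintype ι]

theorem bN_nonneg (y : ι → E) (β : ι → κ) (a : κ → ℝ) : 0 ≤ bN y β a := ell_nonneg _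

theorem bN_add_le (y : ι → E) (β : ι → κ) (a b : κ → ℝ) :
    bN y β (a + b) ≤ bN y β a + bN y β b := by
  have h : bN y β (a + b) = ell (fun i => a (β i) • y i + b (β i) • y i) := by
    unfold bN
    congr 1
    funext i
    rw [Pi.add_apply, add_smul]
  rw [h]
  exact ell_add_le _ _

theorem bN_smul (y : ι → E) (β : ι → κ) (c : ℝ) (a : κ → ℝ) : bN y β (c • a) = |c| * bN y β a := by
  have h : bN y β (c • a) = ell (fun i => c • (a (β i) • y i)) := by
    unfold bN
    congr 1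
    funext i
    rw [Pi.smul_apply, smul_smul, smul_eq_mul]
  rw [h, ell_smul]
  rfl

theorem bN_mono (y : ι → E) (β : ι → κ) {a b : κ → ℝ} (h : ∀ j, |a j| ≤ |b j|) :
    bN y β a ≤ bN y β b := by
  refine ell_mono fun ξ => ?_
  unfold QF
  refine Finset.sum_le_sum fun i _ => ?_
  rw [map_smul, map_smul, smul_eq_mul, smul_eq_mul, mul_pow, mul_pow]
  exact mul_le_mul_of_nonneg_right (sq_le_sq.2 (h (β i))) (sq_nonneg _)

theorem bN_sub_le (y : ι → E) (β : ι → κ) (a b : κ → ℝ) :
    |bN y β a - bN y β b| ≤ bN y β (a - b) := by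
  have h1 := bN_add_le y β (a - b) b
  have h2 := bN_add_le y β (b - a) a
  have h3 : bN y β (b - a) = bN y β (a - b) := by
    have : b - a = (-1 : ℝ) • (a - b) := by rw [neg_smul, one_smul, neg_sub]
    rw [this, bN_smul, abs_neg, abs_one, one_mul]
  rw [sub_add_cancel] at h1 h2
  rw [abs_le]
  constructor <;> linarith

theorem bN_coord_le [DecidableEq κ] (y : ι → E) (β : ι → κ) (a : κ → ℝ) (j : κ) :
    |a j| * bN y β (Pi.single j 1) ≤ bN y β a := by
  rw [← bN_smul]
  refine bN_mono y β fun k => ?_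
  rw [Pi.smul_apply, smul_eq_mul]
  by_cases hk : k = j
  · subst hk
    rw [Pi.single_eq_same, mul_one]
  · rw [Pi.single_eq_of_ne hk, mul_zero, abs_zero]
    exact abs_nonneg _

omit [FiniteDimensional ℝ E] in
theorem Block_bN_zero (y : ι → E) (β : ι → κ) : bN y β 0 = 0 := by
  unfold bN ell
  simp

theorem Block_bN_sum_le {J : Type*} (y : ι → E) (β : ι → κ) (s : Finset J) (f : J → κ → ℝ) :
    bN y β (∑ j ∈ s, f j) ≤ ∑ j ∈ s, bN y β (f j) := by
  classical
  induction s using Finset.induction_on with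
  | empty => rw [Finset.sum_empty, Finset.sum_empty, Block_bN_zero]
  | insert j s hj ih =>
    rw [Finset.sum_insert hj, Finset.sum_insert hj]
    exact (bN_add_le y β _ _).trans (add_le_add le_rfl ih)

theorem bN_le_sum [Fintype κ] [DecidableEq κ] (y : ι → E) (β : ι → κ) (a : κ → ℝ) :
    bN y β a ≤ ∑ j, |a j| * bN y β (Pi.single j 1) := by
  have h : a = ∑ j, a j • (Pi.single j (1 : ℝ) : κ → ℝ) := by
    funext k
    rw [Finset.sum_apply, Finset.sum_eq_single k]
    · rw [Pi.smul_apply, Pi.single_eq_same, smul_eq_mul, mul_one]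
    · intro j _ hj
      rw [Pi.smul_apply, Pi.single_eq_of_ne (Ne.symm hj), smul_zero]
    · intro hk; exact absurd (Finset.mem_univ k) hk
  calc bN y β a = bN y β (∑ j, a j • (Pi.single j (1 : ℝ) : κ → ℝ)) := by rw [← h]
    _ ≤ ∑ j, bN y β (a j • (Pi.single j (1 : ℝ) : κ → ℝ)) := Block_bN_sum_le y β _ _
    _ = ∑ j, |a j| * bN y β (Pi.single j 1) := Finset.sum_congr rfl fun j _ => bN_smul y β _ _

theorem bN_one (y : ι → E) (β : ι → κ) : bN y β (fun _ => 1) = ell y := by
  unfold bN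
  congr 1
  funext i
  exact one_smul _ _

/-- The norm of a block is `ell` of the restricted family. -/
theorem bN_single [DecidableEq κ] (y : ι → E) (β : ι → κ) (j : κ) :
    bN y β (Pi.single j 1) = ell (fun i : {i // β i = j} => y i) := by
  refine ell_congr fun ξ => ?_
  unfold QF
  rw [← Finset.sum_subtype (Finset.univ.filter fun i => β i = j) (by simp)
    (fun i => (ξ (y i)) ^ 2), Finset.sum_filter]
  refine Finset.sum_congr rfl fun i _ => ?_
  rw [map_smul, smul_eq_mul]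
  by_cases h : β i = j
  · rw [if_pos h, h, Pi.single_eq_same, one_mul]
  · rw [if_neg h, Pi.single_eq_of_ne h, zero_mul]
    norm_num

/-- The weighted family has operator bound `M σ` if `|a_j| ≤ M`. -/
theorem opB_weighted {y : ι → E} {σ : ℝ} (hσ : 0 ≤ σ) (h : OpB y σ) (β : ι → κ) {a : κ → ℝ} {M : ℝ}
    (hM : ∀ j, |a j| ≤ M) : OpB (fun i => a (β i) • y i) (M * σ) := by
  intro c
  rcases isEmpty_or_nonempty ι with hι | ⟨⟨i0⟩⟩
  · simp
  · have hM0 : 0 ≤ M := (abs_nonneg _).trans (hM (β i0))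
    have h1 := h (fun i => c i * a (β i))
    have h2 : ∑ i, c i • a (β i) • y i = ∑ i, (c i * a (β i)) • y i :=
      Finset.sum_congr rfl fun i _ => smul_smul _ _ _
    have h3 : Real.sqrt (∑ i, (c i * a (β i)) ^ 2) ≤ M * Real.sqrt (∑ i, c i ^ 2) := by
      rw [← Real.sqrt_sq hM0, ← Real.sqrt_mul (sq_nonneg M)]
      refine Real.sqrt_le_sqrt ?_
      rw [Finset.mul_sum]
      refine Finset.sum_le_sum fun i _ => ?_
      rw [mul_pow, mul_comm (c i ^ 2)]
      refine mul_le_mul_of_nonneg_right ?_ (sq_nonneg _)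
      rw [← sq_abs (a (β i))]
      exact pow_le_pow_left₀ (abs_nonneg _) (hM (β i)) 2
    show ‖∑ i, c i • a (β i) • y i‖ ≤ M * σ * Real.sqrt (∑ i, c i ^ 2)
    rw [h2]
    calc ‖∑ i, (c i * a (β i)) • y i‖ ≤ σ * Real.sqrt (∑ i, (c i * a (β i)) ^ 2) := h1
      _ ≤ σ * (M * Real.sqrt (∑ i, c i ^ 2)) := mul_le_mul_of_nonneg_left h3 hσ
      _ = M * σ * Real.sqrt (∑ i, c i ^ 2) := by ring

end Pool.Agent.helper75.Pel
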