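import Pool.Agent.helper75.Pel.Greedy

/-!
# BlockDec : removing a subspace from all blocks

`ℝ^{k×q}` is the sum of the blocks `ℝ^q` (`j : Fin k`).  `v_1..v_m` given vectors.
For each `j` let `V_j ⊂ EuclideanSpace ℝ (Fin q)` be the span of the restrictions `t ↦ v_i(j,t)`
(`dim ≤ m`), take orthonormal bases of `V_j` (`stdOrthonormalBasis`, `finrank ≤ m` elements) and of
`V_jᗮ`; extend the vectors by zero to `EuclideanSpace ℝ (Fin k × Fin q)`.  The families over all `j` are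
`w` (at most `k m` vectors) and `b` (with `β` = the block); reindex sigma types by `Fin`.
* `b s ⊥ v i`: `⟪b, v_i⟫` is the inner product of the restriction of `b` with that of `v_i ∈ V_j`.
* forms: for fixed `ξ` let `a_j(t) = ξ(x(j,t))`; `ξ(opx x (b s)) = ⟪a_j, b^j_s⟫`, and
  `|a_j|² = ∑_s ⟪a_j, w^j_s⟫² + ∑_s ⟪a_j, b^j_s⟫²` (Parseval for the orthonormal bases of `V_j`, `V_jᗮ` and
  Pythagoras, `Submodule.norm_sq_eq_add_norm_sq_projection`; or combine the two families to an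
  orthonormal basis).
-/

namespace Pool.Agent.helper75.Pel

universe u
variable {E : Type u} [NormedAddCommGroup E] [NormedSpace ℝ E] [FiniteDimensional ℝ E]

/-- extension by zero from a block -/
noncomputable def BlockDec_ext {k q : ℕ} (j : Fin k) (u : EuclideanSpace ℝ (Fin q)) :
    EuclideanSpace ℝ (Fin k × Fin q) :=
  WithLp.toLp 2 (fun p => if p.1 = j then u p.2 else 0)

/-- restriction to a block -/
noncomputable def BlockDec_res {k q : ℕ} (j : Fin k) (v : EuclideanSpace ℝ (Fin k × Fin q)) :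
    EuclideanSpace ℝ (Fin q) :=
  WithLp.toLp 2 (fun t => v (j, t))

theorem BlockDec_inner_ext {k q : ℕ} (j : Fin k) (u : EuclideanSpace ℝ (Fin q))
    (v : EuclideanSpace ℝ (Fin k × Fin q)) :
    inner ℝ v (BlockDec_ext j u) = inner ℝ (BlockDec_res j v) u := by
  rw [PiLp.inner_apply, PiLp.inner_apply, Fintype.sum_prod_type, Finset.sum_eq_single j]
  · refine Finset.sum_congr rfl (fun t _ => ?_)
    simp [BlockDec_ext, BlockDec_res]
  · intro i _ hi
    refine Finset.sum_eq_zero (fun t _ => ?_)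
    simp [BlockDec_ext, hi]
  · intro h
    exact absurd (Finset.mem_univ j) h

theorem BlockDec_res_ext_self {k q : ℕ} (j : Fin k) (u : EuclideanSpace ℝ (Fin q)) :
    BlockDec_res j (BlockDec_ext j u) = u := by
  ext t
  simp [BlockDec_res, BlockDec_ext]

theorem BlockDec_res_ext_ne {k q : ℕ} {i j : Fin k} (h : i ≠ j) (u : EuclideanSpace ℝ (Fin q)) :
    BlockDec_res i (BlockDec_ext j u) = 0 := by
  ext t
  simp [BlockDec_res, BlockDec_ext, h]

theorem BlockDec_orth {k q : ℕ} {n : Fin k → ℕ} (f : ∀ j, Fin (n j) → EuclideanSpace ℝ (Fin q))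
    (hf : ∀ j, Orthonormal ℝ (f j)) :
    Orthonormal ℝ (fun s : (j : Fin k) × Fin (n j) => BlockDec_ext s.1 (f s.1 s.2)) := by
  classical
  rw [orthonormal_iff_ite]
  rintro ⟨i, a⟩ ⟨j, b⟩
  rw [BlockDec_inner_ext]
  by_cases hij : i = j
  · subst hij
    rw [BlockDec_res_ext_self, (orthonormal_iff_ite.mp (hf i)) a b]
    by_cases hab : a = b
    · subst hab
      simp
    · simp [hab]
  · have h1 : j ≠ i := fun h => hij h.symm
    have h2 : (⟨i, a⟩ : (j : Fin k) × Fin (n j)) ≠ ⟨j, b⟩ := fun h => hij (congrArg Sigma.fst h)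
    rw [BlockDec_res_ext_ne h1, inner_zero_left, if_neg h2]

theorem BlockDec_proj {q : ℕ} (S : Submodule ℝ (EuclideanSpace ℝ (Fin q)))
    (a : EuclideanSpace ℝ (Fin q)) :
    ∑ i, (inner ℝ a ((stdOrthonormalBasis ℝ S i : S) : EuclideanSpace ℝ (Fin q))) ^ 2
      = ‖S.orthogonalProjectionOnto a‖ ^ 2 := by
  rw [← (stdOrthonormalBasis ℝ S).sum_sq_inner_left (S.orthogonalProjectionOnto a)]
  refine Finset.sum_congr rfl (fun i _ => ?_)
  rw [Submodule.inner_orthogonalProjectionOnto_eq_of_mem_right]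

theorem block_decomp {k q m : ℕ} (x : Fin k × Fin q → E)
    (v : Fin m → EuclideanSpace ℝ (Fin k × Fin q)) :
    ∃ (d : ℕ) (w : Fin d → EuclideanSpace ℝ (Fin k × Fin q)) (r : ℕ)
      (b : Fin r → EuclideanSpace ℝ (Fin k × Fin q)) (β : Fin r → Fin k),
      d ≤ k * m ∧ Orthonormal ℝ w ∧ Orthonormal ℝ b ∧ (∀ s i, inner ℝ (v i) (b s) = 0) ∧
      (∀ ξ : E →L[ℝ] ℝ, QF x ξ = QF (fun s => opx x (w s)) ξ + QF (fun s => opx x (b s)) ξ) ∧
      (∀ (j : Fin k) (ξ : E →L[ℝ] ℝ), ∑ s with β s = j, (ξ (opx x (b s))) ^ 2 ≤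
        ∑ t, (ξ (x (j, t))) ^ 2) := by
  classical
  -- the subspaces
  let V : Fin k → Submodule ℝ (EuclideanSpace ℝ (Fin q)) :=
    fun j => Submodule.span ℝ (Set.range fun i => BlockDec_res j (v i))
  let n1 : Fin k → ℕ := fun j => Module.finrank ℝ (V j)
  let n2 : Fin k → ℕ := fun j => Module.finrank ℝ ((V j)ᗮ : Submodule ℝ _)
  let f1 : ∀ j, Fin (n1 j) → EuclideanSpace ℝ (Fin q) :=
    fun j i => ((stdOrthonormalBasis ℝ (V j) i : V j) : EuclideanSpace ℝ (Fin q))
  let f2 : ∀ j, Fin (n2 j) → EuclideanSpace ℝ (Fin q) :=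
    fun j i => ((stdOrthonormalBasis ℝ ((V j)ᗮ : Submodule ℝ _) i :
      ((V j)ᗮ : Submodule ℝ _)) : EuclideanSpace ℝ (Fin q))
  have hf1 : ∀ j, Orthonormal ℝ (f1 j) := fun j =>
    (stdOrthonormalBasis ℝ (V j)).orthonormal.comp_linearIsometry (V j).subtypeₗᵢ
  have hf2 : ∀ j, Orthonormal ℝ (f2 j) := fun j =>
    (stdOrthonormalBasis ℝ ((V j)ᗮ : Submodule ℝ _)).orthonormal.comp_linearIsometry
      ((V j)ᗮ : Submodule ℝ _).subtypeₗᵢ
  let e1 := Fintype.equivFin ((j : Fin k) × Fin (n1 j))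
  let e2 := Fintype.equivFin ((j : Fin k) × Fin (n2 j))
  -- the values of the functionals
  let a : (E →L[ℝ] ℝ) → Fin k → EuclideanSpace ℝ (Fin q) :=
    fun ξ j => WithLp.toLp 2 (fun t => ξ (x (j, t)))
  have hval : ∀ (ξ : E →L[ℝ] ℝ) (j : Fin k) (u : EuclideanSpace ℝ (Fin q)),
      ξ (opx x (BlockDec_ext j u)) = inner ℝ (a ξ j) u := by
    intro ξ j u
    rw [map_opx, BlockDec_inner_ext]
    rfl
  have ha : ∀ (ξ : E →L[ℝ] ℝ) (j : Fin k), ‖a ξ j‖ ^ 2 = ∑ t, (ξ (x (j, t))) ^ 2 := by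
    intro ξ j
    rw [EuclideanSpace.real_norm_sq_eq]
  refine ⟨_, fun s => BlockDec_ext (e1.symm s).1 (f1 (e1.symm s).1 (e1.symm s).2), _,
    fun s => BlockDec_ext (e2.symm s).1 (f2 (e2.symm s).1 (e2.symm s).2),
    fun s => (e2.symm s).1, ?_, ?_, ?_, ?_, ?_, ?_⟩
  · have h1 : Fintype.card ((j : Fin k) × Fin (n1 j)) = ∑ j, n1 j := by
      simp [Fintype.card_sigma]
    have h2 : ∀ j, n1 j ≤ m := by
      intro j
      have h3 := finrank_range_le_card (R := ℝ) (fun i : Fin m => BlockDec_res j (v i))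
      rw [Fintype.card_fin] at h3
      exact h3
    rw [h1]
    calc ∑ j, n1 j ≤ ∑ _j : Fin k, m := Finset.sum_le_sum (fun j _ => h2 j)
      _ = k * m := by simp
  · exact (BlockDec_orth f1 hf1).comp e1.symm e1.symm.injective
  · exact (BlockDec_orth f2 hf2).comp e2.symm e2.symm.injective
  · intro s i
    rw [BlockDec_inner_ext]
    have h1 : BlockDec_res (e2.symm s).1 (v i) ∈ V (e2.symm s).1 :=
      Submodule.subset_span ⟨i, rfl⟩
    exact Submodule.inner_right_of_mem_orthogonal h1 (Subtype.coe_prop _)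
  · intro ξ
    have h1 : QF (fun s => opx x (BlockDec_ext (e1.symm s).1 (f1 (e1.symm s).1 (e1.symm s).2))) ξ
        = ∑ j, ‖(V j).orthogonalProjectionOnto (a ξ j)‖ ^ 2 := by
      unfold QF
      rw [Equiv.sum_comp e1.symm (fun s : (j : Fin k) × Fin (n1 j) =>
        (ξ (opx x (BlockDec_ext s.1 (f1 s.1 s.2)))) ^ 2), Fintype.sum_sigma]
      refine Finset.sum_congr rfl (fun j _ => ?_)
      rw [← BlockDec_proj]
      refine Finset.sum_congr rfl (fun i _ => ?_)
      rw [hval]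
    have h2 : QF (fun s => opx x (BlockDec_ext (e2.symm s).1 (f2 (e2.symm s).1 (e2.symm s).2))) ξ
        = ∑ j, ‖((V j)ᗮ : Submodule ℝ _).orthogonalProjectionOnto (a ξ j)‖ ^ 2 := by
      unfold QF
      rw [Equiv.sum_comp e2.symm (fun s : (j : Fin k) × Fin (n2 j) =>
        (ξ (opx x (BlockDec_ext s.1 (f2 s.1 s.2)))) ^ 2), Fintype.sum_sigma]
      refine Finset.sum_congr rfl (fun j _ => ?_)
      rw [← BlockDec_proj]
      refine Finset.sum_congr rfl (fun i _ => ?_)
      rw [hval]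
    have h3 : QF x ξ = ∑ j, ‖a ξ j‖ ^ 2 := by
      unfold QF
      rw [Fintype.sum_prod_type]
      exact Finset.sum_congr rfl (fun j _ => (ha ξ j).symm)
    rw [h1, h2, h3, ← Finset.sum_add_distrib]
    exact Finset.sum_congr rfl (fun j _ =>
      Submodule.norm_sq_eq_add_norm_sq_projection (a ξ j) (V j))
  · intro j ξ
    have h1 : ∑ s with (e2.symm s).1 = j,
        (ξ (opx x (BlockDec_ext (e2.symm s).1 (f2 (e2.symm s).1 (e2.symm s).2)))) ^ 2
        = ‖((V j)ᗮ : Submodule ℝ _).orthogonalProjectionOnto (a ξ j)‖ ^ 2 := by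
      rw [Finset.sum_filter, Equiv.sum_comp e2.symm (fun s : (j : Fin k) × Fin (n2 j) =>
        if s.1 = j then (ξ (opx x (BlockDec_ext s.1 (f2 s.1 s.2)))) ^ 2 else 0),
        Fintype.sum_sigma, Finset.sum_eq_single j]
      · rw [← BlockDec_proj]
        refine Finset.sum_congr rfl (fun i _ => ?_)
        rw [if_pos rfl, hval]
      · intro i _ hi
        refine Finset.sum_eq_zero (fun t _ => ?_)
        rw [if_neg hi]
      · intro h
        exact absurd (Finset.mem_univ j) h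
    rw [h1, ← ha ξ j, Submodule.norm_sq_eq_add_norm_sq_projection (a ξ j) (V j)]
    nlinarith [sq_nonneg ‖(V j).orthogonalProjectionOnto (a ξ j)‖]

end Pool.Agent.helper75.Pel
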