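import Pool.Agent.helper75.Pel.Defs

/-!
# Carath : Caratheodory for covariance forms

`n = finrank E`, `b` a basis of `E`; to `u ∈ E` with coordinates `u_a` associate the matrix `(u_a u_b)` in
`Matrix (Fin n) (Fin n) ℝ` (dimension `n²`).  Let `S = ∑‖x_i‖² > 0` (else all `x_i = 0`, take `N = 0`).
The matrix of `x`, divided by `S`, is the convex combination with weights `‖x_i‖²/S` of the
matrices of `x_i/‖x_i‖` (`x_i ≠ 0`), so by Caratheodory
(`eq_pos_convex_span_of_mem_convexHull`, `AffineIndependent.card_le_finrank_succ`) it is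
`∑_{k<N} λ_k (u_k ⊗ u_k)` with `‖u_k‖ = 1`, `λ_k > 0`, `∑ λ_k = 1`, `N ≤ n² + 1`.  Take
`x'_k = √(S λ_k) u_k`: `QF x' ξ = ∑_{a,b} (matrix)_{ab} ξ(b_a) ξ(b_b) = QF x ξ`, `∑‖x'_k‖² = S`.
-/

namespace Pool.Agent.helper75.Pel

universe u
variable {E : Type u} [NormedAddCommGroup E] [NormedSpace ℝ E] [FiniteDimensional ℝ E]

/-- the matrix of the square of a vector -/
private noncomputable def Carath_T (u : E) : Fin (Module.finrank ℝ E) × Fin (Module.finrank ℝ E) → ℝ :=
  fun p => (Module.finBasis ℝ E).repr u p.1 * (Module.finBasis ℝ E).repr u p.2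

private theorem Carath_smul (a : ℝ) (u : E) : Carath_T (a • u) = a ^ 2 • Carath_T u := by
  funext p
  simp only [Carath_T, map_smul, Finsupp.smul_apply, smul_eq_mul, Pi.smul_apply]
  ring

private theorem Carath_eval (ξ : E →L[ℝ] ℝ) (u : E) :
    ∑ p, Carath_T u p * (ξ (Module.finBasis ℝ E p.1) * ξ (Module.finBasis ℝ E p.2)) = ξ u ^ 2 := by
  have h1 : ξ u = ∑ a, (Module.finBasis ℝ E).repr u a * ξ (Module.finBasis ℝ E a) := by
    have h2 : ξ u = ξ (∑ a, (Module.finBasis ℝ E).repr u a • Module.finBasis ℝ E a) := by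
      rw [(Module.finBasis ℝ E).sum_repr u]
    rw [h2, map_sum]
    exact Finset.sum_congr rfl fun a _ => by rw [map_smul, smul_eq_mul]
  rw [h1, sq, Finset.sum_mul_sum, Fintype.sum_prod_type]
  refine Finset.sum_congr rfl fun a _ => Finset.sum_congr rfl fun b _ => ?_
  simp only [Carath_T]
  ring

theorem carath {ι : Type} [Fintype ι] (x : ι → E) :
    ∃ (N : ℕ) (x' : Fin N → E), N ≤ (Module.finrank ℝ E) ^ 2 + 1 ∧
      (∀ ξ, QF x' ξ = QF x ξ) ∧ ∑ i, ‖x' i‖ ^ 2 = ∑ i, ‖x i‖ ^ 2 := by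
  classical
  obtain ⟨S, hS⟩ : ∃ S : ℝ, S = ∑ i, ‖x i‖ ^ 2 := ⟨_, rfl⟩
  have hS0 : 0 ≤ S := by rw [hS]; positivity
  rcases hS0.eq_or_lt with h0 | hSpos
  · have hx : ∀ i, x i = 0 := by
      intro i
      have h1 : ‖x i‖ ^ 2 = 0 := by
        rw [← h0] at hS
        exact (Finset.sum_eq_zero_iff_of_nonneg (fun i _ => by positivity)).1 hS.symm i
          (Finset.mem_univ i)
      exact norm_eq_zero.1 (by simpa using h1)
    refine ⟨0, fun i => Fin.elim0 i, by omega, fun ξ => ?_, ?_⟩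
    · simp [QF, hx]
    · simp [hx]
  -- the point of the convex hull
  obtain ⟨P, hP⟩ : ∃ P : Fin (Module.finrank ℝ E) × Fin (Module.finrank ℝ E) → ℝ,
      P = S⁻¹ • ∑ i, Carath_T (x i) := ⟨_, rfl⟩
  have hmem : P ∈ convexHull ℝ (Carath_T '' {u : E | ‖u‖ = 1}) := by
    have h1 : P = ∑ i ∈ Finset.univ.filter (fun i => x i ≠ 0),
        (‖x i‖ ^ 2 / S) • Carath_T (‖x i‖⁻¹ • x i) := by
      rw [hP, Finset.smul_sum, Finset.sum_filter]
      refine Finset.sum_congr rfl fun i _ => ?_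
      by_cases hi : x i = 0
      · have h2 : Carath_T (0 : E) = 0 := by
          funext p
          simp [Carath_T]
        simp [hi, h2]
      · rw [if_pos hi, Carath_smul, smul_smul]
        have hn : ‖x i‖ ≠ 0 := norm_ne_zero_iff.2 hi
        congr 1
        field_simp
    rw [h1]
    refine (convex_convexHull ℝ _).sum_mem (fun i _ => by positivity) ?_ fun i hi => ?_
    · rw [← Finset.sum_div, Finset.sum_filter]
      have h2 : (∑ i, if x i ≠ 0 then ‖x i‖ ^ 2 else 0) = S := by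
        rw [hS]
        refine Finset.sum_congr rfl fun i _ => ?_
        by_cases hi : x i = 0
        · simp [hi]
        · simp [hi]
      rw [h2, div_self hSpos.ne']
    · refine subset_convexHull ℝ _ ⟨_, ?_, rfl⟩
      have hn : ‖x i‖ ≠ 0 := norm_ne_zero_iff.2 (Finset.mem_filter.1 hi).2
      show ‖‖x i‖⁻¹ • x i‖ = 1
      rw [norm_smul, norm_inv, norm_norm, inv_mul_cancel₀ hn]
  obtain ⟨κ, hκ, z, w, hz, hind, hw, hw1, hwz⟩ := eq_pos_convex_span_of_mem_convexHull hmem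
  have hcard : Fintype.card κ ≤ (Module.finrank ℝ E) ^ 2 + 1 := by
    have h1 := hind.card_le_finrank_succ
    have h2 : Module.finrank ℝ (vectorSpan ℝ (Set.range z)) ≤
        Module.finrank ℝ (Fin (Module.finrank ℝ E) × Fin (Module.finrank ℝ E) → ℝ) :=
      Submodule.finrank_le _
    rw [Module.finrank_fintype_fun_eq_card, Fintype.card_prod, Fintype.card_fin] at h2
    rw [sq]
    omega
  have hu : ∀ k, ∃ u : E, ‖u‖ = 1 ∧ Carath_T u = z k := by
    intro k
    obtain ⟨u, hu1, hu2⟩ := hz ⟨k, rfl⟩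
    exact ⟨u, hu1, hu2⟩
  choose u hu1 hu2 using hu
  obtain ⟨e⟩ : Nonempty (Fin (Fintype.card κ) ≃ κ) := ⟨(Fintype.equivFin κ).symm⟩
  refine ⟨Fintype.card κ, fun k => Real.sqrt (S * w (e k)) • u (e k), hcard, fun ξ => ?_, ?_⟩
  · unfold QF
    have h1 : ∀ k, ξ (Real.sqrt (S * w (e k)) • u (e k)) ^ 2 = S * (w (e k) * ξ (u (e k)) ^ 2) := by
      intro k
      rw [map_smul, smul_eq_mul, mul_pow, Real.sq_sqrt (mul_nonneg hS0 (hw _).le)]
      ring
    rw [Finset.sum_congr rfl fun k _ => h1 k, ← Finset.mul_sum,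
      Equiv.sum_comp e (fun k => w k * ξ (u k) ^ 2)]
    have h2 : ∑ k, w k * ξ (u k) ^ 2 =
        ∑ p, P p * (ξ (Module.finBasis ℝ E p.1) * ξ (Module.finBasis ℝ E p.2)) := by
      rw [← hwz]
      simp only [Finset.sum_apply, Pi.smul_apply, smul_eq_mul, Finset.sum_mul]
      rw [Finset.sum_comm]
      refine Finset.sum_congr rfl fun k _ => ?_
      rw [← Carath_eval, Finset.mul_sum, hu2]
      refine Finset.sum_congr rfl fun p _ => by ring
    rw [h2, hP]
    simp only [Finset.sum_apply, Pi.smul_apply, smul_eq_mul]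
    rw [Finset.mul_sum]
    have h3 : ∀ p : Fin (Module.finrank ℝ E) × Fin (Module.finrank ℝ E),
        S * ((S⁻¹ * ∑ i, Carath_T (x i) p) *
          (ξ (Module.finBasis ℝ E p.1) * ξ (Module.finBasis ℝ E p.2))) =
        ∑ i, Carath_T (x i) p * (ξ (Module.finBasis ℝ E p.1) * ξ (Module.finBasis ℝ E p.2)) := by
      intro p
      rw [← Finset.sum_mul]
      field_simp
    rw [Finset.sum_congr rfl fun p _ => h3 p, Finset.sum_comm]
    exact Finset.sum_congr rfl fun i _ => Carath_eval ξ (x i)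
  · have h1 : ∀ k, ‖Real.sqrt (S * w (e k)) • u (e k)‖ ^ 2 = S * w (e k) := by
      intro k
      rw [norm_smul, hu1, mul_one, Real.norm_eq_abs, sq_abs,
        Real.sq_sqrt (mul_nonneg hS0 (hw _).le)]
    rw [Finset.sum_congr rfl fun k _ => h1 k, ← Finset.mul_sum, Equiv.sum_comp e w, hw1, mul_one, hS]

end Pool.Agent.helper75.Pel
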