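import Pool.Agent.helper75.Pel.Law
import Pool.Agent.helper75.Pel.Ell

/-!
# Dom : domination of covariance forms

If `QF x ≤ QF y` then `QF y - QF x` is a positive semidefinite quadratic form on the dual, hence
`QF y = QF x + QF z` for some finite family `z`.  Proof: take a basis `b` of `E` (`Fin n`,
`n = finrank`), write `x_i = ∑_a X_{ia} b_a`, `y_j = ∑_a Y_{ja} b_a`; the matrix `M = YᵀY - XᵀX` is
positive semidefinite since `vᵀ M v = QF y ξ - QF x ξ` for the functional `ξ` with `ξ(b_a) = v_a`;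
`M = Cᵀ C` (`Matrix.posSemidef_iff_eq_conjTranspose_mul_self` or similar) and `z_k = ∑_a C_{ka} b_a`.
Then `ell x ≤ ell (Sum.elim x z) = ell y` (`ell_le_sumElim`, `ell_congr`, `QF_sumElim`).
-/

namespace Pool.Agent.helper75.Pel
open MeasureTheory ProbabilityTheory

universe u
variable {E : Type u} [NormedAddCommGroup E] [NormedSpace ℝ E] [FiniteDimensional ℝ E]
variable {ι κ μ : Type} [Fintype ι] [Fintype κ] [Fintype μ]

open Matrix in
omit [FiniteDimensional ℝ E] in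
private lemma Dom_QF {n : ℕ} (b : Module.Basis (Fin n) ℝ E) (x : ι → E) (ξ : E →L[ℝ] ℝ) :
    QF x ξ = (fun a => ξ (b a)) ⬝ᵥ
      (((Matrix.of fun i a => b.repr (x i) a)ᵀ * (Matrix.of fun i a => b.repr (x i) a)) *ᵥ
        (fun a => ξ (b a))) := by
  rw [← Matrix.mulVec_mulVec, Matrix.dotProduct_mulVec, Matrix.vecMul_transpose]
  unfold QF dotProduct
  refine Finset.sum_congr rfl fun i _ => ?_
  have h : ξ (x i) = ((Matrix.of fun i a => b.repr (x i) a) *ᵥ (fun a => ξ (b a))) i := by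
    conv_lhs => rw [← b.sum_repr (x i)]
    rw [map_sum]
    simp only [Matrix.mulVec, dotProduct, Matrix.of_apply]
    refine Finset.sum_congr rfl fun a _ => ?_
    rw [map_smul, smul_eq_mul]
  rw [← h]
  ring

open Matrix in
theorem exists_compl_family {x : ι → E} {y : κ → E} (h : ∀ ξ, QF x ξ ≤ QF y ξ) :
    ∃ z : Fin (Module.finrank ℝ E) → E, ∀ ξ, QF y ξ = QF x ξ + QF z ξ := by
  classical
  obtain ⟨b, -⟩ : ∃ b : Module.Basis (Fin (Module.finrank ℝ E)) ℝ E, True :=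
    ⟨Module.finBasis ℝ E, trivial⟩
  obtain ⟨X, hX⟩ : ∃ X : Matrix ι (Fin (Module.finrank ℝ E)) ℝ,
    X = Matrix.of fun i a => b.repr (x i) a := ⟨_, rfl⟩
  obtain ⟨Y, hY⟩ : ∃ Y : Matrix κ (Fin (Module.finrank ℝ E)) ℝ,
    Y = Matrix.of fun i a => b.repr (y i) a := ⟨_, rfl⟩
  have hQx : ∀ ξ : E →L[ℝ] ℝ, QF x ξ = (fun a => ξ (b a)) ⬝ᵥ ((Xᵀ * X) *ᵥ (fun a => ξ (b a))) := by
    intro ξ
    rw [hX]
    exact Dom_QF b x ξ
  have hQy : ∀ ξ : E →L[ℝ] ℝ, QF y ξ = (fun a => ξ (b a)) ⬝ᵥ ((Yᵀ * Y) *ᵥ (fun a => ξ (b a))) := by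
    intro ξ
    rw [hY]
    exact Dom_QF b y ξ
  have hM : (Yᵀ * Y - Xᵀ * X).PosSemidef := by
    refine Matrix.PosSemidef.of_dotProduct_mulVec_nonneg ?_ fun v => ?_
    · refine Matrix.IsHermitian.sub ?_ ?_
      · rw [← Matrix.conjTranspose_eq_transpose_of_trivial]
        exact Matrix.isHermitian_conjTranspose_mul_self Y
      · rw [← Matrix.conjTranspose_eq_transpose_of_trivial]
        exact Matrix.isHermitian_conjTranspose_mul_self X
    · have hv : (fun a => (LinearMap.toContinuousLinearMap (b.constr ℝ v)) (b a)) = v := by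
        funext a
        simp [LinearMap.coe_toContinuousLinearMap']
      have h1 := hQx (LinearMap.toContinuousLinearMap (b.constr ℝ v))
      have h2 := hQy (LinearMap.toContinuousLinearMap (b.constr ℝ v))
      rw [hv] at h1 h2
      have h3 := h (LinearMap.toContinuousLinearMap (b.constr ℝ v))
      rw [h1, h2] at h3
      rw [star_trivial, Matrix.sub_mulVec, dotProduct_sub]
      linarith
  obtain ⟨C, hC⟩ : ∃ C : Matrix (Fin (Module.finrank ℝ E)) (Fin (Module.finrank ℝ E)) ℝ,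
      Yᵀ * Y - Xᵀ * X = Cᵀ * C := by
    open scoped MatrixOrder in
    obtain ⟨B, hB⟩ := CStarAlgebra.nonneg_iff_eq_star_mul_self.mp hM.nonneg
    exact ⟨B, by rw [hB, Matrix.star_eq_conjTranspose, Matrix.conjTranspose_eq_transpose_of_trivial]⟩
  refine ⟨fun k => ∑ a, C k a • b a, fun ξ => ?_⟩
  have hz : (Matrix.of fun k a => b.repr (∑ a, C k a • b a) a) = C := by
    ext k a
    simp [Matrix.of_apply, map_sum, map_smul, Finsupp.single_apply]
  have hQz := Dom_QF b (fun k => ∑ a, C k a • b a) ξ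
  rw [hz] at hQz
  rw [hQx, hQy, hQz, ← dotProduct_add, ← Matrix.add_mulVec, ← hC, add_sub_cancel]

theorem ell_mono {x : ι → E} {y : κ → E} (h : ∀ ξ, QF x ξ ≤ QF y ξ) : ell x ≤ ell y := by
  obtain ⟨z, hz⟩ := exists_compl_family h
  have h1 : ell y = ell (Sum.elim x z) := ell_congr fun ξ => by rw [hz, QF_sumElim]
  rw [h1]
  exact ell_le_sumElim x z

/-- Subadditivity in the form. -/
theorem ell_le_add {z : μ → E} {x : ι → E} {y : κ → E} (h : ∀ ξ, QF z ξ ≤ QF x ξ + QF y ξ) :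
    ell z ≤ ell x + ell y :=
  (ell_mono (y := Sum.elim x y) fun ξ => by rw [QF_sumElim]; exact h ξ).trans (ell_sumElim_le x y)

/-- Scaling in the form: `QF x ≤ c² QF y` gives `ell x ≤ c ell y`. -/
theorem ell_le_mul {x : ι → E} {y : κ → E} {c : ℝ} (hc : 0 ≤ c)
    (h : ∀ ξ, QF x ξ ≤ c ^ 2 * QF y ξ) : ell x ≤ c * ell y := by
  have h1 := ell_smul c y
  rw [abs_of_nonneg hc] at h1
  rw [← h1]
  refine ell_mono fun ξ => (h ξ).trans (le_of_eq ?_)
  unfold QF
  rw [Finset.mul_sum]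
  refine Finset.sum_congr rfl fun i _ => ?_
  simp only [map_smul, smul_eq_mul]
  ring

private lemma Dom_sqrt_sq {a : ℝ} {b : ℝ} (hb : 0 ≤ b) (h : a ≤ b ^ 2) :
    Real.sqrt a ≤ b := by
  have := Real.sqrt_le_sqrt h
  rwa [Real.sqrt_sq hb] at this

/-- Operator bound from the form: `∑ ξ(x_i)² ≤ σ² ‖ξ‖²` for all `ξ` gives `OpB x σ` (norming
functional of `∑ c_i x_i`, Cauchy-Schwarz), and conversely (take `c_i = ξ(x_i)`). -/
theorem opB_iff {x : ι → E} {σ : ℝ} (hσ : 0 ≤ σ) :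
    OpB x σ ↔ ∀ ξ : E →L[ℝ] ℝ, QF x ξ ≤ σ ^ 2 * ‖ξ‖ ^ 2 := by
  constructor
  · intro h ξ
    have hQ0 : 0 ≤ QF x ξ := Finset.sum_nonneg fun i _ => sq_nonneg _
    have h1 := h fun i => ξ (x i)
    have h2 : ξ (∑ i, ξ (x i) • x i) = QF x ξ := by
      rw [map_sum]
      unfold QF
      refine Finset.sum_congr rfl fun i _ => ?_
      rw [map_smul, smul_eq_mul]
      ring
    have h3 : QF x ξ ≤ ‖ξ‖ * ‖∑ i, ξ (x i) • x i‖ := by
      rw [← h2]
      exact (le_abs_self _).trans (ξ.le_opNorm _)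
    have h4 : QF x ξ ≤ ‖ξ‖ * (σ * Real.sqrt (QF x ξ)) :=
      h3.trans (mul_le_mul_of_nonneg_left h1 (norm_nonneg _))
    have h5 := Real.sq_sqrt hQ0
    have h6 := Real.sqrt_nonneg (QF x ξ)
    rcases h6.eq_or_lt with h7 | h7
    · rw [← h7] at h5
      rw [← h5]
      have : 0 ≤ σ ^ 2 * ‖ξ‖ ^ 2 := by positivity
      linarith
    · have h8 : Real.sqrt (QF x ξ) ≤ ‖ξ‖ * σ := by
        have : Real.sqrt (QF x ξ) * Real.sqrt (QF x ξ) ≤ (‖ξ‖ * σ) * Real.sqrt (QF x ξ) := by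
          nlinarith
        exact le_of_mul_le_mul_right this h7
      calc QF x ξ = Real.sqrt (QF x ξ) ^ 2 := h5.symm
        _ ≤ (‖ξ‖ * σ) ^ 2 := pow_le_pow_left₀ h6 h8 2
        _ = σ ^ 2 * ‖ξ‖ ^ 2 := by ring
  · intro h c
    obtain ⟨ξ, hξ1, hξ2⟩ := exists_dual_vector'' ℝ (∑ i, c i • x i)
    have h1 : ‖∑ i, c i • x i‖ = ∑ i, c i * ξ (x i) := by
      have : ξ (∑ i, c i • x i) = ‖∑ i, c i • x i‖ := hξ2
      rw [← this, map_sum]
      exact Finset.sum_congr rfl fun i _ => by rw [map_smul, smul_eq_mul]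
    rw [h1]
    refine (Real.sum_mul_le_sqrt_mul_sqrt _ _ _).trans ?_
    rw [mul_comm]
    refine mul_le_mul_of_nonneg_right ?_ (Real.sqrt_nonneg _)
    refine Dom_sqrt_sq hσ ((h ξ).trans ?_)
    have h2 : ‖ξ‖ ^ 2 ≤ 1 := by
      have := norm_nonneg ξ
      nlinarith
    nlinarith [sq_nonneg σ]

end Pool.Agent.helper75.Pel
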