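import Pool.Agent.helper75.Pel.Greedy
import Pool.Agent.helper75.Pel.Dom

/-!
# ClaimB : the sum of the squares of the norms

`s_i = ‖opx x (o i)‖` (`i : Fin N`, `N = card ι`).
`claimB`: `x_i = ∑_j o_j(i) u_j`, `u_j = opx x (o j)`.  Let `B_k = {j : 2^k ≤ j+1 < 2^{k+1}}`,
`0 ≤ k ≤ log₂ N`.  `‖∑_{j∈B_k} o_j(i) u_j‖ ≤ s_{2^k-1} (∑_{j∈B_k} o_j(i)²)^{1/2}` (greedy property at
`2^k - 1`).  With `m = log₂ N + 1` blocks, Cauchy-Schwarz:
`‖x_i‖² ≤ m ∑_k s_{2^k-1}² ∑_{j∈B_k} o_j(i)²`; sum over `i` (`∑_i o_j(i)² = 1`):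
`∑‖x_i‖² ≤ m ∑_k s_{2^k-1}² |B_k| ≤ m ∑_k 2^k s_{2^k-1}² ≤ m² Λ²`.
-/

namespace Pool.Agent.helper75.Pel

universe u
variable {E : Type u} [NormedAddCommGroup E] [NormedSpace ℝ E] [FiniteDimensional ℝ E]
variable {ι : Type} [Fintype ι]

theorem ClaimB_opx_sum {J : Type*} (s : Finset J) (x : ι → E) (c : J → ℝ)
    (w : J → EuclideanSpace ℝ ι) :
    opx x (∑ j ∈ s, c j • w j) = ∑ j ∈ s, c j • opx x (w j) := by
  classical
  induction s using Finset.induction_on with
  | empty =>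
    rw [Finset.sum_empty, Finset.sum_empty]
    unfold opx
    simp
  | insert j s hj ih =>
    rw [Finset.sum_insert hj, Finset.sum_insert hj, opx_add, opx_smul, ih]

theorem ClaimB_expand (x : ι → E) {N : ℕ} (o : OrthonormalBasis (Fin N) ℝ (EuclideanSpace ℝ ι))
    (i : ι) : x i = ∑ j, o j i • opx x (o j) := by
  classical
  have h1 : opx x (EuclideanSpace.single i (1 : ℝ)) = x i := by
    unfold opx
    rw [Finset.sum_eq_single i]
    · simp
    · intro j _ hj
      simp [hj]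
    · intro h; exact absurd (Finset.mem_univ i) h
  have h2 : EuclideanSpace.single i (1 : ℝ) = ∑ j, o j i • o j := by
    have h := o.sum_repr' (EuclideanSpace.single i (1 : ℝ))
    rw [← h]
    refine Finset.sum_congr rfl fun j _ => ?_
    congr 1
    rw [EuclideanSpace.inner_single_right]
    simp
  rw [← h1, h2, ClaimB_opx_sum]

theorem ClaimB_col {N : ℕ} (o : OrthonormalBasis (Fin N) ℝ (EuclideanSpace ℝ ι)) (j : Fin N) :
    ∑ i, (o j i) ^ 2 = 1 := by
  have h := o.norm_eq_one j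
  rw [EuclideanSpace.norm_eq] at h
  have h2 := congrArg (fun t => t ^ 2) h
  simp only [one_pow] at h2
  rw [Real.sq_sqrt (Finset.sum_nonneg fun i _ => sq_nonneg _)] at h2
  rw [← h2]
  exact Finset.sum_congr rfl fun i _ => by rw [Real.norm_eq_abs, sq_abs]

theorem claimB {x : ι → E} {o : OrthonormalBasis (Fin (Fintype.card ι)) ℝ (EuclideanSpace ℝ ι)}
    (ho : GreedyB x o) {Λ : ℝ} (hΛ0 : 0 ≤ Λ)
    (hΛ : ∀ i : Fin (Fintype.card ι), Real.sqrt ((i : ℝ) + 1) * ‖opx x (o i)‖ ≤ Λ) :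
    ∑ i, ‖x i‖ ^ 2 ≤ ((Nat.log 2 (Fintype.card ι) + 1 : ℕ) : ℝ) ^ 2 * Λ ^ 2 := by
  classical
  rcases Nat.eq_zero_or_pos (Fintype.card ι) with h0 | hpos
  · have : IsEmpty ι := Fintype.card_eq_zero_iff.mp h0
    rw [Finset.univ_eq_empty, Finset.sum_empty]
    positivity
  let κ : Fin (Fintype.card ι) → ℕ := fun j => Nat.log 2 ((j : ℕ) + 1)
  let v : ℕ → ι → E := fun k i => ∑ j with κ j = k, o j i • opx x (o j)
  have hx : ∀ i, x i = ∑ k ∈ Finset.range (Nat.log 2 (Fintype.card ι) + 1), v k i := by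
    intro i
    have h1 := Finset.sum_fiberwise_of_maps_to
      (s := (Finset.univ : Finset (Fin (Fintype.card ι))))
      (t := Finset.range (Nat.log 2 (Fintype.card ι) + 1)) (g := κ) (fun j _ => by
        rw [Finset.mem_range, Nat.lt_succ_iff]
        exact Nat.log_mono_right (by have := j.2; omega))
      (fun j => o j i • opx x (o j))
    rw [ClaimB_expand x o i, ← h1]
  have hv : ∀ k ∈ Finset.range (Nat.log 2 (Fintype.card ι) + 1), ∑ i, ‖v k i‖ ^ 2 ≤ Λ ^ 2 := by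
    intro k hk
    rw [Finset.mem_range, Nat.lt_succ_iff] at hk
    have h2k : 2 ^ k ≤ Fintype.card ι :=
      (Nat.pow_le_pow_right (by norm_num) hk).trans (Nat.pow_log_le_self 2 hpos.ne')
    have h1k : 1 ≤ 2 ^ k := Nat.one_le_two_pow
    set i0 : Fin (Fintype.card ι) := ⟨2 ^ k - 1, by omega⟩ with hi0
    have hb : ∀ i, ‖v k i‖ ^ 2 ≤ ‖opx x (o i0)‖ ^ 2 * ∑ j with κ j = k, (o j i) ^ 2 := by
      intro i
      have h3 := ho i0 (fun j => if κ j = k then o j i else 0) (by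
        intro j hj
        rw [if_neg]
        intro hκ
        have h4 : (j : ℕ) < 2 ^ k - 1 := hj
        have h5 : 2 ^ κ j ≤ (j : ℕ) + 1 := Nat.pow_log_le_self 2 (Nat.succ_ne_zero _)
        rw [hκ] at h5
        omega)
      have h6 : ∑ j, (if κ j = k then o j i else 0) • opx x (o j) = v k i := by
        show _ = ∑ j with κ j = k, o j i • opx x (o j)
        rw [Finset.sum_filter]
        refine Finset.sum_congr rfl fun j _ => ?_
        split_ifs
        · rfl
        · exact zero_smul _ _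
      have h7 : ∑ j, (if κ j = k then o j i else 0) ^ 2 = ∑ j with κ j = k, (o j i) ^ 2 := by
        rw [Finset.sum_filter]
        refine Finset.sum_congr rfl fun j _ => ?_
        split_ifs
        · rfl
        · norm_num
      rw [h6, h7] at h3
      have h8 := pow_le_pow_left₀ (norm_nonneg _) h3 2
      rwa [mul_pow, Real.sq_sqrt (Finset.sum_nonneg fun j _ => sq_nonneg _)] at h8
    have hcard : ((Finset.univ.filter fun j : Fin (Fintype.card ι) => κ j = k).card : ℝ)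
        ≤ 2 ^ k := by
      have h9 : (Finset.univ.filter fun j : Fin (Fintype.card ι) => κ j = k).card
          ≤ (Finset.Ico (2 ^ k) (2 ^ (k + 1))).card := by
        refine Finset.card_le_card_of_injOn (fun j => (j : ℕ) + 1) ?_ ?_
        · intro j hj
          have hj' : κ j = k := by simpa using hj
          have h10 : 2 ^ κ j ≤ (j : ℕ) + 1 := Nat.pow_log_le_self 2 (Nat.succ_ne_zero _)
          have h11 : (j : ℕ) + 1 < 2 ^ (κ j + 1) := Nat.lt_pow_succ_log_self (by norm_num) _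
          rw [hj'] at h10 h11
          simp only [Finset.coe_Ico, Set.mem_Ico]
          exact ⟨h10, h11⟩
        · intro a _ b _ hab
          exact Fin.ext (Nat.succ_injective hab)
      rw [Nat.card_Ico] at h9
      have h12 : 2 ^ (k + 1) - 2 ^ k = 2 ^ k := by rw [pow_succ]; omega
      rw [h12] at h9
      exact_mod_cast h9
    have hΛk := hΛ i0
    have hi0r : ((i0 : ℕ) : ℝ) + 1 = 2 ^ k := by
      rw [hi0]
      have : ((2 ^ k - 1 : ℕ) : ℝ) = 2 ^ k - 1 := by rw [Nat.cast_sub h1k]; push_cast; ring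
      simp only [this]
      ring
    rw [hi0r] at hΛk
    have hΛ2 : 2 ^ k * ‖opx x (o i0)‖ ^ 2 ≤ Λ ^ 2 := by
      have h13 := pow_le_pow_left₀ (by positivity) hΛk 2
      rwa [mul_pow, Real.sq_sqrt (by positivity)] at h13
    calc ∑ i, ‖v k i‖ ^ 2
        ≤ ∑ i, ‖opx x (o i0)‖ ^ 2 * ∑ j with κ j = k, (o j i) ^ 2 :=
          Finset.sum_le_sum fun i _ => hb i
      _ = ‖opx x (o i0)‖ ^ 2 * ∑ j with κ j = k, ∑ i, (o j i) ^ 2 := by
          rw [← Finset.mul_sum, Finset.sum_comm]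
      _ = ‖opx x (o i0)‖ ^ 2 *
            ((Finset.univ.filter fun j : Fin (Fintype.card ι) => κ j = k).card : ℝ) := by
          congr 1
          rw [Finset.sum_congr rfl fun j _ => ClaimB_col o j, Finset.sum_const, nsmul_eq_mul,
            mul_one]
      _ ≤ ‖opx x (o i0)‖ ^ 2 * 2 ^ k := mul_le_mul_of_nonneg_left hcard (sq_nonneg _)
      _ = 2 ^ k * ‖opx x (o i0)‖ ^ 2 := mul_comm _ _
      _ ≤ Λ ^ 2 := hΛ2
  have hmr : (0 : ℝ) ≤ ((Nat.log 2 (Fintype.card ι) + 1 : ℕ) : ℝ) := Nat.cast_nonneg _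
  calc ∑ i, ‖x i‖ ^ 2
      ≤ ∑ i, ((Nat.log 2 (Fintype.card ι) + 1 : ℕ) : ℝ) *
          ∑ k ∈ Finset.range (Nat.log 2 (Fintype.card ι) + 1), ‖v k i‖ ^ 2 := by
        refine Finset.sum_le_sum fun i _ => ?_
        have h14 : ‖x i‖ ≤ ∑ k ∈ Finset.range (Nat.log 2 (Fintype.card ι) + 1), ‖v k i‖ := by
          rw [hx i]; exact norm_sum_le _ _
        have h15 := sq_sum_le_card_mul_sum_sq (s := Finset.range (Nat.log 2 (Fintype.card ι) + 1))
          (f := fun k => ‖v k i‖)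
        rw [Finset.card_range] at h15
        exact (pow_le_pow_left₀ (norm_nonneg _) h14 2).trans h15
    _ = ((Nat.log 2 (Fintype.card ι) + 1 : ℕ) : ℝ) *
          ∑ k ∈ Finset.range (Nat.log 2 (Fintype.card ι) + 1), ∑ i, ‖v k i‖ ^ 2 := by
        rw [← Finset.mul_sum, Finset.sum_comm]
    _ ≤ ((Nat.log 2 (Fintype.card ι) + 1 : ℕ) : ℝ) *
          ∑ k ∈ Finset.range (Nat.log 2 (Fintype.card ι) + 1), Λ ^ 2 :=
        mul_le_mul_of_nonneg_left (Finset.sum_le_sum hv) hmr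
    _ = ((Nat.log 2 (Fintype.card ι) + 1 : ℕ) : ℝ) ^ 2 * Λ ^ 2 := by
        rw [Finset.sum_const, Finset.card_range, nsmul_eq_mul]
        ring

end Pool.Agent.helper75.Pel
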