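import Pool.Agent.helper75.Pel.Defs

/-!
# Gauss : moments of the coordinates of the standard Gaussian measure

`measurePreserving_eval` (the coordinate `i` of `gam ι` has law `gaussianReal 0 1`),
`variance_id_gaussianReal`, `IsGaussian.memLp_id`.  `E|g| ≤ (E g²)^{1/2} = 1`.  `E|g| ≥ 1/2`: compute the
integral (`√(2/π)`), or use `12|t| ≥ 9t² - t⁴` (`s³ - 9s + 12 > 0` for `s ≥ 0`) and `E g⁴ = 3`.
-/

namespace Pool.Agent.helper75.Pel
open MeasureTheory ProbabilityTheory

variable {ι : Type} [Fintype ι]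

private lemma Gauss_mp (i : ι) :
    MeasurePreserving (fun g : ι → ℝ => g i) (gam ι) (gaussianReal 0 1) :=
  measurePreserving_eval (fun _ : ι => gaussianReal 0 1) i

private lemma Gauss_integral (i : ι) {f : ℝ → ℝ} (hf : Continuous f) :
    ∫ g : ι → ℝ, f (g i) ∂(gam ι) = ∫ x, f x ∂(gaussianReal 0 1) := by
  rw [← (Gauss_mp i).map_eq, integral_map (Gauss_mp i).measurable.aemeasurable
    hf.aestronglyMeasurable]

private lemma Gauss_integrable (i : ι) {f : ℝ → ℝ} (hf : Continuous f)
    (h : Integrable f (gaussianReal 0 1)) : Integrable (fun g : ι → ℝ => f (g i)) (gam ι) :=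
  ((Gauss_mp i).integrable_comp hf.aestronglyMeasurable).mpr h

private lemma Gauss_int_id : Integrable (fun x : ℝ => x) (gaussianReal 0 1) :=
  memLp_one_iff_integrable.mp (memLp_id_gaussianReal (μ := 0) (v := 1) 1)

private lemma Gauss_int_sq : Integrable (fun x : ℝ => x ^ 2) (gaussianReal 0 1) := by
  have := (memLp_id_gaussianReal (μ := 0) (v := 1) 2).integrable_sq
  simpa using this

private lemma Gauss_sq : ∫ x : ℝ, x ^ 2 ∂(gaussianReal 0 1) = 1 := by
  have h := variance_fun_id_gaussianReal (μ := 0) (v := 1)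
  rw [variance_of_integral_eq_zero aemeasurable_id' (by simp)] at h
  simpa using h

private lemma Gauss_abs : ∫ x : ℝ, |x| ∂(gaussianReal 0 1)
    = (Real.sqrt (2 * Real.pi))⁻¹ * 2 := by
  rw [integral_gaussianReal_eq_integral_smul one_ne_zero]
  have h1 : ∀ x : ℝ, gaussianPDFReal 0 1 x • |x| = (Real.sqrt (2 * Real.pi))⁻¹ *
      (|x| * Real.exp (-(1 / 2) * |x| ^ 2)) := by
    intro x
    rw [gaussianPDFReal_def, sq_abs, smul_eq_mul]
    beta_reduce
    have : -(x - 0) ^ 2 / (2 * ((1 : NNReal) : ℝ)) = -(1 / 2) * x ^ 2 := by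
      rw [NNReal.coe_one]; ring
    rw [this, NNReal.coe_one, mul_one]
    ring
  simp_rw [h1]
  rw [integral_const_mul]
  congr 1
  rw [integral_comp_abs (f := fun x => x * Real.exp (-(1 / 2) * x ^ 2))]
  have h2 : ∫ x : ℝ in Set.Ioi 0, x * Real.exp (-(1 / 2) * x ^ 2) = 1 := by
    have h3 := integral_mul_cexp_neg_mul_sq (b := (1 / 2 : ℂ)) (by norm_num)
    have h4 : ∫ x : ℝ in Set.Ioi 0, ((x * Real.exp (-(1 / 2) * x ^ 2) : ℝ) : ℂ) = 1 := by
      rw [show (1 : ℂ) = (2 * (1 / 2 : ℂ))⁻¹ by norm_num, ← h3]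
      congr 1
      ext x
      push_cast
      rfl
    rw [integral_complex_ofReal] at h4
    exact_mod_cast h4
  rw [h2, mul_one]

theorem integrable_coord (i : ι) : Integrable (fun g : ι → ℝ => g i) (gam ι) :=
  Gauss_integrable i continuous_id Gauss_int_id

theorem integral_coord (i : ι) : ∫ g : ι → ℝ, g i ∂(gam ι) = 0 := by
  have := Gauss_integral i (f := fun x => x) continuous_id
  rw [this, integral_id_gaussianReal]

theorem integral_sq_coord (i : ι) : Integrable (fun g : ι → ℝ => (g i) ^ 2) (gam ι) ∧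
    ∫ g : ι → ℝ, (g i) ^ 2 ∂(gam ι) = 1 := by
  refine ⟨Gauss_integrable i (f := fun x => x ^ 2) (by fun_prop) Gauss_int_sq, ?_⟩
  have := Gauss_integral i (f := fun x => x ^ 2) (by fun_prop)
  rw [this, Gauss_sq]

theorem integral_abs_coord_le (i : ι) : ∫ g : ι → ℝ, |g i| ∂(gam ι) ≤ 1 := by
  have h := Gauss_integral i (f := fun x => |x|) (by fun_prop)
  rw [h]
  have h1 : ∫ x : ℝ, |x| ∂(gaussianReal 0 1) ≤ ∫ x : ℝ, (x ^ 2 + 1) / 2 ∂(gaussianReal 0 1) := by
    apply integral_mono Gauss_int_id.abs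
    · exact (Gauss_int_sq.add (integrable_const 1)).div_const 2
    · intro x
      have := sq_nonneg (|x| - 1)
      have h2 := sq_abs x
      simp only
      nlinarith
  refine h1.trans (le_of_eq ?_)
  rw [integral_div, integral_add Gauss_int_sq (integrable_const 1), Gauss_sq]
  simp

theorem integral_abs_coord_ge (i : ι) : 1 / 2 ≤ ∫ g : ι → ℝ, |g i| ∂(gam ι) := by
  have h := Gauss_integral i (f := fun x => |x|) (by fun_prop)
  rw [h, Gauss_abs]
  have h1 : Real.sqrt (2 * Real.pi) ≤ 4 := by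
    rw [Real.sqrt_le_left (by norm_num)]
    have := Real.pi_le_four
    linarith
  have h0 : 0 < Real.sqrt (2 * Real.pi) := Real.sqrt_pos.mpr (by positivity)
  rw [inv_mul_eq_div, div_le_div_iff₀ (by norm_num) h0]
  linarith

/-- Exponential moments of the coordinates. -/
theorem integrable_exp_abs_sum (b : ι → ℝ) :
    Integrable (fun g : ι → ℝ => Real.exp (∑ i, b i * |g i|)) (gam ι) := by
  simp_rw [Real.exp_sum]
  unfold gam
  apply Integrable.fintype_prod (f := fun i (x : ℝ) => Real.exp (b i * |x|))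
  intro i
  have h1 : Integrable (fun x : ℝ => Real.exp (b i * x) + Real.exp (-b i * x))
      (gaussianReal 0 1) :=
    (integrable_exp_mul_gaussianReal (b i)).add (integrable_exp_mul_gaussianReal (-b i))
  refine h1.mono' (by fun_prop) (Filter.Eventually.of_forall fun x => ?_)
  rw [Real.norm_eq_abs, abs_of_pos (Real.exp_pos _)]
  rcases le_total 0 x with hx | hx
  · rw [abs_of_nonneg hx]
    have := Real.exp_pos (-b i * x)
    linarith
  · rw [abs_of_nonpos hx]
    have := Real.exp_pos (b i * x)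
    have e : b i * -x = -b i * x := by ring
    rw [e]
    linarith

/-- Changing signs of coordinates preserves the measure. -/
theorem measurePreserving_signs (ε : ι → ℝ) (hε : ∀ i, ε i = 1 ∨ ε i = -1) :
    MeasurePreserving (fun g : ι → ℝ => fun i => ε i * g i) (gam ι) (gam ι) := by
  unfold gam
  refine measurePreserving_pi (fun _ => gaussianReal 0 1) (fun _ => gaussianReal 0 1)
    (f := fun i x => ε i * x) fun i => ⟨by fun_prop, ?_⟩
  rcases hε i with h | h
  · rw [h]
    simp
  · rw [h]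
    have : (fun x : ℝ => -1 * x) = fun x => -x := by ext x; ring
    rw [this, gaussianReal_map_neg, neg_zero]

end Pool.Agent.helper75.Pel
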