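import Pool.Agent.helper75.Pel.Law
import Pool.Agent.helper75.Pel.Gauss

/-!
# Conc0 : exponential moments of the norm

`integrable_exp_norm`: transfer to `gam ι` (`integrable_map_measure`); `a ‖∑ g_i x_i‖ ≤ ∑ |a| ‖x_i‖ |g_i|`,
`integrable_exp_abs_sum`.
`tendsto_exp_norm`: `∫ exp((a/m)‖z‖) → 1` for `m → ∞`, dominated convergence with the bound
`exp(|a| ‖z‖)` (`m ≥ 1`), pointwise limit `1`, `law x` is a probability measure.
-/

namespace Pool.Agent.helper75.Pel
open MeasureTheory ProbabilityTheory

universe u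
variable {E : Type u} [NormedAddCommGroup E] [NormedSpace ℝ E] [FiniteDimensional ℝ E]
variable {ι : Type} [Fintype ι]

theorem integrable_exp_norm [MeasurableSpace E] [BorelSpace E] (x : ι → E) (a : ℝ) :
    Integrable (fun z => Real.exp (a * ‖z‖)) (law x) := by
  have hc : Continuous fun g : ι → ℝ => ∑ i, g i • x i := by fun_prop
  have hf : Continuous fun z : E => Real.exp (a * ‖z‖) := by fun_prop
  unfold law
  rw [integrable_map_measure hf.aestronglyMeasurable hc.measurable.aemeasurable]
  refine (integrable_exp_abs_sum fun i => |a| * ‖x i‖).mono' (hf.comp hc).aestronglyMeasurable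
    (Filter.Eventually.of_forall fun g => ?_)
  rw [Function.comp_apply, Real.norm_eq_abs, Real.abs_exp]
  refine Real.exp_le_exp.2 ?_
  calc a * ‖∑ i, g i • x i‖ ≤ |a| * ‖∑ i, g i • x i‖ :=
        mul_le_mul_of_nonneg_right (le_abs_self a) (norm_nonneg _)
    _ ≤ |a| * ∑ i, ‖g i • x i‖ := mul_le_mul_of_nonneg_left (norm_sum_le _ _) (abs_nonneg a)
    _ = ∑ i, |a| * ‖x i‖ * |g i| := by
        rw [Finset.mul_sum]
        refine Finset.sum_congr rfl fun i _ => ?_
        rw [norm_smul, Real.norm_eq_abs]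
        ring

theorem tendsto_exp_norm [MeasurableSpace E] [BorelSpace E] (x : ι → E) (a : ℝ) :
    Filter.Tendsto (fun m : ℕ => ∫ z, Real.exp (a / m * ‖z‖) ∂(law x)) Filter.atTop (nhds 1) := by
  have _ := isProbabilityMeasure_law x
  have h1 : ∫ _ : E, (1 : ℝ) ∂(law x) = 1 := by simp
  rw [← h1]
  refine tendsto_integral_of_dominated_convergence (fun z => Real.exp (|a| * ‖z‖)) ?_
    (integrable_exp_norm x |a|) ?_ ?_
  · intro m
    have hf : Continuous fun z : E => Real.exp (a / m * ‖z‖) := by fun_prop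
    exact hf.aestronglyMeasurable
  · intro m
    refine Filter.Eventually.of_forall fun z => ?_
    rw [Real.norm_eq_abs, Real.abs_exp]
    refine Real.exp_le_exp.2 (mul_le_mul_of_nonneg_right ?_ (norm_nonneg z))
    rcases Nat.eq_zero_or_pos m with hm | hm
    · rw [hm, Nat.cast_zero, div_zero]
      exact abs_nonneg a
    · have hm' : (1 : ℝ) ≤ m := by exact_mod_cast hm
      calc a / m ≤ |a| / m := div_le_div_of_nonneg_right (le_abs_self a) (by linarith)
        _ ≤ |a| := div_le_self (abs_nonneg a) hm'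
  · refine Filter.Eventually.of_forall fun z => ?_
    have h2 : Filter.Tendsto (fun m : ℕ => a / (m : ℝ) * ‖z‖) Filter.atTop (nhds (0 * ‖z‖)) :=
      (tendsto_const_div_atTop_nhds_zero_nat a).mul_const _
    rw [zero_mul] at h2
    have h3 := (Real.continuous_exp.tendsto 0).comp h2
    rw [Real.exp_zero] at h3
    exact h3

end Pool.Agent.helper75.Pel
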