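import Pool.Agent.helper75.Pel.Conc1a

/-!
# Conc1 : the two-point exponential inequality

`μ = law x`.  Let first `lam ≥ 0`, `m ≥ 1`, `h = π/(2m)`, `X_j = cos(jh) z + sin(jh) w`,
`X'_j = -sin(jh) z + cos(jh) w` (so `X_0 = z`, `X_m = w`, `X_{j+1} = cos h X_j + sin h X'_j`); `(X_j, X'_j)` has the
law `μ ⊗ μ` (`IsGaussian.map_rotation_eq_self`; mind the sign convention of
`ContinuousLinearMap.rotation`; `isGaussian_law`, `mean_law`).  Convexity of `exp`:
`exp(lam(‖z‖-‖w‖)) = exp((1/m) ∑_{j<m} m lam (‖X_j‖ - ‖X_{j+1}‖)) ≤ (1/m) ∑_{j<m} exp(m lam (‖X_j‖ - ‖X_{j+1}‖))`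
(`Real.add_pow_le_pow_mul_pow_of_add_eq_one`.. or `convexOn_exp.map_sum_le`), so
`∫∫ exp(lam(‖z‖-‖w‖)) ≤ ∫∫ exp(m lam (‖z‖ - ‖cos h z + sin h w‖)) ≤
exp(lam² π² σ²/8) ∫ exp(m lam (1 - cos h)‖z‖)` (`one_step` with `b = m lam`), and
`m (1 - cos h) ≤ m h²/2 = π²/(8m)`; let `m → ∞` (`tendsto_exp_norm`).
For `lam < 0` exchange `z` and `w`.
-/

namespace Pool.Agent.helper75.Pel
open MeasureTheory ProbabilityTheory

universe u
variable {E : Type u} [NormedAddCommGroup E] [NormedSpace ℝ E] [FiniteDimensional ℝ E]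
variable {ι : Type} [Fintype ι]

private theorem Conc1_inst (E : Type u) [NormedAddCommGroup E] [NormedSpace ℝ E]
    [FiniteDimensional ℝ E] : SecondCountableTopology E ∧ CompleteSpace E := by
  have : ProperSpace E := FiniteDimensional.proper_real E
  exact ⟨inferInstance, inferInstance⟩

theorem integrable_two_point [MeasurableSpace E] [BorelSpace E] (x : ι → E) (lam : ℝ) :
    Integrable (fun p : E × E => Real.exp (lam * (‖p.1‖ - ‖p.2‖))) ((law x).prod (law x)) := by
  have : IsProbabilityMeasure (law x) := isProbabilityMeasure_law x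
  have h := (integrable_exp_norm x lam).mul_prod (integrable_exp_norm x (-lam))
  refine h.congr (Filter.Eventually.of_forall fun p => ?_)
  show Real.exp (lam * ‖p.1‖) * Real.exp (-lam * ‖p.2‖) = Real.exp (lam * (‖p.1‖ - ‖p.2‖))
  rw [← Real.exp_add]
  congr 1
  ring

private theorem Conc1_map [MeasurableSpace E] [BorelSpace E] (x : ι → E) (t : ℝ) :
    MeasurePreserving (ContinuousLinearMap.rotation t : E × E →L[ℝ] E × E)
      ((law x).prod (law x)) ((law x).prod (law x)) := by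
  have : SecondCountableTopology E := (Conc1_inst E).1
  have : CompleteSpace E := (Conc1_inst E).2
  have : IsProbabilityMeasure (law x) := isProbabilityMeasure_law x
  have : IsGaussian (law x) := isGaussian_law x
  exact ⟨(ContinuousLinearMap.rotation t : E × E →L[ℝ] E × E).continuous.measurable,
    IsGaussian.map_rotation_eq_self (by simpa using mean_law x) t⟩

private theorem Conc1_comp (t h : ℝ) (p : E × E) :
    Real.cos h • ((ContinuousLinearMap.rotation t p).1 : E) +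
      Real.sin h • ((ContinuousLinearMap.rotation t p).2 : E) =
      ((ContinuousLinearMap.rotation (t + h) p).1 : E) := by
  rw [ContinuousLinearMap.rotation_apply, ContinuousLinearMap.rotation_apply]
  simp only []
  rw [Real.cos_add, Real.sin_add]
  module

private theorem Conc1_int [MeasurableSpace E] [BorelSpace E] (x : ι → E) (b h t : ℝ) :
    Integrable (fun p : E × E => Real.exp (b * (‖((ContinuousLinearMap.rotation t p).1 : E)‖ -
      ‖((ContinuousLinearMap.rotation (t + h) p).1 : E)‖))) ((law x).prod (law x)) ∧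
    ∫ p : E × E, Real.exp (b * (‖((ContinuousLinearMap.rotation t p).1 : E)‖ -
      ‖((ContinuousLinearMap.rotation (t + h) p).1 : E)‖)) ∂((law x).prod (law x)) =
    ∫ p : E × E, Real.exp (b * (‖p.1‖ - ‖Real.cos h • p.1 + Real.sin h • p.2‖))
        ∂((law x).prod (law x)) := by
  have hmp := Conc1_map x t
  have h1 := integrable_step x b h
  have h2 : (fun p : E × E => Real.exp (b * (‖((ContinuousLinearMap.rotation t p).1 : E)‖ -
      ‖((ContinuousLinearMap.rotation (t + h) p).1 : E)‖))) =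
      (fun p : E × E => Real.exp (b * (‖p.1‖ - ‖Real.cos h • p.1 + Real.sin h • p.2‖))) ∘
        (ContinuousLinearMap.rotation t : E × E →L[ℝ] E × E) := by
    funext p
    simp only [Function.comp_apply]
    rw [Conc1_comp]
  constructor
  · rw [h2]
    exact (hmp.integrable_comp h1.aestronglyMeasurable).2 h1
  · rw [h2]
    have h3 := integral_map (μ := (law x).prod (law x)) hmp.measurable.aemeasurable
      (f := fun p : E × E => Real.exp (b * (‖p.1‖ - ‖Real.cos h • p.1 + Real.sin h • p.2‖)))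
      (by rw [hmp.map_eq]; exact h1.aestronglyMeasurable)
    rw [hmp.map_eq] at h3
    exact h3.symm

private theorem Conc1_jensen (lam : ℝ) {m : ℕ} (hm : 0 < m) (p : E × E) :
    Real.exp (lam * (‖p.1‖ - ‖p.2‖)) ≤ ∑ j ∈ Finset.range m, (m : ℝ)⁻¹ *
      Real.exp ((m * lam) * (‖((ContinuousLinearMap.rotation (j * (Real.pi / (2 * m))) p).1 : E)‖ -
      ‖((ContinuousLinearMap.rotation (j * (Real.pi / (2 * m)) + Real.pi / (2 * m)) p).1 : E)‖)) := by
  have hm' : (0 : ℝ) < m := by exact_mod_cast hm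
  obtain ⟨X, hX⟩ : ∃ X : ℕ → ℝ, X = fun j : ℕ =>
    ‖((ContinuousLinearMap.rotation ((j : ℝ) * (Real.pi / (2 * m))) p).1 : E)‖ := ⟨_, rfl⟩
  have hX0 : X 0 = ‖p.1‖ := by
    rw [hX]
    simp [ContinuousLinearMap.rotation_apply]
  have hXm : X m = ‖p.2‖ := by
    rw [hX]
    have e : (m : ℝ) * (Real.pi / (2 * m)) = Real.pi / 2 := by field_simp
    simp only [e]
    simp [ContinuousLinearMap.rotation_apply]
  have hXs : ∀ j : ℕ, ‖((ContinuousLinearMap.rotation ((j : ℝ) * (Real.pi / (2 * m)) +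
      Real.pi / (2 * m)) p).1 : E)‖ = X (j + 1) := by
    intro j
    rw [hX]
    have e : ((j + 1 : ℕ) : ℝ) * (Real.pi / (2 * m)) = (j : ℝ) * (Real.pi / (2 * m)) +
        Real.pi / (2 * m) := by push_cast; ring
    simp only [e]
  have htel : ∑ j ∈ Finset.range m, (X j - X (j + 1)) = ‖p.1‖ - ‖p.2‖ := by
    rw [Finset.sum_range_sub' X m, hX0, hXm]
  have hconv := convexOn_exp.map_sum_le (t := Finset.range m) (w := fun _ => (m : ℝ)⁻¹)
    (p := fun j => (m * lam) * (X j - X (j + 1))) (fun _ _ => by positivity)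
    (by rw [Finset.sum_const, Finset.card_range, nsmul_eq_mul, mul_inv_cancel₀ hm'.ne'])
    (fun _ _ => Set.mem_univ _)
  have e1 : ∑ j ∈ Finset.range m, (m : ℝ)⁻¹ • ((m * lam) * (X j - X (j + 1))) =
      lam * (‖p.1‖ - ‖p.2‖) := by
    rw [← htel, Finset.mul_sum]
    refine Finset.sum_congr rfl fun j _ => ?_
    rw [smul_eq_mul]
    field_simp
  rw [e1] at hconv
  refine hconv.trans (le_of_eq ?_)
  refine Finset.sum_congr rfl fun j _ => ?_
  rw [smul_eq_mul, hXs j, hX]

private theorem Conc1_bound [MeasurableSpace E] [BorelSpace E] (x : ι → E) {σ : ℝ} (hσ : 0 ≤ σ)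
    (h : OpB x σ) {lam : ℝ} (hl : 0 ≤ lam) {m : ℕ} (hm : 0 < m) :
    ∫ p : E × E, Real.exp (lam * (‖p.1‖ - ‖p.2‖)) ∂((law x).prod (law x)) ≤
      Real.exp (Real.pi ^ 2 * lam ^ 2 * σ ^ 2 / 8) *
        ∫ z, Real.exp (lam * Real.pi ^ 2 / 8 / m * ‖z‖) ∂(law x) := by
  have hm' : (0 : ℝ) < m := by exact_mod_cast hm
  have : IsProbabilityMeasure (law x) := isProbabilityMeasure_law x
  obtain ⟨θ, hθ⟩ : ∃ θ : ℝ, θ = Real.pi / (2 * m) := ⟨_, rfl⟩
  have hθ0 : 0 ≤ θ := by rw [hθ]; positivity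
  have hθ1 : θ ≤ Real.pi / 2 := by
    rw [hθ]
    apply div_le_div_of_nonneg_left Real.pi_pos.le (by norm_num)
    have : (1 : ℝ) ≤ m := by exact_mod_cast hm
    linarith
  have h1 : ∫ p : E × E, Real.exp (lam * (‖p.1‖ - ‖p.2‖)) ∂((law x).prod (law x)) ≤
      ∫ p : E × E, Real.exp ((m * lam) * (‖p.1‖ - ‖Real.cos θ • p.1 + Real.sin θ • p.2‖))
        ∂((law x).prod (law x)) := by
    have e1 : ∫ p : E × E, (∑ j ∈ Finset.range m, (m : ℝ)⁻¹ *
      Real.exp ((m * lam) * (‖((ContinuousLinearMap.rotation (j * (Real.pi / (2 * m))) p).1 : E)‖ -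
      ‖((ContinuousLinearMap.rotation (j * (Real.pi / (2 * m)) + Real.pi / (2 * m)) p).1 : E)‖)))
        ∂((law x).prod (law x)) =
      ∫ p : E × E, Real.exp ((m * lam) * (‖p.1‖ - ‖Real.cos θ • p.1 + Real.sin θ • p.2‖))
        ∂((law x).prod (law x)) := by
      rw [integral_finset_sum _ fun (j : ℕ) _ =>
        ((Conc1_int x (m * lam) (Real.pi / (2 * m)) (j * (Real.pi / (2 * m)))).1.const_mul _)]
      have e2 : ∀ j ∈ Finset.range m, ∫ p : E × E, (m : ℝ)⁻¹ *
        Real.exp ((m * lam) * (‖((ContinuousLinearMap.rotation (j * (Real.pi / (2 * m))) p).1 : E)‖ -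
        ‖((ContinuousLinearMap.rotation (j * (Real.pi / (2 * m)) + Real.pi / (2 * m)) p).1 : E)‖))
          ∂((law x).prod (law x)) = (m : ℝ)⁻¹ *
        ∫ p : E × E, Real.exp ((m * lam) * (‖p.1‖ - ‖Real.cos θ • p.1 + Real.sin θ • p.2‖))
          ∂((law x).prod (law x)) := by
        intro j _
        rw [integral_const_mul,
          (Conc1_int x (m * lam) (Real.pi / (2 * m)) (j * (Real.pi / (2 * m)))).2, hθ]
      rw [Finset.sum_congr rfl e2, Finset.sum_const, Finset.card_range, nsmul_eq_mul, ← mul_assoc,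
        mul_inv_cancel₀ hm'.ne', one_mul]
    rw [← e1]
    refine integral_mono (integrable_two_point x lam) ?_ fun p => Conc1_jensen lam hm p
    exact integrable_finset_sum _ fun (j : ℕ) _ =>
      ((Conc1_int x (m * lam) (Real.pi / (2 * m)) (j * (Real.pi / (2 * m)))).1.const_mul _)
  have h2 := one_step x hσ h (b := m * lam) (h := θ) (by positivity) hθ0 hθ1
  have h3 : (m * lam) ^ 2 * θ ^ 2 * σ ^ 2 / 2 = Real.pi ^ 2 * lam ^ 2 * σ ^ 2 / 8 := by
    rw [hθ]
    field_simp
    ring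
  rw [h3] at h2
  refine (h1.trans h2).trans (mul_le_mul_of_nonneg_left ?_ (Real.exp_pos _).le)
  refine integral_mono (integrable_exp_norm x _) (integrable_exp_norm x _) fun z => ?_
  apply Real.exp_le_exp.2
  apply mul_le_mul_of_nonneg_right _ (norm_nonneg z)
  have h4 := Real.one_sub_sq_div_two_le_cos (x := θ)
  have h5 : m * lam * (1 - Real.cos θ) ≤ m * lam * (θ ^ 2 / 2) :=
    mul_le_mul_of_nonneg_left (by linarith) (by positivity)
  refine h5.trans (le_of_eq ?_)
  rw [hθ]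
  field_simp
  ring

private theorem Conc1_nonneg [MeasurableSpace E] [BorelSpace E] (x : ι → E) {σ : ℝ} (hσ : 0 ≤ σ)
    (h : OpB x σ) {lam : ℝ} (hl : 0 ≤ lam) :
    ∫ p : E × E, Real.exp (lam * (‖p.1‖ - ‖p.2‖)) ∂((law x).prod (law x)) ≤
      Real.exp (Real.pi ^ 2 * lam ^ 2 * σ ^ 2 / 8) := by
  have h1 := (tendsto_exp_norm x (lam * Real.pi ^ 2 / 8)).const_mul
    (Real.exp (Real.pi ^ 2 * lam ^ 2 * σ ^ 2 / 8))
  rw [mul_one] at h1
  refine ge_of_tendsto h1 ?_
  filter_upwards [Filter.eventually_gt_atTop 0] with m hm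
  exact Conc1_bound x hσ h hl hm

theorem two_point [MeasurableSpace E] [BorelSpace E] (x : ι → E) {σ : ℝ} (hσ : 0 ≤ σ)
    (h : OpB x σ) (lam : ℝ) :
    ∫ p : E × E, Real.exp (lam * (‖p.1‖ - ‖p.2‖)) ∂((law x).prod (law x)) ≤
      Real.exp (Real.pi ^ 2 * lam ^ 2 * σ ^ 2 / 8) := by
  have : IsProbabilityMeasure (law x) := isProbabilityMeasure_law x
  rcases le_total 0 lam with hl | hl
  · exact Conc1_nonneg x hσ h hl
  · have h1 := Conc1_nonneg x hσ h (neg_nonneg.2 hl)
    have h2 := integral_prod_swap (μ := law x) (ν := law x)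
      (fun p : E × E => Real.exp (-lam * (‖p.1‖ - ‖p.2‖)))
    rw [← h2, neg_sq] at h1
    refine le_trans (le_of_eq ?_) h1
    refine integral_congr_ae (Filter.Eventually.of_forall fun p => ?_)
    show Real.exp (lam * (‖p.1‖ - ‖p.2‖)) = Real.exp (-lam * (‖p.2‖ - ‖p.1‖))
    congr 1
    ring

end Pool.Agent.helper75.Pel
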