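import Pool.Agent.helper75.Pel.Conc0
import Pool.Agent.helper75.Pel.Dom

/-!
# Conc1a : one rotation step

`OpB x σ` gives `QF x ξ ≤ σ² ‖ξ‖²` (`opB_iff`).  For fixed `z` take `φ` with `‖φ‖ ≤ 1`, `φ z = ‖z‖`
(`exists_dual_vector''`): `‖cos h • z + sin h • w‖ ≥ cos h ‖z‖ + sin h φ(w)`, so for `b ≥ 0`, `0 ≤ h ≤ π/2`
`∫ exp(b(‖z‖ - ‖cos h z + sin h w‖)) dw ≤ exp(b(1-cos h)‖z‖) exp(b² sin² h QF x φ/2)
 ≤ exp(b(1-cos h)‖z‖) exp(b² h² σ²/2)` (`integral_exp_law`).
-/

namespace Pool.Agent.helper75.Pel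
open MeasureTheory ProbabilityTheory

universe u
variable {E : Type u} [NormedAddCommGroup E] [NormedSpace ℝ E] [FiniteDimensional ℝ E]
variable {ι : Type} [Fintype ι]

theorem integrable_step [MeasurableSpace E] [BorelSpace E] (x : ι → E) (b h : ℝ) :
    Integrable (fun p : E × E => Real.exp (b * (‖p.1‖ - ‖Real.cos h • p.1 + Real.sin h • p.2‖)))
      ((law x).prod (law x)) := by
  haveI := isProbabilityMeasure_law x
  haveI : ProperSpace E := FiniteDimensional.proper_real E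
  haveI : SecondCountableTopology E := secondCountable_of_proper
  have h1 := (integrable_exp_norm x (2 * |b|)).mul_prod (integrable_exp_norm x |b|)
  refine Integrable.mono' h1 ?_ ?_
  · apply Continuous.aestronglyMeasurable
    fun_prop
  · refine Filter.Eventually.of_forall fun p => ?_
    rw [Real.norm_of_nonneg (Real.exp_pos _).le, ← Real.exp_add]
    apply Real.exp_le_exp.2
    have h2 : ‖Real.cos h • p.1 + Real.sin h • p.2‖ ≤ ‖p.1‖ + ‖p.2‖ := by
      refine (norm_add_le _ _).trans ?_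
      rw [norm_smul, norm_smul, Real.norm_eq_abs, Real.norm_eq_abs]
      have a1 := mul_le_mul_of_nonneg_right (Real.abs_cos_le_one h) (norm_nonneg p.1)
      have a2 := mul_le_mul_of_nonneg_right (Real.abs_sin_le_one h) (norm_nonneg p.2)
      linarith
    have h3 : |‖p.1‖ - ‖Real.cos h • p.1 + Real.sin h • p.2‖| ≤ 2 * ‖p.1‖ + ‖p.2‖ := by
      rw [abs_le]
      have a1 := norm_nonneg p.1
      have a2 := norm_nonneg p.2
      have a3 := norm_nonneg (Real.cos h • p.1 + Real.sin h • p.2)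
      constructor <;> linarith
    calc b * (‖p.1‖ - ‖Real.cos h • p.1 + Real.sin h • p.2‖)
        ≤ |b * (‖p.1‖ - ‖Real.cos h • p.1 + Real.sin h • p.2‖)| := le_abs_self _
      _ = |b| * |‖p.1‖ - ‖Real.cos h • p.1 + Real.sin h • p.2‖| := abs_mul _ _
      _ ≤ |b| * (2 * ‖p.1‖ + ‖p.2‖) := mul_le_mul_of_nonneg_left h3 (abs_nonneg b)
      _ = 2 * |b| * ‖p.1‖ + |b| * ‖p.2‖ := by ring

theorem one_step [MeasurableSpace E] [BorelSpace E] (x : ι → E) {σ : ℝ} (hσ : 0 ≤ σ)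
    (hop : OpB x σ) {b h : ℝ} (hb : 0 ≤ b) (h0 : 0 ≤ h) (h1 : h ≤ Real.pi / 2) :
    ∫ p : E × E, Real.exp (b * (‖p.1‖ - ‖Real.cos h • p.1 + Real.sin h • p.2‖))
        ∂((law x).prod (law x)) ≤
      Real.exp (b ^ 2 * h ^ 2 * σ ^ 2 / 2) * ∫ z, Real.exp (b * (1 - Real.cos h) * ‖z‖) ∂(law x) := by
  haveI := isProbabilityMeasure_law x
  have hQ := (opB_iff hσ).1 hop
  have hs0 : 0 ≤ Real.sin h :=
    Real.sin_nonneg_of_nonneg_of_le_pi h0 (by linarith [Real.pi_pos])
  have hs1 : Real.sin h ≤ h := Real.sin_le h0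
  rw [integral_prod _ (integrable_step x b h), ← integral_const_mul]
  -- the inner integral
  have hin : ∀ z : E, ∫ w, Real.exp (b * (‖z‖ - ‖Real.cos h • z + Real.sin h • w‖)) ∂(law x) ≤
      Real.exp (b ^ 2 * h ^ 2 * σ ^ 2 / 2) * Real.exp (b * (1 - Real.cos h) * ‖z‖) := by
    intro z
    obtain ⟨φ, hφ1, hφ2⟩ := exists_dual_vector'' ℝ z
    have hφz : φ z = ‖z‖ := by simpa using hφ2
    have hL := integral_exp_law x φ (-(b * Real.sin h))
    have h2 : ∫ w, Real.exp (b * (‖z‖ - ‖Real.cos h • z + Real.sin h • w‖)) ∂(law x) ≤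
        ∫ w, Real.exp (b * (1 - Real.cos h) * ‖z‖) *
          Real.exp (-(b * Real.sin h) * φ w) ∂(law x) := by
      refine integral_mono_of_nonneg (Filter.Eventually.of_forall fun w => (Real.exp_pos _).le)
        (hL.1.const_mul _) (Filter.Eventually.of_forall fun w => ?_)
      simp only
      rw [← Real.exp_add]
      apply Real.exp_le_exp.2
      have h3 : Real.cos h * ‖z‖ + Real.sin h * φ w ≤ ‖Real.cos h • z + Real.sin h • w‖ := by
        have h4 : φ (Real.cos h • z + Real.sin h • w) = Real.cos h * ‖z‖ + Real.sin h * φ w := by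
          rw [map_add, map_smul, map_smul, hφz, smul_eq_mul, smul_eq_mul]
        rw [← h4]
        calc φ (Real.cos h • z + Real.sin h • w)
            ≤ ‖φ (Real.cos h • z + Real.sin h • w)‖ := Real.le_norm_self _
          _ ≤ ‖φ‖ * ‖Real.cos h • z + Real.sin h • w‖ := φ.le_opNorm _
          _ ≤ 1 * ‖Real.cos h • z + Real.sin h • w‖ :=
              mul_le_mul_of_nonneg_right hφ1 (norm_nonneg _)
          _ = ‖Real.cos h • z + Real.sin h • w‖ := one_mul _
      nlinarith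
    refine h2.trans ?_
    rw [integral_const_mul, hL.2, mul_comm]
    apply mul_le_mul_of_nonneg_right _ (Real.exp_pos _).le
    apply Real.exp_le_exp.2
    have h5 : QF x φ ≤ σ ^ 2 := by
      refine (hQ φ).trans ?_
      have : ‖φ‖ ^ 2 ≤ 1 := pow_le_one₀ (norm_nonneg φ) hφ1
      nlinarith [sq_nonneg σ]
    have h6 : Real.sin h ^ 2 ≤ h ^ 2 := pow_le_pow_left₀ hs0 hs1 2
    have h7 : 0 ≤ QF x φ := Finset.sum_nonneg fun i _ => sq_nonneg _
    have h8 : Real.sin h ^ 2 * QF x φ ≤ h ^ 2 * σ ^ 2 :=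
      mul_le_mul h6 h5 h7 (sq_nonneg h)
    have h9 : b ^ 2 * (Real.sin h ^ 2 * QF x φ) ≤ b ^ 2 * (h ^ 2 * σ ^ 2) :=
      mul_le_mul_of_nonneg_left h8 (sq_nonneg b)
    have e1 : (-(b * Real.sin h)) ^ 2 * QF x φ / 2 = b ^ 2 * (Real.sin h ^ 2 * QF x φ) / 2 := by
      ring
    have e2 : b ^ 2 * h ^ 2 * σ ^ 2 / 2 = b ^ 2 * (h ^ 2 * σ ^ 2) / 2 := by ring
    rw [e1, e2]
    linarith
  refine integral_mono_of_nonneg
    (Filter.Eventually.of_forall fun z => integral_nonneg fun w => (Real.exp_pos _).le)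
    ((integrable_exp_norm x _).const_mul _) (Filter.Eventually.of_forall fun z => hin z)

end Pool.Agent.helper75.Pel
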