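import Pool.Agent.helper75.Pel.Conc1

/-!
# Conc2 : Gaussian concentration

`exp_moment`: `exp(lam (‖z‖ - ell x)) ≤ ∫ exp(lam(‖z‖ - ‖w‖)) dμ(w)` by Jensen (`exp` convex,
`∫ ‖w‖ dμ = ell x`, `ell_eq_law`), integrate in `z` and use `two_point`.
`conc`: Chernoff with `lam = ± 4t/(π² σ²)`: each tail is `≤ exp(-2t²/(π²σ²)) ≤ exp(-t²/(5σ²))`
since `π² ≤ 10`.
-/

namespace Pool.Agent.helper75.Pel
open MeasureTheory ProbabilityTheory

universe u
variable {E : Type u} [NormedAddCommGroup E] [NormedSpace ℝ E] [FiniteDimensional ℝ E]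
variable {ι : Type} [Fintype ι]

theorem Conc2_cont (x : ι → E) : Continuous fun g : ι → ℝ => ∑ i, g i • x i := by
  refine continuous_finsetSum _ fun i _ => ?_
  exact (continuous_apply i).smul continuous_const

theorem Conc2_moment [MeasurableSpace E] [BorelSpace E] (x : ι → E) {σ : ℝ} (hσ : 0 ≤ σ)
    (h : OpB x σ) (lam : ℝ) :
    Integrable (fun z => Real.exp (lam * (‖z‖ - ell x))) (law x) ∧
    ∫ z, Real.exp (lam * (‖z‖ - ell x)) ∂(law x) ≤
      Real.exp (Real.pi ^ 2 * lam ^ 2 * σ ^ 2 / 8) := by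
  haveI := isProbabilityMeasure_law x
  have hint : Integrable (fun z => Real.exp (lam * (‖z‖ - ell x))) (law x) := by
    have h1 : (fun z : E => Real.exp (lam * (‖z‖ - ell x))) =
        fun z => Real.exp (lam * ‖z‖) * Real.exp (-(lam * ell x)) := by
      funext z
      rw [← Real.exp_add]
      congr 1
      ring
    rw [h1]
    exact (integrable_exp_norm x lam).mul_const _
  have hnorm : Integrable (fun z : E => ‖z‖) (law x) := by
    refine (integrable_exp_norm x 1).mono' ?_ ?_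
    · exact continuous_norm.measurable.aestronglyMeasurable
    · refine Filter.Eventually.of_forall fun z => ?_
      rw [norm_norm, one_mul]
      have := Real.add_one_le_exp ‖z‖
      linarith
  have hw : ∀ z : E, Integrable (fun w : E => Real.exp (lam * (‖z‖ - ‖w‖))) (law x) := by
    intro z
    have h1 : (fun w : E => Real.exp (lam * (‖z‖ - ‖w‖))) =
        fun w => Real.exp (lam * ‖z‖) * Real.exp (-lam * ‖w‖) := by
      funext w
      rw [← Real.exp_add]
      congr 1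
      ring
    rw [h1]
    exact (integrable_exp_norm x (-lam)).const_mul _
  refine ⟨hint, ?_⟩
  have hJ : ∀ z : E, Real.exp (lam * (‖z‖ - ell x)) ≤
      ∫ w, Real.exp (lam * (‖z‖ - ‖w‖)) ∂(law x) := by
    intro z
    have hf : Integrable (fun w : E => lam * (‖z‖ - ‖w‖)) (law x) :=
      ((integrable_const _).sub hnorm).const_mul _
    have h1 := convexOn_exp.map_integral_le (μ := law x) (f := fun w : E => lam * (‖z‖ - ‖w‖))
      Real.continuous_exp.continuousOn isClosed_univ (Filter.Eventually.of_forall fun _ => trivial)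
      hf (hw z)
    have h2 : ∫ w, lam * (‖z‖ - ‖w‖) ∂(law x) = lam * (‖z‖ - ell x) := by
      rw [integral_const_mul, integral_sub (integrable_const _) hnorm, integral_const, ell_eq_law]
      simp
    rw [h2] at h1
    exact h1
  have h2 := integrable_two_point x lam
  calc ∫ z, Real.exp (lam * (‖z‖ - ell x)) ∂(law x)
      ≤ ∫ z, ∫ w, Real.exp (lam * (‖z‖ - ‖w‖)) ∂(law x) ∂(law x) :=
        integral_mono hint h2.integral_prod_left hJ
    _ = ∫ p : E × E, Real.exp (lam * (‖p.1‖ - ‖p.2‖)) ∂((law x).prod (law x)) :=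
        (integral_prod _ h2).symm
    _ ≤ _ := two_point x hσ h lam

theorem exp_moment (x : ι → E) {σ : ℝ} (hσ : 0 ≤ σ) (h : OpB x σ) (lam : ℝ) :
    Integrable (fun g : ι → ℝ => Real.exp (lam * (‖∑ i, g i • x i‖ - ell x))) (gam ι) ∧
    ∫ g, Real.exp (lam * (‖∑ i, g i • x i‖ - ell x)) ∂(gam ι) ≤
      Real.exp (Real.pi ^ 2 * lam ^ 2 * σ ^ 2 / 8) := by
  letI : MeasurableSpace E := borel E
  haveI : BorelSpace E := ⟨rfl⟩
  obtain ⟨h1, h2⟩ := Conc2_moment x hσ h lam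
  have hm : AEMeasurable (fun g : ι → ℝ => ∑ i, g i • x i) (gam ι) :=
    (Conc2_cont x).measurable.aemeasurable
  have hs : Continuous fun z : E => Real.exp (lam * (‖z‖ - ell x)) := by fun_prop
  constructor
  · exact (integrable_map_measure hs.measurable.aestronglyMeasurable hm).1 h1
  · have h3 : ∫ z, Real.exp (lam * (‖z‖ - ell x)) ∂(law x) =
        ∫ g, Real.exp (lam * (‖∑ i, g i • x i‖ - ell x)) ∂(gam ι) :=
      integral_map hm hs.measurable.aestronglyMeasurable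
    rw [← h3]
    exact h2

theorem Conc2_num {σ t : ℝ} (hσ : 0 < σ) :
    -(4 * t / (Real.pi ^ 2 * σ ^ 2)) * t +
      Real.pi ^ 2 * (4 * t / (Real.pi ^ 2 * σ ^ 2)) ^ 2 * σ ^ 2 / 8 ≤ -(t ^ 2 / (5 * σ ^ 2)) := by
  have hp := Real.pi_pos
  have hp2 : Real.pi ^ 2 ≤ 10 := by
    have := Real.pi_lt_d2
    nlinarith
  have h1 : -(4 * t / (Real.pi ^ 2 * σ ^ 2)) * t +
      Real.pi ^ 2 * (4 * t / (Real.pi ^ 2 * σ ^ 2)) ^ 2 * σ ^ 2 / 8 =
      -(2 * t ^ 2 / (Real.pi ^ 2 * σ ^ 2)) := by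
    field_simp
    ring
  rw [h1, neg_le_neg_iff, div_le_div_iff₀ (by positivity) (by positivity)]
  have h2 : 0 ≤ t ^ 2 * σ ^ 2 := by positivity
  nlinarith

theorem conc (x : ι → E) {σ t : ℝ} (hσ : 0 < σ) (ht : 0 ≤ t) (h : OpB x σ) :
    (gam ι).real {g | t ≤ |‖∑ i, g i • x i‖ - ell x|} ≤ 2 * Real.exp (-(t ^ 2 / (5 * σ ^ 2))) := by
  have hl : 0 ≤ 4 * t / (Real.pi ^ 2 * σ ^ 2) := by positivity
  obtain ⟨a1, a2⟩ := exp_moment x hσ.le h (4 * t / (Real.pi ^ 2 * σ ^ 2))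
  obtain ⟨b1, b2⟩ := exp_moment x hσ.le h (-(4 * t / (Real.pi ^ 2 * σ ^ 2)))
  have c1 := measure_ge_le_exp_mul_mgf (μ := gam ι)
    (X := fun g : ι → ℝ => ‖∑ i, g i • x i‖ - ell x) t hl a1
  have b1' : Integrable (fun g : ι → ℝ => Real.exp (4 * t / (Real.pi ^ 2 * σ ^ 2) *
      -(‖∑ i, g i • x i‖ - ell x))) (gam ι) := by
    refine b1.congr (Filter.Eventually.of_forall fun g => ?_)
    simp only
    congr 1
    ring
  have c2 := measure_ge_le_exp_mul_mgf (μ := gam ι)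
    (X := fun g : ι → ℝ => -(‖∑ i, g i • x i‖ - ell x)) t hl b1'
  have d1 : (gam ι).real {g | t ≤ ‖∑ i, g i • x i‖ - ell x} ≤
      Real.exp (-(t ^ 2 / (5 * σ ^ 2))) := by
    refine c1.trans ?_
    rw [mgf]
    refine (mul_le_mul_of_nonneg_left a2 (Real.exp_pos _).le).trans ?_
    rw [← Real.exp_add]
    exact Real.exp_le_exp.2 (Conc2_num hσ)
  have d2 : (gam ι).real {g | t ≤ -(‖∑ i, g i • x i‖ - ell x)} ≤
      Real.exp (-(t ^ 2 / (5 * σ ^ 2))) := by
    refine c2.trans ?_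
    have e1 : mgf (fun g : ι → ℝ => -(‖∑ i, g i • x i‖ - ell x)) (gam ι)
        (4 * t / (Real.pi ^ 2 * σ ^ 2)) ≤
        Real.exp (Real.pi ^ 2 * (4 * t / (Real.pi ^ 2 * σ ^ 2)) ^ 2 * σ ^ 2 / 8) := by
      rw [mgf]
      have e2 : ∫ g : ι → ℝ, Real.exp (4 * t / (Real.pi ^ 2 * σ ^ 2) *
          -(‖∑ i, g i • x i‖ - ell x)) ∂(gam ι) =
          ∫ g : ι → ℝ, Real.exp (-(4 * t / (Real.pi ^ 2 * σ ^ 2)) *
          (‖∑ i, g i • x i‖ - ell x)) ∂(gam ι) := by
        refine integral_congr_ae (Filter.Eventually.of_forall fun g => ?_)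
        simp only
        congr 1
        ring
      rw [e2]
      refine b2.trans (le_of_eq ?_)
      congr 1
      ring
    refine (mul_le_mul_of_nonneg_left e1 (Real.exp_pos _).le).trans ?_
    rw [← Real.exp_add]
    exact Real.exp_le_exp.2 (Conc2_num hσ)
  have hsub : {g : ι → ℝ | t ≤ |‖∑ i, g i • x i‖ - ell x|} ⊆
      {g | t ≤ ‖∑ i, g i • x i‖ - ell x} ∪ {g | t ≤ -(‖∑ i, g i • x i‖ - ell x)} := by
    intro g hg
    have h' : t ≤ |‖∑ i, g i • x i‖ - ell x| := hg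
    rcases le_abs.1 h' with h1 | h1
    · exact Or.inl h1
    · exact Or.inr h1
  calc (gam ι).real {g | t ≤ |‖∑ i, g i • x i‖ - ell x|}
      ≤ (gam ι).real ({g | t ≤ ‖∑ i, g i • x i‖ - ell x} ∪
          {g | t ≤ -(‖∑ i, g i • x i‖ - ell x)}) := measureReal_mono hsub
    _ ≤ (gam ι).real {g | t ≤ ‖∑ i, g i • x i‖ - ell x} +
          (gam ι).real {g | t ≤ -(‖∑ i, g i • x i‖ - ell x)} := measureReal_union_le _ _
    _ ≤ _ := by linarith

end Pool.Agent.helper75.Pel
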