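import Mathlib

/-!
# RealAux : elementary real inequalities for the iterations

`log_gain`: with `L = log h`, `1 + log q ≤ 1 + log 2 + (29/30) L ≤ (59/60)(1 + L)` for `L ≥ 43`;
`A (59/60)^K ≤ 1` for `K ≥ K₀`.
`poly_gain`: `A (1+log h)^K ≤ h^ε` for `h ≥ h₀` (`isLittleO_log_rpow_atTop`, `Real.log_le_rpow_div`).
-/

namespace Pool.Agent.helper75.Pel

theorem log_gain (A : ℝ) : ∃ K₀ : ℕ, ∃ h₀ : ℝ, 1 ≤ h₀ ∧ ∀ K : ℕ, K₀ ≤ K → ∀ h q : ℝ, h₀ ≤ h → 1 ≤ q →
    q ≤ 2 * h ^ (29 / 30 : ℝ) → A * (1 + Real.log q) ^ K ≤ (1 + Real.log h) ^ K := by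
  have hlim : Filter.Tendsto (fun K : ℕ => |A| * (59 / 60 : ℝ) ^ K) Filter.atTop
      (nhds (|A| * 0)) :=
    (tendsto_pow_atTop_nhds_zero_of_lt_one (by norm_num) (by norm_num)).const_mul _
  rw [mul_zero] at hlim
  obtain ⟨K₀, hK₀⟩ := Filter.eventually_atTop.1 (hlim.eventually (ge_mem_nhds (by norm_num : (0 : ℝ) < 1)))
  refine ⟨K₀, Real.exp 43, ?_, ?_⟩
  · rw [← Real.exp_zero]
    exact Real.exp_le_exp.2 (by norm_num)
  intro K hK h q hh hq1 hq
  have hh0 : 0 < h := lt_of_lt_of_le (Real.exp_pos _) hh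
  have hL : 43 ≤ Real.log h := by
    rw [Real.le_log_iff_exp_le hh0]
    exact hh
  have hq0 : 0 < q := by linarith
  have hlogq : Real.log q ≤ Real.log 2 + 29 / 30 * Real.log h := by
    calc Real.log q ≤ Real.log (2 * h ^ (29 / 30 : ℝ)) := Real.log_le_log hq0 hq
      _ = Real.log 2 + 29 / 30 * Real.log h := by
          rw [Real.log_mul (by norm_num) (Real.rpow_pos_of_pos hh0 _).ne', Real.log_rpow hh0]
  have hlog2 : Real.log 2 < 0.6931471808 := Real.log_two_lt_d9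
  have h1 : 1 + Real.log q ≤ 59 / 60 * (1 + Real.log h) := by
    norm_num at hlog2
    linarith
  have hq' : 0 ≤ Real.log q := Real.log_nonneg hq1
  calc A * (1 + Real.log q) ^ K ≤ |A| * (1 + Real.log q) ^ K :=
        mul_le_mul_of_nonneg_right (le_abs_self A) (by positivity)
    _ ≤ |A| * (59 / 60 * (1 + Real.log h)) ^ K := by gcongr
    _ = (|A| * (59 / 60) ^ K) * (1 + Real.log h) ^ K := by rw [mul_pow]; ring
    _ ≤ 1 * (1 + Real.log h) ^ K := mul_le_mul_of_nonneg_right (hK₀ K hK)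
        (pow_nonneg (by linarith) _)
    _ = (1 + Real.log h) ^ K := one_mul _

theorem poly_gain (A ε : ℝ) (K : ℕ) (hε : 0 < ε) : ∃ h₀ : ℝ, 1 ≤ h₀ ∧ ∀ h : ℝ, h₀ ≤ h →
    A * (1 + Real.log h) ^ K ≤ h ^ ε := by
  have hC : (0 : ℝ) < |A| * 2 ^ K + 1 := by positivity
  have hlo := (isLittleO_log_rpow_rpow_atTop (K : ℝ) hε).bound (inv_pos.2 hC)
  obtain ⟨h₁, hh₁⟩ := Filter.eventually_atTop.1 hlo
  refine ⟨max h₁ (Real.exp 1), ?_, ?_⟩
  · refine le_trans ?_ (le_max_right _ _)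
    rw [← Real.exp_zero]
    exact Real.exp_le_exp.2 (by norm_num)
  intro h hh
  have hh' : Real.exp 1 ≤ h := (le_max_right _ _).trans hh
  have hh0 : 0 < h := lt_of_lt_of_le (Real.exp_pos _) hh'
  have hL : 1 ≤ Real.log h := by
    rw [Real.le_log_iff_exp_le hh0]
    exact hh'
  have h2 := hh₁ h ((le_max_left _ _).trans hh)
  rw [Real.rpow_natCast, Real.norm_of_nonneg (by positivity : (0 : ℝ) ≤ Real.log h ^ K),
    Real.norm_of_nonneg (by positivity)] at h2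
  calc A * (1 + Real.log h) ^ K ≤ |A| * (1 + Real.log h) ^ K :=
        mul_le_mul_of_nonneg_right (le_abs_self A) (by positivity)
    _ ≤ |A| * (2 * Real.log h) ^ K := by gcongr; linarith
    _ = (|A| * 2 ^ K) * Real.log h ^ K := by rw [mul_pow]; ring
    _ ≤ (|A| * 2 ^ K + 1) * Real.log h ^ K := by gcongr; linarith
    _ ≤ (|A| * 2 ^ K + 1) * ((|A| * 2 ^ K + 1)⁻¹ * h ^ ε) := by gcongr
    _ = h ^ ε := by rw [← mul_assoc, mul_inv_cancel₀ hC.ne', one_mul]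

end Pool.Agent.helper75.Pel
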