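import Pool.Agent.helper75.Pel.FlatQ
import Pool.Agent.helper75.Pel.RealAux

/-!
# FlatThm : flat systems have almost maximal `ell` if `E` is not good

Let `C` be the constant of `flat_step δ` (wlog `ρ ≥ 1`, else use that `Good E ρ δ` follows from
`Good E 1 δ`... `¬ Good E ρ δ → ¬ Good E (max ρ 1) δ`).

`flat_thm`: strong induction on `h` for `FL E h (√h/(K(1+log h)^K))`.  For `h < h₀`: `FL_half` if
`K ≥ 2√h₀`.  For `h ≥ h₀`: `k = ⌊h^{1/10}⌋`, `q = ⌊h/k⌋` (so `1 ≤ q < h`, `k q ≤ h ≤ 2 k q`,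
`h^{9/10}/2 ≤ q ≤ 2 h^{9/10} ≤ 2 h^{29/30}`).  `g = max (c q^{1/4}) (√q/(K(1+log q)^K))`:
`FL E q g`, `C k ≤ c q^{1/4}` (as `q^{1/4} ≥ h^{9/40}/2`, `h₀` large depending on `ρ, δ` only).
`flat_step`: `FL E (kq) (√k √q/(2ρ K(1+log q)^K))`, `√(kq) ≥ √h/2`, and
`log_gain (4ρ)`: `4ρ (1+log q)^K ≤ (1+log h)^K`.  `FL_mono`.
-/

namespace Pool.Agent.helper75.Pel

universe u

theorem FlatThm_good_mono {E : Type u} [NormedAddCommGroup E] [NormedSpace ℝ E] {ρ ρ' δ : ℝ}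
    (h : ρ ≤ ρ') (hg : Good E ρ' δ) : Good E ρ δ := by
  obtain ⟨F, hF1, hF2⟩ := hg
  exact ⟨F, hF1, fun T => h.trans (hF2 T)⟩

/-- the numerical part: choice of `k` and `q` -/
theorem FlatThm_kq (C c : ℝ) (hC : 1 ≤ C) (hc : 0 < c) : ∃ T : ℝ, 2 ≤ T ∧ ∀ h : ℕ,
    T ^ 10 ≤ (h : ℝ) → ∃ k q : ℕ, 1 ≤ k ∧ 1 ≤ q ∧ q < h ∧ k * q ≤ h ∧
      (h : ℝ) ≤ 4 * (k * q) ∧ (q : ℝ) ≤ 2 * (h : ℝ) ^ (29 / 30 : ℝ) ∧
      C * k ≤ c * (q : ℝ) ^ (1 / 4 : ℝ) := by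
  refine ⟨max 2 (2 * (C / c) ^ 4), le_max_left _ _, fun h hh => ?_⟩
  obtain ⟨T, hT⟩ : ∃ T : ℝ, T = max 2 (2 * (C / c) ^ 4) := ⟨_, rfl⟩
  rw [← hT] at hh
  have hT2 : 2 ≤ T := by rw [hT]; exact le_max_left _ _
  have hTC : 2 * (C / c) ^ 4 ≤ T := by rw [hT]; exact le_max_right _ _
  obtain ⟨t, ht⟩ : ∃ t : ℝ, t = (h : ℝ) ^ (1 / 10 : ℝ) := ⟨_, rfl⟩
  have hh0 : (0 : ℝ) ≤ h := Nat.cast_nonneg h
  have ht10 : t ^ 10 = (h : ℝ) := by
    rw [ht, ← Real.rpow_natCast, ← Real.rpow_mul hh0]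
    norm_num
  have hTt : T ≤ t := by
    have h1 : (T ^ 10) ^ ((10 : ℕ) : ℝ)⁻¹ = T := Real.pow_rpow_inv_natCast (by linarith) (by norm_num)
    rw [← h1, ht]
    have h2 : (1 / 10 : ℝ) = ((10 : ℕ) : ℝ)⁻¹ := by norm_num
    rw [h2]
    exact Real.rpow_le_rpow (by positivity) hh (by positivity)
  have ht2 : 2 ≤ t := hT2.trans hTt
  have ht0 : 0 < t := by linarith
  obtain ⟨k, hk⟩ : ∃ k : ℕ, k = ⌊t⌋₊ := ⟨_, rfl⟩
  have hk1 : (k : ℝ) ≤ t := by rw [hk]; exact Nat.floor_le ht0.le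
  have hk2 : t < k + 1 := by rw [hk]; exact Nat.lt_floor_add_one t
  have hk3 : 2 ≤ k := by rw [hk]; exact Nat.le_floor (by exact_mod_cast ht2)
  have hk3' : (2 : ℝ) ≤ k := by exact_mod_cast hk3
  have hkt : t ≤ 2 * k := by linarith
  obtain ⟨q, hq⟩ : ∃ q : ℕ, q = h / k := ⟨_, rfl⟩
  have hqk : k * q ≤ h := by rw [hq]; exact Nat.mul_div_le h k
  have hqk2 : h < k * (q + 1) := by rw [hq]; exact Nat.lt_mul_div_succ h (by omega)
  have hqkR : (k : ℝ) * q ≤ h := by exact_mod_cast hqk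
  have hqk2R : (h : ℝ) < k * (q + 1) := by exact_mod_cast hqk2
  have hk0 : (0 : ℝ) < k := by linarith
  -- powers of t
  have ht9 : (1 : ℝ) ≤ t ^ 9 := one_le_pow₀ (by linarith)
  have ht8 : (4 : ℝ) ≤ t ^ 9 := by
    calc (4 : ℝ) ≤ 2 ^ 9 := by norm_num
      _ ≤ t ^ 9 := pow_le_pow_left₀ (by norm_num) ht2 9
  have ht1 : t ^ 10 = t * t ^ 9 := by ring
  -- lower bound of q
  have hq1 : t ^ 9 < q + 1 := by
    by_contra hcon
    push Not at hcon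
    have : (k : ℝ) * (q + 1) ≤ t * t ^ 9 := mul_le_mul hk1 hcon (by positivity) ht0.le
    linarith
  have hq2 : t ^ 9 / 2 ≤ q := by linarith
  have hq3 : (1 : ℝ) ≤ q := by linarith
  have hq3' : 1 ≤ q := by exact_mod_cast hq3
  have hq0 : (0 : ℝ) < q := by linarith
  -- upper bound of q
  have hq4 : (q : ℝ) ≤ 2 * t ^ 9 := by
    by_contra hcon
    push Not at hcon
    have h1 : t / 2 * (2 * t ^ 9) < k * q := by
      have h2 : t / 2 ≤ k := by linarith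
      calc t / 2 * (2 * t ^ 9) < t / 2 * q := by
            exact mul_lt_mul_of_pos_left hcon (by linarith)
        _ ≤ k * q := mul_le_mul_of_nonneg_right h2 hq0.le
    have h3 : t / 2 * (2 * t ^ 9) = t * t ^ 9 := by ring
    linarith
  refine ⟨k, q, by omega, hq3', ?_, hqk, ?_, ?_, ?_⟩
  · calc q < 2 * q := by omega
      _ ≤ k * q := Nat.mul_le_mul_right q hk3
      _ ≤ h := hqk
  · have h1 : (k : ℝ) ≤ k * q := le_mul_of_one_le_right hk0.le hq3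
    have h2 : (k : ℝ) * (q + 1) = k * q + k := by ring
    linarith
  · have h1 : t ^ 9 = (h : ℝ) ^ (9 / 10 : ℝ) := by
      rw [ht, ← Real.rpow_natCast, ← Real.rpow_mul hh0]
      norm_num
    have h2 : (h : ℝ) ^ (9 / 10 : ℝ) ≤ (h : ℝ) ^ (29 / 30 : ℝ) := by
      refine Real.rpow_le_rpow_of_exponent_le ?_ (by norm_num)
      rw [← ht10]
      exact one_le_pow₀ (by linarith)
    linarith
  · have h1 : (C * t / c) ^ 4 ≤ q := by
      have h2 : (C * t / c) ^ 4 = (C / c) ^ 4 * t ^ 4 := by ring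
      have h3 : (C / c) ^ 4 ≤ t / 2 := by linarith
      have h4 : t ^ 5 ≤ t ^ 9 := pow_le_pow_right₀ (by linarith) (by norm_num)
      calc (C * t / c) ^ 4 = (C / c) ^ 4 * t ^ 4 := h2
        _ ≤ t / 2 * t ^ 4 := mul_le_mul_of_nonneg_right h3 (by positivity)
        _ = t ^ 5 / 2 := by ring
        _ ≤ t ^ 9 / 2 := by linarith
        _ ≤ q := hq2
    have h5 : C * t / c ≤ (q : ℝ) ^ (1 / 4 : ℝ) := by
      have h6 : ((C * t / c) ^ 4) ^ ((4 : ℕ) : ℝ)⁻¹ = C * t / c :=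
        Real.pow_rpow_inv_natCast (by positivity) (by norm_num)
      rw [← h6]
      have h7 : (1 / 4 : ℝ) = ((4 : ℕ) : ℝ)⁻¹ := by norm_num
      rw [h7]
      exact Real.rpow_le_rpow (by positivity) h1 (by positivity)
    have h8 : C * t ≤ c * (q : ℝ) ^ (1 / 4 : ℝ) := by
      rw [div_le_iff₀ hc] at h5
      linarith
    have h9 : C * k ≤ C * t := mul_le_mul_of_nonneg_left hk1 (by linarith)
    linarith

theorem flat_thm (ρ δ : ℝ) (hδ : 0 < δ) : ∃ K : ℕ, 1 ≤ K ∧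
    ∀ (E : Type u) [NormedAddCommGroup E] [NormedSpace ℝ E] [FiniteDimensional ℝ E],
      ¬ Good E ρ δ → ∀ h : ℕ, 1 ≤ h →
        FL E h (Real.sqrt h / (K * (1 + Real.log h) ^ K)) := by
  obtain ⟨ρ', hρ'⟩ : ∃ ρ' : ℝ, ρ' = max ρ 1 := ⟨_, rfl⟩
  have hρ1 : 1 ≤ ρ' := by rw [hρ']; exact le_max_right _ _
  have hρ2 : ρ ≤ ρ' := by rw [hρ']; exact le_max_left _ _
  obtain ⟨C, hC, hstep⟩ := flat_step.{u} δ hδ
  obtain ⟨c, hc, hquart⟩ := flat_quarter.{u} ρ' δ hδ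
  obtain ⟨K₀, h₁, -, hlog⟩ := log_gain (4 * ρ')
  obtain ⟨T, hT2, hkq⟩ := FlatThm_kq C c hC hc
  obtain ⟨h₀, hh₀⟩ := exists_nat_ge (max h₁ (T ^ 10))
  obtain ⟨K₁, hK₁⟩ := exists_nat_ge (2 * Real.sqrt h₀)
  refine ⟨max 1 (max K₀ K₁), le_max_left _ _, ?_⟩
  obtain ⟨K, hK⟩ : ∃ K : ℕ, K = max 1 (max K₀ K₁) := ⟨_, rfl⟩
  rw [← hK]
  have hK1 : 1 ≤ K := by rw [hK]; exact le_max_left _ _
  have hKK₀ : K₀ ≤ K := by rw [hK]; exact (le_max_left _ _).trans (le_max_right _ _)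
  have hKK₁ : K₁ ≤ K := by rw [hK]; exact (le_max_right _ _).trans (le_max_right _ _)
  have hKR : (0 : ℝ) < K := by exact_mod_cast hK1
  intro E _ _ _ hG h
  have hG' : ¬ Good E ρ' δ := fun hg => hG (FlatThm_good_mono hρ2 hg)
  induction h using Nat.strong_induction_on with
  | _ h ih =>
    intro h1
    have h1R : (1 : ℝ) ≤ h := by exact_mod_cast h1
    have hlogh : (0 : ℝ) ≤ Real.log h := Real.log_nonneg h1R
    have hLh : (1 : ℝ) ≤ (1 + Real.log h) ^ K := one_le_pow₀ (by linarith)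
    rcases lt_or_ge h h₀ with hlt | hge
    · refine FL_mono_g (FL_half h1) ?_
      rw [div_le_iff₀ (by positivity)]
      have h2 : Real.sqrt h ≤ Real.sqrt h₀ := Real.sqrt_le_sqrt (by exact_mod_cast hlt.le)
      have h3 : (K₁ : ℝ) ≤ K := by exact_mod_cast hKK₁
      have h4 : (K : ℝ) ≤ K * (1 + Real.log h) ^ K := le_mul_of_one_le_right hKR.le hLh
      linarith
    · have hgeR : (h₀ : ℝ) ≤ h := by exact_mod_cast hge
      have hT10 : T ^ 10 ≤ (h : ℝ) := ((le_max_right _ _).trans hh₀).trans hgeR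
      have hh1 : h₁ ≤ (h : ℝ) := ((le_max_left _ _).trans hh₀).trans hgeR
      obtain ⟨k, q, hk1, hq1, hqh, hkqh, hh4, hq29, hCk⟩ := hkq h hT10
      have hq1R : (1 : ℝ) ≤ q := by exact_mod_cast hq1
      have hlogq : (0 : ℝ) ≤ Real.log q := Real.log_nonneg hq1R
      have hLq : (1 : ℝ) ≤ (1 + Real.log q) ^ K := one_le_pow₀ (by linarith)
      have hF1 := hquart E hG' q hq1
      have hF2 := ih q hqh hq1
      obtain ⟨g₂, hg₂⟩ : ∃ g₂ : ℝ, g₂ = Real.sqrt q / (K * (1 + Real.log q) ^ K) := ⟨_, rfl⟩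
      rw [← hg₂] at hF2
      have hF3 : FL E q (max (c * (q : ℝ) ^ (1 / 4 : ℝ)) g₂) := fun y hy =>
        max_le (hF1 y hy) (hF2 y hy)
      have hF4 := hstep E ρ' _ k q (by linarith) hk1 hq1 hG' hF3 (hCk.trans (le_max_left _ _))
      refine FL_mono_g (FL_mono hF4 hkqh) ?_
      have h5 : Real.sqrt k * g₂ / (2 * ρ') ≤
          Real.sqrt k * max (c * (q : ℝ) ^ (1 / 4 : ℝ)) g₂ / (2 * ρ') := by
        gcongr
        exact le_max_right _ _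
      refine le_trans ?_ h5
      have h6 := hlog K hKK₀ h q hh1 hq1R hq29
      have h7 : Real.sqrt h ≤ 2 * (Real.sqrt k * Real.sqrt q) := by
        rw [← Real.sqrt_mul (Nat.cast_nonneg k), Real.sqrt_le_left (by positivity), mul_pow,
          Real.sq_sqrt (by positivity)]
        linarith
      rw [hg₂, mul_div_assoc', div_div, div_le_div_iff₀ (by positivity) (by positivity)]
      calc Real.sqrt h * (K * (1 + Real.log q) ^ K * (2 * ρ'))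
          ≤ 2 * (Real.sqrt k * Real.sqrt q) * (K * (1 + Real.log q) ^ K * (2 * ρ')) := by
            refine mul_le_mul_of_nonneg_right h7 (by positivity)
        _ = Real.sqrt k * Real.sqrt q * (K * (4 * ρ' * (1 + Real.log q) ^ K)) := by ring
        _ ≤ Real.sqrt k * Real.sqrt q * (K * (1 + Real.log h) ^ K) := by gcongr

end Pool.Agent.helper75.Pel
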