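import Pool.Agent.helper75.Pel.Extract
import Pool.Agent.helper75.Pel.ClaimB
import Pool.Agent.helper75.Pel.FlatThm
import Pool.Agent.helper75.Pel.Ell

/-!
# Cotype

`exists_greedy`, `s_bound` with `R = K(1+log N)^K` (`K` from `flat_thm`, monotone in `h ≤ N`),
`claimB` with `Λ = √2 R ell x`; `log₂ N + 1 ≤ 2(1 + log N)` (`Real.natLog_le_logb`, `1/log 2 ≤ 2`).  So
`∑‖x_i‖² ≤ (2(1+log N))² 2 R² (ell x)²`: `√ ≤ 3 K (1+log N)^{K+1} ell x`; new constant `K' = 3K + 1`.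
-/

namespace Pool.Agent.helper75.Pel

universe u

theorem Cotype_log (N : ℕ) (hN : 1 ≤ N) :
    ((Nat.log 2 N + 1 : ℕ) : ℝ) ≤ 2 * (1 + Real.log N) := by
  have hN' : (1 : ℝ) ≤ N := by exact_mod_cast hN
  have h1 : ((2 : ℝ)) ^ (Nat.log 2 N) ≤ N := by
    exact_mod_cast Nat.pow_log_le_self 2 (by omega)
  have h2 : (Nat.log 2 N : ℝ) * Real.log 2 ≤ Real.log N := by
    rw [← Real.log_pow]
    exact Real.log_le_log (by positivity) h1
  have h3 := Real.log_two_gt_d9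
  have h4 : (0 : ℝ) ≤ Nat.log 2 N := Nat.cast_nonneg _
  have h5 : 0 ≤ Real.log N := Real.log_nonneg hN'
  push_cast
  nlinarith

theorem cotype_thm (ρ δ : ℝ) (hδ : 0 < δ) : ∃ K : ℕ, 1 ≤ K ∧
    ∀ (E : Type u) [NormedAddCommGroup E] [NormedSpace ℝ E] [FiniteDimensional ℝ E],
      ¬ Good E ρ δ → ∀ (N : ℕ), 1 ≤ N → ∀ x : Fin N → E,
        Real.sqrt (∑ i, ‖x i‖ ^ 2) ≤ K * (1 + Real.log N) ^ K * ell x := by
  obtain ⟨K, hK1, hK⟩ := flat_thm.{u} ρ δ hδ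
  refine ⟨3 * K + 1, by omega, fun E _ _ _ hE N hN x => ?_⟩
  have hN' : (1 : ℝ) ≤ N := by exact_mod_cast hN
  have hlog : 0 ≤ Real.log N := Real.log_nonneg hN'
  have hK1' : (1 : ℝ) ≤ K := by exact_mod_cast hK1
  set a : ℝ := 1 + Real.log N with ha
  have ha1 : 1 ≤ a := by rw [ha]; linarith
  set R : ℝ := K * a ^ K with hRdef
  have hR : 0 < R := by
    have : 0 < a ^ K := by positivity
    rw [hRdef]; positivity
  have hell := ell_nonneg x
  obtain ⟨o, ho⟩ := exists_greedy x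
  have hcard : Fintype.card (Fin N) = N := Fintype.card_fin N
  have hFL : ∀ h : ℕ, 1 ≤ h → h ≤ Fintype.card (Fin N) → FL E h (Real.sqrt h / R) := by
    intro h h1 h2 y hy
    refine le_trans ?_ (hK E hE h h1 y hy)
    rw [hcard] at h2
    have h1' : (1 : ℝ) ≤ h := by exact_mod_cast h1
    have h2' : (h : ℝ) ≤ N := by exact_mod_cast h2
    have hl0 : 0 ≤ Real.log h := Real.log_nonneg h1'
    have hl : Real.log h ≤ Real.log N := Real.log_le_log (by linarith) h2'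
    have hpow : (1 + Real.log h) ^ K ≤ a ^ K :=
      pow_le_pow_left₀ (by linarith) (by rw [ha]; linarith) K
    have hpos : 0 < (1 + Real.log h) ^ K := by positivity
    apply div_le_div_of_nonneg_left (Real.sqrt_nonneg _) (by positivity)
    rw [hRdef]
    exact mul_le_mul_of_nonneg_left hpow (by positivity)
  have hs := s_bound ho hR hFL
  have hΛ0 : 0 ≤ Real.sqrt 2 * R * ell x := by positivity
  have hB := claimB ho hΛ0 hs
  rw [hcard] at hB
  have hlg := Cotype_log N hN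
  rw [← ha] at hlg
  have h0 : (0 : ℝ) ≤ ((Nat.log 2 N + 1 : ℕ) : ℝ) := Nat.cast_nonneg _
  have hfin : ∑ i, ‖x i‖ ^ 2 ≤ (3 * a * (R * ell x)) ^ 2 := by
    refine hB.trans ?_
    have e1 : ((Nat.log 2 N + 1 : ℕ) : ℝ) ^ 2 ≤ (2 * a) ^ 2 := pow_le_pow_left₀ h0 hlg 2
    have e2 : (Real.sqrt 2 * R * ell x) ^ 2 = 2 * (R * ell x) ^ 2 := by
      rw [mul_assoc, mul_pow, Real.sq_sqrt (by norm_num)]
    rw [e2]
    have e3 : 0 ≤ (R * ell x) ^ 2 := sq_nonneg _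
    calc ((Nat.log 2 N + 1 : ℕ) : ℝ) ^ 2 * (2 * (R * ell x) ^ 2)
        ≤ (2 * a) ^ 2 * (2 * (R * ell x) ^ 2) := mul_le_mul_of_nonneg_right e1 (by positivity)
      _ = 8 * (a ^ 2 * (R * ell x) ^ 2) := by ring
      _ ≤ 9 * (a ^ 2 * (R * ell x) ^ 2) := by
          have : 0 ≤ a ^ 2 * (R * ell x) ^ 2 := by positivity
          linarith
      _ = (3 * a * (R * ell x)) ^ 2 := by ring
  have hsq : Real.sqrt (∑ i, ‖x i‖ ^ 2) ≤ 3 * a * (R * ell x) := by
    rw [← Real.sqrt_sq (show 0 ≤ 3 * a * (R * ell x) by positivity)]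
    exact Real.sqrt_le_sqrt hfin
  refine hsq.trans ?_
  have e4 : 3 * a * (R * ell x) = (3 * K * a ^ (K + 1)) * ell x := by
    rw [hRdef]; ring
  rw [e4]
  apply mul_le_mul_of_nonneg_right _ hell
  have e5 : a ^ (K + 1) ≤ a ^ (3 * K + 1) := pow_le_pow_right₀ ha1 (by omega)
  have e6 : (0 : ℝ) ≤ a ^ (K + 1) := by positivity
  push_cast
  nlinarith [mul_le_mul_of_nonneg_left e5 (show (0 : ℝ) ≤ 3 * K by positivity)]

end Pool.Agent.helper75.Pel
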