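import Mathlib

/-!
# Signs : choice of signs in a Euclidean space

Induction on the number of vectors: `‖a+v‖² + ‖a-v‖² = 2‖a‖² + 2‖v‖²` (`parallelogram_law_with_norm`).
-/

namespace Pool.Agent.helper75.Pel

theorem Signs_step {H : Type} [NormedAddCommGroup H] [InnerProductSpace ℝ H] (a v : H) :
    (∃ δ : ℝ, |δ| = 1 ∧ ‖a + δ • v‖ ^ 2 ≤ ‖a‖ ^ 2 + ‖v‖ ^ 2) ∧
      ∃ δ : ℝ, |δ| = 1 ∧ ‖a‖ ^ 2 + ‖v‖ ^ 2 ≤ ‖a + δ • v‖ ^ 2 := by
  have h := parallelogram_law_with_norm ℝ a v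
  have h1 : ‖a + (1 : ℝ) • v‖ = ‖a + v‖ := by rw [one_smul]
  have h2 : ‖a + (-1 : ℝ) • v‖ = ‖a - v‖ := by rw [neg_one_smul, sub_eq_add_neg]
  constructor
  · by_cases hc : ‖a + v‖ ^ 2 ≤ ‖a‖ ^ 2 + ‖v‖ ^ 2
    · exact ⟨1, abs_one, by rw [h1]; exact hc⟩
    · refine ⟨-1, by simp, ?_⟩
      rw [h2]
      nlinarith
  · by_cases hc : ‖a‖ ^ 2 + ‖v‖ ^ 2 ≤ ‖a + v‖ ^ 2
    · exact ⟨1, abs_one, by rw [h1]; exact hc⟩
    · refine ⟨-1, by simp, ?_⟩
      rw [h2]
      nlinarith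

theorem exists_signs_le {H : Type} [NormedAddCommGroup H] [InnerProductSpace ℝ H]
    {κ : Type} [Fintype κ] (v : κ → H) :
    ∃ ε : κ → ℝ, (∀ j, |ε j| = 1) ∧ ‖∑ j, ε j • v j‖ ^ 2 ≤ ∑ j, ‖v j‖ ^ 2 := by
  classical
  have key : ∀ s : Finset κ, ∃ ε : κ → ℝ, (∀ j, |ε j| = 1) ∧
      ‖∑ j ∈ s, ε j • v j‖ ^ 2 ≤ ∑ j ∈ s, ‖v j‖ ^ 2 := by
    intro s
    induction s using Finset.induction_on with
    | empty => exact ⟨fun _ => 1, fun _ => abs_one, by simp⟩
    | insert j s hj ih =>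
      obtain ⟨ε, h1, h2⟩ := ih
      obtain ⟨δ, h3, h4⟩ := (Signs_step (∑ j ∈ s, ε j • v j) (v j)).1
      refine ⟨Function.update ε j δ, ?_, ?_⟩
      · intro i
        by_cases h : i = j
        · subst h; rw [Function.update_self]; exact h3
        · rw [Function.update_of_ne h]; exact h1 i
      · rw [Finset.sum_insert hj, Finset.sum_insert hj, Function.update_self]
        have : ∑ i ∈ s, Function.update ε j δ i • v i = ∑ i ∈ s, ε i • v i :=
          Finset.sum_congr rfl fun i hi => by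
            rw [Function.update_of_ne (ne_of_mem_of_not_mem hi hj)]
        rw [this, add_comm (δ • v j)]
        linarith
  exact key Finset.univ

theorem exists_signs_ge {H : Type} [NormedAddCommGroup H] [InnerProductSpace ℝ H]
    {κ : Type} [Fintype κ] (v : κ → H) :
    ∃ ε : κ → ℝ, (∀ j, |ε j| = 1) ∧ ∑ j, ‖v j‖ ^ 2 ≤ ‖∑ j, ε j • v j‖ ^ 2 := by
  classical
  have key : ∀ s : Finset κ, ∃ ε : κ → ℝ, (∀ j, |ε j| = 1) ∧
      ∑ j ∈ s, ‖v j‖ ^ 2 ≤ ‖∑ j ∈ s, ε j • v j‖ ^ 2 := by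
    intro s
    induction s using Finset.induction_on with
    | empty => exact ⟨fun _ => 1, fun _ => abs_one, by simp⟩
    | insert j s hj ih =>
      obtain ⟨ε, h1, h2⟩ := ih
      obtain ⟨δ, h3, h4⟩ := (Signs_step (∑ j ∈ s, ε j • v j) (v j)).2
      refine ⟨Function.update ε j δ, ?_, ?_⟩
      · intro i
        by_cases h : i = j
        · subst h; rw [Function.update_self]; exact h3
        · rw [Function.update_of_ne h]; exact h1 i
      · rw [Finset.sum_insert hj, Finset.sum_insert hj, Function.update_self]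
        have : ∑ i ∈ s, Function.update ε j δ i • v i = ∑ i ∈ s, ε i • v i :=
          Finset.sum_congr rfl fun i hi => by
            rw [Function.update_of_ne (ne_of_mem_of_not_mem hi hj)]
        rw [this, add_comm (δ • v j)]
        linarith
  exact key Finset.univ

end Pool.Agent.helper75.Pel
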