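import Pool.Agent.helper75.Pel.Defs
import Pool.Agent.helper75.Pel.Signs

/-!
# GoodOf : a good subspace from vectors

`z : κ → E` (nonempty finite `κ`), `N` a function with `N a > 0` for `a ≠ 0`, monotone in `|a_j|`,
`(1-δ') N a ≤ ‖∑ a_j z_j‖ ≤ (1+δ') N a`.  The `z_j` are linearly independent; `F = span (range z)`,
`Basis.span`, reindexed by `Fin (finrank F)`.  Unconditionality: `‖∑ a_j z_j‖ ≤ (1+δ') N a ≤ (1+δ') N c ≤
(1+δ')/(1-δ') ‖∑ c_j z_j‖`.  Distance: let `T : F ≃L Euclidean`, `A = ‖T‖`, `B = ‖T.symm‖`.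
In an inner product space there are signs `ε_j ∈ {1,-1}` with `‖∑ ε_j v_j‖² ≤ ∑ ‖v_j‖²`, and signs with
`≥` (induction: `‖a+v‖² + ‖a-v‖² = 2‖a‖² + 2‖v‖²`).  With `v_j = T z_j`:
* `(1-δ')² N(1)² = (1-δ')² N(ε)² ≤ ‖∑ ε_j z_j‖² ≤ B² ‖∑ ε_j T z_j‖² ≤ B² ∑ ‖T z_j‖² ≤
  A²B² ∑ ‖z_j‖² ≤ A²B² (1+δ')² ∑ N(e_j)²`;
* `(1-δ')² ∑ N(e_j)² ≤ ∑ ‖z_j‖² ≤ B² ∑ ‖T z_j‖² ≤ B² ‖∑ ε_j T z_j‖² ≤ A²B² ‖∑ ε_j z_j‖² ≤ A²B²(1+δ')² N(1)²`.
-/

namespace Pool.Agent.helper75.Pel

universe u

/-- The norm of a combination of the reindexed basis of the span. -/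
private theorem GoodOf_norm {E : Type u} [NormedAddCommGroup E] [NormedSpace ℝ E]
    {κ : Type} [Fintype κ] {z : κ → E} (hli : LinearIndependent ℝ z) {n : ℕ} (e : κ ≃ Fin n)
    (a : Fin n → ℝ) :
    ‖∑ j, a j • ((Module.Basis.span hli).reindex e) j‖ = ‖∑ i, a (e i) • z i‖ := by
  rw [Submodule.coe_norm]
  congr 1
  rw [Submodule.coe_sum, ← e.sum_comp]
  apply Finset.sum_congr rfl
  intro i _
  rw [Submodule.coe_smul, Module.Basis.reindex_apply, Equiv.symm_apply_apply,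
    Module.Basis.span_apply]

theorem good_of_vectors (E : Type u) [NormedAddCommGroup E] [NormedSpace ℝ E]
    [FiniteDimensional ℝ E] {κ : Type} [Fintype κ] [DecidableEq κ] [Nonempty κ]
    (z : κ → E) (N : (κ → ℝ) → ℝ) {δ' δ ρ : ℝ} (h0 : 0 ≤ δ') (h1 : δ' < 1) (hρ : 0 < ρ)
    (hN0 : ∀ a : κ → ℝ, a ≠ 0 → 0 < N a)
    (hmono : ∀ a c : κ → ℝ, (∀ j, |a j| ≤ |c j|) → N a ≤ N c)
    (hz : ∀ a : κ → ℝ, (1 - δ') * N a ≤ ‖∑ j, a j • z j‖ ∧ ‖∑ j, a j • z j‖ ≤ (1 + δ') * N a)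
    (hδ : 1 + δ' ≤ (1 + δ) * (1 - δ'))
    (hratio : (1 + δ') * (ρ * Real.sqrt (∑ j, N (Pi.single j 1) ^ 2)) ≤ (1 - δ') * N (fun _ => 1) ∨
      (1 + δ') * (ρ * N (fun _ => 1)) ≤ (1 - δ') * Real.sqrt (∑ j, N (Pi.single j 1) ^ 2)) :
    Good E ρ δ := by
  have hpos : 0 < 1 - δ' := by linarith
  have hpos' : 0 < 1 + δ' := by linarith
  -- norms of the vectors
  have hsingle : ∀ j, ∑ i, (Pi.single j (1 : ℝ) : κ → ℝ) i • z i = z j := by
    intro j
    rw [Finset.sum_eq_single j]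
    · rw [Pi.single_eq_same, one_smul]
    · intro i _ hi
      rw [Pi.single_eq_of_ne hi, zero_smul]
    · intro h
      exact absurd (Finset.mem_univ j) h
  have hzj : ∀ j, (1 - δ') * N (Pi.single j 1) ≤ ‖z j‖ ∧ ‖z j‖ ≤ (1 + δ') * N (Pi.single j 1) := by
    intro j
    have := hz (Pi.single j 1)
    rwa [hsingle j] at this
  have hNj : ∀ j, 0 < N (Pi.single j 1) := by
    intro j
    apply hN0
    intro h
    have := congrFun h j
    rw [Pi.single_eq_same] at this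
    exact one_ne_zero this
  have hN1 : 0 < N (fun _ => 1) := by
    apply hN0
    intro h
    have := congrFun h (Classical.arbitrary κ)
    exact one_ne_zero this
  -- linear independence
  have hli : LinearIndependent ℝ z := by
    rw [Fintype.linearIndependent_iff]
    intro a ha
    by_contra hne
    push Not at hne
    obtain ⟨i, hi⟩ := hne
    have ha0 : a ≠ 0 := fun h => hi (by rw [h]; rfl)
    have h2 := (hz a).1
    rw [ha, norm_zero] at h2
    have h3 := mul_pos hpos (hN0 a ha0)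
    linarith
  have hcard : Fintype.card κ = Module.finrank ℝ (Submodule.span ℝ (Set.range z)) :=
    (finrank_span_eq_card hli).symm
  set F : Submodule ℝ E := Submodule.span ℝ (Set.range z) with hF
  let e : κ ≃ Fin (Module.finrank ℝ F) := Fintype.equivFinOfCardEq hcard
  refine ⟨F, ⟨(Module.Basis.span hli).reindex e, ?_⟩, ?_⟩
  · intro a c hac
    rw [GoodOf_norm hli e, GoodOf_norm hli e]
    have h2 := (hz fun i => a (e i)).2
    have h3 := (hz fun i => c (e i)).1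
    have h4 : N (fun i => a (e i)) ≤ N (fun i => c (e i)) := hmono _ _ fun i => hac (e i)
    have hc0 : 0 ≤ ‖∑ i, c (e i) • z i‖ := norm_nonneg _
    -- `(1+δ') N ≤ (1+δ) (1-δ') N ≤ (1+δ) ‖.‖`
    have hNc : 0 ≤ N (fun i => c (e i)) := by
      by_cases hc : (fun i => c (e i)) = 0
      · by_contra hneg
        push Not at hneg
        have h5 := (hz fun i => c (e i)).2
        have h6 := mul_neg_of_pos_of_neg hpos' hneg
        linarith
      · exact (hN0 _ hc).le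
    have h1δ : 0 ≤ 1 + δ := by
      by_contra hneg
      push Not at hneg
      have := mul_neg_of_neg_of_pos hneg hpos
      linarith
    calc ‖∑ i, a (e i) • z i‖ ≤ (1 + δ') * N (fun i => a (e i)) := h2
      _ ≤ (1 + δ') * N (fun i => c (e i)) := mul_le_mul_of_nonneg_left h4 hpos'.le
      _ ≤ (1 + δ) * (1 - δ') * N (fun i => c (e i)) := mul_le_mul_of_nonneg_right hδ hNc
      _ = (1 + δ) * ((1 - δ') * N (fun i => c (e i))) := by ring
      _ ≤ (1 + δ) * ‖∑ i, c (e i) • z i‖ := mul_le_mul_of_nonneg_left h3 h1δ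
  · intro T
    set A : ℝ := ‖(T : F →L[ℝ] EuclideanSpace ℝ (Fin (Module.finrank ℝ F)))‖ with hA
    set B : ℝ := ‖(T.symm : EuclideanSpace ℝ (Fin (Module.finrank ℝ F)) →L[ℝ] F)‖ with hB
    have hA0 : 0 ≤ A := ContinuousLinearMap.opNorm_nonneg _
    have hB0 : 0 ≤ B := ContinuousLinearMap.opNorm_nonneg _
    have hTA : ∀ x : F, ‖T x‖ ≤ A * ‖x‖ := fun x =>
      (T : F →L[ℝ] EuclideanSpace ℝ (Fin (Module.finrank ℝ F))).le_opNorm x
    have hTB : ∀ x : F, ‖x‖ ≤ B * ‖T x‖ := by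
      intro x
      have := (T.symm : EuclideanSpace ℝ (Fin (Module.finrank ℝ F)) →L[ℝ] F).le_opNorm (T x)
      simpa using this
    let Z : κ → F := fun i => ⟨z i, Submodule.subset_span ⟨i, rfl⟩⟩
    have hZn : ∀ i, ‖Z i‖ = ‖z i‖ := fun i => rfl
    have hZs : ∀ ε : κ → ℝ, ‖∑ i, ε i • Z i‖ = ‖∑ i, ε i • z i‖ := by
      intro ε
      rw [Submodule.coe_norm, Submodule.coe_sum]
      rfl
    have hNε : ∀ ε : κ → ℝ, (∀ j, |ε j| = 1) → N ε = N (fun _ => 1) := by
      intro ε hε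
      apply le_antisymm
      · exact hmono _ _ fun j => by rw [hε j, abs_one]
      · exact hmono _ _ fun j => by rw [hε j, abs_one]
    set S : ℝ := ∑ j, N (Pi.single j 1) ^ 2 with hS
    have hSpos : 0 < S := by
      rw [hS]
      apply Finset.sum_pos
      · intro j _
        exact pow_pos (hNj j) 2
      · exact Finset.univ_nonempty
    have hTsum : ∀ ε : κ → ℝ, T (∑ i, ε i • Z i) = ∑ i, ε i • T (Z i) := by
      intro ε
      rw [map_sum]
      exact Finset.sum_congr rfl fun i _ => map_smul T _ _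
    have hsq : Real.sqrt S ^ 2 = S := Real.sq_sqrt hSpos.le
    have hsqpos : 0 < Real.sqrt S := Real.sqrt_pos.mpr hSpos
    rcases hratio with hr | hr
    · obtain ⟨ε, hε, hle⟩ := exists_signs_le fun i => T (Z i)
      have h1 : (1 - δ') * N (fun _ => 1) ≤ B * ‖∑ i, ε i • T (Z i)‖ := by
        rw [← hNε ε hε, ← hTsum]
        refine ((hz ε).1).trans ?_
        rw [← hZs]
        exact hTB _
      have h2 : ∑ i, ‖T (Z i)‖ ^ 2 ≤ (A * (1 + δ')) ^ 2 * S := by
        rw [hS, Finset.mul_sum]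
        apply Finset.sum_le_sum
        intro i _
        rw [← mul_pow]
        apply pow_le_pow_left₀ (norm_nonneg _)
        calc ‖T (Z i)‖ ≤ A * ‖Z i‖ := hTA _
          _ ≤ A * ((1 + δ') * N (Pi.single i 1)) := by
              rw [hZn]
              exact mul_le_mul_of_nonneg_left (hzj i).2 hA0
          _ = A * (1 + δ') * N (Pi.single i 1) := by ring
      have h3 : ((1 - δ') * N (fun _ => 1)) ^ 2 ≤ (A * B * (1 + δ') * Real.sqrt S) ^ 2 := by
        calc ((1 - δ') * N (fun _ => 1)) ^ 2 ≤ (B * ‖∑ i, ε i • T (Z i)‖) ^ 2 :=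
              pow_le_pow_left₀ (mul_pos hpos hN1).le h1 2
          _ = B ^ 2 * ‖∑ i, ε i • T (Z i)‖ ^ 2 := by ring
          _ ≤ B ^ 2 * ((A * (1 + δ')) ^ 2 * S) :=
              mul_le_mul_of_nonneg_left (hle.trans h2) (sq_nonneg B)
          _ = (A * B * (1 + δ') * Real.sqrt S) ^ 2 := by
              rw [mul_pow _ (Real.sqrt S), hsq]
              ring
      have h4 : (1 - δ') * N (fun _ => 1) ≤ A * B * (1 + δ') * Real.sqrt S :=
        le_of_sq_le_sq h3 (by positivity)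
      have h5 : ρ * ((1 + δ') * Real.sqrt S) ≤ A * B * ((1 + δ') * Real.sqrt S) := by
        calc ρ * ((1 + δ') * Real.sqrt S) = (1 + δ') * (ρ * Real.sqrt S) := by ring
          _ ≤ _ := hr
          _ ≤ _ := h4
          _ = _ := by ring
      exact le_of_mul_le_mul_right h5 (by positivity)
    · obtain ⟨ε, hε, hge⟩ := exists_signs_ge fun i => T (Z i)
      have h1 : ‖∑ i, ε i • T (Z i)‖ ≤ A * ((1 + δ') * N (fun _ => 1)) := by
        rw [← hNε ε hε, ← hTsum]
        refine (hTA _).trans ?_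
        rw [hZs]
        exact mul_le_mul_of_nonneg_left (hz ε).2 hA0
      have h2 : (1 - δ') ^ 2 * S ≤ B ^ 2 * ∑ i, ‖T (Z i)‖ ^ 2 := by
        rw [hS, Finset.mul_sum, Finset.mul_sum]
        apply Finset.sum_le_sum
        intro i _
        rw [← mul_pow, ← mul_pow]
        apply pow_le_pow_left₀ (mul_pos hpos (hNj i)).le
        refine (hzj i).1.trans ?_
        rw [← hZn]
        exact hTB _
      have h3 : ((1 - δ') * Real.sqrt S) ^ 2 ≤ (A * B * (1 + δ') * N (fun _ => 1)) ^ 2 := by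
        calc ((1 - δ') * Real.sqrt S) ^ 2 = (1 - δ') ^ 2 * S := by rw [mul_pow, hsq]
          _ ≤ B ^ 2 * ∑ i, ‖T (Z i)‖ ^ 2 := h2
          _ ≤ B ^ 2 * ‖∑ i, ε i • T (Z i)‖ ^ 2 := mul_le_mul_of_nonneg_left hge (sq_nonneg B)
          _ ≤ B ^ 2 * (A * ((1 + δ') * N (fun _ => 1))) ^ 2 :=
              mul_le_mul_of_nonneg_left (pow_le_pow_left₀ (norm_nonneg _) h1 2) (sq_nonneg B)
          _ = (A * B * (1 + δ') * N (fun _ => 1)) ^ 2 := by ring
      have h4 : (1 - δ') * Real.sqrt S ≤ A * B * (1 + δ') * N (fun _ => 1) :=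
        le_of_sq_le_sq h3 (by positivity)
      have h5 : ρ * ((1 + δ') * N (fun _ => 1)) ≤ A * B * ((1 + δ') * N (fun _ => 1)) := by
        calc ρ * ((1 + δ') * N (fun _ => 1)) = (1 + δ') * (ρ * N (fun _ => 1)) := by ring
          _ ≤ _ := hr
          _ ≤ _ := h4
          _ = _ := by ring
      exact le_of_mul_le_mul_right h5 (by positivity)

end Pool.Agent.helper75.Pel
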