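import Pool.Agent.helper75.Pel.Select
import Pool.Agent.helper75.Pel.GoodOf

/-!
# Crit : the block criterion

`crit`: `δ' = min (δ/4) (1/4) > 0`: `(1+δ') ≤ (1+δ)(1-δ')` and `(1+δ') ≤ 2(1-δ')`.  `select δ'`, `z_j = ∑_{β i = j} g_i y_i`,
`∑_i a_{β i} g_i y_i = ∑_j a_j z_j`, `good_of_vectors` with `N = bN y β` (`N a > 0` for `a ≠ 0` by
`bN_coord_le` and `bN (single j 1) ≥ C k σ > 0`).
`crit_sub`: restrict to the blocks in `J` (index type `{i // β i ∈ J}`, `κ' = {j // j ∈ J}`): the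
restricted family has the same operator bound, `bN` of the restricted family at `single j 1` is
`bN y β (single j 1)` and at `1` is `bN y β (indicator of J)` (`ell_congr`).
-/

namespace Pool.Agent.helper75.Pel

universe u

/-- the sum over the blocks -/
theorem Crit_sum {E : Type u} [NormedAddCommGroup E] [NormedSpace ℝ E]
    {ι κ : Type} [Fintype ι] [Fintype κ] [DecidableEq κ] (y : ι → E) (β : ι → κ) (g : ι → ℝ)
    (a : κ → ℝ) :
    ∑ j, a j • (∑ i ∈ Finset.univ.filter (fun i => β i = j), g i • y i)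
      = ∑ i, a (β i) • g i • y i := by
  rw [← Finset.sum_fiberwise Finset.univ β (fun i => a (β i) • g i • y i)]
  refine Finset.sum_congr rfl (fun j _ => ?_)
  rw [Finset.smul_sum]
  refine Finset.sum_congr rfl (fun i hi => ?_)
  rw [(Finset.mem_filter.mp hi).2]

/-- restriction to the blocks in `J` -/
theorem Crit_bN {E : Type u} [NormedAddCommGroup E] [NormedSpace ℝ E] [FiniteDimensional ℝ E]
    {ι κ : Type} [Fintype ι] [DecidableEq κ] (y : ι → E) (β : ι → κ) (J : Finset κ)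
    (a : κ → ℝ) (ha : ∀ j, j ∉ J → a j = 0) (a' : {j // j ∈ J} → ℝ) (haa : ∀ j, a' j = a j.1) :
    bN (fun i : {i // β i ∈ J} => y i.1) (fun i => (⟨β i.1, i.2⟩ : {j // j ∈ J})) a'
      = bN y β a := by
  unfold bN
  apply ell_congr
  intro ξ
  unfold QF
  simp only [haa]
  have h1 : ∑ i : {i // β i ∈ J}, (ξ (a (β i.1) • y i.1)) ^ 2
      = ∑ i ∈ Finset.univ.filter (fun i => β i ∈ J), (ξ (a (β i) • y i)) ^ 2 := by
    rw [← Finset.sum_subtype (Finset.univ.filter (fun i => β i ∈ J))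
      (fun x => by simp) (fun i => (ξ (a (β i) • y i)) ^ 2)]
  rw [h1, Finset.sum_filter]
  refine Finset.sum_congr rfl (fun i _ => ?_)
  split_ifs with h
  · rfl
  · rw [ha _ h]
    simp

/-- the restricted family has the same operator bound -/
theorem Crit_opB {E : Type u} [NormedAddCommGroup E] [NormedSpace ℝ E]
    {ι : Type} [Fintype ι] (y : ι → E) (p : ι → Prop) [DecidablePred p] {σ : ℝ} (h : OpB y σ) :
    OpB (fun i : {i // p i} => y i.1) σ := by
  intro c
  have h2 := h (fun i => if hi : p i then c ⟨i, hi⟩ else 0)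
  have e1 : ∑ i, (if hi : p i then c ⟨i, hi⟩ else 0) • y i = ∑ i : {i // p i}, c i • y i.1 := by
    have h3 : ∑ i : {i // p i}, c i • y i.1
        = ∑ i ∈ Finset.univ.filter p, (if hi : p i then c ⟨i, hi⟩ else 0) • y i := by
      rw [Finset.sum_subtype (p := p) (Finset.univ.filter p) (fun x => by simp)
        (fun i => (if hi : p i then c ⟨i, hi⟩ else 0) • y i)]
      refine Finset.sum_congr rfl (fun i _ => ?_)
      rw [dif_pos i.2]
    rw [h3, Finset.sum_filter]
    refine Finset.sum_congr rfl (fun i _ => ?_)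
    split_ifs with hi
    · rfl
    · simp
  have e2 : ∑ i, (if hi : p i then c ⟨i, hi⟩ else 0) ^ 2 = ∑ i : {i // p i}, c i ^ 2 := by
    have h3 : ∑ i : {i // p i}, c i ^ 2
        = ∑ i ∈ Finset.univ.filter p, (if hi : p i then c ⟨i, hi⟩ else 0) ^ 2 := by
      rw [Finset.sum_subtype (p := p) (Finset.univ.filter p) (fun x => by simp)
        (fun i => (if hi : p i then c ⟨i, hi⟩ else 0) ^ 2)]
      refine Finset.sum_congr rfl (fun i _ => ?_)
      rw [dif_pos i.2]
    rw [h3, Finset.sum_filter]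
    refine Finset.sum_congr rfl (fun i _ => ?_)
    split_ifs with hi
    · rfl
    · simp
  rw [e1, e2] at h2
  exact h2

theorem crit (δ : ℝ) (hδ : 0 < δ) : ∃ C : ℝ, 1 ≤ C ∧
    ∀ (E : Type u) [NormedAddCommGroup E] [NormedSpace ℝ E] [FiniteDimensional ℝ E]
      (ι κ : Type) [Fintype ι] [Fintype κ] [DecidableEq κ] [Nonempty κ]
      (y : ι → E) (β : ι → κ) (σ ρ : ℝ), 0 < σ → 0 < ρ → OpB y σ →
      (∀ j, C * Fintype.card κ * σ ≤ bN y β (Pi.single j 1)) →
      (2 * ρ * Real.sqrt (∑ j, bN y β (Pi.single j 1) ^ 2) ≤ ell y ∨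
        2 * ρ * ell y ≤ Real.sqrt (∑ j, bN y β (Pi.single j 1) ^ 2)) →
      Good E ρ δ := by
  have hd0 : 0 < min (δ / 4) (1 / 4) := lt_min (by linarith) (by norm_num)
  have hd1 : min (δ / 4) (1 / 4) ≤ δ / 4 := min_le_left _ _
  have hd2 : min (δ / 4) (1 / 4) ≤ 1 / 4 := min_le_right _ _
  set δ' : ℝ := min (δ / 4) (1 / 4) with hδ'
  obtain ⟨C, hC1, hC⟩ := select.{u} δ' hd0
  refine ⟨C, hC1, ?_⟩
  intro E _ _ _ ι κ _ _ _ _ y β σ ρ hσ hρ hop hn hr
  obtain ⟨g, hg⟩ := hC E ι κ y β σ hσ hop hn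
  have hcard : (0 : ℝ) < Fintype.card κ := by exact_mod_cast Fintype.card_pos
  have hpos : ∀ j, 0 < bN y β (Pi.single j 1) := fun j =>
    lt_of_lt_of_le (by positivity) (hn j)
  have h2 : (1 + δ') ≤ 2 * (1 - δ') := by linarith
  refine good_of_vectors E (fun j => ∑ i ∈ Finset.univ.filter (fun i => β i = j), g i • y i)
    (bN y β) (δ' := δ') hd0.le (by linarith) hρ ?_ ?_ ?_ ?_ ?_
  · intro a ha
    obtain ⟨j, hj⟩ := Function.ne_iff.mp ha
    have h3 := bN_coord_le y β a j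
    have h4 : 0 < |a j| := abs_pos.mpr hj
    have h5 := mul_pos h4 (hpos j)
    linarith
  · intro a c h
    exact bN_mono y β h
  · intro a
    rw [Crit_sum]
    exact hg a
  · have h6 : δ * δ' ≤ δ * (1 / 4) := mul_le_mul_of_nonneg_left hd2 hδ.le
    nlinarith
  · rw [bN_one]
    have hs : 0 ≤ Real.sqrt (∑ j, bN y β (Pi.single j 1) ^ 2) := Real.sqrt_nonneg _
    have he : 0 ≤ ell y := by
      rw [← bN_one y β]
      exact bN_nonneg y β _
    have h1d : 0 ≤ 1 - δ' := by linarith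
    rcases hr with hr | hr
    · left
      calc (1 + δ') * (ρ * Real.sqrt (∑ j, bN y β (Pi.single j 1) ^ 2))
          ≤ (2 * (1 - δ')) * (ρ * Real.sqrt (∑ j, bN y β (Pi.single j 1) ^ 2)) :=
            mul_le_mul_of_nonneg_right h2 (mul_nonneg hρ.le hs)
        _ = (1 - δ') * (2 * ρ * Real.sqrt (∑ j, bN y β (Pi.single j 1) ^ 2)) := by ring
        _ ≤ (1 - δ') * ell y := mul_le_mul_of_nonneg_left hr h1d
    · right
      calc (1 + δ') * (ρ * ell y) ≤ (2 * (1 - δ')) * (ρ * ell y) :=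
            mul_le_mul_of_nonneg_right h2 (mul_nonneg hρ.le he)
        _ = (1 - δ') * (2 * ρ * ell y) := by ring
        _ ≤ (1 - δ') * Real.sqrt (∑ j, bN y β (Pi.single j 1) ^ 2) :=
            mul_le_mul_of_nonneg_left hr h1d

/-- The criterion for a subset `J` of the blocks (constant `C` of `crit`, `card κ` instead of
`card J`). -/
theorem crit_sub (δ : ℝ) (hδ : 0 < δ) : ∃ C : ℝ, 1 ≤ C ∧
    ∀ (E : Type u) [NormedAddCommGroup E] [NormedSpace ℝ E] [FiniteDimensional ℝ E]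
      (ι κ : Type) [Fintype ι] [Fintype κ] [DecidableEq κ]
      (y : ι → E) (β : ι → κ) (J : Finset κ) (σ ρ : ℝ), J.Nonempty → 0 < σ → 0 < ρ → OpB y σ →
      (∀ j ∈ J, C * Fintype.card κ * σ ≤ bN y β (Pi.single j 1)) →
      (2 * ρ * Real.sqrt (∑ j ∈ J, bN y β (Pi.single j 1) ^ 2) ≤
        bN y β (fun j => if j ∈ J then 1 else 0)) →
      Good E ρ δ := by
  obtain ⟨C, hC1, hC⟩ := crit.{u} δ hδ
  refine ⟨C, hC1, ?_⟩
  intro E _ _ _ ι κ _ _ _ y β J σ ρ hJ hσ hρ hop hn hr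
  have hne : Nonempty {j // j ∈ J} := ⟨⟨hJ.choose, hJ.choose_spec⟩⟩
  have hsingle : ∀ j : {j // j ∈ J},
      bN (fun i : {i // β i ∈ J} => y i.1) (fun i => (⟨β i.1, i.2⟩ : {j // j ∈ J}))
        (Pi.single j 1) = bN y β (Pi.single j.1 1) := by
    intro j
    apply Crit_bN
    · intro k hk
      rw [Pi.single_eq_of_ne]
      rintro rfl
      exact hk j.2
    · intro k
      by_cases hkj : k = j
      · subst hkj
        simp
      · rw [Pi.single_eq_of_ne hkj, Pi.single_eq_of_ne]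
        intro h
        exact hkj (Subtype.ext h)
  refine hC E {i // β i ∈ J} {j // j ∈ J} (fun i => y i.1) (fun i => ⟨β i.1, i.2⟩) σ ρ hσ hρ
    (Crit_opB y (fun i => β i ∈ J) hop) ?_ ?_
  · intro j
    rw [hsingle]
    refine le_trans ?_ (hn j.1 j.2)
    have h1 : (Fintype.card {j // j ∈ J} : ℝ) ≤ Fintype.card κ := by
      exact_mod_cast Fintype.card_subtype_le _
    exact mul_le_mul_of_nonneg_right (mul_le_mul_of_nonneg_left h1 (by linarith)) hσ.le
  · left
    have h2 : ∑ j : {j // j ∈ J}, bN (fun i : {i // β i ∈ J} => y i.1)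
        (fun i => (⟨β i.1, i.2⟩ : {j // j ∈ J})) (Pi.single j 1) ^ 2
          = ∑ j ∈ J, bN y β (Pi.single j 1) ^ 2 := by
      simp only [hsingle]
      exact Finset.sum_coe_sort J (fun j => bN y β (Pi.single j 1) ^ 2)
    have h3 : ell (fun i : {i // β i ∈ J} => y i.1)
        = bN y β (fun j => if j ∈ J then 1 else 0) := by
      rw [← bN_one (fun i : {i // β i ∈ J} => y i.1)
        (fun i => (⟨β i.1, i.2⟩ : {j // j ∈ J}))]
      apply Crit_bN
      · intro j hj
        rw [if_neg hj]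
      · intro j
        rw [if_pos j.2]
    rw [h2, h3]
    exact hr

end Pool.Agent.helper75.Pel
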