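import Mathlib

/-!
# Far-from-Euclidean subspaces with good bases (`MP_6c92e3_an`): definitions

`ell x = E ‖∑ g_i x_i‖` (`g_i` independent standard Gaussian), `QF x ξ = ∑ ξ(x_i)^2` the covariance
form, `OpB x σ`: `‖∑ c_i x_i‖ ≤ σ |c|_2`.
-/

namespace Pool.Agent.helper75.Pel

open MeasureTheory ProbabilityTheory

universe u

/-- The standard Gaussian measure on `ι → ℝ`. -/
noncomputable def gam (ι : Type) [Fintype ι] : Measure (ι → ℝ) :=
  Measure.pi fun _ => gaussianReal 0 1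

instance (ι : Type) [Fintype ι] : IsProbabilityMeasure (gam ι) := by
  unfold gam; infer_instance

variable {E : Type u} [NormedAddCommGroup E] [NormedSpace ℝ E]

/-- `ell x = E ‖∑ g_i x_i‖`. -/
noncomputable def ell {ι : Type} [Fintype ι] (x : ι → E) : ℝ :=
  ∫ g, ‖∑ i, g i • x i‖ ∂(gam ι)

/-- The covariance form of a family. -/
noncomputable def QF {ι : Type} [Fintype ι] (x : ι → E) (ξ : E →L[ℝ] ℝ) : ℝ :=
  ∑ i, (ξ (x i)) ^ 2

/-- `‖∑ c_i x_i‖ ≤ σ |c|_2`. -/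
def OpB {ι : Type} [Fintype ι] (x : ι → E) (σ : ℝ) : Prop :=
  ∀ c : ι → ℝ, ‖∑ i, c i • x i‖ ≤ σ * Real.sqrt (∑ i, c i ^ 2)

/-- Flat systems. -/
def Flat {ι : Type} [Fintype ι] (y : ι → E) : Prop :=
  (∀ i, 1 ≤ ‖y i‖) ∧ OpB y (Real.sqrt 2)

/-- The block norm `N(a) = ell ((a_{β i} y_i)_i)`. -/
noncomputable def bN {ι κ : Type} [Fintype ι] (y : ι → E) (β : ι → κ) (a : κ → ℝ) : ℝ :=
  ell fun i => a (β i) • y i

/-- The vector `∑_i w_i x_i`. -/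
noncomputable def opx {ι : Type} [Fintype ι] (x : ι → E) (w : EuclideanSpace ℝ ι) : E :=
  ∑ i, w i • x i

/-- An orthonormal basis of `ℝ^ι` is greedy for `x`: on the span of the `o_j`, `j ≥ i`, the norm of
`w ↦ ∑ w_l x_l` is attained at `o_i`. -/
def GreedyB {ι : Type} [Fintype ι] (x : ι → E) {N : ℕ}
    (o : OrthonormalBasis (Fin N) ℝ (EuclideanSpace ℝ ι)) : Prop :=
  ∀ (i : Fin N) (c : Fin N → ℝ), (∀ j, j < i → c j = 0) →
    ‖∑ j, c j • opx x (o j)‖ ≤ ‖opx x (o i)‖ * Real.sqrt (∑ j, c j ^ 2)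

variable (E)

/-- Every flat system of `q` vectors has `ell ≥ g`. -/
def FL (q : ℕ) (g : ℝ) : Prop := ∀ y : Fin q → E, Flat y → g ≤ ell y

/-- Every `q` vectors of the unit ball have `ell ≤ t √q`. -/
def TY (q : ℕ) (t : ℝ) : Prop := ∀ x : Fin q → E, (∀ i, ‖x i‖ ≤ 1) → ell x ≤ t * Real.sqrt q

/-- `E` has a subspace with a `(1+δ)`-unconditional basis, at distance at least `ρ` from Euclidean. -/
def Good (ρ δ : ℝ) : Prop :=
  ∃ F : Submodule ℝ E,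
    (∃ b : Module.Basis (Fin (Module.finrank ℝ F)) ℝ F,
      ∀ a c : Fin (Module.finrank ℝ F) → ℝ, (∀ j, |a j| ≤ |c j|) →
        ‖∑ j, a j • b j‖ ≤ (1 + δ) * ‖∑ j, c j • b j‖) ∧
    ∀ T : F ≃L[ℝ] EuclideanSpace ℝ (Fin (Module.finrank ℝ F)),
      ρ ≤ ‖(T : F →L[ℝ] EuclideanSpace ℝ (Fin (Module.finrank ℝ F)))‖ *
        ‖(T.symm : EuclideanSpace ℝ (Fin (Module.finrank ℝ F)) →L[ℝ] F)‖

end Pool.Agent.helper75.Pel
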