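import Pool.Agent.helper75.Pel.Greedy
import Pool.Agent.helper75.Pel.Dom

/-!
# Extract : flat systems from a greedy basis

`s_i = ‖opx x (o i)‖` (`i : Fin N`, `N = card ι`).

`s_bound`: let `i₀` maximize `√(i+1) s_i`, `l = i₀ + 1`.  If `s_{i₀} = 0` all `s_i = 0`.  Otherwise let
`y_j = opx x (o j)/s_{i₀}` for `⌈l/2⌉ - 1 ≤ j ≤ i₀` (`h = l - ⌈l/2⌉ + 1` vectors, `h ≥ l/2`, `1 ≤ h ≤ N`).
Flat: `s_j ≥ s_{i₀}` (`greedy_anti`); for coefficients `c`:
`‖∑ c_j opx x (o j)‖ ≤ s_{⌈l/2⌉-1} |c|` and `√⌈l/2⌉ s_{⌈l/2⌉-1} ≤ √l s_{i₀}`, so the quotient is at most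
`√(l/⌈l/2⌉) ≤ √2`.  `ell y ≤ ell x/s_{i₀}` (`ell_mono` with the form of the subfamily of the basis,
`ell_opx`, `ell_smul`).  So `√h/R ≤ ell x/s_{i₀}`, `√l s_{i₀} ≤ √(2h) s_{i₀} ≤ √2 R ell x`.
-/

namespace Pool.Agent.helper75.Pel

universe u
variable {E : Type u} [NormedAddCommGroup E] [NormedSpace ℝ E] [FiniteDimensional ℝ E]
variable {ι : Type} [Fintype ι]

theorem s_bound {x : ι → E} {o : OrthonormalBasis (Fin (Fintype.card ι)) ℝ (EuclideanSpace ℝ ι)}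
    (ho : GreedyB x o) {R : ℝ} (hR : 0 < R)
    (hFL : ∀ h : ℕ, 1 ≤ h → h ≤ Fintype.card ι → FL E h (Real.sqrt h / R))
    (i : Fin (Fintype.card ι)) :
    Real.sqrt ((i : ℝ) + 1) * ‖opx x (o i)‖ ≤ Real.sqrt 2 * R * ell x := by
  have : Nonempty (Fin (Fintype.card ι)) := ⟨i⟩
  obtain ⟨i₀, hi₀⟩ := Finite.exists_max
    (fun k : Fin (Fintype.card ι) => Real.sqrt ((k : ℝ) + 1) * ‖opx x (o k)‖)
  have hell : 0 ≤ ell x := ell_nonneg x
  have hRHS : 0 ≤ Real.sqrt 2 * R * ell x := by positivity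
  refine (hi₀ i).trans ?_
  rcases (norm_nonneg (opx x (o i₀))).eq_or_lt' with h0 | hpos
  · show Real.sqrt ((i₀ : ℝ) + 1) * ‖opx x (o i₀)‖ ≤ _
    rw [h0, mul_zero]
    exact hRHS
  obtain ⟨s0, hs0⟩ : ∃ s0, s0 = ‖opx x (o i₀)‖ := ⟨_, rfl⟩
  rw [← hs0] at hpos
  obtain ⟨m, hm⟩ : ∃ m : ℕ, m = (i₀ : ℕ) / 2 := ⟨_, rfl⟩
  obtain ⟨h, hh⟩ : ∃ h : ℕ, h = (i₀ : ℕ) - m + 1 := ⟨_, rfl⟩
  have hiN : (i₀ : ℕ) < Fintype.card ι := i₀.2
  have hmi : m ≤ (i₀ : ℕ) := by omega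
  have hmN : m < Fintype.card ι := by omega
  let φ : Fin h → Fin (Fintype.card ι) := fun j => ⟨m + j, by have := j.2; omega⟩
  have hφ : Function.Injective φ := by
    intro a b hab
    have : m + (a : ℕ) = m + (b : ℕ) := congrArg Fin.val hab
    exact Fin.ext (by omega)
  let mF : Fin (Fintype.card ι) := ⟨m, hmN⟩
  -- the bound for the largest member
  have hsm : ‖opx x (o mF)‖ ≤ Real.sqrt 2 * s0 := by
    have h1 : Real.sqrt ((m : ℝ) + 1) * ‖opx x (o mF)‖ ≤ Real.sqrt ((i₀ : ℝ) + 1) * s0 := by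
      have := hi₀ mF
      rw [hs0]
      exact this
    have h2 : Real.sqrt ((i₀ : ℝ) + 1) ≤ Real.sqrt 2 * Real.sqrt ((m : ℝ) + 1) := by
      rw [← Real.sqrt_mul (by norm_num)]
      refine Real.sqrt_le_sqrt ?_
      have : (i₀ : ℕ) + 1 ≤ 2 * (m + 1) := by omega
      exact_mod_cast this
    have h3 : 0 < Real.sqrt ((m : ℝ) + 1) := Real.sqrt_pos.2 (by positivity)
    have h4 : Real.sqrt ((m : ℝ) + 1) * ‖opx x (o mF)‖
        ≤ Real.sqrt ((m : ℝ) + 1) * (Real.sqrt 2 * s0) := by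
      calc _ ≤ Real.sqrt ((i₀ : ℝ) + 1) * s0 := h1
        _ ≤ Real.sqrt 2 * Real.sqrt ((m : ℝ) + 1) * s0 := mul_le_mul_of_nonneg_right h2 hpos.le
        _ = _ := by ring
    exact le_of_mul_le_mul_left h4 h3
  -- the flat system
  let y : Fin h → E := fun j => s0⁻¹ • opx x (o (φ j))
  have hflat : Flat y := by
    constructor
    · intro j
      show 1 ≤ ‖s0⁻¹ • opx x (o (φ j))‖
      rw [norm_smul, norm_inv, Real.norm_of_nonneg hpos.le, le_inv_mul_iff₀ hpos, mul_one, hs0]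
      refine greedy_anti ho ?_
      show m + (j : ℕ) ≤ (i₀ : ℕ)
      have := j.2
      omega
    · intro c
      let c' : Fin (Fintype.card ι) → ℝ := Function.extend φ c 0
      have hc0 : ∀ k, k ∉ Set.range φ → c' k = 0 := by
        intro k hk
        exact Function.extend_apply' _ _ _ (by simpa [Set.mem_range] using hk)
      have hc1 : ∀ j, c' (φ j) = c j := fun j => hφ.extend_apply _ _ _
      have e1 : ∑ j, c j • opx x (o (φ j)) = ∑ k, c' k • opx x (o k) :=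
        Fintype.sum_of_injective φ hφ _ _
          (fun k hk => by rw [hc0 k hk, zero_smul]) (fun j => by rw [hc1])
      have e2 : ∑ j, c j ^ 2 = ∑ k, c' k ^ 2 :=
        Fintype.sum_of_injective φ hφ _ _
          (fun k hk => by rw [hc0 k hk]; norm_num) (fun j => by rw [hc1])
      have h1 : ‖∑ k, c' k • opx x (o k)‖ ≤ ‖opx x (o mF)‖ * Real.sqrt (∑ k, c' k ^ 2) := by
        refine ho mF c' fun k hk => hc0 k ?_
        rintro ⟨j, rfl⟩
        have : m + (j : ℕ) < m := hk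
        omega
      have e3 : ∑ j, c j • y j = s0⁻¹ • ∑ j, c j • opx x (o (φ j)) := by
        rw [Finset.smul_sum]
        exact Finset.sum_congr rfl fun j _ => smul_comm _ _ _
      rw [e3, norm_smul, norm_inv, Real.norm_of_nonneg hpos.le, inv_mul_le_iff₀ hpos, e1, e2]
      calc ‖∑ k, c' k • opx x (o k)‖ ≤ ‖opx x (o mF)‖ * Real.sqrt (∑ k, c' k ^ 2) := h1
        _ ≤ (Real.sqrt 2 * s0) * Real.sqrt (∑ k, c' k ^ 2) :=
          mul_le_mul_of_nonneg_right hsm (Real.sqrt_nonneg _)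
        _ = s0 * (Real.sqrt 2 * Real.sqrt (∑ k, c' k ^ 2)) := by ring
  have h1 : Real.sqrt h / R ≤ ell y := hFL h (by omega) (by omega) y hflat
  have h2 : ell y ≤ s0⁻¹ * ell x := by
    have e1 : ell y = |s0⁻¹| * ell (fun j => opx x (o (φ j))) := ell_smul _ _
    rw [e1, abs_of_nonneg (inv_nonneg.2 hpos.le)]
    refine mul_le_mul_of_nonneg_left ?_ (inv_nonneg.2 hpos.le)
    refine ell_mono fun ξ => ?_
    rw [← QF_opx x o ξ]
    unfold QF
    calc ∑ j, (ξ (opx x (o (φ j)))) ^ 2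
        = ∑ k ∈ Finset.univ.image φ, (ξ (opx x (o k))) ^ 2 :=
          (Finset.sum_image (f := fun k => (ξ (opx x (o k))) ^ 2) (s := Finset.univ) (g := φ)
            (fun a _ b _ hab => hφ hab)).symm
      _ ≤ ∑ k, (ξ (opx x (o k))) ^ 2 :=
          Finset.sum_le_univ_sum_of_nonneg fun k => sq_nonneg _
  have h3 : Real.sqrt h * s0 ≤ R * ell x := by
    have h4 := h1.trans h2
    rw [div_le_iff₀ hR, mul_comm (s0⁻¹) (ell x), ← div_eq_mul_inv, div_mul_eq_mul_div,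
      le_div_iff₀ hpos] at h4
    linarith
  have h5 : Real.sqrt ((i₀ : ℝ) + 1) ≤ Real.sqrt 2 * Real.sqrt h := by
    rw [← Real.sqrt_mul (by norm_num)]
    refine Real.sqrt_le_sqrt ?_
    have : (i₀ : ℕ) + 1 ≤ 2 * h := by omega
    exact_mod_cast this
  show Real.sqrt ((i₀ : ℝ) + 1) * ‖opx x (o i₀)‖ ≤ _
  rw [← hs0]
  calc Real.sqrt ((i₀ : ℝ) + 1) * s0 ≤ Real.sqrt 2 * Real.sqrt h * s0 :=
        mul_le_mul_of_nonneg_right h5 hpos.le
    _ = Real.sqrt 2 * (Real.sqrt h * s0) := by ring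
    _ ≤ Real.sqrt 2 * (R * ell x) := mul_le_mul_of_nonneg_left h3 (Real.sqrt_nonneg _)
    _ = Real.sqrt 2 * R * ell x := by ring

end Pool.Agent.helper75.Pel
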