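import Pool.Agent.helper75.Pel.Kwapien1

/-!
# Kwapien : the isomorphism

`kwapien_form` gives `Q`; `‖x‖² ≤ Q(x,x) ≤ D²‖x‖²`: `Q` is an inner product
(`InnerProductSpace.Core` on a type copy of `E`, or `LinearMap.BilinForm` and a basis of `E` orthonormal for
`Q`); a `Q`-orthonormal basis gives `T : E ≃ ℝⁿ` with `‖T x‖² = Q(x,x)`, so `‖T‖ ≤ D`, `‖T⁻¹‖ ≤ 1`.
-/

namespace Pool.Agent.helper75.Pel

universe u

theorem Kwapien_basis (E : Type u) [NormedAddCommGroup E] [NormedSpace ℝ E]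
    [FiniteDimensional ℝ E] (Q : E →ₗ[ℝ] E →ₗ[ℝ] ℝ) (hs : ∀ x y, Q x y = Q y x)
    (hpos : ∀ x, x ≠ 0 → 0 < Q x x) :
    ∃ b : Module.Basis (Fin (Module.finrank ℝ E)) ℝ E, ∀ x, Q x x = ∑ i, (b.repr x i) ^ 2 := by
  obtain ⟨v, hv⟩ := LinearMap.BilinForm.exists_orthogonal_basis (B := Q) ⟨fun x y => by
    simpa using hs x y⟩
  have hq : ∀ i, 0 < Q (v i) (v i) := fun i => hpos _ (v.ne_zero i)
  have hw : ∀ i, IsUnit ((Real.sqrt (Q (v i) (v i)))⁻¹) := fun i =>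
    (inv_ne_zero (Real.sqrt_pos.mpr (hq i)).ne').isUnit
  refine ⟨v.isUnitSMul hw, fun x => ?_⟩
  set b := v.isUnitSMul hw with hb
  have hbi : ∀ i, b i = (Real.sqrt (Q (v i) (v i)))⁻¹ • v i := fun i =>
    Module.Basis.isUnitSMul_apply hw i
  have hbb : ∀ i j, Q (b i) (b j) = if i = j then 1 else 0 := by
    intro i j
    rw [hbi, hbi, map_smul, map_smul, LinearMap.smul_apply, smul_eq_mul, smul_eq_mul]
    by_cases h : i = j
    · subst h
      rw [if_pos rfl, ← mul_assoc, ← mul_inv, Real.mul_self_sqrt (hq i).le,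
        inv_mul_cancel₀ (hq i).ne']
    · rw [if_neg h]
      have : Q (v i) (v j) = 0 := hv h
      rw [this, mul_zero, mul_zero]
  calc Q x x = Q (∑ i, b.repr x i • b i) (∑ j, b.repr x j • b j) := by rw [b.sum_repr]
    _ = ∑ i, ∑ j, b.repr x i * (b.repr x j * Q (b i) (b j)) := by
        simp only [map_sum, map_smul, LinearMap.sum_apply, LinearMap.smul_apply, smul_eq_mul,
          Finset.mul_sum]
        rw [Finset.sum_comm]
        refine Finset.sum_congr rfl fun i _ => Finset.sum_congr rfl fun j _ => ?_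
        ring
    _ = ∑ i, (b.repr x i) ^ 2 := by
        refine Finset.sum_congr rfl fun i _ => ?_
        rw [Finset.sum_eq_single i]
        · rw [hbb, if_pos rfl]; ring
        · intro j _ hj
          rw [hbb, if_neg (Ne.symm hj)]; ring
        · intro h; exact absurd (Finset.mem_univ i) h

theorem kwapien (E : Type u) [NormedAddCommGroup E] [NormedSpace ℝ E] [FiniteDimensional ℝ E]
    (D : ℝ) (hD : 0 ≤ D)
    (h : ∀ (N M : ℕ) (x : Fin N → E) (y : Fin M → E), (∀ ξ, QF x ξ = QF y ξ) →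
      ∑ i, ‖x i‖ ^ 2 ≤ D ^ 2 * ∑ j, ‖y j‖ ^ 2) :
    ∃ T : E ≃L[ℝ] EuclideanSpace ℝ (Fin (Module.finrank ℝ E)),
      ‖(T : E →L[ℝ] EuclideanSpace ℝ (Fin (Module.finrank ℝ E)))‖ *
        ‖(T.symm : EuclideanSpace ℝ (Fin (Module.finrank ℝ E)) →L[ℝ] E)‖ ≤ D := by
  obtain ⟨Q, hs, hQ⟩ := kwapien_form E D h
  obtain ⟨b, hb⟩ := Kwapien_basis E Q hs (fun x hx => by
    have h1 := (hQ x).1
    have h2 : 0 < ‖x‖ := norm_pos_iff.mpr hx
    have h3 : 0 < ‖x‖ ^ 2 := by positivity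
    linarith)
  set T : E ≃L[ℝ] EuclideanSpace ℝ (Fin (Module.finrank ℝ E)) :=
    (b.equivFun.trans (WithLp.linearEquiv 2 ℝ (Fin (Module.finrank ℝ E) → ℝ)).symm).toContinuousLinearEquiv
    with hT
  have hTn : ∀ x, ‖T x‖ ^ 2 = Q x x := by
    intro x
    rw [EuclideanSpace.norm_eq, Real.sq_sqrt (Finset.sum_nonneg fun i _ => sq_nonneg _), hb x]
    refine Finset.sum_congr rfl fun i _ => ?_
    rw [Real.norm_eq_abs, sq_abs]
    rfl
  have h1 : ‖(T : E →L[ℝ] EuclideanSpace ℝ (Fin (Module.finrank ℝ E)))‖ ≤ D := by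
    refine ContinuousLinearMap.opNorm_le_bound _ hD fun x => ?_
    have h2 : ‖T x‖ ^ 2 ≤ (D * ‖x‖) ^ 2 := by rw [hTn, mul_pow]; exact (hQ x).2
    exact le_of_sq_le_sq h2 (by positivity)
  have h2 : ‖(T.symm : EuclideanSpace ℝ (Fin (Module.finrank ℝ E)) →L[ℝ] E)‖ ≤ 1 := by
    refine ContinuousLinearMap.opNorm_le_bound _ zero_le_one fun y => ?_
    rw [one_mul]
    have h3 : ‖T.symm y‖ ^ 2 ≤ ‖y‖ ^ 2 := by
      have h4 := (hQ (T.symm y)).1
      rwa [← hTn, T.apply_symm_apply] at h4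
    exact le_of_sq_le_sq h3 (norm_nonneg _)
  exact ⟨T, (mul_le_mul h1 h2 (norm_nonneg _) hD).trans (mul_one D).le⟩

end Pool.Agent.helper75.Pel
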