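import Pool.Agent.helper75.Pel.TypeUnit

/-!
# TypeThm : Gaussian type 2 with polylogarithmic constants if `E` is not good

`type_thm`: given `x : Fin N → E`, let `S = ∑‖x_i‖²`; if `S = 0` trivial.  `n_i = ⌈N‖x_i‖²/S⌉`,
`∑ n_i ≤ 2N`.  The family `x'` with `n_i` copies of `√(N/(S n_i)) x_i` (for `x_i ≠ 0`) lies in the unit
ball, `QF x' = (N/S) QF x`, so `√(N/S) ell x = ell x' ≤ K(1+log 2N)^K √(2N)` (padding to `2N` vectors by
zeros); `ell x ≤ √2 K (1+log 2N)^K √S`, `1 + log(2N) ≤ 2(1+log N)`; new constant `K' = 2^{K+1} K`.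
-/

namespace Pool.Agent.helper75.Pel

universe u

/-- the number of copies of a vector of squared norm `a` (`S` the sum of all squared norms) -/
private noncomputable def nc (N : ℕ) (S a : ℝ) : ℕ := ⌈(N : ℝ) * a / S⌉₊

/-- splitting a family into copies of norm at most one -/
private theorem TypeThm_split {E : Type u} [NormedAddCommGroup E] [NormedSpace ℝ E] {N : ℕ}
    (hN : 1 ≤ N) (x : Fin N → E) (hS : 0 < ∑ i, ‖x i‖ ^ 2) :
    ∃ (q : ℕ) (y : Fin q → E), 1 ≤ q ∧ (q : ℝ) ≤ 2 * N ∧ (∀ i, ‖y i‖ ≤ 1) ∧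
      ∀ ξ : E →L[ℝ] ℝ, QF x ξ = (Real.sqrt ((∑ i, ‖x i‖ ^ 2) / N)) ^ 2 * QF y ξ := by
  classical
  set S : ℝ := ∑ i, ‖x i‖ ^ 2 with hSdef
  have hNr : (1 : ℝ) ≤ N := by exact_mod_cast hN
  have hN0 : (0 : ℝ) < N := by linarith
  let n : Fin N → ℕ := fun i => nc N S (‖x i‖ ^ 2)
  have hnn : ∀ i, 0 ≤ (N : ℝ) * ‖x i‖ ^ 2 / S := fun i => by positivity
  have hnle : ∀ i, (N : ℝ) * ‖x i‖ ^ 2 / S ≤ n i := fun i => Nat.le_ceil _
  have hnlt : ∀ i, (n i : ℝ) ≤ (N : ℝ) * ‖x i‖ ^ 2 / S + 1 := fun i =>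
    (Nat.ceil_lt_add_one (hnn i)).le
  let κ : Type := Σ i : Fin N, Fin (n i)
  let y : κ → E := fun p => Real.sqrt (N / (S * n p.1)) • x p.1
  let e : Fin (Fintype.card κ) ≃ κ := (Fintype.equivFin κ).symm
  have hcard : (Fintype.card κ : ℝ) = ∑ i, (n i : ℝ) := by
    rw [Fintype.card_sigma]
    push_cast
    simp
  refine ⟨Fintype.card κ, fun i => y (e i), ?_, ?_, ?_, ?_⟩
  · -- at least one vector
    have hex : ∃ i, x i ≠ 0 := by
      by_contra hno
      push Not at hno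
      have h0 : S = 0 := by
        rw [hSdef]
        exact Finset.sum_eq_zero fun i _ => by rw [hno i]; simp
      exact hS.ne' h0
    obtain ⟨i, hi⟩ := hex
    have hpos : 0 < n i := by
      have h1 : 0 < (N : ℝ) * ‖x i‖ ^ 2 / S := by
        have := norm_pos_iff.2 hi
        positivity
      exact Nat.ceil_pos.2 h1
    have hne : Nonempty κ := ⟨⟨i, ⟨0, hpos⟩⟩⟩
    exact Fintype.card_pos
  · rw [hcard]
    calc ∑ i, (n i : ℝ) ≤ ∑ i, ((N : ℝ) * ‖x i‖ ^ 2 / S + 1) :=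
          Finset.sum_le_sum fun i _ => hnlt i
      _ = 2 * N := by
          rw [Finset.sum_add_distrib, ← Finset.sum_div, ← Finset.mul_sum, ← hSdef]
          simp only [Finset.sum_const, Finset.card_univ, Fintype.card_fin, nsmul_eq_mul, mul_one]
          rw [mul_div_assoc, div_self hS.ne']
          ring
  · suffices h : ∀ p : κ, ‖y p‖ ≤ 1 from fun i => h (e i)
    rintro ⟨a, b⟩
    show ‖Real.sqrt (N / (S * n a)) • x a‖ ≤ 1
    have hpos : 0 < n a := lt_of_le_of_lt (Nat.zero_le _) b.isLt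
    have hpos' : (0 : ℝ) < n a := by exact_mod_cast hpos
    rw [norm_smul, Real.norm_of_nonneg (Real.sqrt_nonneg _)]
    have h1 : ‖x a‖ = Real.sqrt (‖x a‖ ^ 2) := (Real.sqrt_sq (norm_nonneg _)).symm
    rw [h1, ← Real.sqrt_mul (by positivity)]
    have h2 := hnle a
    rw [div_le_iff₀ hS] at h2
    have h3 : (N : ℝ) / (S * n a) * ‖x a‖ ^ 2 ≤ 1 := by
      rw [div_mul_eq_mul_div, div_le_one (by positivity)]
      linarith
    calc Real.sqrt ((N : ℝ) / (S * n a) * ‖x a‖ ^ 2) ≤ Real.sqrt 1 := Real.sqrt_le_sqrt h3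
      _ = 1 := Real.sqrt_one
  · intro ξ
    have hsq : (Real.sqrt (S / N)) ^ 2 = S / N := Real.sq_sqrt (by positivity)
    rw [hsq]
    unfold QF
    rw [e.sum_comp (fun p => (ξ (y p)) ^ 2), Fintype.sum_sigma, Finset.mul_sum]
    refine Finset.sum_congr rfl fun i _ => ?_
    show (ξ (x i)) ^ 2 = S / N * ∑ _j : Fin (n i), (ξ (Real.sqrt (N / (S * n i)) • x i)) ^ 2
    rw [Finset.sum_const, Finset.card_univ, Fintype.card_fin, nsmul_eq_mul, map_smul,
      smul_eq_mul, mul_pow, Real.sq_sqrt (by positivity)]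
    rcases Nat.eq_zero_or_pos (n i) with h0 | h0
    · have h1 : (N : ℝ) * ‖x i‖ ^ 2 / S ≤ 0 := by
        have := hnle i
        rw [h0] at this
        simpa using this
      have h2 : x i = 0 := by
        by_contra hne
        have h3 := norm_pos_iff.2 hne
        have h4 : 0 < (N : ℝ) * ‖x i‖ ^ 2 / S := by positivity
        linarith
      rw [h2, map_zero]
      simp
    · have h1 : (n i : ℝ) ≠ 0 := by
        have : (0 : ℝ) < n i := by exact_mod_cast h0
        exact this.ne'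
      have h2 : (N : ℝ) ≠ 0 := hN0.ne'
      have h3 : S ≠ 0 := hS.ne'
      field_simp

theorem type_thm (ρ δ : ℝ) (hδ : 0 < δ) : ∃ K : ℕ, 1 ≤ K ∧
    ∀ (E : Type u) [NormedAddCommGroup E] [NormedSpace ℝ E] [FiniteDimensional ℝ E],
      ¬ Good E ρ δ → ∀ (N : ℕ), 1 ≤ N → ∀ x : Fin N → E,
        ell x ≤ K * (1 + Real.log N) ^ K * Real.sqrt (∑ i, ‖x i‖ ^ 2) := by
  obtain ⟨K, hK1, hK⟩ := type_unit.{u} ρ δ hδ
  have hle : K ≤ 2 ^ (K + 1) * K := Nat.le_mul_of_pos_left K (by positivity)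
  refine ⟨2 ^ (K + 1) * K, hK1.trans hle, ?_⟩
  intro E _ _ _ hE N hN x
  have hSnn : 0 ≤ ∑ i, ‖x i‖ ^ 2 := Finset.sum_nonneg fun i _ => by positivity
  rcases hSnn.eq_or_lt with h0 | hS
  · have h1 : ∀ i, ‖x i‖ = 0 := by
      intro i
      have h2 := (Finset.sum_eq_zero_iff_of_nonneg (fun i _ => by positivity)).1 h0.symm i
        (Finset.mem_univ i)
      exact pow_eq_zero_iff (two_ne_zero) |>.1 h2
    rw [← h0, Real.sqrt_zero, mul_zero]
    refine (ell_le_sum_norm x).trans (le_of_eq ?_)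
    exact Finset.sum_eq_zero fun i _ => h1 i
  · obtain ⟨q, y, hq1, hq2, hy, hQ⟩ := TypeThm_split hN x hS
    set S : ℝ := ∑ i, ‖x i‖ ^ 2 with hSdef
    have hNr : (1 : ℝ) ≤ N := by exact_mod_cast hN
    have hN0 : (0 : ℝ) < N := by linarith
    have h1 : ell y ≤ K * (1 + Real.log q) ^ K * Real.sqrt q := hK E hE q hq1 y hy
    have h2 : ell x ≤ Real.sqrt (S / N) * ell y :=
      ell_le_mul (Real.sqrt_nonneg _) fun ξ => (hQ ξ).le
    have hqr : (1 : ℝ) ≤ q := by exact_mod_cast hq1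
    have hlogN : 0 ≤ Real.log N := Real.log_nonneg hNr
    have hlogq0 : 0 ≤ Real.log q := Real.log_nonneg hqr
    have hlogq : 1 + Real.log q ≤ 2 * (1 + Real.log N) := by
      have h3 : Real.log q ≤ Real.log (2 * N) := Real.log_le_log (by linarith) hq2
      rw [Real.log_mul (by norm_num) hN0.ne'] at h3
      have h4 := Real.log_two_lt_d9
      norm_num at h4
      linarith
    have h5 : (1 + Real.log q) ^ K ≤ 2 ^ K * (1 + Real.log N) ^ K := by
      rw [← mul_pow]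
      exact pow_le_pow_left₀ (by linarith) hlogq K
    have h6 : (1 + Real.log N) ^ K ≤ (1 + Real.log N) ^ (2 ^ (K + 1) * K) :=
      pow_le_pow_right₀ (by linarith) hle
    have h7 : Real.sqrt (S / N) * Real.sqrt q ≤ 2 * Real.sqrt S := by
      rw [← Real.sqrt_mul (by positivity)]
      have h8 : S / N * q ≤ 4 * S := by
        rw [div_mul_eq_mul_div, div_le_iff₀ hN0]
        nlinarith
      calc Real.sqrt (S / N * q) ≤ Real.sqrt (4 * S) := Real.sqrt_le_sqrt h8
        _ = 2 * Real.sqrt S := by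
            rw [Real.sqrt_mul (by norm_num)]
            congr 1
            rw [show (4 : ℝ) = 2 ^ 2 by norm_num, Real.sqrt_sq (by norm_num)]
    have hKr : (0 : ℝ) ≤ K := Nat.cast_nonneg K
    calc ell x ≤ Real.sqrt (S / N) * ell y := h2
      _ ≤ Real.sqrt (S / N) * (K * (1 + Real.log q) ^ K * Real.sqrt q) :=
          mul_le_mul_of_nonneg_left h1 (Real.sqrt_nonneg _)
      _ = K * (1 + Real.log q) ^ K * (Real.sqrt (S / N) * Real.sqrt q) := by ring
      _ ≤ K * (2 ^ K * (1 + Real.log N) ^ (2 ^ (K + 1) * K)) * (2 * Real.sqrt S) := by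
          apply mul_le_mul _ h7 (by positivity) (by positivity)
          apply mul_le_mul_of_nonneg_left _ hKr
          exact h5.trans (mul_le_mul_of_nonneg_left h6 (by positivity))
      _ = ((2 ^ (K + 1) * K : ℕ) : ℝ) * (1 + Real.log N) ^ (2 ^ (K + 1) * K) * Real.sqrt S := by
          push_cast
          ring

end Pool.Agent.helper75.Pel
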