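import Pool.Agent.helper75.Pel.Cotype
import Pool.Agent.helper75.Pel.TypeThm
import Pool.Agent.helper75.Pel.Kwapien
import Pool.Agent.helper75.Pel.Carath

/-!
# Final : assembly

If `¬ Good E ρ δ`: for families with equal forms, `carath` reduces to at most `n² + 1` vectors;
`∑‖x_i‖² ≤ (K₁(1+log(n²+1))^{K₁})² (ell x)²`, `ell x = ell y ≤ K₂(1+log(n²+1))^{K₂} √∑‖y_j‖²`; `kwapien`.
-/

namespace Pool.Agent.helper75.Pel

universe u

theorem Final_log (n : ℕ) : 1 + Real.log ((n ^ 2 + 1 : ℕ) : ℝ) ≤ 2 * (1 + Real.log n) := by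
  rcases Nat.eq_zero_or_pos n with h | h
  · subst h
    simp
  · have hn : (1 : ℝ) ≤ n := by exact_mod_cast h
    have h1 : ((n ^ 2 + 1 : ℕ) : ℝ) ≤ 2 * (n : ℝ) ^ 2 := by
      push_cast
      nlinarith
    have h2 : Real.log ((n ^ 2 + 1 : ℕ) : ℝ) ≤ Real.log (2 * (n : ℝ) ^ 2) :=
      Real.log_le_log (by positivity) h1
    rw [Real.log_mul (by norm_num) (by positivity), Real.log_pow] at h2
    have h3 : Real.log 2 ≤ 1 := by
      have := Real.log_two_lt_d9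
      linarith
    push_cast at h2 ⊢
    linarith

theorem Final_pow (K N : ℕ) (hN : 1 ≤ N) (n : ℕ) (h : N ≤ n ^ 2 + 1) :
    (K : ℝ) * (1 + Real.log N) ^ K ≤ K * (2 * (1 + Real.log n)) ^ K := by
  have hN' : (1 : ℝ) ≤ N := by exact_mod_cast hN
  have h1 : Real.log N ≤ Real.log ((n ^ 2 + 1 : ℕ) : ℝ) :=
    Real.log_le_log (by linarith) (by exact_mod_cast h)
  have h0 : 0 ≤ Real.log N := Real.log_nonneg hN'
  apply mul_le_mul_of_nonneg_left _ (Nat.cast_nonneg K)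
  apply pow_le_pow_left₀ (by linarith)
  have := Final_log n
  linarith

theorem main (ρ δ : ℝ) (hδ : 0 < δ) : ∃ K : ℕ,
    ∀ (E : Type u) [NormedAddCommGroup E] [NormedSpace ℝ E] [FiniteDimensional ℝ E],
      (∀ T : E ≃L[ℝ] EuclideanSpace ℝ (Fin (Module.finrank ℝ E)),
        K * (1 + Real.log (Module.finrank ℝ E)) ^ K ≤
          ‖(T : E →L[ℝ] EuclideanSpace ℝ (Fin (Module.finrank ℝ E)))‖ *
            ‖(T.symm : EuclideanSpace ℝ (Fin (Module.finrank ℝ E)) →L[ℝ] E)‖) →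
      Good E ρ δ := by
  obtain ⟨K₁, hK₁, h₁⟩ := cotype_thm.{u} ρ δ hδ
  obtain ⟨K₂, hK₂, h₂⟩ := type_thm.{u} ρ δ hδ
  refine ⟨K₁ * K₂ * 2 ^ (K₁ + K₂) + (K₁ + K₂) + 1, fun E _ _ _ hE => ?_⟩
  by_contra hG
  set n := Module.finrank ℝ E with hn
  set a : ℝ := 1 + Real.log n with ha
  have ha1 : 1 ≤ a := by
    have : 0 ≤ Real.log (n : ℝ) := Real.log_natCast_nonneg n
    rw [ha]; linarith
  set A : ℝ := K₁ * (2 * a) ^ K₁ with hA
  set B : ℝ := K₂ * (2 * a) ^ K₂ with hB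
  have hA0 : 0 ≤ A := by rw [hA]; positivity
  have hB0 : 0 ≤ B := by rw [hB]; positivity
  -- the two bounds for arbitrary families
  have c1 : ∀ (N : ℕ) (x : Fin N → E), ∑ i, ‖x i‖ ^ 2 ≤ (A * ell x) ^ 2 := by
    intro N x
    obtain ⟨N', x', hN', hQ, hS⟩ := carath x
    rw [← hS, ← ell_congr hQ]
    rcases Nat.eq_zero_or_pos N' with h0 | h0
    · subst h0
      simp only [Finset.univ_eq_empty, Finset.sum_empty]
      positivity
    · have e1 := h₁ E hG N' h0 x'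
      have e2 := Final_pow K₁ N' h0 n hN'
      rw [← ha] at e2
      have e3 := ell_nonneg x'
      have e4 : Real.sqrt (∑ i, ‖x' i‖ ^ 2) ≤ A * ell x' :=
        e1.trans (mul_le_mul_of_nonneg_right e2 e3)
      have e5 : 0 ≤ ∑ i, ‖x' i‖ ^ 2 := Finset.sum_nonneg fun _ _ => sq_nonneg _
      calc ∑ i, ‖x' i‖ ^ 2 = Real.sqrt (∑ i, ‖x' i‖ ^ 2) ^ 2 := (Real.sq_sqrt e5).symm
        _ ≤ (A * ell x') ^ 2 := pow_le_pow_left₀ (Real.sqrt_nonneg _) e4 2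
  have c2 : ∀ (N : ℕ) (x : Fin N → E), (ell x) ^ 2 ≤ B ^ 2 * ∑ i, ‖x i‖ ^ 2 := by
    intro N x
    obtain ⟨N', x', hN', hQ, hS⟩ := carath x
    rw [← hS, ← ell_congr hQ]
    have e5 : 0 ≤ ∑ i, ‖x' i‖ ^ 2 := Finset.sum_nonneg fun _ _ => sq_nonneg _
    rcases Nat.eq_zero_or_pos N' with h0 | h0
    · subst h0
      have : ell x' = 0 := by
        have := ell_le_sum_norm x'
        simp only [Finset.univ_eq_empty, Finset.sum_empty] at this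
        exact le_antisymm this (ell_nonneg x')
      rw [this]
      simp
    · have e1 := h₂ E hG N' h0 x'
      have e2 := Final_pow K₂ N' h0 n hN'
      rw [← ha] at e2
      have e4 : ell x' ≤ B * Real.sqrt (∑ i, ‖x' i‖ ^ 2) :=
        e1.trans (mul_le_mul_of_nonneg_right e2 (Real.sqrt_nonneg _))
      calc ell x' ^ 2 ≤ (B * Real.sqrt (∑ i, ‖x' i‖ ^ 2)) ^ 2 :=
            pow_le_pow_left₀ (ell_nonneg x') e4 2
        _ = B ^ 2 * ∑ i, ‖x' i‖ ^ 2 := by rw [mul_pow, Real.sq_sqrt e5]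
  obtain ⟨T, hT⟩ := kwapien E (A * B) (mul_nonneg hA0 hB0) (fun N M x y hQ => by
    have e1 := c1 N x
    have e2 := c2 M y
    rw [← ell_congr hQ] at e2
    calc ∑ i, ‖x i‖ ^ 2 ≤ (A * ell x) ^ 2 := e1
      _ = A ^ 2 * (ell x) ^ 2 := by ring
      _ ≤ A ^ 2 * (B ^ 2 * ∑ i, ‖y i‖ ^ 2) := mul_le_mul_of_nonneg_left e2 (sq_nonneg _)
      _ = (A * B) ^ 2 * ∑ i, ‖y i‖ ^ 2 := by ring)
  have hT2 := (hE T).trans hT
  have e1 : A * B = (K₁ * K₂ * 2 ^ (K₁ + K₂)) * a ^ (K₁ + K₂) := by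
    rw [hA, hB, mul_pow, mul_pow, pow_add, pow_add]
    ring
  have e2 : a ^ (K₁ + K₂) ≤ a ^ (K₁ * K₂ * 2 ^ (K₁ + K₂) + (K₁ + K₂) + 1) :=
    pow_le_pow_right₀ ha1 (by omega)
  have e3 : 0 < a ^ (K₁ * K₂ * 2 ^ (K₁ + K₂) + (K₁ + K₂) + 1) := by positivity
  rw [e1] at hT2
  push_cast at hT2
  have e4 : ((K₁ : ℝ) * K₂ * 2 ^ (K₁ + K₂)) * a ^ (K₁ + K₂) ≤
      ((K₁ : ℝ) * K₂ * 2 ^ (K₁ + K₂)) * a ^ (K₁ * K₂ * 2 ^ (K₁ + K₂) + (K₁ + K₂) + 1) :=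
    mul_le_mul_of_nonneg_left e2 (by positivity)
  have e5 : (0 : ℝ) ≤ K₁ + K₂ := by positivity
  nlinarith

end Pool.Agent.helper75.Pel
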