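import Pool.Agent.helper75.Pel.Crit

/-!
# FlatStep

`FL_mono`: a subfamily (`Fin.castLE`) of a flat system is flat and has smaller `ell` (`ell_mono`).
`flat_step`: `y : Fin (k*q) → E` flat, `finProdFinEquiv : Fin k × Fin q ≃ Fin (k*q)`,
`β i = (finProdFinEquiv.symm i).1`.  If `ell y < √k g/(2ρ)` then `bN y β (single j 1) = ell (block j) ≥ g ≥
C k √2`-type bound (block `j` is a flat system of size `q`), `√(∑ N(e_j)²) ≥ √k g > 2ρ ell y`, so
`crit` with `σ = √2` gives `Good`.
-/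

namespace Pool.Agent.helper75.Pel

universe u

theorem FL_mono_g {E : Type u} [NormedAddCommGroup E] [NormedSpace ℝ E] {q : ℕ} {g g' : ℝ}
    (h : FL E q g) (hg : g' ≤ g) : FL E q g' := fun y hy => hg.trans (h y hy)

/-- The form of a subfamily is smaller. -/
theorem FlatStep_QF_le {E : Type u} [NormedAddCommGroup E] [NormedSpace ℝ E]
    {ι κ : Type} [Fintype ι] [Fintype κ] (e : κ → ι) (he : Function.Injective e) (y : ι → E)
    (ξ : E →L[ℝ] ℝ) : QF (fun k => y (e k)) ξ ≤ QF y ξ := by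
  classical
  unfold QF
  have h1 : ∑ k, (ξ (y (e k))) ^ 2 = ∑ i ∈ Finset.univ.map ⟨e, he⟩, (ξ (y i)) ^ 2 := by
    rw [Finset.sum_map]
    rfl
  rw [h1]
  exact Finset.sum_le_sum_of_subset_of_nonneg (Finset.subset_univ _) fun i _ _ => sq_nonneg _

theorem FlatStep_flat {E : Type u} [NormedAddCommGroup E] [NormedSpace ℝ E]
    [FiniteDimensional ℝ E] {ι κ : Type} [Fintype ι] [Fintype κ] (e : κ → ι)
    (he : Function.Injective e) {y : ι → E} (hy : Flat y) : Flat (fun k => y (e k)) := by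
  refine ⟨fun k => hy.1 (e k), ?_⟩
  have hs : (0 : ℝ) ≤ Real.sqrt 2 := Real.sqrt_nonneg _
  rw [opB_iff hs]
  intro ξ
  exact (FlatStep_QF_le e he y ξ).trans ((opB_iff hs).1 hy.2 ξ)

theorem FL_mono {E : Type u} [NormedAddCommGroup E] [NormedSpace ℝ E] [FiniteDimensional ℝ E]
    {q q' : ℕ} {g : ℝ} (h : FL E q g) (hq : q ≤ q') : FL E q' g := by
  intro y hy
  have he : Function.Injective (Fin.castLE hq) := Fin.castLE_injective hq
  exact (h _ (FlatStep_flat (Fin.castLE hq) he hy)).trans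
    (ell_mono (FlatStep_QF_le (Fin.castLE hq) he y))

/-- trivial bound -/
theorem FL_half {E : Type u} [NormedAddCommGroup E] [NormedSpace ℝ E] [FiniteDimensional ℝ E]
    {q : ℕ} (hq : 1 ≤ q) : FL E q (1 / 2) := by
  intro y hy
  have h1 := hy.1 ⟨0, hq⟩
  have h2 := ell_ge_single y ⟨0, hq⟩
  linarith

theorem flat_step (δ : ℝ) (hδ : 0 < δ) : ∃ C : ℝ, 1 ≤ C ∧
    ∀ (E : Type u) [NormedAddCommGroup E] [NormedSpace ℝ E] [FiniteDimensional ℝ E]
      (ρ g : ℝ) (k q : ℕ), 0 < ρ → 1 ≤ k → 1 ≤ q → ¬ Good E ρ δ → FL E q g → C * k ≤ g →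
      FL E (k * q) (Real.sqrt k * g / (2 * ρ)) := by
  obtain ⟨C, hC1, hC⟩ := crit.{u} δ hδ
  have h2 : (1 : ℝ) ≤ Real.sqrt 2 := by
    rw [Real.one_le_sqrt]
    norm_num
  refine ⟨C * Real.sqrt 2, by nlinarith, ?_⟩
  intro E _ _ _ ρ g k q hρ hk hq hG hFL hg y hy
  by_contra hlt
  push Not at hlt
  have hkpos : (0 : ℝ) < k := by exact_mod_cast hk
  have hg0 : 0 ≤ g := by
    refine le_trans ?_ hg
    positivity
  have : Nonempty (Fin k) := ⟨⟨0, hk⟩⟩
  let β : Fin (k * q) → Fin k := fun i => (finProdFinEquiv.symm i).1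
  have hb : ∀ j, g ≤ bN y β (Pi.single j 1) := by
    intro j
    rw [bN_single]
    let e : Fin q → {i // β i = j} := fun r => ⟨finProdFinEquiv (j, r), by
      change (finProdFinEquiv.symm (finProdFinEquiv (j, r))).1 = j
      rw [Equiv.symm_apply_apply]⟩
    have he : Function.Injective e := by
      intro r r' h
      have h' := congrArg Subtype.val h
      have h'' := finProdFinEquiv.injective h'
      exact (Prod.mk.inj h'').2
    have he' : Function.Injective (fun r => (e r : Fin (k * q))) :=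
      Subtype.val_injective.comp he
    have hf : Flat (fun r => y (e r : Fin (k * q))) := FlatStep_flat _ he' hy
    exact (hFL _ hf).trans
      (ell_mono (FlatStep_QF_le e he (fun i : {i // β i = j} => y i)))
  apply hG
  refine hC E (Fin (k * q)) (Fin k) y β (Real.sqrt 2) ρ (by positivity) hρ hy.2 ?_ (Or.inr ?_)
  · intro j
    rw [Fintype.card_fin]
    refine le_trans (le_of_eq ?_) (hg.trans (hb j))
    ring
  · have h3 : 2 * ρ * ell y ≤ Real.sqrt k * g := by
      rw [lt_div_iff₀ (by positivity)] at hlt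
      linarith
    refine h3.trans ?_
    have h4 : (k : ℝ) * g ^ 2 ≤ ∑ j, bN y β (Pi.single j 1) ^ 2 := by
      calc (k : ℝ) * g ^ 2 = ∑ _j : Fin k, g ^ 2 := by
            rw [Finset.sum_const, Finset.card_univ, Fintype.card_fin, nsmul_eq_mul]
        _ ≤ _ := Finset.sum_le_sum fun j _ => pow_le_pow_left₀ hg0 (hb j) 2
    calc Real.sqrt k * g = Real.sqrt (k * g ^ 2) := by
          rw [Real.sqrt_mul hkpos.le, Real.sqrt_sq hg0]
      _ ≤ _ := Real.sqrt_le_sqrt h4

end Pool.Agent.helper75.Pel
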