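import Pool.Agent.helper75.Pel.Psi2
import Pool.Agent.helper75.Pel.FlatStep

/-!
# FlatQ : flat systems have almost maximal `ell` if `E` is not good

Let `C` be the constant of `flat_step δ` (wlog `ρ ≥ 1`, else use that `Good E ρ δ` follows from
`Good E 1 δ`... `¬ Good E ρ δ → ¬ Good E (max ρ 1) δ`).

`flat_quarter`: `k ≥ (2ρ)⁴` a natural number, `k ≥ 2`, `g₀ = C k`, `q₀` from `psi g₀`.  By induction
`FL E (k^j q₀) (k^{j/4} g₀)`: `flat_step` gives `√k k^{j/4} g₀/(2ρ) ≥ k^{(j+1)/4} g₀` as `√k/(2ρ) ≥ k^{1/4}`.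
For `q ≥ q₀` take the largest `j` with `k^j q₀ ≤ q < k^{j+1} q₀`: `FL_mono`, `k^{j/4} g₀ ≥ (q/(k q₀))^{1/4} g₀`.
For `q < q₀`: `FL_half`.  So `FL E q (c q^{1/4})` for all `q ≥ 1` with `c = min ...` depending on `ρ, δ` only.
-/

namespace Pool.Agent.helper75.Pel

universe u

private theorem FlatQ_good_mono {E : Type u} [NormedAddCommGroup E] [NormedSpace ℝ E]
    {ρ ρ' δ : ℝ} (h : Good E ρ' δ) (hρ : ρ ≤ ρ') : Good E ρ δ := by
  obtain ⟨F, hb, hT⟩ := h
  exact ⟨F, hb, fun T => hρ.trans (hT T)⟩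

private theorem FlatQ_pow {k q₀ : ℕ} {C ρ t : ℝ} (hρ : 1 ≤ ρ) (hk : 2 ≤ k) (hq₀ : 1 ≤ q₀)
    (hC : 1 ≤ C) (ht1 : 2 * ρ ≤ t) (hts : t ^ 2 = Real.sqrt k) {δ : ℝ}
    (E : Type u) [NormedAddCommGroup E] [NormedSpace ℝ E] [FiniteDimensional ℝ E]
    (hstep : ∀ (g : ℝ) (q : ℕ), 1 ≤ q → ¬ Good E ρ δ → FL E q g → C * k ≤ g →
      FL E (k * q) (Real.sqrt k * g / (2 * ρ)))
    (hG : ¬ Good E ρ δ) (h0 : FL E q₀ (C * k)) (j : ℕ) :
    FL E (k ^ j * q₀) (t ^ j * (C * k)) := by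
  have hkpos : (0 : ℝ) < k := by
    have : 0 < k := by omega
    exact_mod_cast this
  have ht : 1 ≤ t := by linarith
  induction j with
  | zero => simpa using h0
  | succ j ih =>
    have hq : 1 ≤ k ^ j * q₀ := Nat.mul_pos (Nat.pow_pos (by omega)) hq₀
    have hg : C * k ≤ t ^ j * (C * k) := by
      have h1 : 1 ≤ t ^ j := one_le_pow₀ ht
      have h2 : 0 ≤ C * k := by positivity
      nlinarith
    have h3 := hstep _ _ hq hG ih hg
    have h4 : k * (k ^ j * q₀) = k ^ (j + 1) * q₀ := by ring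
    rw [h4] at h3
    refine FL_mono_g h3 ?_
    rw [le_div_iff₀ (by positivity), ← hts]
    have h5 : 0 ≤ t ^ j * (C * k) := by positivity
    calc t ^ (j + 1) * (C * k) * (2 * ρ) = (t ^ j * (C * k)) * t * (2 * ρ) := by ring
      _ ≤ (t ^ j * (C * k)) * t * t := by
          apply mul_le_mul_of_nonneg_left ht1
          positivity
      _ = t ^ 2 * (t ^ j * (C * k)) := by ring

theorem flat_quarter (ρ δ : ℝ) (hδ : 0 < δ) : ∃ c : ℝ, 0 < c ∧
    ∀ (E : Type u) [NormedAddCommGroup E] [NormedSpace ℝ E] [FiniteDimensional ℝ E],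
      ¬ Good E ρ δ → ∀ q : ℕ, 1 ≤ q → FL E q (c * (q : ℝ) ^ (1 / 4 : ℝ)) := by
  obtain ⟨C, hC1, hC⟩ := flat_step.{u} δ hδ
  set ρ' : ℝ := max ρ 1 with hρ'
  have hρ1 : 1 ≤ ρ' := le_max_right _ _
  obtain ⟨k, hk0⟩ := exists_nat_ge (max ((2 * ρ') ^ 4) 2)
  have hk4 : (2 * ρ') ^ 4 ≤ (k : ℝ) := (le_max_left _ _).trans hk0
  have hk2' : (2 : ℝ) ≤ k := (le_max_right _ _).trans hk0
  have hk2 : 2 ≤ k := by exact_mod_cast hk2'
  have hkpos : (0 : ℝ) < k := by linarith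
  set t : ℝ := (k : ℝ) ^ (1 / 4 : ℝ) with ht
  have ht4 : t ^ 4 = k := by
    rw [ht, ← Real.rpow_natCast, ← Real.rpow_mul hkpos.le]
    norm_num
  have ht0 : 0 ≤ t := Real.rpow_nonneg hkpos.le _
  have hts : t ^ 2 = Real.sqrt k := by
    rw [eq_comm, Real.sqrt_eq_iff_mul_self_eq hkpos.le (by positivity)]
    rw [← ht4]; ring
  have ht1 : 2 * ρ' ≤ t := by
    by_contra hcon
    rw [not_le] at hcon
    have := pow_lt_pow_left₀ hcon ht0 (n := 4) (by norm_num)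
    rw [ht4] at this
    linarith
  have ht1' : 1 ≤ t := by linarith
  obtain ⟨q₀, hq₀, hpsi⟩ := psi.{u} (C * k)
  have hq0pos : (0 : ℝ) < q₀ := by
    have : 0 < q₀ := by omega
    exact_mod_cast this
  set r : ℝ := (q₀ : ℝ) ^ (1 / 4 : ℝ) with hr
  have hr0 : 0 < r := Real.rpow_pos_of_pos hq0pos _
  refine ⟨1 / (2 * t * r), by positivity, ?_⟩
  intro E _ _ _ hG q hq
  have hG' : ¬ Good E ρ' δ := fun h => hG (FlatQ_good_mono h (le_max_left _ _))
  have hqpos : (0 : ℝ) < q := by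
    have : 0 < q := by omega
    exact_mod_cast this
  rcases Nat.lt_or_ge q q₀ with hlt | hge
  · -- small sizes
    refine FL_mono_g (FL_half hq) ?_
    have h1 : (q : ℝ) ^ (1 / 4 : ℝ) ≤ r :=
      Real.rpow_le_rpow hqpos.le (by exact_mod_cast hlt.le) (by norm_num)
    rw [div_mul_eq_mul_div, one_mul, div_le_div_iff₀ (by positivity) (by norm_num)]
    nlinarith
  · -- large sizes
    have hdiv : q / q₀ ≠ 0 := by
      have : 1 ≤ q / q₀ := (Nat.one_le_div_iff (by omega)).2 hge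
      omega
    set j := Nat.log k (q / q₀) with hj
    have h1 : k ^ j ≤ q / q₀ := Nat.pow_log_le_self k hdiv
    have h2 : q / q₀ < k ^ (j + 1) := Nat.lt_pow_succ_log_self (by omega) _
    have h3 : k ^ j * q₀ ≤ q := (Nat.mul_le_mul_right q₀ h1).trans (Nat.div_mul_le_self q q₀)
    have h4 : q < k ^ (j + 1) * q₀ := (Nat.div_lt_iff_lt_mul (by omega)).1 h2
    have hFL := FlatQ_pow hρ1 hk2 hq₀ hC1 ht1 hts E
      (fun g q hq hG hF hg => hC E ρ' g k q (by linarith) (by omega) hq hG hF hg) hG' (hpsi E) j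
    refine FL_mono_g (FL_mono hFL h3) ?_
    have h5 : (q : ℝ) ^ (1 / 4 : ℝ) ≤ t ^ (j + 1) * r := by
      have h6 : (q : ℝ) ≤ (k : ℝ) ^ (j + 1) * q₀ := by exact_mod_cast h4.le
      calc (q : ℝ) ^ (1 / 4 : ℝ) ≤ ((k : ℝ) ^ (j + 1) * q₀) ^ (1 / 4 : ℝ) :=
            Real.rpow_le_rpow hqpos.le h6 (by norm_num)
        _ = t ^ (j + 1) * r := by
            rw [Real.mul_rpow (by positivity) hq0pos.le, ht, hr]
            congr 1
            rw [← Real.rpow_natCast, ← Real.rpow_natCast, ← Real.rpow_mul hkpos.le,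
              ← Real.rpow_mul hkpos.le]
            congr 1
            ring
    have h7 : 1 ≤ C * k := by nlinarith
    have h8 : (0 : ℝ) ≤ t ^ j := by positivity
    calc 1 / (2 * t * r) * (q : ℝ) ^ (1 / 4 : ℝ) ≤ 1 / (2 * t * r) * (t ^ (j + 1) * r) :=
          mul_le_mul_of_nonneg_left h5 (by positivity)
      _ = t ^ j * (1 / 2) := by
          have : t ≠ 0 := by positivity
          field_simp
          ring
      _ ≤ t ^ j * (C * k) := mul_le_mul_of_nonneg_left (by linarith) h8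

end Pool.Agent.helper75.Pel
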