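import Pool.Agent.helper75.Pel.Law

/-!
# Greedy : greedy orthonormal bases

`exists_greedy`: abstract form: `H` a Euclidean space of dimension `N`, `U : H →ₗ E`; there is an
orthonormal basis `o` with `‖∑ c_j U o_j‖ ≤ ‖U o_i‖ |c|` whenever `c_j = 0` for `j < i`.  Induction on
`N`: `o_0` a unit vector maximizing `‖U v‖` (compact sphere), then the basis of the orthogonal complement
(dimension `N`), `Fin.cons`; `OrthonormalBasis.mk` or
`exists_orthonormalBasis..`/`basisOfOrthonormalOfCardEqFinrank`.  Apply it to `opx x`.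

Further facts about `opx` and orthonormal bases used later:
`QF_opx`: `QF (fun j => opx x (o j)) ξ = QF x ξ` (Parseval: `ξ(opx x w) = ⟪a, w⟫`, `a_i = ξ(x_i)`);
`ell_opx`: hence `ell` is the same.
-/

namespace Pool.Agent.helper75.Pel

universe u
variable {E : Type u} [NormedAddCommGroup E] [NormedSpace ℝ E] [FiniteDimensional ℝ E]
variable {ι : Type} [Fintype ι]

theorem opx_add (x : ι → E) (v w : EuclideanSpace ℝ ι) : opx x (v + w) = opx x v + opx x w := by
  simp [opx, add_smul, Finset.sum_add_distrib]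

theorem opx_smul (x : ι → E) (c : ℝ) (v : EuclideanSpace ℝ ι) : opx x (c • v) = c • opx x v := by
  simp [opx, mul_smul, Finset.smul_sum]

/-- `opx x` as a linear map. -/
noncomputable def Greedy_lin (x : ι → E) : EuclideanSpace ℝ ι →ₗ[ℝ] E where
  toFun := opx x
  map_add' := opx_add x
  map_smul' := opx_smul x

/-- `ξ (opx x w) = ⟪(ξ x_i)_i, w⟫`. -/
theorem map_opx (x : ι → E) (ξ : E →L[ℝ] ℝ) (w : EuclideanSpace ℝ ι) :
    ξ (opx x w) = inner ℝ (WithLp.toLp 2 (fun i => ξ (x i)) : EuclideanSpace ℝ ι) w := by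
  simp [opx, PiLp.inner_apply]

theorem QF_opx (x : ι → E) {N : ℕ} (o : OrthonormalBasis (Fin N) ℝ (EuclideanSpace ℝ ι))
    (ξ : E →L[ℝ] ℝ) : QF (fun j => opx x (o j)) ξ = QF x ξ := by
  have h := o.sum_sq_norm_inner_left (WithLp.toLp 2 (fun i => ξ (x i)) : EuclideanSpace ℝ ι)
  rw [EuclideanSpace.norm_sq_eq] at h
  simp only [QF, map_opx]
  simpa using h

theorem ell_opx (x : ι → E) {N : ℕ} (o : OrthonormalBasis (Fin N) ℝ (EuclideanSpace ℝ ι)) :
    ell (fun j => opx x (o j)) = ell x := ell_congr fun ξ => QF_opx x o ξ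

/-- The norm of a combination of an orthonormal family. -/
theorem Greedy_norm_sum {H : Type*} [NormedAddCommGroup H] [InnerProductSpace ℝ H] {n : ℕ}
    {o : Fin n → H} (ho : Orthonormal ℝ o) (c : Fin n → ℝ) :
    ‖∑ j, c j • o j‖ = Real.sqrt (∑ j, c j ^ 2) := by
  rw [← Real.sqrt_sq (norm_nonneg (∑ j, c j • o j)), ← real_inner_self_eq_norm_sq,
    ho.inner_sum]
  congr 1
  exact Finset.sum_congr rfl fun j _ => by simp [sq]

/-- The abstract form. -/
theorem Greedy_abs (n : ℕ) : ∀ (H : Type) [NormedAddCommGroup H] [InnerProductSpace ℝ H]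
    [FiniteDimensional ℝ H] (U : H →ₗ[ℝ] E), Module.finrank ℝ H = n →
    ∃ o : Fin n → H, Orthonormal ℝ o ∧ ∀ (i : Fin n) (c : Fin n → ℝ), (∀ j, j < i → c j = 0) →
      ‖∑ j, c j • U (o j)‖ ≤ ‖U (o i)‖ * Real.sqrt (∑ j, c j ^ 2) := by
  induction n with
  | zero =>
    intro H _ _ _ U _
    refine ⟨Fin.elim0, ?_, fun i => i.elim0⟩
    rw [orthonormal_iff_ite]
    exact fun i => i.elim0
  | succ n ih =>
    intro H _ _ _ U hn
    have hpos : 0 < Module.finrank ℝ H := by omega
    haveI : Nontrivial H := Module.finrank_pos_iff.1 hpos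
    haveI : ProperSpace H := FiniteDimensional.proper_real H
    have hcont : Continuous fun v : H => ‖U v‖ := (LinearMap.continuous_of_finiteDimensional U).norm
    obtain ⟨o0, ho0, hmax⟩ := (isCompact_sphere (0 : H) 1).exists_isMaxOn
      (NormedSpace.sphere_nonempty.2 zero_le_one) hcont.continuousOn
    have hn0 : ‖o0‖ = 1 := by simpa using ho0
    have hne : o0 ≠ 0 := by
      intro h
      rw [h, norm_zero] at hn0
      exact zero_ne_one hn0
    have hle : ∀ v : H, ‖U v‖ ≤ ‖U o0‖ * ‖v‖ := by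
      intro v
      by_cases hv : v = 0
      · simp [hv]
      · have hv' : 0 < ‖v‖ := norm_pos_iff.2 hv
        have h1 : (‖v‖⁻¹ • v) ∈ Metric.sphere (0 : H) 1 := by
          simp [norm_smul, hv'.ne']
        have h2 := hmax h1
        simp only [Set.mem_ofPred_eq, map_smul, norm_smul, norm_inv, norm_norm] at h2
        calc ‖U v‖ = (‖v‖⁻¹ * ‖U v‖) * ‖v‖ := by field_simp
          _ ≤ ‖U o0‖ * ‖v‖ := by gcongr
    have hfin : Module.finrank ℝ (Submodule.span ℝ {o0})ᗮ = n := by
      haveI : Fact (Module.finrank ℝ H = n + 1) := ⟨hn⟩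
      exact Submodule.finrank_orthogonal_span_singleton hne
    obtain ⟨o', ho', hg'⟩ := ih (Submodule.span ℝ {o0})ᗮ (U.domRestrict _) hfin
    have horth : ∀ j, inner ℝ o0 (o' j : H) = 0 := fun j =>
      Submodule.mem_orthogonal_singleton_iff_inner_right.1 (o' j).2
    have ho : Orthonormal ℝ (Fin.cons o0 (fun j => (o' j : H)) : Fin (n + 1) → H) := by
      rw [orthonormal_iff_ite] at ho' ⊢
      intro i j
      refine Fin.cases ?_ (fun i' => ?_) i <;> refine Fin.cases ?_ (fun j' => ?_) j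
      · simp [hn0]
      · simp [horth j', (Fin.succ_ne_zero j').symm]
      · simp only [Fin.cons_succ, Fin.cons_zero, Fin.succ_ne_zero, if_false]
        rw [real_inner_comm]
        exact horth i'
      · have := ho' i' j'
        simpa [Fin.succ_inj] using this
    refine ⟨_, ho, ?_⟩
    intro i
    refine Fin.cases ?_ (fun i' => ?_) i
    · intro c _
      have h1 : ∑ j, c j • U ((Fin.cons o0 (fun j => (o' j : H)) : Fin (n + 1) → H) j)
          = U (∑ j, c j • (Fin.cons o0 (fun j => (o' j : H)) : Fin (n + 1) → H) j) := by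
        simp only [map_sum, map_smul]
      rw [h1, ← Greedy_norm_sum ho c, Fin.cons_zero]
      exact hle _
    · intro c hc
      have hc0 : c 0 = 0 := hc 0 (Fin.succ_pos i')
      rw [Fin.sum_univ_succ, Fin.sum_univ_succ, hc0]
      simp only [Fin.cons_succ, zero_smul, zero_add, ne_eq, OfNat.ofNat_ne_zero,
        not_false_eq_true, zero_pow]
      exact hg' i' (fun j => c j.succ) fun j hj => hc _ (Fin.succ_lt_succ_iff.2 hj)

theorem exists_greedy (x : ι → E) :
    ∃ o : OrthonormalBasis (Fin (Fintype.card ι)) ℝ (EuclideanSpace ℝ ι), GreedyB x o := by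
  obtain ⟨o, ho, hg⟩ := Greedy_abs (Fintype.card ι) (EuclideanSpace ℝ ι) (Greedy_lin x)
    finrank_euclideanSpace
  have hspan : ⊤ ≤ Submodule.span ℝ (Set.range o) := by
    rw [ho.linearIndependent.span_eq_top_of_card_eq_finrank'
      (by simp [finrank_euclideanSpace])]
  refine ⟨OrthonormalBasis.mk ho hspan, ?_⟩
  intro i c hc
  simp only [OrthonormalBasis.coe_mk]
  exact hg i c hc

/-- The values `s_i = ‖opx x (o i)‖` decrease. -/
theorem greedy_anti {x : ι → E} {N : ℕ} {o : OrthonormalBasis (Fin N) ℝ (EuclideanSpace ℝ ι)}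
    (h : GreedyB x o) {i j : Fin N} (hij : i ≤ j) : ‖opx x (o j)‖ ≤ ‖opx x (o i)‖ := by
  classical
  have := h i (Pi.single j 1) fun k hk => by
    rw [Pi.single_apply, if_neg]
    rintro rfl
    exact absurd hk (not_lt.2 hij)
  simpa [Pi.single_apply, ite_pow] using this

/-- On vectors orthogonal to `o_j`, `j < m` (`m < N`), `‖opx x z‖ ≤ s_m ‖z‖`. -/
theorem greedy_orth {x : ι → E} {N : ℕ} {o : OrthonormalBasis (Fin N) ℝ (EuclideanSpace ℝ ι)}
    (h : GreedyB x o) (m : Fin N) {z : EuclideanSpace ℝ ι} (hz : ∀ j, j < m → inner ℝ (o j) z = 0) :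
    ‖opx x z‖ ≤ ‖opx x (o m)‖ * ‖z‖ := by
  have h1 := h m (fun j => inner ℝ (o j) z) hz
  have h2 : ∑ j, (inner ℝ (o j) z : ℝ) • opx x (o j) = opx x z := by
    have h3 : Greedy_lin x (∑ j, (inner ℝ (o j) z : ℝ) • o j) = Greedy_lin x z := by
      rw [o.sum_repr']
    rw [map_sum] at h3
    simp only [map_smul] at h3
    exact h3
  have h4 : Real.sqrt (∑ j, (inner ℝ (o j) z : ℝ) ^ 2) = ‖z‖ := by
    rw [← Greedy_norm_sum o.orthonormal, o.sum_repr']
  rw [h2, h4] at h1
  exact h1

end Pool.Agent.helper75.Pel
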