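import Pool.Agent.helper75.Pel.Defs

/-!
# Kwapien1 : a Euclidean form from domination (Hahn-Banach)

Let `V` be the real vector space of functions `f : E* → ℝ` spanned by `ξ ↦ ξ(x)²` (`Submodule.span`; it
contains `ξ ↦ ξ(x)ξ(y)` by polarization).  Every `f ∈ V` is a difference
`f(ξ) = ∑_j ξ(y_j)² - ∑_i ξ(x_i)²` of two finite sums of squares (scalars are absorbed).  Let
`p(f) = inf (D² ∑‖y_j‖² - ∑‖x_i‖²)` over all such representations.  By hypothesis the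
representations of `0` have value `≥ 0`; concatenation gives `p(f) ≥ - value of a representation of -f > -∞`,
`p(f+g) ≤ p(f)+p(g)`, `p(cf) = c p(f)` for `c > 0`, `p(0) = 0`.  Hahn-Banach
(`exists_extension_of_le_sublinear` with the zero functional on the zero subspace): a linear `L ≤ p`.
`Q(x,y) = L(ξ ↦ ξ(x)ξ(y))` is a symmetric bilinear form, `Q(x,x) ≤ p(ξ(x)²) ≤ D²‖x‖²`,
`-Q(x,x) = L(-ξ(x)²) ≤ p(-ξ(x)²) ≤ -‖x‖²`.  So `‖x‖² ≤ Q(x,x) ≤ D²‖x‖²`.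

Here the Riesz extension theorem is used on `V × ℝ` with the cone of pairs `(f, t)`, `f` having a
representation of value at most `t`.
-/

namespace Pool.Agent.helper75.Pel

universe u

section Kwapien1

variable {E : Type u} [NormedAddCommGroup E] [NormedSpace ℝ E]

/-- `f` has a representation of value at most `t`. -/
def Kwapien1_Rep (D : ℝ) (f : (E →L[ℝ] ℝ) → ℝ) (t : ℝ) : Prop :=
  ∃ (N M : ℕ) (x : Fin N → E) (y : Fin M → E), (∀ ξ, f ξ = QF y ξ - QF x ξ) ∧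
    D ^ 2 * ∑ j, ‖y j‖ ^ 2 - ∑ i, ‖x i‖ ^ 2 ≤ t

theorem Kwapien1_QF_append {N M : ℕ} (x : Fin N → E) (y : Fin M → E) (ξ : E →L[ℝ] ℝ) :
    QF (Fin.append x y) ξ = QF x ξ + QF y ξ := by
  unfold QF
  rw [Fin.sum_univ_add]
  simp

omit [NormedSpace ℝ E] in
theorem Kwapien1_nsq_append {N M : ℕ} (x : Fin N → E) (y : Fin M → E) :
    ∑ i, ‖Fin.append x y i‖ ^ 2 = ∑ i, ‖x i‖ ^ 2 + ∑ i, ‖y i‖ ^ 2 := by
  rw [Fin.sum_univ_add]
  simp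

theorem Kwapien1_QF_smul {N : ℕ} (c : ℝ) (x : Fin N → E) (ξ : E →L[ℝ] ℝ) :
    QF (fun i => c • x i) ξ = c ^ 2 * QF x ξ := by
  unfold QF
  rw [Finset.mul_sum]
  refine Finset.sum_congr rfl fun i _ => ?_
  simp [mul_pow]

theorem Kwapien1_nsq_smul {N : ℕ} (c : ℝ) (x : Fin N → E) :
    ∑ i, ‖c • x i‖ ^ 2 = c ^ 2 * ∑ i, ‖x i‖ ^ 2 := by
  rw [Finset.mul_sum]
  refine Finset.sum_congr rfl fun i _ => ?_
  rw [norm_smul, mul_pow, Real.norm_eq_abs, sq_abs]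

theorem Kwapien1_Rep_zero (D : ℝ) : Kwapien1_Rep (E := E) D 0 0 := by
  refine ⟨0, 0, Fin.elim0, Fin.elim0, fun ξ => ?_, ?_⟩
  · simp [QF]
  · simp

theorem Kwapien1_Rep_add {D : ℝ} {f g : (E →L[ℝ] ℝ) → ℝ} {s t : ℝ}
    (hf : Kwapien1_Rep D f s) (hg : Kwapien1_Rep D g t) : Kwapien1_Rep D (f + g) (s + t) := by
  obtain ⟨N, M, x, y, h1, h2⟩ := hf
  obtain ⟨N', M', x', y', h1', h2'⟩ := hg
  refine ⟨N + N', M + M', Fin.append x x', Fin.append y y', fun ξ => ?_, ?_⟩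
  · rw [Pi.add_apply, h1, h1', Kwapien1_QF_append, Kwapien1_QF_append]; ring
  · rw [Kwapien1_nsq_append, Kwapien1_nsq_append]
    linarith

theorem Kwapien1_Rep_smul {D : ℝ} {f : (E →L[ℝ] ℝ) → ℝ} {t c : ℝ} (hc : 0 ≤ c)
    (hf : Kwapien1_Rep D f t) : Kwapien1_Rep D (c • f) (c * t) := by
  obtain ⟨N, M, x, y, h1, h2⟩ := hf
  have hs : Real.sqrt c ^ 2 = c := Real.sq_sqrt hc
  refine ⟨N, M, fun i => Real.sqrt c • x i, fun i => Real.sqrt c • y i, fun ξ => ?_, ?_⟩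
  · rw [Pi.smul_apply, h1, Kwapien1_QF_smul, Kwapien1_QF_smul, hs, smul_eq_mul]; ring
  · rw [Kwapien1_nsq_smul, Kwapien1_nsq_smul, hs]
    have := mul_le_mul_of_nonneg_left h2 hc
    linarith

theorem Kwapien1_Rep_neg {D : ℝ} {f : (E →L[ℝ] ℝ) → ℝ} {t : ℝ}
    (hf : Kwapien1_Rep D f t) : ∃ s, Kwapien1_Rep D (-f) s := by
  obtain ⟨N, M, x, y, h1, h2⟩ := hf
  refine ⟨_, M, N, y, x, fun ξ => ?_, le_refl _⟩
  rw [Pi.neg_apply, h1]; ring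

theorem Kwapien1_Rep_sq (D : ℝ) (x : E) :
    Kwapien1_Rep D (fun ξ => ξ x * ξ x) (D ^ 2 * ‖x‖ ^ 2) := by
  refine ⟨0, 1, Fin.elim0, fun _ => x, fun ξ => ?_, ?_⟩
  · simp [QF, sq]
  · simp

theorem Kwapien1_Rep_neg_sq (D : ℝ) (x : E) :
    Kwapien1_Rep D (-(fun ξ => ξ x * ξ x)) (-‖x‖ ^ 2) := by
  refine ⟨1, 0, fun _ => x, Fin.elim0, fun ξ => ?_, ?_⟩
  · simp [QF, sq]
  · simp

/-- The space spanned by the squares. -/
def Kwapien1_V (E : Type u) [NormedAddCommGroup E] [NormedSpace ℝ E] (D : ℝ) :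
    Submodule ℝ ((E →L[ℝ] ℝ) → ℝ) where
  carrier := {f | ∃ t, Kwapien1_Rep D f t}
  add_mem' := by
    rintro f g ⟨s, hs⟩ ⟨t, ht⟩
    exact ⟨_, Kwapien1_Rep_add hs ht⟩
  zero_mem' := ⟨0, Kwapien1_Rep_zero D⟩
  smul_mem' := by
    rintro c f ⟨t, ht⟩
    rcases le_total 0 c with hc | hc
    · exact ⟨_, Kwapien1_Rep_smul hc ht⟩
    · obtain ⟨s, hs⟩ := Kwapien1_Rep_neg ht
      have := Kwapien1_Rep_smul (c := -c) (by linarith) hs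
      rw [smul_neg, neg_smul, neg_neg] at this
      exact ⟨_, this⟩

theorem Kwapien1_mem_mul (D : ℝ) (x y : E) : (fun ξ : E →L[ℝ] ℝ => ξ x * ξ y) ∈ Kwapien1_V E D := by
  have h1 : (fun ξ : E →L[ℝ] ℝ => ξ (x + y) * ξ (x + y)) ∈ Kwapien1_V E D := ⟨_, Kwapien1_Rep_sq D _⟩
  have h2 : (fun ξ : E →L[ℝ] ℝ => ξ x * ξ x) ∈ Kwapien1_V E D := ⟨_, Kwapien1_Rep_sq D _⟩
  have h3 : (fun ξ : E →L[ℝ] ℝ => ξ y * ξ y) ∈ Kwapien1_V E D := ⟨_, Kwapien1_Rep_sq D _⟩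
  have h4 := (Kwapien1_V E D).smul_mem (1 / 2 : ℝ)
    ((Kwapien1_V E D).sub_mem ((Kwapien1_V E D).sub_mem h1 h2) h3)
  convert h4 using 1
  funext ξ
  simp only [Pi.smul_apply, Pi.sub_apply, map_add, smul_eq_mul]
  ring

/-- The cone of pairs `(f, t)`. -/
def Kwapien1_cone (E : Type u) [NormedAddCommGroup E] [NormedSpace ℝ E] (D : ℝ) :
    PointedCone ℝ (Kwapien1_V E D × ℝ) where
  carrier := {p | Kwapien1_Rep D (p.1 : (E →L[ℝ] ℝ) → ℝ) p.2}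
  zero_mem' := Kwapien1_Rep_zero D
  smul_mem' := by
    intro c p hp
    exact Kwapien1_Rep_smul c.2 hp
  add_mem' := by
    intro p q hp hq
    exact Kwapien1_Rep_add hp hq

theorem Kwapien1_func (D : ℝ)
    (h : ∀ (N M : ℕ) (x : Fin N → E) (y : Fin M → E), (∀ ξ, QF x ξ = QF y ξ) →
      ∑ i, ‖x i‖ ^ 2 ≤ D ^ 2 * ∑ j, ‖y j‖ ^ 2) :
    ∃ L : Kwapien1_V E D →ₗ[ℝ] ℝ, ∀ (f : Kwapien1_V E D) (t : ℝ),
      Kwapien1_Rep D (f : (E →L[ℝ] ℝ) → ℝ) t → L f ≤ t := by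
  have hzero : ∀ t, Kwapien1_Rep (E := E) D 0 t → 0 ≤ t := by
    rintro t ⟨N, M, x, y, h1, h2⟩
    have := h N M x y fun ξ => by
      have := h1 ξ
      rw [Pi.zero_apply] at this
      linarith
    linarith
  let P : Submodule ℝ (Kwapien1_V E D × ℝ) := LinearMap.range (LinearMap.inr ℝ (Kwapien1_V E D) ℝ)
  let f₀ : (Kwapien1_V E D × ℝ) →ₗ.[ℝ] ℝ := ⟨P, (LinearMap.snd ℝ (Kwapien1_V E D) ℝ).comp P.subtype⟩
  obtain ⟨g, hg1, hg2⟩ := riesz_extension (Kwapien1_cone E D) f₀ (by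
    rintro ⟨p, hp⟩ hps
    obtain ⟨t, rfl⟩ := hp
    exact hzero t hps) (by
    rintro ⟨f, r⟩
    obtain ⟨t, ht⟩ := f.2
    refine ⟨⟨(0, t - r), ⟨t - r, rfl⟩⟩, ?_⟩
    change Kwapien1_Rep D _ _
    convert ht using 1
    · simp
    · simp)
  refine ⟨-(g.comp (LinearMap.inl ℝ (Kwapien1_V E D) ℝ)), fun f t hft => ?_⟩
  have h1 : 0 ≤ g (f, t) := hg2 (f, t) hft
  have h2 : g (0, t) = t := hg1 ⟨(0, t), ⟨t, rfl⟩⟩
  have h3 : g (f, t) = g (f, 0) + g (0, t) := by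
    rw [← map_add]; simp
  rw [LinearMap.neg_apply, LinearMap.comp_apply, LinearMap.inl_apply]
  linarith

/-- `(x, y) ↦ (ξ ↦ ξ(x) ξ(y))`. -/
def Kwapien1_B (E : Type u) [NormedAddCommGroup E] [NormedSpace ℝ E] (D : ℝ) :
    E →ₗ[ℝ] E →ₗ[ℝ] Kwapien1_V E D :=
  LinearMap.mk₂ ℝ (fun x y => ⟨fun ξ => ξ x * ξ y, Kwapien1_mem_mul D x y⟩)
    (by
      intro x x' y
      ext ξ
      simp [add_mul])
    (by
      intro c x y
      ext ξ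
      simp [mul_assoc])
    (by
      intro x y y'
      ext ξ
      simp [mul_add])
    (by
      intro c x y
      ext ξ
      simp
      ring)

end Kwapien1

theorem kwapien_form (E : Type u) [NormedAddCommGroup E] [NormedSpace ℝ E] [FiniteDimensional ℝ E]
    (D : ℝ)
    (h : ∀ (N M : ℕ) (x : Fin N → E) (y : Fin M → E), (∀ ξ, QF x ξ = QF y ξ) →
      ∑ i, ‖x i‖ ^ 2 ≤ D ^ 2 * ∑ j, ‖y j‖ ^ 2) :
    ∃ Q : E →ₗ[ℝ] E →ₗ[ℝ] ℝ, (∀ x y, Q x y = Q y x) ∧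
      ∀ x, ‖x‖ ^ 2 ≤ Q x x ∧ Q x x ≤ D ^ 2 * ‖x‖ ^ 2 := by
  obtain ⟨L, hL⟩ := Kwapien1_func D h
  refine ⟨(Kwapien1_B E D).compr₂ L, fun x y => ?_, fun x => ⟨?_, ?_⟩⟩
  · rw [LinearMap.compr₂_apply, LinearMap.compr₂_apply]
    congr 1
    apply Subtype.ext
    funext ξ
    exact mul_comm _ _
  · have := hL (-(Kwapien1_B E D x x)) (-‖x‖ ^ 2) (Kwapien1_Rep_neg_sq D x)
    rw [map_neg] at this
    rw [LinearMap.compr₂_apply]
    linarith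
  · rw [LinearMap.compr₂_apply]
    exact hL _ _ (Kwapien1_Rep_sq D x)

end Pool.Agent.helper75.Pel
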