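import Pool.Agent.helper75.Pel.Sampling
import Pool.Agent.helper75.Pel.Greedy
import Pool.Agent.helper75.Pel.Dom

/-!
# LemmaR : the restriction of `x` to a small subspace

`sampling` with the `w s` gives `p`, `B`; `P(A) = ∏ p(A t)`, `N = card ι`.
For `A` let `u_t = (q p_{A t})^{-1/2} x_{A t}` and `b_{t,s} = w_s(A t) (q p_{A t})^{-1/2}`.
`opx x (w s) = ∑_i w_s(i) x_i = ∑_A P(A) ∑_t b_{t,s} u_t` (`sampling_mean` with
`f i = (w_s(i)/(q p_i)) x_i`).  `ell_sum_le` (Jensen): `ell (opx x (w s))_s ≤ ∑_A P(A) ell ((∑_t b_{t,s} u_t)_s)`.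
For fixed `A`: `QF ((∑_t b_{t,s} u_t)_s) ξ = ∑_s (∑_t b_{t,s} ξ(u_t))² ≤ (B A)² ∑_t ξ(u_t)²`: the
inequality of `sampling` says `|b c|² ≤ B² |c|²` for `c ∈ ℝ^d`; then for `v ∈ ℝ^q`, `c = bᵀ v`:
`|c|² = ⟨b c, v⟩ ≤ |b c||v| ≤ B |c||v|`, so `|bᵀ v|² ≤ B² |v|²`.  So `ell (..) ≤ B_A ell u`
(`ell_le_mul`), and `ell u ≤ t √(2N)` since `‖u_t‖ ≤ (q/(2N))^{-1/2}` (scale to the unit ball and use
`TY E q t`).  Sum up: `≤ √2 · t √(2N) = 2 t √N`.
-/

namespace Pool.Agent.helper75.Pel

universe u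
variable {E : Type u} [NormedAddCommGroup E] [NormedSpace ℝ E] [FiniteDimensional ℝ E]

/-- A matrix and its transpose have the same operator bound. -/
private theorem LemmaR_transpose {d q : ℕ} (b : Fin q → Fin d → ℝ) {B : ℝ}
    (hb : ∀ c : Fin d → ℝ, ∑ t, (∑ s, c s * b t s) ^ 2 ≤ B ^ 2 * ∑ s, c s ^ 2) (v : Fin q → ℝ) :
    ∑ s, (∑ t, b t s * v t) ^ 2 ≤ B ^ 2 * ∑ t, v t ^ 2 := by
  set c : Fin d → ℝ := fun s => ∑ t, b t s * v t with hc
  have h1 : ∑ s, c s ^ 2 = ∑ t, v t * ∑ s, c s * b t s := by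
    calc ∑ s, c s ^ 2 = ∑ s, ∑ t, c s * (b t s * v t) := by
          refine Finset.sum_congr rfl fun s _ => ?_
          rw [sq]
          conv_lhs => rw [show c s * c s = c s * ∑ t, b t s * v t from rfl]
          rw [Finset.mul_sum]
      _ = ∑ t, ∑ s, c s * (b t s * v t) := Finset.sum_comm
      _ = ∑ t, v t * ∑ s, c s * b t s := by
          refine Finset.sum_congr rfl fun t _ => ?_
          rw [Finset.mul_sum]
          exact Finset.sum_congr rfl fun s _ => by ring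
  have h2 : (∑ t, v t * ∑ s, c s * b t s) ^ 2 ≤
      (∑ t, v t ^ 2) * ∑ t, (∑ s, c s * b t s) ^ 2 :=
    Finset.sum_mul_sq_le_sq_mul_sq _ _ _
  have h3 := hb c
  have hc0 : 0 ≤ ∑ s, c s ^ 2 := Finset.sum_nonneg fun s _ => sq_nonneg _
  have hv0 : 0 ≤ ∑ t, v t ^ 2 := Finset.sum_nonneg fun s _ => sq_nonneg _
  rcases hc0.eq_or_lt with h0 | h0
  · calc ∑ s, (∑ t, b t s * v t) ^ 2 = ∑ s, c s ^ 2 := rfl
      _ = 0 := h0.symm
      _ ≤ _ := by positivity
  · have h4 : (∑ s, c s ^ 2) * (∑ s, c s ^ 2) ≤ (∑ s, c s ^ 2) * (B ^ 2 * ∑ t, v t ^ 2) := by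
      calc (∑ s, c s ^ 2) * (∑ s, c s ^ 2) = (∑ t, v t * ∑ s, c s * b t s) ^ 2 := by
            rw [← h1]; ring
        _ ≤ (∑ t, v t ^ 2) * ∑ t, (∑ s, c s * b t s) ^ 2 := h2
        _ ≤ (∑ t, v t ^ 2) * (B ^ 2 * ∑ s, c s ^ 2) := mul_le_mul_of_nonneg_left h3 hv0
        _ = (∑ s, c s ^ 2) * (B ^ 2 * ∑ t, v t ^ 2) := by ring
    exact le_of_mul_le_mul_left h4 h0

omit [FiniteDimensional ℝ E] in
private theorem LemmaR_tnonneg {q : ℕ} (hq1 : 1 ≤ q) {t : ℝ} (ht : TY E q t) : 0 ≤ t := by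
  have h1 := ht (fun _ => 0) (fun _ => by simp)
  have h2 := ell_nonneg (fun _ : Fin q => (0 : E))
  have h3 : (0 : ℝ) < Real.sqrt q := Real.sqrt_pos.mpr (by exact_mod_cast hq1)
  by_contra h
  push Not at h
  have := mul_neg_of_neg_of_pos h h3
  linarith

omit [FiniteDimensional ℝ E] in
private theorem LemmaR_scale {q : ℕ} {t : ℝ} (ht : TY E q t) {M : ℝ} (hM : 0 < M)
    (u : Fin q → E) (hu : ∀ i, ‖u i‖ ≤ M) : ell u ≤ M * (t * Real.sqrt q) := by
  have h1 := ht (fun i => M⁻¹ • u i) (fun i => by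
    rw [norm_smul, norm_inv, Real.norm_eq_abs, abs_of_pos hM]
    rw [inv_mul_le_iff₀ hM]
    simpa using hu i)
  have h2 : ell u = |M| * ell (fun i => M⁻¹ • u i) := by
    rw [← ell_smul]
    congr 1
    funext i
    rw [smul_smul, mul_inv_cancel₀ hM.ne', one_smul]
  rw [h2, abs_of_pos hM]
  exact mul_le_mul_of_nonneg_left h1 hM.le

theorem lemmaR {ι : Type} [Fintype ι] {x : ι → E} (hx : ∀ i, ‖x i‖ ≤ 1) {d q : ℕ}
    {w : Fin d → EuclideanSpace ℝ ι} (hw : Orthonormal ℝ w) (hq1 : 1 ≤ q) (hq : 2 * d ^ 2 ≤ q)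
    {t : ℝ} (ht : TY E q t) :
    ell (fun s => opx x (w s)) ≤ 2 * t * Real.sqrt (Fintype.card ι) := by
  classical
  have ht0 : 0 ≤ t := LemmaR_tnonneg hq1 ht
  rcases Nat.eq_zero_or_pos d with rfl | hd
  · have h0 : ell (fun s : Fin 0 => opx x (w s)) ≤ 0 := by
      have := ell_le_sum_norm (fun s : Fin 0 => opx x (w s))
      simpa using this
    exact h0.trans (by positivity)
  have hw' : ∀ s s' : Fin d, ∑ i, w s i * w s' i = if s = s' then 1 else 0 := by
    intro s s'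
    have h1 := (orthonormal_iff_ite.mp hw) s s'
    rw [← h1, PiLp.inner_apply]
    refine Finset.sum_congr rfl fun i _ => ?_
    simp [mul_comm]
  obtain ⟨p, hp, hp1, B, hB0, hB, hBs⟩ := sampling (fun s i => w s i) hw' hd hq
  set N : ℝ := (Fintype.card ι : ℝ) with hN
  have hNpos : 0 < N := by
    have hne : Nonempty ι := by
      by_contra hne
      rw [not_nonempty_iff] at hne
      simp at hp1
    rw [hN]
    exact_mod_cast Fintype.card_pos
  have hppos : ∀ i, 0 < p i := fun i => lt_of_lt_of_le (by positivity) (hp i)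
  have hqpos : (0 : ℝ) < q := by exact_mod_cast hq1
  set r : ι → ℝ := fun i => (Real.sqrt (q * p i))⁻¹ with hr
  have hrpos : ∀ i, 0 < r i := fun i => inv_pos.mpr (Real.sqrt_pos.mpr (mul_pos hqpos (hppos i)))
  have hr2 : ∀ i, r i * r i = 1 / (q * p i) := by
    intro i
    simp only [hr]
    rw [← mul_inv, Real.mul_self_sqrt (mul_pos hqpos (hppos i)).le, one_div]
  set y : (Fin q → ι) → Fin d → E := fun A s => ∑ k, (w s (A k) / (q * p (A k))) • x (A k) with hy
  set uu : (Fin q → ι) → Fin q → E := fun A k => r (A k) • x (A k) with huu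
  -- the mean
  have hmean : (fun s => opx x (w s)) = fun s => ∑ A : Fin q → ι, (∏ k, p (A k)) • y A s := by
    funext s
    have h1 := sampling_mean q p hp1 (fun i => (w s i / (q * p i)) • x i)
    rw [hy]
    simp only
    rw [h1, opx, Finset.smul_sum]
    refine Finset.sum_congr rfl fun i _ => ?_
    rw [smul_smul, smul_smul]
    congr 1
    have := (hppos i).ne'
    have := hqpos.ne'
    field_simp
  rw [hmean]
  refine (ell_sum_le Finset.univ (fun A : Fin q → ι => ∏ k, p (A k))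
    (fun A _ => Finset.prod_nonneg fun k _ => (hppos _).le) y).trans ?_
  -- every sample
  have hA : ∀ A : Fin q → ι, ell (y A) ≤ B A * (Real.sqrt (2 * N / q) * (t * Real.sqrt q)) := by
    intro A
    have h1 : ell (y A) ≤ B A * ell (uu A) := by
      refine ell_le_mul (hB0 A) fun ξ => ?_
      have h2 := LemmaR_transpose (fun k s => w s (A k) * r (A k)) (B := B A) (fun c => by
        refine le_trans (le_of_eq ?_) (hB A c)
        refine Finset.sum_congr rfl fun k _ => ?_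
        have h3 : ∑ s, c s * (w s (A k) * r (A k)) = (∑ s, c s * w s (A k)) * r (A k) := by
          rw [Finset.sum_mul]
          exact Finset.sum_congr rfl fun s _ => by ring
        rw [h3, mul_pow, sq (r (A k)), hr2]
        ring) (fun k => ξ (uu A k))
      refine le_trans (le_of_eq ?_) h2
      unfold QF
      refine Finset.sum_congr rfl fun s _ => ?_
      congr 1
      rw [hy]
      simp only
      rw [map_sum]
      refine Finset.sum_congr rfl fun k _ => ?_
      rw [huu]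
      simp only [map_smul, smul_eq_mul]
      rw [div_eq_mul_one_div, ← hr2]
      ring
    refine h1.trans (mul_le_mul_of_nonneg_left ?_ (hB0 A))
    refine LemmaR_scale ht (Real.sqrt_pos.mpr (by positivity)) _ fun k => ?_
    rw [huu]
    simp only
    rw [norm_smul, Real.norm_eq_abs, abs_of_pos (hrpos _)]
    refine (mul_le_mul_of_nonneg_left (hx (A k)) (hrpos _).le).trans ?_
    rw [mul_one]
    simp only [hr]
    rw [← Real.sqrt_inv]
    refine Real.sqrt_le_sqrt ?_
    rw [inv_le_comm₀ (mul_pos hqpos (hppos _)) (by positivity), inv_div]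
    have h5 := hp (A k)
    calc (q : ℝ) / (2 * N) = q * (1 / (2 * N)) := by ring
      _ ≤ q * p (A k) := mul_le_mul_of_nonneg_left h5 hqpos.le
  have hS : Real.sqrt (2 * N / q) * (t * Real.sqrt q) = t * (Real.sqrt 2 * Real.sqrt N) := by
    rw [Real.sqrt_div' _ hqpos.le, Real.sqrt_mul (by norm_num)]
    have : Real.sqrt q ≠ 0 := (Real.sqrt_pos.mpr hqpos).ne'
    field_simp
  calc ∑ A : Fin q → ι, (∏ k, p (A k)) * ell (y A)
      ≤ ∑ A : Fin q → ι, (∏ k, p (A k)) * (B A * (t * (Real.sqrt 2 * Real.sqrt N))) := by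
        refine Finset.sum_le_sum fun A _ => ?_
        refine mul_le_mul_of_nonneg_left ?_ (Finset.prod_nonneg fun k _ => (hppos _).le)
        rw [← hS]
        exact hA A
    _ = (∑ A : Fin q → ι, (∏ k, p (A k)) * B A) * (t * (Real.sqrt 2 * Real.sqrt N)) := by
        rw [Finset.sum_mul]
        exact Finset.sum_congr rfl fun A _ => by ring
    _ ≤ Real.sqrt 2 * (t * (Real.sqrt 2 * Real.sqrt N)) :=
        mul_le_mul_of_nonneg_right hBs (by positivity)
    _ = 2 * t * Real.sqrt N := by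
        have : Real.sqrt 2 * Real.sqrt 2 = 2 := Real.mul_self_sqrt (by norm_num)
        calc Real.sqrt 2 * (t * (Real.sqrt 2 * Real.sqrt N))
            = (Real.sqrt 2 * Real.sqrt 2) * (t * Real.sqrt N) := by ring
          _ = 2 * t * Real.sqrt N := by rw [this]; ring

end Pool.Agent.helper75.Pel
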