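import Pool.Agent.helper75.Pel.Defs

/-!
# Psi1 : two auxiliary facts

`indep_set`: in a digraph with out-degrees at most `d` on at least `(2d+1)p` vertices there are `p`
vertices without arcs between them: the total number of arcs is at most `d·|S|`, so some vertex `v` has
in-degree at most `d` (inside `S`); remove `v` and its at most `2d` neighbours, induction on `p`.

`emax`: `E max_{i<p} |g_i|` is unbounded: for `B ≥ 0` the probability `θ = γ(|t| > 2B)` is positive
(the Gaussian measure charges the open set), `P(all |g_i| ≤ 2B) = (1-θ)^p ≤ 1/2` for `p` large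
(`Measure.pi_pi`), so any integrable `F ≥ 0` with `F g ≥ |g_i|` for all `i` has `∫ F ≥ 2B · 1/2 = B`.
-/

namespace Pool.Agent.helper75.Pel
open MeasureTheory ProbabilityTheory

theorem indep_set {α : Type} [DecidableEq α] (r : α → α → Prop) [DecidableRel r] (d : ℕ) :
    ∀ (p : ℕ) (S : Finset α), (2 * d + 1) * p ≤ S.card →
      (∀ i ∈ S, (S.filter fun j => j ≠ i ∧ r i j).card ≤ d) →
      ∃ I ⊆ S, I.card = p ∧ ∀ i ∈ I, ∀ j ∈ I, i ≠ j → ¬ r i j := by
  intro p
  induction p with
  | zero => exact fun S _ _ => ⟨∅, Finset.empty_subset _, rfl, by simp⟩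
  | succ p ih =>
    intro S hS hd
    have hne : S.Nonempty := by
      rw [← Finset.card_pos]
      have : 0 < (2 * d + 1) * (p + 1) := by positivity
      omega
    -- a vertex of small in-degree
    have hsum : ∑ v ∈ S, (S.filter fun i => v ≠ i ∧ r i v).card ≤ ∑ v ∈ S, d := by
      calc ∑ v ∈ S, (S.filter fun i => v ≠ i ∧ r i v).card
          = ∑ v ∈ S, ∑ i ∈ S, (if v ≠ i ∧ r i v then 1 else 0) := by
            refine Finset.sum_congr rfl fun v _ => ?_
            rw [Finset.card_filter]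
        _ = ∑ i ∈ S, ∑ v ∈ S, (if v ≠ i ∧ r i v then 1 else 0) := Finset.sum_comm
        _ = ∑ i ∈ S, (S.filter fun j => j ≠ i ∧ r i j).card := by
            refine Finset.sum_congr rfl fun i _ => ?_
            rw [Finset.card_filter]
        _ ≤ ∑ v ∈ S, d := Finset.sum_le_sum hd
    obtain ⟨v, hv, hin⟩ := Finset.exists_le_of_sum_le hne hsum
    set S' := S.filter fun j => j ≠ v ∧ ¬ r v j ∧ ¬ r j v with hS'
    have hcover : S ⊆ ({v} ∪ (S.filter fun j => j ≠ v ∧ r v j)) ∪
        ((S.filter fun i => v ≠ i ∧ r i v) ∪ S') := by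
      intro j hj
      simp only [Finset.mem_union, Finset.mem_singleton, Finset.mem_filter, hS']
      by_cases h1 : j = v
      · exact Or.inl (Or.inl h1)
      · by_cases h2 : r v j
        · exact Or.inl (Or.inr ⟨hj, h1, h2⟩)
        · by_cases h3 : r j v
          · exact Or.inr (Or.inl ⟨hj, fun h => h1 h.symm, h3⟩)
          · exact Or.inr (Or.inr ⟨hj, h1, h2, h3⟩)
    have hcard : S.card ≤ (1 + d) + (d + S'.card) := by
      refine (Finset.card_le_card hcover).trans ?_
      refine (Finset.card_union_le _ _).trans (Nat.add_le_add ?_ ?_)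
      · refine (Finset.card_union_le _ _).trans (Nat.add_le_add ?_ (hd v hv))
        rw [Finset.card_singleton]
      · exact (Finset.card_union_le _ _).trans (Nat.add_le_add hin le_rfl)
    have hS'card : (2 * d + 1) * p ≤ S'.card := by
      have : (2 * d + 1) * (p + 1) = (2 * d + 1) * p + (2 * d + 1) := by ring
      omega
    have hS'sub : S' ⊆ S := Finset.filter_subset _ _
    obtain ⟨I, hI, hIc, hIi⟩ := ih S' hS'card (fun i hi => by
      refine (Finset.card_le_card ?_).trans (hd i (hS'sub hi))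
      exact Finset.filter_subset_filter _ hS'sub)
    have hvI : v ∉ I := fun h => by
      have := (Finset.mem_filter.mp (hI h)).2.1
      exact this rfl
    refine ⟨insert v I, ?_, ?_, ?_⟩
    · intro x hx
      rcases Finset.mem_insert.mp hx with h | h
      · rw [h]; exact hv
      · exact hS'sub (hI h)
    · rw [Finset.card_insert_of_notMem hvI, hIc]
    · intro i hi j hj hij
      rcases Finset.mem_insert.mp hi with h | h <;> rcases Finset.mem_insert.mp hj with h' | h'
      · exact absurd (h.trans h'.symm) hij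
      · rw [h]; exact (Finset.mem_filter.mp (hI h')).2.2.1
      · rw [h']; exact (Finset.mem_filter.mp (hI h)).2.2.2
      · exact hIi i h j h' hij

theorem Psi1_pos (B : ℝ) : 0 < (gaussianReal 0 1).real {t : ℝ | B < |t|} := by
  rw [Measure.real, ENNReal.toReal_pos_iff]
  refine ⟨?_, measure_lt_top _ _⟩
  have hsub : Set.Ioi (|B|) ⊆ {t : ℝ | B < |t|} := fun t ht =>
    lt_of_le_of_lt (le_abs_self B) (lt_of_lt_of_le ht (le_abs_self t))
  refine lt_of_lt_of_le ?_ (measure_mono hsub)
  have hopen : IsOpen (Set.Ioi (|B|)) := isOpen_Ioi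
  have : Measure.IsOpenPosMeasure (gaussianReal 0 1) := by
    have h := gaussianReal_absolutelyContinuous' (0 : ℝ) (v := 1) one_ne_zero
    exact h.isOpenPosMeasure
  exact hopen.measure_pos _ ⟨|B| + 1, by simp⟩

theorem emax (B : ℝ) : ∃ p : ℕ, 1 ≤ p ∧ ∀ (ι : Type) [Fintype ι], p ≤ Fintype.card ι →
    ∀ F : (ι → ℝ) → ℝ, Integrable F (gam ι) → (∀ g, 0 ≤ F g) → (∀ g i, |g i| ≤ F g) →
      B ≤ ∫ g, F g ∂(gam ι) := by
  by_cases hB : B ≤ 0
  · exact ⟨1, le_rfl, fun ι _ _ F _ h0 _ => hB.trans (integral_nonneg h0)⟩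
  rw [not_le] at hB
  set θ : ℝ := (gaussianReal 0 1).real {t : ℝ | 2 * B < |t|} with hθ
  have hθ0 : 0 < θ := Psi1_pos (2 * B)
  have hmeas : MeasurableSet {t : ℝ | 2 * B < |t|} :=
    measurableSet_lt measurable_const measurable_norm
  have hcompl : (gaussianReal 0 1).real {t : ℝ | |t| ≤ 2 * B} = 1 - θ := by
    have : {t : ℝ | |t| ≤ 2 * B} = {t : ℝ | 2 * B < |t|}ᶜ := by
      ext t; simp
    rw [this, measureReal_compl hmeas, hθ]
    simp
  have hle : 0 ≤ 1 - θ := by rw [← hcompl]; exact measureReal_nonneg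
  obtain ⟨p, hp⟩ := exists_pow_lt_of_lt_one (show (0 : ℝ) < 1 / 2 by norm_num)
    (show 1 - θ < 1 by linarith)
  refine ⟨max p 1, le_max_right _ _, ?_⟩
  intro ι _ hι F hF h0 hmax
  have hpow : (1 - θ) ^ Fintype.card ι ≤ 1 / 2 :=
    (pow_le_pow_of_le_one hle (by linarith) ((le_max_left _ _).trans hι)).trans hp.le
  -- the cube
  have hcube : (gam ι).real {g | ∀ i, |g i| ≤ 2 * B} = (1 - θ) ^ Fintype.card ι := by
    have h1 : {g : ι → ℝ | ∀ i, |g i| ≤ 2 * B} = Set.pi Set.univ fun _ => {t : ℝ | |t| ≤ 2 * B} := by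
      ext g; simp
    rw [h1, Measure.real, gam, Measure.pi_pi, ENNReal.toReal_prod, Finset.prod_const,
      Finset.card_univ]
    congr 1
  have hcm : MeasurableSet {g : ι → ℝ | ∀ i, |g i| ≤ 2 * B} := by
    have h1 : {g : ι → ℝ | ∀ i, |g i| ≤ 2 * B} = ⋂ i, {g | |g i| ≤ 2 * B} := by
      ext g; simp
    rw [h1]
    exact MeasurableSet.iInter fun i =>
      measurableSet_le ((measurable_pi_apply i).norm) measurable_const
  have hout : 1 / 2 ≤ (gam ι).real {g | ∀ i, |g i| ≤ 2 * B}ᶜ := by
    rw [measureReal_compl hcm, hcube]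
    simp only [probReal_univ]
    linarith
  have hsub : {g : ι → ℝ | ∀ i, |g i| ≤ 2 * B}ᶜ ⊆ {g | 2 * B ≤ F g} := by
    intro g hg
    simp only [Set.mem_compl_iff, Set.mem_ofPred_eq, not_forall, not_le] at hg
    obtain ⟨i, hi⟩ := hg
    exact hi.le.trans (hmax g i)
  have hmark := mul_meas_ge_le_integral_of_nonneg (μ := gam ι)
    (Filter.Eventually.of_forall h0) hF (2 * B)
  have h3 : 1 / 2 ≤ (gam ι).real {g | 2 * B ≤ F g} := hout.trans (measureReal_mono hsub)
  nlinarith

end Pool.Agent.helper75.Pel
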