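import Pool.Agent.helper75.Pel.Psi1
import Pool.Agent.helper75.Pel.Dom

/-!
# Psi2 : flat systems of large size have large `ell`

`p` from `emax (B+1)`, `τ = 1/p²`, `d ≥ 2/τ² = 2p⁴`, `q₀ = (2d+1)p`.  Flat `y : Fin q₀ → E`: norming
functionals `φ_i` (`exists_dual_vector''`), `‖φ_i‖ ≤ 1`, `φ_i(y_i) = ‖y_i‖ ≥ 1`; `∑_j φ_i(y_j)² ≤ 2`
(`opB_iff`), so at most `2/τ²` indices `j` have `|φ_i(y_j)| > τ`.  `indep_set` gives `I`, `|I| = p`, with
`|φ_i(y_j)| ≤ τ` for `i ≠ j` in `I`.  `ell y ≥ ell (y restricted to I)` (`ell_mono`), and pointwise for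
`i ∈ I`: `‖∑_{j∈I} g_j y_j‖ ≥ |φ_i(∑ g_j y_j)| ≥ |g_i| - ∑_{j≠i} τ|g_j|`, so
`F g = ‖∑ g_j y_j‖ + τ ∑_{j∈I} |g_j|  ≥ |g_i|`; `∫ F ≤ ell + τ p ≤ ell + 1`.
-/

namespace Pool.Agent.helper75.Pel
open MeasureTheory ProbabilityTheory

universe u

/-- few large values -/
private theorem Psi2_card {E : Type u} [NormedAddCommGroup E] [NormedSpace ℝ E] {q p : ℕ}
    (hp : 1 ≤ p) (y : Fin q → E) (φ : E →L[ℝ] ℝ) (h : QF y φ ≤ 2) (S : Finset (Fin q))
    (hS : ∀ j ∈ S, 1 / (p : ℝ) < |φ (y j)|) : S.card ≤ 2 * p ^ 2 := by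
  have hp0 : (0 : ℝ) < p := by exact_mod_cast hp
  have h1 : (S.card : ℝ) * (1 / (p : ℝ)) ^ 2 ≤ ∑ j ∈ S, (φ (y j)) ^ 2 := by
    rw [← nsmul_eq_mul]
    apply Finset.card_nsmul_le_sum
    intro j hj
    have h2 := hS j hj
    have h3 : (0 : ℝ) ≤ 1 / (p : ℝ) := by positivity
    rw [← sq_abs (φ (y j))]
    exact pow_le_pow_left₀ h3 h2.le 2
  have h2 : ∑ j ∈ S, (φ (y j)) ^ 2 ≤ ∑ j, (φ (y j)) ^ 2 :=
    Finset.sum_le_sum_of_subset_of_nonneg (Finset.subset_univ _) fun j _ _ => sq_nonneg _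
  unfold QF at h
  have h3 : (S.card : ℝ) * (1 / (p : ℝ)) ^ 2 ≤ 2 := by linarith
  have h4 : (S.card : ℝ) ≤ 2 * (p : ℝ) ^ 2 := by
    rw [one_div, inv_pow, ← div_eq_mul_inv, div_le_iff₀ (by positivity)] at h3
    exact h3
  exact_mod_cast h4

theorem psi (B : ℝ) : ∃ q₀ : ℕ, 1 ≤ q₀ ∧
    ∀ (E : Type u) [NormedAddCommGroup E] [NormedSpace ℝ E] [FiniteDimensional ℝ E],
      FL E q₀ B := by
  classical
  obtain ⟨p, hp, hmax⟩ := emax (B + 1)
  have hp0 : (0 : ℝ) < p := by exact_mod_cast hp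
  refine ⟨(2 * (2 * p ^ 2) + 1) * p, Nat.mul_pos (Nat.succ_pos _) hp, ?_⟩
  intro E _ _ _ y hy
  obtain ⟨hy1, hy2⟩ := hy
  have hφ : ∀ i, ∃ φ : E →L[ℝ] ℝ, ‖φ‖ ≤ 1 ∧ φ (y i) = ‖y i‖ := by
    intro i
    obtain ⟨g, hg1, hg2⟩ := exists_dual_vector'' ℝ (y i)
    exact ⟨g, hg1, by simpa using hg2⟩
  choose φ hφ1 hφ2 using hφ
  have hQ : ∀ i, QF y (φ i) ≤ 2 := by
    intro i
    have h1 := (opB_iff (Real.sqrt_nonneg 2)).mp hy2 (φ i)
    rw [Real.sq_sqrt (by norm_num)] at h1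
    have h2 : ‖φ i‖ ^ 2 ≤ 1 := by
      have := hφ1 i
      have h3 := norm_nonneg (φ i)
      nlinarith
    linarith
  obtain ⟨I, -, hI, hind⟩ := indep_set (fun i j => 1 / (p : ℝ) < |φ i (y j)|) (2 * p ^ 2) p
    (Finset.univ : Finset (Fin ((2 * (2 * p ^ 2) + 1) * p)))
    (by rw [Finset.card_univ, Fintype.card_fin])
    (by
      intro i _
      apply Psi2_card hp y (φ i) (hQ i)
      intro j hj
      rw [Finset.mem_filter] at hj
      exact hj.2.2)
  have hmono : ell (fun i : {i // i ∈ I} => y i) ≤ ell y := by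
    apply ell_mono
    intro ξ
    unfold QF
    rw [Finset.sum_coe_sort I (fun i => (ξ (y i)) ^ 2)]
    exact Finset.sum_le_sum_of_subset_of_nonneg (Finset.subset_univ _) fun j _ _ => sq_nonneg _
  have hcard : Fintype.card {i // i ∈ I} = p := by
    rw [Fintype.card_coe, hI]
  have hint1 := integrable_norm_sum (fun i : {i // i ∈ I} => y i)
  have hint2 : Integrable (fun g : {i // i ∈ I} → ℝ => ∑ j, |g j|) (gam {i // i ∈ I}) := by
    apply integrable_finsetSum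
    intro j _
    exact (integrable_coord j).abs
  have hint3 := hint2.const_mul (1 / (p : ℝ))
  have h1 := hmax {i // i ∈ I} hcard.ge
    (fun g => ‖∑ i, g i • y i‖ + 1 / (p : ℝ) * ∑ j, |g j|) (hint1.add hint3)
    (by
      intro g
      have h2 : 0 ≤ ∑ j, |g j| := Finset.sum_nonneg fun j _ => abs_nonneg _
      positivity)
    (by
      intro g i
      have h2 : φ i (∑ j, g j • y j) = g i * ‖y i‖ +
          ∑ j ∈ Finset.univ.erase i, g j * φ i (y j) := by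
        rw [map_sum, ← Finset.add_sum_erase _ _ (Finset.mem_univ i)]
        simp only [map_smul, smul_eq_mul, hφ2]
      have h3 : |∑ j ∈ Finset.univ.erase i, g j * φ i (y j)| ≤
          1 / (p : ℝ) * ∑ j ∈ Finset.univ.erase i, |g j| := by
        rw [Finset.mul_sum]
        refine (Finset.abs_sum_le_sum_abs _ _).trans (Finset.sum_le_sum ?_)
        intro j hj
        rw [Finset.mem_erase] at hj
        have h4 : ¬ (1 / (p : ℝ) < |φ i (y j)|) := by
          apply hind i i.2 j j.2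
          intro h
          exact hj.1 (Subtype.ext h.symm)
        rw [abs_mul, mul_comm]
        exact mul_le_mul_of_nonneg_right (not_lt.mp h4) (abs_nonneg _)
      have h5 : 1 / (p : ℝ) * ∑ j ∈ Finset.univ.erase i, |g j| ≤ 1 / (p : ℝ) * ∑ j, |g j| := by
        apply mul_le_mul_of_nonneg_left _ (by positivity)
        exact Finset.sum_le_sum_of_subset_of_nonneg (Finset.erase_subset _ _)
          fun j _ _ => abs_nonneg _
      have h6 : |φ i (∑ j, g j • y j)| ≤ ‖∑ j, g j • y j‖ := by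
        have h7 := (φ i).le_opNorm (∑ j, g j • y j)
        rw [Real.norm_eq_abs] at h7
        have h8 := hφ1 i
        have h9 := norm_nonneg (∑ j, g j • y j)
        nlinarith
      have h10 : |g i| ≤ |g i * ‖y i‖| := by
        rw [abs_mul, abs_norm]
        exact le_mul_of_one_le_right (abs_nonneg _) (hy1 i)
      have h11 : |g i * ‖y i‖| ≤ |φ i (∑ j, g j • y j)| +
          |∑ j ∈ Finset.univ.erase i, g j * φ i (y j)| := by
        have h12 : g i * ‖y i‖ = φ i (∑ j, g j • y j) -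
            ∑ j ∈ Finset.univ.erase i, g j * φ i (y j) := by
          rw [h2]
          ring
        rw [h12]
        exact abs_sub _ _
      linarith)
  rw [integral_add hint1 hint3, integral_const_mul, integral_finsetSum _
    (fun j _ => (integrable_coord j).abs)] at h1
  have h2 : ∑ j : {i // i ∈ I}, ∫ g : {i // i ∈ I} → ℝ, |g j| ∂(gam {i // i ∈ I}) ≤ p := by
    have h3 : ∑ j : {i // i ∈ I}, ∫ g : {i // i ∈ I} → ℝ, |g j| ∂(gam {i // i ∈ I}) ≤
        ∑ j : {i // i ∈ I}, (1 : ℝ) := Finset.sum_le_sum fun j _ => integral_abs_coord_le j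
    rw [Finset.sum_const, Finset.card_univ, hcard, nsmul_eq_mul, mul_one] at h3
    exact h3
  have h3 : 1 / (p : ℝ) * ∑ j : {i // i ∈ I}, ∫ g : {i // i ∈ I} → ℝ, |g j| ∂(gam {i // i ∈ I}) ≤
      1 := by
    calc _ ≤ 1 / (p : ℝ) * p := mul_le_mul_of_nonneg_left h2 (by positivity)
      _ = 1 := by field_simp
  have h4 : ∫ g : {i // i ∈ I} → ℝ, ‖∑ i, g i • y i‖ ∂(gam {i // i ∈ I}) =
      ell (fun i : {i // i ∈ I} => y i) := rfl
  rw [h4] at h1
  linarith

end Pool.Agent.helper75.Pel
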