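import Pool.Agent.helper75.Pel.Ell

/-!
# Rad : Rademacher averages against Gaussian averages

`rad x = 2^{-N} ∑_ε ‖∑ ± x_i‖` over all sign patterns `ε : ι → Bool`.

`rad_le_ell`: `ell x = ∫ ‖∑ ε_i g_i x_i‖` for every `ε` (`measurePreserving_signs`), also with
`|g_i|` in place of `g_i` after averaging over `ε` (pointwise in `g` the average over `ε` of
`‖∑ ε_i g_i x_i‖` equals that of `‖∑ ε_i |g_i| x_i‖`, reindex the signs).  So
`ell x = ∫ avg_ε ‖∑ ε_i |g_i| x_i‖ ≥ avg_ε ‖∑ ε_i (∫|g_i|) x_i‖ = c avg_ε ‖∑ ε_i x_i‖`, `c = ∫ |g_i| ≥ 1/2`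
(the same for all `i`).

`ell_le_rad`: for fixed `g` with `M = max |g_i|`: `avg_ε ‖∑ ε_i g_i x_i‖ ≤ M avg_ε ‖∑ ε_i x_i‖` (contraction
principle: `a ↦ avg_ε ‖∑ ε_i a_i x_i‖` is a seminorm, even in every coordinate, hence nondecreasing in
every `|a_i|`; change the coordinates one by one).  `∫ max |g_i| ≤ 2 (1 + log N)`:
`exp (∫ M) ≤ ∫ exp M ≤ ∑_i ∫ exp |g_i| ≤ N · 2 e^{1/2}` (`exp|t| ≤ exp t + exp(-t)`), and
`log (2 e^{1/2}) ≤ 2`.
-/

namespace Pool.Agent.helper75.Pel
open MeasureTheory ProbabilityTheory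

universe u
variable {E : Type u} [NormedAddCommGroup E] [NormedSpace ℝ E]

/-- The average over all signs of `‖∑ ± x_i‖`. -/
noncomputable def rad {ι : Type} [Fintype ι] [DecidableEq ι] (x : ι → E) : ℝ :=
  (∑ ε : ι → Bool, ‖∑ i, (if ε i then x i else -x i)‖) / 2 ^ Fintype.card ι

section aux
variable {ι : Type} [Fintype ι]

/-- the sign of a boolean -/
private def sg (b : Bool) : ℝ := if b then 1 else -1

private lemma sg_cases (b : Bool) : sg b = 1 ∨ sg b = -1 := by cases b <;> simp [sg]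

section dec
variable [DecidableEq ι]

/-- sum over signs -/
private noncomputable def RS (x : ι → E) (a : ι → ℝ) : ℝ :=
  ∑ ε : ι → Bool, ‖∑ i, (sg (ε i) * a i) • x i‖

private lemma RS_nonneg (x : ι → E) (a : ι → ℝ) : 0 ≤ RS x a :=
  Finset.sum_nonneg fun _ _ => norm_nonneg _

private lemma RS_signs (x : ι → E) (a : ι → ℝ) (s : ι → Bool) :
    RS x (fun i => sg (s i) * a i) = RS x a := by
  unfold RS
  rw [← Equiv.sum_comp (Equiv.piCongrRight fun i => if s i then Equiv.refl Bool else Equiv.boolNot)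
    (fun ε : ι → Bool => ‖∑ i, (sg (ε i) * a i) • x i‖)]
  refine Finset.sum_congr rfl fun ε _ => ?_
  congr 1
  refine Finset.sum_congr rfl fun i _ => ?_
  congr 1
  rw [← mul_assoc]
  congr 1
  simp only [Equiv.piCongrRight_apply, Pi.map_apply]
  cases s i <;> cases ε i <;> simp [sg]

private lemma RS_abs (x : ι → E) (a : ι → ℝ) : RS x (fun i => |a i|) = RS x a := by
  rw [← RS_signs x a (fun i => decide (0 ≤ a i))]
  congr 1
  funext i
  by_cases h : 0 ≤ a i
  · simp [sg, h, abs_of_nonneg h]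
  · push Not at h
    simp [sg, not_le.mpr h, abs_of_neg h]

private lemma RS_convex (x : ι → E) : ConvexOn ℝ Set.univ (fun a => RS x a) := by
  refine ⟨convex_univ, ?_⟩
  intro a _ b _ s t hs ht hst
  simp only [smul_eq_mul]
  unfold RS
  rw [Finset.mul_sum, Finset.mul_sum, ← Finset.sum_add_distrib]
  refine Finset.sum_le_sum fun ε _ => ?_
  have e : ∑ i, (sg (ε i) * (s • a + t • b) i) • x i =
      s • (∑ i, (sg (ε i) * a i) • x i) + t • (∑ i, (sg (ε i) * b i) • x i) := by
    rw [Finset.smul_sum, Finset.smul_sum, ← Finset.sum_add_distrib]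
    refine Finset.sum_congr rfl fun i _ => ?_
    rw [smul_smul, smul_smul, ← add_smul]
    congr 1
    simp only [Pi.add_apply, Pi.smul_apply, smul_eq_mul]
    ring
  rw [e]
  refine (norm_add_le _ _).trans (le_of_eq ?_)
  rw [norm_smul, norm_smul, Real.norm_eq_abs, Real.norm_eq_abs, abs_of_nonneg hs, abs_of_nonneg ht]

/-- contraction principle -/
private lemma RS_contract (x : ι → E) {a : ι → ℝ} {M : ℝ} (h : ∀ i, |a i| ≤ M) :
    RS x a ≤ RS x (fun _ => M) := by
  have hmem : a ∈ convexHull ℝ (Set.univ.pi fun _ : ι => ({-M, M} : Set ℝ)) := by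
    rw [convexHull_pi]
    intro i _
    rw [convexHull_pair, segment_eq_Icc]
    · exact abs_le.mp (h i)
    · have := (abs_nonneg (a i)).trans (h i)
      linarith
  obtain ⟨y, hy, hay⟩ := (RS_convex x).exists_ge_of_mem_convexHull (Set.subset_univ _) hmem
  refine hay.trans (le_of_eq ?_)
  show RS x y = _
  rw [← RS_abs x y, ← RS_abs x fun _ => M]
  congr 1
  funext i
  rcases hy i (Set.mem_univ i) with h | h
  · rw [h, abs_neg]
  · rw [h]

private lemma RS_smul (x : ι → E) (M : ℝ) (hM : 0 ≤ M) :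
    RS x (fun _ => M) = M * RS x (fun _ => 1) := by
  unfold RS
  rw [Finset.mul_sum]
  refine Finset.sum_congr rfl fun ε _ => ?_
  have : ∑ i, (sg (ε i) * M) • x i = M • ∑ i, (sg (ε i) * 1) • x i := by
    rw [Finset.smul_sum]
    refine Finset.sum_congr rfl fun i _ => ?_
    rw [smul_smul]
    congr 1
    ring
  rw [this, norm_smul, Real.norm_eq_abs, abs_of_nonneg hM]

private lemma RS_mono (x : ι → E) {a b : ι → ℝ} (h : ∀ i, |a i| ≤ |b i|) : RS x a ≤ RS x b := by
  have h1 := RS_contract (fun i => b i • x i) (a := fun i => a i / b i) (M := 1) (by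
    intro i
    rw [abs_div]
    by_cases hb : b i = 0
    · simp [hb]
    · rw [div_le_one (abs_pos.mpr hb)]
      exact h i)
  have h2 : RS (fun i => b i • x i) (fun i => a i / b i) = RS x a := by
    unfold RS
    refine Finset.sum_congr rfl fun ε _ => ?_
    congr 1
    refine Finset.sum_congr rfl fun i _ => ?_
    rw [smul_smul]
    congr 1
    by_cases hb : b i = 0
    · have := h i
      rw [hb, abs_zero] at this
      have := abs_nonpos_iff.mp this
      simp [hb, this]
    · field_simp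
  have h3 : RS (fun i => b i • x i) (fun _ => 1) = RS x b := by
    unfold RS
    refine Finset.sum_congr rfl fun ε _ => ?_
    congr 1
    refine Finset.sum_congr rfl fun i _ => ?_
    rw [smul_smul]
    congr 1
    ring
  rwa [h2, h3] at h1

private lemma rad_eq (x : ι → E) : rad x = RS x (fun _ => 1) / 2 ^ Fintype.card ι := by
  unfold rad RS
  congr 1
  refine Finset.sum_congr rfl fun ε _ => ?_
  congr 1
  refine Finset.sum_congr rfl fun i _ => ?_
  cases ε i <;> simp [sg]

omit [DecidableEq ι] in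
private lemma term_int (x : ι → E) (ε : ι → Bool) :
    Integrable (fun g : ι → ℝ => ‖∑ i, (sg (ε i) * g i) • x i‖) (gam ι) := by
  have := integrable_norm_sum (fun i => sg (ε i) • x i)
  refine this.congr (Filter.Eventually.of_forall fun g => ?_)
  simp only [smul_smul, mul_comm]

omit [DecidableEq ι] in
private lemma term_int_abs (x : ι → E) (ε : ι → Bool) :
    Integrable (fun g : ι → ℝ => ‖∑ i, (sg (ε i) * |g i|) • x i‖) (gam ι) := by
  have h : Integrable (fun g : ι → ℝ => ∑ i, |g i| * ‖x i‖) (gam ι) :=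
    integrable_finsetSum _ fun i _ => ((integrable_coord i).abs).mul_const _
  have hc : Continuous (fun g : ι → ℝ => ‖∑ i, (sg (ε i) * |g i|) • x i‖) := by fun_prop
  refine h.mono' hc.aestronglyMeasurable (Filter.Eventually.of_forall fun g => ?_)
  rw [norm_norm]
  refine (norm_sum_le _ _).trans (Finset.sum_le_sum fun i _ => ?_)
  rw [norm_smul, norm_mul, Real.norm_eq_abs, Real.norm_eq_abs, abs_abs]
  rcases sg_cases (ε i) with h | h <;> simp [h]

private lemma ell_eq_RS (x : ι → E) :
    ell x * 2 ^ Fintype.card ι = ∫ g, RS x g ∂(gam ι) := by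
  unfold RS
  rw [integral_finsetSum _ fun ε _ => term_int x ε]
  have : ∀ ε : ι → Bool, ∫ g : ι → ℝ, ‖∑ i, (sg (ε i) * g i) • x i‖ ∂(gam ι) = ell x := by
    intro ε
    unfold ell
    have h := measurePreserving_signs (fun i => sg (ε i)) (fun i => sg_cases (ε i))
    have hc : Continuous (fun g : ι → ℝ => ‖∑ i, g i • x i‖) := by fun_prop
    conv_rhs => rw [← h.map_eq]
    rw [integral_map h.measurable.aemeasurable hc.aestronglyMeasurable]
  rw [Finset.sum_congr rfl fun ε _ => this ε]
  simp [mul_comm]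

end dec

private lemma int_exp_abs (i : ι) : Integrable (fun g : ι → ℝ => Real.exp |g i|) (gam ι) ∧
    ∫ g : ι → ℝ, Real.exp |g i| ∂(gam ι) ≤ 2 * Real.exp (1 / 2) := by
  have hmp : MeasurePreserving (fun g : ι → ℝ => g i) (gam ι) (gaussianReal 0 1) :=
    measurePreserving_eval (fun _ : ι => gaussianReal 0 1) i
  have hint : Integrable (fun x : ℝ => Real.exp x + Real.exp (-x)) (gaussianReal 0 1) := by
    have h1 := (integrable_exp_mul_gaussianReal (μ := 0) (v := 1) 1)
    have h2 := (integrable_exp_mul_gaussianReal (μ := 0) (v := 1) (-1))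
    simp only [one_mul, neg_mul] at h1 h2
    exact h1.add h2
  have hle : ∀ x : ℝ, Real.exp |x| ≤ Real.exp x + Real.exp (-x) := by
    intro x
    rcases le_total 0 x with hx | hx
    · rw [abs_of_nonneg hx]
      have := Real.exp_pos (-x)
      linarith
    · rw [abs_of_nonpos hx]
      have := Real.exp_pos x
      linarith
  have hint2 : Integrable (fun x : ℝ => Real.exp |x|) (gaussianReal 0 1) := by
    refine hint.mono' (by fun_prop) (Filter.Eventually.of_forall fun x => ?_)
    rw [Real.norm_eq_abs, abs_of_pos (Real.exp_pos _)]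
    exact hle x
  have hc : Continuous (fun x : ℝ => Real.exp |x|) := by fun_prop
  refine ⟨(hmp.integrable_comp hc.aestronglyMeasurable).mpr hint2, ?_⟩
  have h3 : ∫ g : ι → ℝ, Real.exp |g i| ∂(gam ι) = ∫ x, Real.exp |x| ∂(gaussianReal 0 1) := by
    rw [← hmp.map_eq, integral_map hmp.measurable.aemeasurable hc.aestronglyMeasurable]
  rw [h3]
  refine (integral_mono hint2 hint hle).trans (le_of_eq ?_)
  have hm := mgf_id_gaussianReal (μ := 0) (v := 1)
  have hm1 := congrFun hm 1
  have hm2 := congrFun hm (-1)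
  simp only [mgf, id] at hm1 hm2
  have i1 := (integrable_exp_mul_gaussianReal (μ := 0) (v := 1) 1)
  have i2 := (integrable_exp_mul_gaussianReal (μ := 0) (v := 1) (-1))
  simp only [one_mul, neg_mul] at i1 i2
  rw [integral_add i1 i2]
  simp only [one_mul, neg_mul] at hm1 hm2
  rw [hm1, hm2]
  norm_num
  ring

end aux

theorem rad_le_ell {N : ℕ} (x : Fin N → E) : rad x ≤ 2 * ell x := by
  have h0 : (0 : ℝ) < 2 ^ Fintype.card (Fin N) := by positivity
  rw [rad_eq, div_le_iff₀ h0, mul_assoc, ell_eq_RS]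
  have e1 : ∫ g, RS x g ∂(gam (Fin N)) = ∫ g : Fin N → ℝ, RS x (fun i => |g i|) ∂(gam (Fin N)) := by
    simp_rw [RS_abs]
  rw [e1]
  have e2 : RS x (fun i => ∫ g : Fin N → ℝ, |g i| ∂(gam (Fin N))) ≤
      ∫ g : Fin N → ℝ, RS x (fun i => |g i|) ∂(gam (Fin N)) := by
    unfold RS
    rw [integral_finsetSum _ fun ε _ => term_int_abs x ε]
    refine Finset.sum_le_sum fun ε _ => ?_
    obtain ⟨ξ, hξ, hv⟩ := exists_dual_vector'' ℝ
      (∑ i, (sg (ε i) * ∫ g : Fin N → ℝ, |g i| ∂(gam (Fin N))) • x i)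
    have hv' : ‖∑ i, (sg (ε i) * ∫ g : Fin N → ℝ, |g i| ∂(gam (Fin N))) • x i‖ =
        ξ (∑ i, (sg (ε i) * ∫ g : Fin N → ℝ, |g i| ∂(gam (Fin N))) • x i) := by
      rw [hv]; rfl
    rw [hv', map_sum]
    have e3 : ∑ i, ξ ((sg (ε i) * ∫ g : Fin N → ℝ, |g i| ∂(gam (Fin N))) • x i) =
        ∫ g : Fin N → ℝ, ∑ i, (sg (ε i) * ξ (x i)) * |g i| ∂(gam (Fin N)) := by
      rw [integral_finsetSum _ fun i _ => (integrable_coord i).abs.const_mul _]
      refine Finset.sum_congr rfl fun i _ => ?_
      rw [integral_const_mul, map_smul, smul_eq_mul]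
      ring
    rw [e3]
    apply integral_mono (integrable_finsetSum _ fun i _ => (integrable_coord i).abs.const_mul _)
      (term_int_abs x ε)
    intro g
    have e4 : ∑ i, (sg (ε i) * ξ (x i)) * |g i| = ξ (∑ i, (sg (ε i) * |g i|) • x i) := by
      rw [map_sum]
      refine Finset.sum_congr rfl fun i _ => ?_
      rw [map_smul, smul_eq_mul]
      ring
    simp only
    rw [e4]
    calc ξ (∑ i, (sg (ε i) * |g i|) • x i) ≤ ‖ξ (∑ i, (sg (ε i) * |g i|) • x i)‖ :=
          Real.le_norm_self _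
      _ ≤ ‖ξ‖ * ‖∑ i, (sg (ε i) * |g i|) • x i‖ := ξ.le_opNorm _
      _ ≤ 1 * ‖∑ i, (sg (ε i) * |g i|) • x i‖ :=
          mul_le_mul_of_nonneg_right hξ (norm_nonneg _)
      _ = _ := one_mul _
  have e5 : RS x (fun _ => (1 / 2 : ℝ)) ≤ RS x (fun i => ∫ g : Fin N → ℝ, |g i| ∂(gam (Fin N))) := by
    apply RS_mono
    intro i
    have h := integral_abs_coord_ge i
    rw [abs_of_nonneg (by norm_num : (0 : ℝ) ≤ 1 / 2), abs_of_nonneg (by linarith)]
    exact h
  rw [RS_smul x (1 / 2) (by norm_num)] at e5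
  linarith

theorem ell_le_rad {N : ℕ} (hN : 1 ≤ N) (x : Fin N → E) :
    ell x ≤ 2 * (1 + Real.log N) * rad x := by
  have h0 : (0 : ℝ) < 2 ^ Fintype.card (Fin N) := by positivity
  rw [rad_eq, ← mul_div_assoc, le_div_iff₀ h0, ell_eq_RS]
  have hN' : (0 : ℝ) < N := by exact_mod_cast hN
  set K : ℝ := N * (2 * Real.exp (1 / 2)) with hK
  have hK0 : 0 < K := by positivity
  have hlogK : Real.log K = Real.log N + (Real.log 2 + 1 / 2) := by
    rw [hK, Real.log_mul hN'.ne' (by positivity), Real.log_mul (by norm_num) (Real.exp_pos _).ne',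
      Real.log_exp]
  set t : ℝ := Real.log K with ht
  -- the bound for the maximum
  set B : (Fin N → ℝ) → ℝ := fun g => t - 1 + Real.exp (-t) * ∑ i, Real.exp |g i| with hB
  have hBint : Integrable B (gam (Fin N)) := by
    refine (integrable_const _).add (Integrable.const_mul ?_ _)
    exact integrable_finsetSum _ fun i _ => (int_exp_abs i).1
  have hBle : ∀ (g : Fin N → ℝ) (i : Fin N), |g i| ≤ B g := by
    intro g i
    have h1 := Real.add_one_le_exp (|g i| - t)
    rw [sub_eq_add_neg, Real.exp_add] at h1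
    have h2 : Real.exp |g i| ≤ ∑ j, Real.exp |g j| :=
      Finset.single_le_sum (f := fun j => Real.exp |g j|) (fun j _ => (Real.exp_pos _).le)
        (Finset.mem_univ i)
    have h3 : Real.exp |g i| * Real.exp (-t) ≤ Real.exp (-t) * ∑ j, Real.exp |g j| := by
      rw [mul_comm]
      exact mul_le_mul_of_nonneg_left h2 (Real.exp_pos _).le
    simp only [hB]
    linarith
  have hB0 : ∀ g : Fin N → ℝ, 0 ≤ B g := fun g => (abs_nonneg _).trans (hBle g ⟨0, hN⟩)
  have hI : ∫ g, B g ∂(gam (Fin N)) ≤ t := by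
    simp only [hB]
    rw [integral_add (integrable_const _) (Integrable.const_mul
      (integrable_finsetSum _ fun i _ => (int_exp_abs i).1) _), integral_const_mul,
      integral_finsetSum _ fun i _ => (int_exp_abs i).1]
    have h1 : ∑ i : Fin N, ∫ g : Fin N → ℝ, Real.exp |g i| ∂(gam (Fin N)) ≤ K := by
      refine (Finset.sum_le_sum fun i _ => (int_exp_abs i).2).trans (le_of_eq ?_)
      simp [hK]
    have h2 : Real.exp (-t) * ∑ i : Fin N, ∫ g : Fin N → ℝ, Real.exp |g i| ∂(gam (Fin N)) ≤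
        Real.exp (-t) * K := mul_le_mul_of_nonneg_left h1 (Real.exp_pos _).le
    have h3 : Real.exp (-t) * K = 1 := by
      rw [Real.exp_neg, ht, Real.exp_log hK0, inv_mul_cancel₀ hK0.ne']
    simp only [integral_const, probReal_univ, smul_eq_mul, one_mul]
    linarith
  have hRS0 : 0 ≤ RS x (fun _ => 1) := RS_nonneg _ _
  have h1 : ∫ g, RS x g ∂(gam (Fin N)) ≤ ∫ g, B g * RS x (fun _ => 1) ∂(gam (Fin N)) := by
    apply integral_mono
    · unfold RS
      exact integrable_finsetSum _ fun ε _ => term_int x ε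
    · exact hBint.mul_const _
    · intro g
      simp only
      rw [← RS_smul x _ (hB0 g)]
      exact RS_contract x (hBle g)
  rw [integral_mul_const] at h1
  refine h1.trans (mul_le_mul_of_nonneg_right (hI.trans ?_) hRS0)
  rw [hlogK]
  have h2 : Real.log 2 ≤ 1 := by
    have := Real.log_two_lt_d9
    linarith
  have h3 : 0 ≤ Real.log N := Real.log_nonneg (by exact_mod_cast hN)
  linarith

end Pool.Agent.helper75.Pel
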