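import Mathlib

/-!
# Samp1 : expectation and variance for iid samples

`A : Fin q → ι` with the weights `∏_t p(A t)`: `Finset.prod_univ_sum`/`Fintype.piFinset`,
or induction on `q` with `Fin.consEquiv`/`Fin.insertNthEquiv` and `Fin.prod_univ_succ`.
-/

namespace Pool.Agent.helper75.Pel

private lemma Samp1_succ {V : Type*} [AddCommGroup V] [Module ℝ V] {ι : Type} [Fintype ι] {q : ℕ}
    (p : ι → ℝ) (Φ : (Fin (q + 1) → ι) → V) :
    ∑ A : Fin (q + 1) → ι, (∏ t, p (A t)) • Φ A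
      = ∑ i, p i • ∑ B : Fin q → ι, (∏ t, p (B t)) • Φ (Fin.cons i B) := by
  rw [← (Fin.consEquiv (fun _ : Fin (q + 1) => ι)).sum_comp, Fintype.sum_prod_type]
  refine Finset.sum_congr rfl fun i _ => ?_
  rw [Finset.smul_sum]
  refine Finset.sum_congr rfl fun B _ => ?_
  have h : (Fin.consEquiv (fun _ : Fin (q + 1) => ι)) (i, B) = Fin.cons i B := rfl
  rw [h, Fin.prod_univ_succ, mul_smul]
  simp

theorem sampling_one {ι : Type} [Fintype ι] (q : ℕ) (p : ι → ℝ) (hp : ∑ i, p i = 1) :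
    ∑ A : Fin q → ι, ∏ t, p (A t) = 1 := by
  rw [← Fintype.sum_pow, hp, one_pow]

theorem sampling_mean {V : Type*} [AddCommGroup V] [Module ℝ V] {ι : Type} [Fintype ι] (q : ℕ)
    (p : ι → ℝ) (hp : ∑ i, p i = 1) (f : ι → V) :
    ∑ A : Fin q → ι, (∏ t, p (A t)) • ∑ t, f (A t) = (q : ℝ) • ∑ i, p i • f i := by
  induction q with
  | zero => simp
  | succ q ih =>
    rw [Samp1_succ p (fun A : Fin (q + 1) → ι => ∑ t, f (A t))]
    have h : ∀ i, ∑ B : Fin q → ι, (∏ t, p (B t)) •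
        ∑ t, f ((Fin.cons i B : Fin (q + 1) → ι) t) = f i + (q : ℝ) • ∑ i, p i • f i := by
      intro i
      rw [← ih]
      have h2 : ∀ B : Fin q → ι, (∏ t, p (B t)) • ∑ t, f ((Fin.cons i B : Fin (q + 1) → ι) t)
          = (∏ t, p (B t)) • f i + (∏ t, p (B t)) • ∑ t, f (B t) := by
        intro B
        rw [Fin.sum_univ_succ, smul_add]
        simp
      simp_rw [h2]
      rw [Finset.sum_add_distrib, ← Finset.sum_smul, sampling_one q p hp, one_smul]
    simp_rw [h, smul_add]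
    rw [Finset.sum_add_distrib, ← Finset.sum_smul, hp, one_smul, Nat.cast_succ, add_smul, one_smul]
    exact add_comm _ _

private lemma Samp1_var {ι : Type} [Fintype ι] (q : ℕ) (p : ι → ℝ)
    (hp : ∑ i, p i = 1) (f : ι → ℝ) :
    ∑ A : Fin q → ι, (∏ t, p (A t)) * (∑ t, f (A t) - q * ∑ i, p i * f i) ^ 2 =
      q * ∑ i, p i * (f i - ∑ j, p j * f j) ^ 2 := by
  set m := ∑ i, p i * f i with hm
  induction q with
  | zero => simp
  | succ q ih =>
    have h0 := Samp1_succ p (fun A : Fin (q + 1) → ι => (∑ t, f (A t) - (q + 1 : ℕ) * m) ^ 2)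
    simp only [smul_eq_mul] at h0
    rw [h0]
    have hmean : ∑ B : Fin q → ι, (∏ t, p (B t)) * ∑ t, f (B t) = q * m := by
      have := sampling_mean q p hp f
      simpa [smul_eq_mul] using this
    have h : ∀ i, ∑ B : Fin q → ι, (∏ t, p (B t)) *
        (∑ t, f ((Fin.cons i B : Fin (q + 1) → ι) t) - (q + 1 : ℕ) * m) ^ 2
        = (f i - m) ^ 2 + q * ∑ i, p i * (f i - m) ^ 2 := by
      intro i
      rw [← ih]
      have h2 : ∀ B : Fin q → ι, (∏ t, p (B t)) *
          (∑ t, f ((Fin.cons i B : Fin (q + 1) → ι) t) - (q + 1 : ℕ) * m) ^ 2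
          = (∏ t, p (B t)) * ((f i - m) ^ 2 - 2 * (f i - m) * (q * m))
            + 2 * (f i - m) * ((∏ t, p (B t)) * ∑ t, f (B t))
            + (∏ t, p (B t)) * (∑ t, f (B t) - q * m) ^ 2 := by
        intro B
        rw [Fin.sum_univ_succ]
        simp only [Fin.cons_zero, Fin.cons_succ]
        push_cast
        ring
      simp_rw [h2]
      rw [Finset.sum_add_distrib, Finset.sum_add_distrib, ← Finset.sum_mul, ← Finset.mul_sum,
        sampling_one q p hp, hmean]
      ring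
    simp_rw [h, mul_add]
    rw [Finset.sum_add_distrib, ← Finset.sum_mul, hp]
    push_cast
    ring

/-- the variance of a sum of independent samples -/
theorem sampling_var {ι : Type} [Fintype ι] (q : ℕ) (p : ι → ℝ) (hp0 : ∀ i, 0 ≤ p i)
    (hp : ∑ i, p i = 1) (f : ι → ℝ) :
    ∑ A : Fin q → ι, (∏ t, p (A t)) * (∑ t, f (A t) - q * ∑ i, p i * f i) ^ 2 ≤
      q * ∑ i, p i * f i ^ 2 := by
  rw [Samp1_var q p hp f]
  apply mul_le_mul_of_nonneg_left _ (Nat.cast_nonneg q)
  set m := ∑ i, p i * f i with hm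
  have h : ∑ i, p i * (f i - m) ^ 2 = ∑ i, p i * f i ^ 2 - m ^ 2 := by
    have h2 : ∀ i, p i * (f i - m) ^ 2 = p i * f i ^ 2 - 2 * m * (p i * f i) + p i * m ^ 2 := by
      intro i; ring
    simp_rw [h2]
    rw [Finset.sum_add_distrib, Finset.sum_sub_distrib, ← Finset.mul_sum, ← Finset.sum_mul, hp,
      ← hm]
    ring
  rw [h]
  have := sq_nonneg m
  linarith

end Pool.Agent.helper75.Pel
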