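import Pool.Agent.helper75.Pel.Samp1

/-!
# Sampling : iid sampling of coordinates of an orthonormal system

`w s` (`s : Fin d`) orthonormal in `ℝ^ι`, `N = card ι`, `κ_i = ∑_s w_s(i)²`, `∑_i κ_i = d`.
`p_i = (1/N + κ_i/d)/2`, so `∑ p_i = 1`, `p_i ≥ 1/(2N)`, `κ_i ≤ 2 d p_i`.
For `A : Fin q → ι` let `M_A(s,s') = (1/q) ∑_t w_s(A t) w_{s'}(A t)/p_{A t}`.  Under the weights
`P(A) = ∏_t p_{A t}` (`∑_A P(A) = 1`: `Finset.prod_univ_sum`/`Fintype.piFinset`), `E M_A = Id`,
`E ∑_{s,s'} (M_A(s,s') - δ_{ss'})² = (1/q) ∑_{s,s'} Var(w_s w_{s'}/p) ≤ (1/q) ∑_i κ_i²/p_i ≤ 2d²/q ≤ 1`.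
Let `H_A` be the Hilbert-Schmidt norm of `M_A - Id` and `B A = √(1 + H_A)`; then
`c^T M_A c ≤ (1 + H_A) |c|²`, which is the inequality `∑_t (∑_s c_s w_s(A t))²/(q p_{A t}) ≤ (B A)² ∑ c_s²`,
and `E B_A ≤ √(1 + E H_A) ≤ √(1 + √(E H_A²)) ≤ √2` (Cauchy-Schwarz twice).
-/

namespace Pool.Agent.helper75.Pel

/-- `∑ P B ≤ √(∑ P B²)` for probability weights. -/
theorem Sampling_cs {α : Type*} [Fintype α] (P B : α → ℝ) (hP : ∀ a, 0 ≤ P a)
    (h1 : ∑ a, P a = 1) : ∑ a, P a * B a ≤ Real.sqrt (∑ a, P a * B a ^ 2) := by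
  apply Real.le_sqrt_of_sq_le
  have h := Finset.sum_mul_sq_le_sq_mul_sq Finset.univ (fun a => Real.sqrt (P a))
    (fun a => Real.sqrt (P a) * B a)
  have e1 : ∀ a, Real.sqrt (P a) * (Real.sqrt (P a) * B a) = P a * B a := fun a => by
    rw [← mul_assoc, Real.mul_self_sqrt (hP a)]
  have e2 : ∀ a, Real.sqrt (P a) ^ 2 = P a := fun a => Real.sq_sqrt (hP a)
  have e3 : ∀ a, (Real.sqrt (P a) * B a) ^ 2 = P a * B a ^ 2 := fun a => by
    rw [mul_pow, e2]
  simp only [e1, e2, e3, h1, one_mul] at h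
  exact h

theorem sampling {ι : Type} [Fintype ι] {d q : ℕ} (w : Fin d → ι → ℝ)
    (hw : ∀ s s', ∑ i, w s i * w s' i = if s = s' then 1 else 0) (hd : 1 ≤ d)
    (hq : 2 * d ^ 2 ≤ q) :
    ∃ p : ι → ℝ, (∀ i, 1 / (2 * (Fintype.card ι : ℝ)) ≤ p i) ∧ ∑ i, p i = 1 ∧
      ∃ B : (Fin q → ι) → ℝ, (∀ A, 0 ≤ B A) ∧
        (∀ A (c : Fin d → ℝ), ∑ t, (∑ s, c s * w s (A t)) ^ 2 / (q * p (A t)) ≤
          (B A) ^ 2 * ∑ s, c s ^ 2) ∧
        ∑ A, (∏ t, p (A t)) * B A ≤ Real.sqrt 2 := by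
  classical
  have hd0 : (0 : ℝ) < d := by exact_mod_cast hd
  have hq0 : (0 : ℝ) < q := by
    have : 1 ≤ d ^ 2 := Nat.one_le_pow _ _ hd
    have : 0 < q := by omega
    exact_mod_cast this
  have hN : 0 < Fintype.card ι := by
    by_contra h
    have h0 : Fintype.card ι = 0 := by omega
    have : IsEmpty ι := Fintype.card_eq_zero_iff.mp h0
    have := hw ⟨0, hd⟩ ⟨0, hd⟩
    simp at this
  have hN0 : (0 : ℝ) < Fintype.card ι := by exact_mod_cast hN
  set κ : ι → ℝ := fun i => ∑ s, w s i ^ 2 with hκ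
  have hκ0 : ∀ i, 0 ≤ κ i := fun i => Finset.sum_nonneg fun s _ => sq_nonneg _
  have hκs : ∑ i, κ i = d := by
    simp only [hκ]
    rw [Finset.sum_comm]
    have : ∀ s, ∑ i, w s i ^ 2 = 1 := fun s => by
      have := hw s s
      simpa [sq] using this
    simp [this]
  set p : ι → ℝ := fun i => (1 / (Fintype.card ι : ℝ) + κ i / d) / 2 with hp
  have hp1 : ∀ i, 1 / (2 * (Fintype.card ι : ℝ)) ≤ p i := fun i => by
    have : 0 ≤ κ i / d := div_nonneg (hκ0 i) hd0.le
    have e : 1 / (2 * (Fintype.card ι : ℝ)) = (1 / (Fintype.card ι : ℝ)) / 2 := by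
      rw [mul_comm, div_div]
    rw [e]
    simp only [hp]
    linarith
  have hp0 : ∀ i, 0 < p i := fun i => lt_of_lt_of_le (by positivity) (hp1 i)
  have hps : ∑ i, p i = 1 := by
    simp only [hp]
    have e1 : ∑ x, κ x / (d : ℝ) = 1 := by
      rw [← Finset.sum_div, hκs, div_self hd0.ne']
    have e2 : ∑ _x : ι, 1 / (Fintype.card ι : ℝ) = 1 := by
      rw [Finset.sum_const, Finset.card_univ, nsmul_eq_mul, mul_one_div, div_self hN0.ne']
    rw [← Finset.sum_div, Finset.sum_add_distrib, e1, e2]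
    norm_num
  have hκp : ∀ i, κ i ≤ 2 * d * p i := fun i => by
    have h1 : (0 : ℝ) ≤ 1 / (Fintype.card ι : ℝ) := by positivity
    have h2 : 2 * (d : ℝ) * p i = d * (1 / (Fintype.card ι : ℝ)) + κ i := by
      simp only [hp]
      field_simp
    rw [h2]
    have := mul_nonneg hd0.le h1
    linarith
  set f : Fin d → Fin d → ι → ℝ := fun s s' i => w s i * w s' i / p i with hf
  have hpf : ∀ s s', ∑ i, p i * f s s' i = if s = s' then 1 else 0 := fun s s' => by
    rw [← hw s s']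
    refine Finset.sum_congr rfl fun i _ => ?_
    simp only [hf]
    field_simp [(hp0 i).ne']
  set D : (Fin q → ι) → Fin d → Fin d → ℝ := fun A s s' =>
    (1 / (q : ℝ)) * (∑ t, f s s' (A t) - q * ∑ i, p i * f s s' i) with hD
  set H : (Fin q → ι) → ℝ := fun A => Real.sqrt (∑ s, ∑ s', D A s s' ^ 2) with hH
  have hH0 : ∀ A, 0 ≤ H A := fun A => Real.sqrt_nonneg _
  set B : (Fin q → ι) → ℝ := fun A => Real.sqrt (1 + H A) with hB
  set P : (Fin q → ι) → ℝ := fun A => ∏ t, p (A t) with hPdef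
  have hP0 : ∀ A, 0 ≤ P A := fun A => Finset.prod_nonneg fun t _ => (hp0 _).le
  have hP1 : ∑ A, P A = 1 := sampling_one q p hps
  refine ⟨p, hp1, hps, B, fun A => Real.sqrt_nonneg _, fun A c => ?_, ?_⟩
  · have hB2 : B A ^ 2 = 1 + H A := Real.sq_sqrt (by have := hH0 A; linarith)
    rw [hB2]
    have hexp : ∑ t, (∑ s, c s * w s (A t)) ^ 2 / (q * p (A t)) =
        ∑ s, c s ^ 2 + ∑ s, ∑ s', c s * c s' * D A s s' := by
      have h1 : ∀ t, (∑ s, c s * w s (A t)) ^ 2 / (q * p (A t)) =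
          ∑ s, ∑ s', c s * c s' * ((1 / (q : ℝ)) * f s s' (A t)) := fun t => by
        rw [sq, Finset.sum_mul_sum, Finset.sum_div]
        refine Finset.sum_congr rfl fun s _ => ?_
        rw [Finset.sum_div]
        refine Finset.sum_congr rfl fun s' _ => ?_
        simp only [hf]
        field_simp [(hp0 (A t)).ne']
      have h2 : ∑ t, (∑ s, c s * w s (A t)) ^ 2 / (q * p (A t)) =
          ∑ s, ∑ s', c s * c s' * ((1 / (q : ℝ)) * ∑ t, f s s' (A t)) := by
        rw [Finset.sum_congr rfl fun t _ => h1 t, Finset.sum_comm]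
        refine Finset.sum_congr rfl fun s _ => ?_
        rw [Finset.sum_comm]
        refine Finset.sum_congr rfl fun s' _ => ?_
        rw [Finset.mul_sum, Finset.mul_sum]
      rw [h2]
      have h3 : ∑ s, c s ^ 2 = ∑ s, ∑ s', c s * c s' * (if s = s' then 1 else 0) := by
        refine Finset.sum_congr rfl fun s _ => ?_
        simp [sq]
      rw [h3, ← Finset.sum_add_distrib]
      refine Finset.sum_congr rfl fun s _ => ?_
      rw [← Finset.sum_add_distrib]
      refine Finset.sum_congr rfl fun s' _ => ?_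
      simp only [hD]
      rw [hpf s s']
      field_simp
      ring
    rw [hexp, add_mul, one_mul]
    refine add_le_add le_rfl ?_
    have hcs : (∑ x : Fin d × Fin d, (c x.1 * c x.2) * D A x.1 x.2) ^ 2 ≤
        (∑ x : Fin d × Fin d, (c x.1 * c x.2) ^ 2) * ∑ x : Fin d × Fin d, D A x.1 x.2 ^ 2 :=
      Finset.sum_mul_sq_le_sq_mul_sq _ _ _
    rw [Fintype.sum_prod_type, Fintype.sum_prod_type, Fintype.sum_prod_type] at hcs
    have hcc : ∑ s, ∑ s', (c s * c s') ^ 2 = (∑ s, c s ^ 2) ^ 2 := by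
      rw [sq (∑ s, c s ^ 2), Finset.sum_mul_sum]
      refine Finset.sum_congr rfl fun s _ => Finset.sum_congr rfl fun s' _ => ?_
      ring
    have hHs : ∑ s, ∑ s', D A s s' ^ 2 = H A ^ 2 :=
      (Real.sq_sqrt (Finset.sum_nonneg fun s _ => Finset.sum_nonneg fun s' _ => sq_nonneg _)).symm
    simp only at hcs
    rw [hcc, hHs, ← mul_pow] at hcs
    have h0 : 0 ≤ (∑ s, c s ^ 2) * H A :=
      mul_nonneg (Finset.sum_nonneg fun s _ => sq_nonneg _) (hH0 A)
    calc _ ≤ (∑ s, c s ^ 2) * H A := abs_le_of_sq_le_sq' hcs h0 |>.2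
      _ = H A * ∑ s, c s ^ 2 := mul_comm _ _
  · have hEH2 : ∑ A, P A * H A ^ 2 ≤ 1 := by
      have hHs : ∀ A, H A ^ 2 = ∑ s, ∑ s', D A s s' ^ 2 := fun A =>
        Real.sq_sqrt (Finset.sum_nonneg fun s _ => Finset.sum_nonneg fun s' _ => sq_nonneg _)
      have h1 : ∑ A, P A * H A ^ 2 = ∑ s, ∑ s', ∑ A, P A * D A s s' ^ 2 := by
        simp only [hHs, Finset.mul_sum]
        rw [Finset.sum_comm]
        refine Finset.sum_congr rfl fun s _ => ?_
        rw [Finset.sum_comm]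
      have h2 : ∀ s s', ∑ A, P A * D A s s' ^ 2 ≤ (1 / (q : ℝ)) * ∑ i, p i * f s s' i ^ 2 :=
        fun s s' => by
        have hv := sampling_var q p (fun i => (hp0 i).le) hps (f s s')
        have e : ∑ A, P A * D A s s' ^ 2 = (1 / (q : ℝ)) ^ 2 *
            ∑ A : Fin q → ι, (∏ t, p (A t)) * (∑ t, f s s' (A t) - q * ∑ i, p i * f s s' i) ^ 2 := by
          rw [Finset.mul_sum]
          refine Finset.sum_congr rfl fun A _ => ?_
          simp only [hD, hPdef]
          ring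
        rw [e]
        calc _ ≤ (1 / (q : ℝ)) ^ 2 * (q * ∑ i, p i * f s s' i ^ 2) :=
              mul_le_mul_of_nonneg_left hv (by positivity)
          _ = (1 / (q : ℝ)) * ∑ i, p i * f s s' i ^ 2 := by
              field_simp
      have h3 : ∑ s, ∑ s', ∑ i, p i * f s s' i ^ 2 ≤ 2 * (d : ℝ) ^ 2 := by
        have e1 : ∑ s, ∑ s', ∑ i, p i * f s s' i ^ 2 = ∑ i, κ i ^ 2 / p i := by
          have : ∀ s s', ∑ i, p i * f s s' i ^ 2 = ∑ i, (w s i ^ 2 * w s' i ^ 2) / p i :=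
            fun s s' => Finset.sum_congr rfl fun i _ => by
              simp only [hf]
              field_simp [(hp0 i).ne']
          simp only [this]
          have e2 : ∀ s, ∑ s', ∑ i, (w s i ^ 2 * w s' i ^ 2) / p i =
              ∑ i, ∑ s', (w s i ^ 2 * w s' i ^ 2) / p i := fun s => Finset.sum_comm
          simp only [e2]
          rw [Finset.sum_comm]
          refine Finset.sum_congr rfl fun i _ => ?_
          simp only [hκ]
          rw [sq, Finset.sum_mul_sum, Finset.sum_div]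
          refine Finset.sum_congr rfl fun s _ => ?_
          rw [Finset.sum_div]
        rw [e1]
        calc ∑ i, κ i ^ 2 / p i ≤ ∑ i, κ i * (2 * d) := by
              refine Finset.sum_le_sum fun i _ => ?_
              rw [div_le_iff₀ (hp0 i)]
              have := mul_le_mul_of_nonneg_left (hκp i) (hκ0 i)
              calc κ i ^ 2 = κ i * κ i := sq _
                _ ≤ κ i * (2 * d * p i) := this
                _ = κ i * (2 * d) * p i := by ring
          _ = 2 * (d : ℝ) ^ 2 := by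
              rw [← Finset.sum_mul, hκs]; ring
      rw [h1]
      calc ∑ s, ∑ s', ∑ A, P A * D A s s' ^ 2
          ≤ ∑ s, ∑ s', (1 / (q : ℝ)) * ∑ i, p i * f s s' i ^ 2 :=
            Finset.sum_le_sum fun s _ => Finset.sum_le_sum fun s' _ => h2 s s'
        _ = (1 / (q : ℝ)) * ∑ s, ∑ s', ∑ i, p i * f s s' i ^ 2 := by
            simp only [Finset.mul_sum]
        _ ≤ (1 / (q : ℝ)) * (2 * (d : ℝ) ^ 2) := mul_le_mul_of_nonneg_left h3 (by positivity)
        _ ≤ 1 := by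
            rw [one_div, inv_mul_le_iff₀ hq0, mul_one]
            exact_mod_cast hq
    have hEH : ∑ A, P A * H A ≤ 1 := by
      refine (Sampling_cs P H hP0 hP1).trans ?_
      calc Real.sqrt (∑ A, P A * H A ^ 2) ≤ Real.sqrt 1 := Real.sqrt_le_sqrt hEH2
        _ = 1 := Real.sqrt_one
    refine (Sampling_cs P B hP0 hP1).trans (Real.sqrt_le_sqrt ?_)
    have hB2 : ∀ A, B A ^ 2 = 1 + H A := fun A => Real.sq_sqrt (by have := hH0 A; linarith)
    calc ∑ A, P A * B A ^ 2 = ∑ A, P A + ∑ A, P A * H A := by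
          rw [← Finset.sum_add_distrib]
          exact Finset.sum_congr rfl fun A _ => by rw [hB2]; ring
      _ ≤ 1 + 1 := by rw [hP1]; exact add_le_add le_rfl hEH
      _ = 2 := by norm_num

end Pool.Agent.helper75.Pel
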