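import Pool.Agent.helper75.Pel.Select1

/-!
# Select : from the grid to all coefficients

Let `p ≥ 4/δ` be an integer, `η = 1/p`, `C² > 120 p³`, `k = card κ`, `n_j = bN y β (single j 1) > 0`,
`X_g(a) = ‖∑_i a_{β i} g_i y_i‖` (a seminorm in `a`), `N = bN y β`, `g` from `select_grid`.
`single j (1/n_j)` is the grid point with `m_j = k p`, other `m` zero, so `X_g(e_j) ≤ (1+η) n_j ≤ 2 n_j`.
For `a` with `N(a) = 1`: `|a_j| n_j ≤ 1` (`bN_coord_le`), let `m_j = ⌊a_j k p n_j⌋`, `a'` the grid point:
`0 ≤ (a_j - a'_j) n_j ≤ η/k`, `N(a - a') ≤ η` (`bN_le_sum`), `X_g(a-a') ≤ 2η`, so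
`|X_g(a) - N(a)| ≤ 4 η ≤ δ`.  Scale for general `a` (if `N(a) = 0` then `a = 0`, as `|a_j| n_j ≤ N(a)`).
-/

namespace Pool.Agent.helper75.Pel
open MeasureTheory ProbabilityTheory

universe u

/-- The seminorm `X_g(a) = ‖∑_i a_{β i} g_i y_i‖`. -/
noncomputable def select_X {E : Type u} [NormedAddCommGroup E] [NormedSpace ℝ E]
    {ι κ : Type} [Fintype ι] (y : ι → E) (β : ι → κ) (g : ι → ℝ) (a : κ → ℝ) : ℝ :=
  ‖∑ i, a (β i) • g i • y i‖

theorem select_X_sub_le {E : Type u} [NormedAddCommGroup E] [NormedSpace ℝ E]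
    {ι κ : Type} [Fintype ι] (y : ι → E) (β : ι → κ) (g : ι → ℝ) (a b : κ → ℝ) :
    |select_X y β g a - select_X y β g b| ≤ select_X y β g (a - b) := by
  unfold select_X
  refine (abs_norm_sub_norm_le _ _).trans (le_of_eq ?_)
  rw [← Finset.sum_sub_distrib]
  congr 1
  refine Finset.sum_congr rfl fun i _ => ?_
  rw [Pi.sub_apply, sub_smul]

theorem select_X_smul {E : Type u} [NormedAddCommGroup E] [NormedSpace ℝ E]
    {ι κ : Type} [Fintype ι] (y : ι → E) (β : ι → κ) (g : ι → ℝ) (c : ℝ) (a : κ → ℝ) :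
    select_X y β g (c • a) = |c| * select_X y β g a := by
  unfold select_X
  rw [← Real.norm_eq_abs, ← norm_smul, Finset.smul_sum]
  congr 1
  refine Finset.sum_congr rfl fun i _ => ?_
  rw [Pi.smul_apply, smul_eq_mul, mul_smul]

theorem select_X_le_sum {E : Type u} [NormedAddCommGroup E] [NormedSpace ℝ E]
    {ι κ : Type} [Fintype ι] [Fintype κ] [DecidableEq κ] (y : ι → E) (β : ι → κ) (g : ι → ℝ)
    (a : κ → ℝ) :
    select_X y β g a ≤ ∑ j, |a j| * select_X y β g (Pi.single j 1) := by
  unfold select_X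
  have h : ∑ i, a (β i) • g i • y i
      = ∑ j, a j • ∑ i, (Pi.single j (1 : ℝ) : κ → ℝ) (β i) • g i • y i := by
    simp_rw [Finset.smul_sum]
    rw [Finset.sum_comm]
    refine Finset.sum_congr rfl fun i _ => ?_
    rw [Finset.sum_eq_single (β i)]
    · rw [Pi.single_eq_same, one_smul]
    · intro j _ hj
      rw [Pi.single_eq_of_ne (Ne.symm hj), zero_smul, smul_zero]
    · intro h; exact absurd (Finset.mem_univ _) h
  rw [h]
  refine (norm_sum_le _ _).trans (le_of_eq ?_)
  refine Finset.sum_congr rfl fun j _ => ?_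
  rw [norm_smul, Real.norm_eq_abs]

theorem select (δ : ℝ) (hδ : 0 < δ) : ∃ C : ℝ, 1 ≤ C ∧
    ∀ (E : Type u) [NormedAddCommGroup E] [NormedSpace ℝ E] [FiniteDimensional ℝ E]
      (ι κ : Type) [Fintype ι] [Fintype κ] [DecidableEq κ] [Nonempty κ]
      (y : ι → E) (β : ι → κ) (σ : ℝ), 0 < σ → OpB y σ →
      (∀ j, C * Fintype.card κ * σ ≤ bN y β (Pi.single j 1)) →
      ∃ g : ι → ℝ, ∀ a : κ → ℝ,
        (1 - δ) * bN y β a ≤ ‖∑ i, a (β i) • g i • y i‖ ∧
        ‖∑ i, a (β i) • g i • y i‖ ≤ (1 + δ) * bN y β a := by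
  obtain ⟨p, hp1, hp4⟩ : ∃ p : ℕ, 1 ≤ p ∧ 4 / δ ≤ p := by
    obtain ⟨p, hp⟩ := exists_nat_ge (4 / δ)
    refine ⟨p + 1, by omega, ?_⟩
    push_cast; linarith
  have hp0 : (0 : ℝ) < p := by exact_mod_cast hp1
  have hp4' : 4 / (p : ℝ) ≤ δ := by
    rw [div_le_iff₀ hδ] at hp4
    rw [div_le_iff₀ hp0]; linarith
  have hC3 : (0 : ℝ) < 120 * (p : ℝ) ^ 3 := by positivity
  refine ⟨120 * (p : ℝ) ^ 3 + 1, by linarith, ?_⟩
  intro E _ _ _ ι κ _ _ _ _ y β σ hσ hop hn
  set C : ℝ := 120 * (p : ℝ) ^ 3 + 1 with hCdef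
  have hC1 : 1 ≤ C := by rw [hCdef]; linarith
  obtain ⟨g, hg⟩ := select_grid E ι κ y β hp1 hσ (by linarith : 0 < C)
    (by nlinarith) hop hn
  refine ⟨g, ?_⟩
  set k : ℝ := (Fintype.card κ : ℝ) with hk
  have hk0 : 0 < k := by
    rw [hk]; exact_mod_cast Fintype.card_pos
  have hk1 : 1 ≤ k := by
    rw [hk]; exact_mod_cast Fintype.card_pos
  have hn0 : ∀ j, 0 < bN y β (Pi.single j 1) := fun j =>
    lt_of_lt_of_le (by positivity) (hn j)
  have hkp : 0 < k * p := by positivity
  -- grid estimate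
  have hgrid : ∀ m : κ → ℤ, (∀ j, |m j| ≤ Fintype.card κ * p + 1) →
      |select_X y β g (fun j => (m j : ℝ) / (k * p * bN y β (Pi.single j 1))) -
        bN y β (fun j => (m j : ℝ) / (k * p * bN y β (Pi.single j 1)))| ≤ 1 / p := hg
  -- the coordinates
  have hXe : ∀ j, select_X y β g (Pi.single j 1) ≤ 2 * bN y β (Pi.single j 1) := by
    intro j
    have hm := hgrid (Pi.single j ((Fintype.card κ : ℤ) * p)) (by
      intro j'
      by_cases h : j' = j
      · subst h
        rw [Pi.single_eq_same, abs_of_nonneg (by positivity)]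
        linarith
      · rw [Pi.single_eq_of_ne h, abs_zero]
        positivity)
    have e : (fun j' => (((Pi.single j ((Fintype.card κ : ℤ) * p) : κ → ℤ) j' : ℤ) : ℝ) /
        (k * p * bN y β (Pi.single j' 1)))
        = (1 / bN y β (Pi.single j 1)) • (Pi.single j (1 : ℝ) : κ → ℝ) := by
      funext j'
      by_cases h : j' = j
      · subst h
        rw [Pi.smul_apply, Pi.single_eq_same, Pi.single_eq_same, smul_eq_mul]
        push_cast
        rw [← hk]
        have := (hn0 j').ne'
        field_simp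
      · rw [Pi.smul_apply, Pi.single_eq_of_ne h, Pi.single_eq_of_ne h]
        simp
    rw [e, select_X_smul, bN_smul, abs_of_pos (one_div_pos.2 (hn0 j))] at hm
    have hnj := hn0 j
    have e2 : 1 / bN y β (Pi.single j 1) * bN y β (Pi.single j 1) = 1 := by
      field_simp
    rw [e2] at hm
    have h1 := (abs_le.1 hm).2
    have h2 : (1 : ℝ) / p ≤ 1 := by
      rw [div_le_one hp0]; exact_mod_cast hp1
    have h3 : 1 / bN y β (Pi.single j 1) * select_X y β g (Pi.single j 1) ≤ 2 := by linarith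
    rw [one_div, inv_mul_le_iff₀ hnj] at h3
    linarith
  -- normalised coefficients
  have hnorm : ∀ a : κ → ℝ, bN y β a = 1 → |select_X y β g a - 1| ≤ δ := by
    intro a ha
    set m : κ → ℤ := fun j => ⌊a j * (k * p * bN y β (Pi.single j 1))⌋ with hm
    set a' : κ → ℝ := fun j => (m j : ℝ) / (k * p * bN y β (Pi.single j 1)) with ha'
    have hbd : ∀ j, |a j| * bN y β (Pi.single j 1) ≤ 1 := fun j => by
      have := bN_coord_le y β a j
      rwa [ha] at this
    have hmb : ∀ j, |m j| ≤ Fintype.card κ * p + 1 := by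
      intro j
      have hb := hbd j
      have h1 : |a j * (k * p * bN y β (Pi.single j 1))| ≤ k * p := by
        rw [abs_mul, abs_of_pos (mul_pos hkp (hn0 j))]
        nlinarith
      have h2 := abs_le.1 h1
      have hf1 := Int.floor_le (a j * (k * p * bN y β (Pi.single j 1)))
      have hf2 := Int.lt_floor_add_one (a j * (k * p * bN y β (Pi.single j 1)))
      have h3 : (|m j| : ℝ) ≤ k * p + 1 := by
        rw [abs_le]
        constructor
        · have : (m j : ℝ) = (⌊a j * (k * p * bN y β (Pi.single j 1))⌋ : ℝ) := rfl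
          rw [this]; linarith [h2.1]
        · have : (m j : ℝ) = (⌊a j * (k * p * bN y β (Pi.single j 1))⌋ : ℝ) := rfl
          rw [this]; linarith [h2.2]
      rw [hk] at h3
      exact_mod_cast h3
    have hdiff : ∀ j, |(a - a') j| * bN y β (Pi.single j 1) ≤ 1 / (k * p) := by
      intro j
      have hnj := hn0 j
      have hpos : 0 < k * p * bN y β (Pi.single j 1) := mul_pos hkp hnj
      have hf1 := Int.floor_le (a j * (k * p * bN y β (Pi.single j 1)))
      have hf2 := Int.lt_floor_add_one (a j * (k * p * bN y β (Pi.single j 1)))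
      have e1 : (a - a') j
          = (a j * (k * p * bN y β (Pi.single j 1)) - m j) / (k * p * bN y β (Pi.single j 1)) := by
        rw [Pi.sub_apply, ha']
        field_simp
      have e2 : 0 ≤ a j * (k * p * bN y β (Pi.single j 1)) - m j := by
        have : (m j : ℝ) = (⌊a j * (k * p * bN y β (Pi.single j 1))⌋ : ℝ) := rfl
        rw [this]; linarith
      have e3 : a j * (k * p * bN y β (Pi.single j 1)) - m j ≤ 1 := by
        have : (m j : ℝ) = (⌊a j * (k * p * bN y β (Pi.single j 1))⌋ : ℝ) := rfl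
        rw [this]; linarith
      rw [e1, abs_div, abs_of_nonneg e2, abs_of_pos hpos]
      calc (a j * (k * p * bN y β (Pi.single j 1)) - m j) / (k * p * bN y β (Pi.single j 1))
            * bN y β (Pi.single j 1)
          ≤ 1 / (k * p * bN y β (Pi.single j 1)) * bN y β (Pi.single j 1) := by
            refine mul_le_mul_of_nonneg_right ?_ hnj.le
            exact div_le_div_of_nonneg_right e3 hpos.le
        _ = 1 / (k * p) := by field_simp
    have hsum : ∑ _j : κ, 1 / (k * p) = 1 / p := by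
      rw [Finset.sum_const, Finset.card_univ, nsmul_eq_mul, ← hk]
      field_simp
    have hN : bN y β (a - a') ≤ 1 / p := by
      refine (bN_le_sum y β (a - a')).trans ?_
      rw [← hsum]
      exact Finset.sum_le_sum fun j _ => hdiff j
    have hX : select_X y β g (a - a') ≤ 2 / p := by
      refine (select_X_le_sum y β g (a - a')).trans ?_
      calc ∑ j, |(a - a') j| * select_X y β g (Pi.single j 1)
          ≤ ∑ _j : κ, 2 * (1 / (k * p)) := by
            refine Finset.sum_le_sum fun j _ => ?_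
            have h1 := hXe j
            have h2 := hdiff j
            calc |(a - a') j| * select_X y β g (Pi.single j 1)
                ≤ |(a - a') j| * (2 * bN y β (Pi.single j 1)) :=
                  mul_le_mul_of_nonneg_left h1 (abs_nonneg _)
              _ = 2 * (|(a - a') j| * bN y β (Pi.single j 1)) := by ring
              _ ≤ 2 * (1 / (k * p)) := by linarith
        _ = 2 / p := by rw [← Finset.mul_sum, hsum]; ring
    have h1 := select_X_sub_le y β g a a'
    have h2 := bN_sub_le y β a a'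
    have h3 := hgrid m hmb
    rw [ha] at h2
    change |select_X y β g a' - bN y β a'| ≤ 1 / p at h3
    have h4 : (4 : ℝ) / p = 2 / p + 1 / p + 1 / p := by ring
    rw [abs_le] at h1 h2 h3 ⊢
    constructor <;> linarith [h1.1, h1.2, h2.1, h2.2, h3.1, h3.2]
  intro a
  change (1 - δ) * bN y β a ≤ select_X y β g a ∧ select_X y β g a ≤ (1 + δ) * bN y β a
  rcases eq_or_lt_of_le (bN_nonneg y β a) with h0 | h0
  · have ha : a = 0 := by
      funext j
      have h1 := bN_coord_le y β a j
      rw [← h0] at h1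
      have h2 : |a j| ≤ 0 := by
        by_contra hc
        push Not at hc
        have := mul_pos hc (hn0 j)
        linarith
      exact abs_eq_zero.1 (le_antisymm h2 (abs_nonneg _))
    have hX0 : select_X y β g a = 0 := by
      rw [ha]; simp [select_X]
    rw [hX0, ← h0]
    simp
  · have h1 := hnorm ((1 / bN y β a) • a) (by
      rw [bN_smul, abs_of_pos (one_div_pos.2 h0)]
      field_simp)
    rw [select_X_smul, abs_of_pos (one_div_pos.2 h0)] at h1
    rw [abs_le] at h1
    have h2 : 1 - δ ≤ 1 / bN y β a * select_X y β g a := by linarith [h1.1]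
    have h3 : 1 / bN y β a * select_X y β g a ≤ 1 + δ := by linarith [h1.2]
    rw [one_div, inv_mul_eq_div] at h2 h3
    rw [le_div_iff₀ h0] at h2
    rw [div_le_iff₀ h0] at h3
    exact ⟨h2, h3⟩

end Pool.Agent.helper75.Pel
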