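import Pool.Agent.helper75.Pel.Block
import Pool.Agent.helper75.Pel.Conc2

/-!
# Select1 : concentration on all points of a grid

`k = card κ`, `n_j = bN y β (single j 1) ≥ C k σ > 0`, `C² > 120 p³`.
For a grid point `a_j = m_j/(k p n_j)`, `|m_j| ≤ k p + 1`: `|a_j| ≤ 2/n_j ≤ 2/(C k σ)`, so the weighted family
`(a_{β i} y_i)` has operator bound `2/(C k)` (`opB_weighted`), and `conc` gives
`P(|X_g(a) - N(a)| ≥ 1/p) ≤ 2 exp(- C² k²/(20 p²))`.  There are `(2kp+3)^k ≤ (5kp)^k` points.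
`(5kp)^k · 2 · exp(-C²k²/(20p²)) < 1`, since `k log(5kp) + log 2 ≤ 5k²p + k² ≤ 6 k² p < C²k²/(20 p²)`.
Union bound (`measure_biUnion_finset_le` in `real` form); the complement is nonempty.
-/

namespace Pool.Agent.helper75.Pel
open MeasureTheory ProbabilityTheory

universe u

/-- The numerical inequality of the union bound. -/
private theorem select1_num {k p : ℕ} {C : ℝ} (hk : 1 ≤ k) (hp : 1 ≤ p)
    (hC : 120 * (p : ℝ) ^ 3 < C ^ 2) :
    ((2 * (k * p + 1) + 1 : ℕ) : ℝ) ^ k * (2 * Real.exp (-(C ^ 2 * k ^ 2 / (20 * p ^ 2)))) < 1 := by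
  have hk' : (1 : ℝ) ≤ k := by exact_mod_cast hk
  have hp' : (1 : ℝ) ≤ p := by exact_mod_cast hp
  have hkp : (1 : ℝ) ≤ k * p := by nlinarith
  have hkkp : (1 : ℝ) ≤ k * (k * p) := by nlinarith
  have h1 : ((2 * (k * p + 1) + 1 : ℕ) : ℝ) ≤ Real.exp (5 * (k * p)) := by
    push_cast
    have := Real.add_one_le_exp (5 * ((k : ℝ) * p))
    nlinarith
  have h2 : ((2 * (k * p + 1) + 1 : ℕ) : ℝ) ^ k ≤ Real.exp (5 * (k * (k * p))) := by
    calc ((2 * (k * p + 1) + 1 : ℕ) : ℝ) ^ k ≤ (Real.exp (5 * (k * p))) ^ k :=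
          pow_le_pow_left₀ (by positivity) h1 k
      _ = Real.exp (5 * (k * (k * p))) := by
          rw [← Real.exp_nat_mul]
          congr 1
          ring
  have h3 : (2 : ℝ) ≤ Real.exp (k * (k * p)) := by
    have := Real.add_one_le_exp ((k : ℝ) * (k * p))
    linarith
  have h4 : 6 * ((k : ℝ) * (k * p)) < C ^ 2 * k ^ 2 / (20 * p ^ 2) := by
    rw [lt_div_iff₀ (by positivity)]
    have hk2 : (0 : ℝ) < k ^ 2 := by positivity
    calc 6 * ((k : ℝ) * (k * p)) * (20 * p ^ 2) = (120 * p ^ 3) * k ^ 2 := by ring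
      _ < C ^ 2 * k ^ 2 := mul_lt_mul_of_pos_right hC hk2
  have h5 : Real.exp (-(C ^ 2 * k ^ 2 / (20 * p ^ 2))) < Real.exp (-(6 * ((k : ℝ) * (k * p)))) :=
    Real.exp_lt_exp.mpr (by linarith)
  calc ((2 * (k * p + 1) + 1 : ℕ) : ℝ) ^ k * (2 * Real.exp (-(C ^ 2 * k ^ 2 / (20 * p ^ 2))))
      < Real.exp (5 * (k * (k * p))) * (Real.exp (k * (k * p)) *
          Real.exp (-(6 * ((k : ℝ) * (k * p))))) := by
        apply mul_lt_mul' h2 _ (by positivity) (by positivity)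
        exact mul_lt_mul' h3 h5 (by positivity) (by positivity)
    _ = 1 := by
        rw [← Real.exp_add, ← Real.exp_add]
        have : 5 * ((k : ℝ) * (k * p)) + (k * (k * p) + -(6 * ((k : ℝ) * (k * p)))) = 0 := by ring
        rw [this, Real.exp_zero]

theorem select_grid (E : Type u) [NormedAddCommGroup E] [NormedSpace ℝ E] [FiniteDimensional ℝ E]
    (ι κ : Type) [Fintype ι] [Fintype κ] [DecidableEq κ] [Nonempty κ]
    (y : ι → E) (β : ι → κ) {σ C : ℝ} {p : ℕ} (hp : 1 ≤ p) (hσ : 0 < σ) (hC0 : 0 < C)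
    (hC : 120 * (p : ℝ) ^ 3 < C ^ 2) (hop : OpB y σ)
    (hn : ∀ j, C * Fintype.card κ * σ ≤ bN y β (Pi.single j 1)) :
    ∃ g : ι → ℝ, ∀ m : κ → ℤ, (∀ j, |m j| ≤ Fintype.card κ * p + 1) →
      |‖∑ i, ((m (β i) : ℝ) / (Fintype.card κ * p * bN y β (Pi.single (β i) 1))) • g i • y i‖ -
        bN y β (fun j => (m j : ℝ) / (Fintype.card κ * p * bN y β (Pi.single j 1)))| ≤ 1 / p := by
  classical
  obtain ⟨k, hk⟩ : ∃ k : ℕ, k = Fintype.card κ := ⟨_, rfl⟩
  have hk1 : 1 ≤ k := by rw [hk]; exact Fintype.card_pos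
  rw [← hk] at hn ⊢
  have hkR : (1 : ℝ) ≤ k := by exact_mod_cast hk1
  have hpR : (1 : ℝ) ≤ p := by exact_mod_cast hp
  have hCkσ : 0 < C * k * σ := by positivity
  have hnpos : ∀ j, 0 < bN y β (Pi.single j 1) := fun j => lt_of_lt_of_le hCkσ (hn j)
  -- the grid points
  set A : (κ → ℤ) → κ → ℝ := fun m j => (m j : ℝ) / (k * p * bN y β (Pi.single j 1)) with hA
  have hAbound : ∀ m : κ → ℤ, (∀ j, |m j| ≤ k * p + 1) → ∀ j, |A m j| ≤ 2 / (C * k * σ) := by
    intro m hm j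
    have hmj : |(m j : ℝ)| ≤ k * p + 1 := by
      have := hm j
      have h' : ((|m j| : ℤ) : ℝ) ≤ ((k * p + 1 : ℤ) : ℝ) := by exact_mod_cast this
      simpa using h'
    have hkp : (1 : ℝ) ≤ k * p := by nlinarith
    have hden : 0 < (k : ℝ) * p * bN y β (Pi.single j 1) := mul_pos (by positivity) (hnpos j)
    rw [hA]
    simp only
    rw [abs_div, abs_of_pos hden, div_le_div_iff₀ hden hCkσ]
    calc |(m j : ℝ)| * (C * k * σ) ≤ (2 * (k * p)) * (C * k * σ) := by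
          apply mul_le_mul_of_nonneg_right _ hCkσ.le
          linarith
      _ ≤ (2 * (k * p)) * bN y β (Pi.single j 1) := by
          apply mul_le_mul_of_nonneg_left (hn j) (by positivity)
      _ = 2 * (k * p * bN y β (Pi.single j 1)) := by ring
  -- the bad sets
  set B : (κ → ℤ) → Set (ι → ℝ) := fun m =>
    {g | (1 : ℝ) / p ≤ |‖∑ i, g i • (A m (β i) • y i)‖ - ell (fun i => A m (β i) • y i)|} with hB
  have hBm : ∀ m : κ → ℤ, (∀ j, |m j| ≤ k * p + 1) →
      (gam ι).real (B m) ≤ 2 * Real.exp (-(C ^ 2 * k ^ 2 / (20 * p ^ 2))) := by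
    intro m hm
    have hop' : OpB (fun i => A m (β i) • y i) (2 / (C * k)) := by
      have := opB_weighted hσ.le hop β (hAbound m hm)
      have e : 2 / (C * k * σ) * σ = 2 / (C * k) := by field_simp
      rwa [e] at this
    have h := conc (fun i => A m (β i) • y i) (σ := 2 / (C * k)) (t := 1 / p) (by positivity)
      (by positivity) hop'
    have e : ((1 : ℝ) / p) ^ 2 / (5 * (2 / (C * k)) ^ 2) = C ^ 2 * k ^ 2 / (20 * p ^ 2) := by
      field_simp
      ring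
    rw [e] at h
    exact h
  -- the finite set of the grid
  set S : Finset (κ → ℤ) := Fintype.piFinset fun _ => Finset.Icc (-(k * p + 1 : ℤ)) (k * p + 1)
    with hS
  have hmem : ∀ m : κ → ℤ, m ∈ S ↔ ∀ j, |m j| ≤ k * p + 1 := by
    intro m
    rw [hS, Fintype.mem_piFinset]
    simp only [Finset.mem_Icc, abs_le]
  have hcard : (S.card : ℝ) = ((2 * (k * p + 1) + 1 : ℕ) : ℝ) ^ k := by
    rw [hS, Fintype.card_piFinset, Finset.prod_const, Finset.card_univ, ← hk, Int.card_Icc]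
    have : ((k : ℤ) * p + 1 + 1 - -(k * p + 1)).toNat = 2 * (k * p + 1) + 1 := by
      have : ((k : ℤ) * p + 1 + 1 - -(k * p + 1)) = ((2 * (k * p + 1) + 1 : ℕ) : ℤ) := by
        push_cast; ring
      rw [this, Int.toNat_natCast]
    rw [this]
    push_cast
    ring
  have hunion : (gam ι).real (⋃ m ∈ S, B m) < 1 := by
    calc (gam ι).real (⋃ m ∈ S, B m) ≤ ∑ m ∈ S, (gam ι).real (B m) :=
          measureReal_biUnion_finset_le S B
      _ ≤ ∑ _m ∈ S, 2 * Real.exp (-(C ^ 2 * k ^ 2 / (20 * p ^ 2))) :=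
          Finset.sum_le_sum fun m hm => hBm m ((hmem m).mp hm)
      _ = ((2 * (k * p + 1) + 1 : ℕ) : ℝ) ^ k *
            (2 * Real.exp (-(C ^ 2 * k ^ 2 / (20 * p ^ 2)))) := by
          rw [Finset.sum_const, nsmul_eq_mul, hcard]
      _ < 1 := select1_num hk1 hp hC
  have hne : (⋃ m ∈ S, B m) ≠ Set.univ := by
    intro h
    rw [h] at hunion
    simp at hunion
  obtain ⟨g, hg⟩ := (Set.ne_univ_iff_exists_notMem _).mp hne
  refine ⟨g, fun m hm => ?_⟩
  have hgm : g ∉ B m := by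
    intro h
    exact hg (Set.mem_biUnion (show m ∈ (S : Set (κ → ℤ)) from (hmem m).mpr hm) h)
  have h1 : |‖∑ i, g i • (A m (β i) • y i)‖ - ell (fun i => A m (β i) • y i)| < 1 / p := by
    by_contra hcon
    exact hgm (not_lt.mp hcon)
  have e1 : ∑ i, ((m (β i) : ℝ) / (k * p * bN y β (Pi.single (β i) 1))) • g i • y i =
      ∑ i, g i • (A m (β i) • y i) :=
    Finset.sum_congr rfl fun i _ => smul_comm _ _ _
  rw [e1]
  exact h1.le

end Pool.Agent.helper75.Pel
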