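import Pool.Agent.helper75.Pel.Crit
import Pool.Agent.helper75.Pel.Extract
import Pool.Agent.helper75.Pel.LemmaR
import Pool.Agent.helper75.Pel.BlockDec

/-!
# TypeStep

`C₁` the constant of `crit_sub δ`; `C ≥ 32 C₁²`.  Assume `¬ Good E ρ δ` and, for a contradiction,
`x : Fin k × Fin q → E` in the unit ball with `ell x > 8ρt √(kq)` (`TY` for `Fin (k*q)` via
`finProdFinEquiv`).  `t ≥ 0` (`q ≥ 1`).  If `m ≥ kq`... not possible since `2(km)² ≤ q`; so `m < kq`.
Greedy basis `o` (`exists_greedy`), `v_i = o i` for `i < m`; `s_m = ‖opx x (o m)‖ ≤ √2 R ell x/√(m+1)`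
(`s_bound`).  `block_decomp` gives `w` (`d ≤ km`) and `b`, `β`.  `y_s = opx x (b s)`.
* `ell (opx x (w ·)) ≤ 2 t √(kq) ≤ ell x/4` (`lemmaR`, `2 d² ≤ q`), so `ell y ≥ ell x/2` (`ell_le_add`).
* `OpB y σ₀` for `σ₀ = s_m`: `‖∑ c_s y_s‖ = ‖opx x (∑ c_s b_s)‖ ≤ s_m |c|` (`greedy_orth`, `b` orthonormal).
  Hence `OpB y σ` with `σ = 2√2 R ell y/√m ≥ s_m`, `σ > 0`.
* `N(e_j) := bN y β (single j 1) ≤ ell (x(j,·)) ≤ t √q` (`ell_mono` with the last property of
  `block_decomp`).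
* `J = {j : N(e_j) ≥ ell y/(2k)}`: `N(1_J) ≥ ell y - ∑_{j∉J} N(e_j) ≥ ell y/2 ≥ ell x/4 > 2ρt√(kq)`
  (`bN_add_le`, `bN_le_sum`), `J` nonempty, `√(∑_J N(e_j)²) ≤ t √(kq)`, so `2ρ √(∑_J N(e_j)²) ≤ N(1_J)`.
* for `j ∈ J`: `C₁ k σ = C₁ k 2√2 R ell y/√m ≤ ell y/(2k) ≤ N(e_j)` since `√m ≥ 4√2 C₁ R k²`.
`crit_sub` gives `Good E ρ δ`.
-/

namespace Pool.Agent.helper75.Pel

universe u

section aux

variable {E : Type u} [NormedAddCommGroup E] [NormedSpace ℝ E] [FiniteDimensional ℝ E]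

omit [FiniteDimensional ℝ E] in
theorem TypeStep_tnonneg {q : ℕ} (hq1 : 1 ≤ q) {t : ℝ} (ht : TY E q t) : 0 ≤ t := by
  have h1 := ht (fun _ => 0) (fun _ => by simp)
  have h2 := ell_nonneg (fun _ : Fin q => (0 : E))
  have h3 : (0 : ℝ) < Real.sqrt q := Real.sqrt_pos.mpr (by exact_mod_cast hq1)
  by_contra h
  push Not at h
  have := mul_neg_of_neg_of_pos h h3
  linarith

omit [FiniteDimensional ℝ E] in
theorem TypeStep_opx_sum {ι : Type} [Fintype ι] (x : ι → E) {r : ℕ}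
    (b : Fin r → EuclideanSpace ℝ ι) (c : Fin r → ℝ) :
    opx x (∑ s, c s • b s) = ∑ s, c s • opx x (b s) := by
  unfold opx
  simp only [Finset.smul_sum, smul_smul]
  rw [Finset.sum_comm]
  refine Finset.sum_congr rfl fun i _ => ?_
  rw [← Finset.sum_smul]
  congr 1
  simp [Finset.sum_apply]

/-- the norm of a combination of orthonormal vectors -/
theorem TypeStep_norm {ι : Type} [Fintype ι] {r : ℕ} {b : Fin r → EuclideanSpace ℝ ι}
    (hb : Orthonormal ℝ b) (c : Fin r → ℝ) : ‖∑ s, c s • b s‖ = Real.sqrt (∑ s, c s ^ 2) := by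
  have h1 : ‖∑ s, c s • b s‖ ^ 2 = ∑ s, c s ^ 2 := by
    rw [← real_inner_self_eq_norm_sq, hb.inner_sum c c Finset.univ]
    refine Finset.sum_congr rfl fun s _ => ?_
    simp [sq]
  rw [← h1, Real.sqrt_sq (norm_nonneg _)]

omit [FiniteDimensional ℝ E] in
theorem TypeStep_opB {ι : Type} [Fintype ι] {x : ι → E} {N : ℕ}
    {o : OrthonormalBasis (Fin N) ℝ (EuclideanSpace ℝ ι)} (m : Fin N) {r : ℕ}
    {b : Fin r → EuclideanSpace ℝ ι} (hb : Orthonormal ℝ b)
    (horth : ∀ z : EuclideanSpace ℝ ι, (∀ j, j < m → inner ℝ (o j) z = 0) →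
      ‖opx x z‖ ≤ ‖opx x (o m)‖ * ‖z‖)
    (h0 : ∀ s j, j < m → inner ℝ (o j) (b s) = 0) {σ : ℝ} (hσ : ‖opx x (o m)‖ ≤ σ) :
    OpB (fun s => opx x (b s)) σ := by
  intro c
  rw [← TypeStep_opx_sum, ← TypeStep_norm hb c]
  refine (horth _ ?_).trans (mul_le_mul_of_nonneg_right hσ (norm_nonneg _))
  intro j hj
  rw [inner_sum]
  refine Finset.sum_eq_zero fun s _ => ?_
  rw [inner_smul_right, h0 s j hj, mul_zero]

/-- the norm of one block -/
theorem TypeStep_block {k q r : ℕ} {x : Fin k × Fin q → E} (hx : ∀ i, ‖x i‖ ≤ 1) {t : ℝ}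
    (ht : TY E q t) {y : Fin r → E} {β : Fin r → Fin k} {j : Fin k}
    (h : ∀ ξ : E →L[ℝ] ℝ, ∑ s with β s = j, (ξ (y s)) ^ 2 ≤ ∑ t, (ξ (x (j, t))) ^ 2) :
    bN y β (Pi.single j 1) ≤ t * Real.sqrt q := by
  refine le_trans ?_ (ht (fun s => x (j, s)) (fun s => hx _))
  rw [bN_single]
  refine ell_mono fun ξ => ?_
  unfold QF
  rw [← Finset.sum_subtype (Finset.univ.filter fun i => β i = j) (by simp)
    (fun i => (ξ (y i)) ^ 2)]
  exact h ξ

/-- the large blocks carry half of the norm -/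
theorem TypeStep_large {ι : Type} [Fintype ι] {k : ℕ} (hk : 1 ≤ k) (y : ι → E) (β : ι → Fin k)
    (J : Finset (Fin k)) (hJ : ∀ j, j ∉ J → bN y β (Pi.single j 1) ≤ ell y / (2 * k)) :
    ell y / 2 ≤ bN y β (fun j => if j ∈ J then 1 else 0) := by
  have hk' : (0 : ℝ) < k := by exact_mod_cast hk
  have h1 : (fun _ : Fin k => (1 : ℝ)) = (fun j => if j ∈ J then (1 : ℝ) else 0) +
      (fun j => if j ∈ J then (0 : ℝ) else 1) := by
    funext j
    rw [Pi.add_apply]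
    split_ifs <;> norm_num
  have h2 := bN_add_le y β (fun j => if j ∈ J then (1 : ℝ) else 0)
    (fun j => if j ∈ J then (0 : ℝ) else 1)
  rw [← h1, bN_one] at h2
  have h3 := bN_le_sum y β (fun j => if j ∈ J then (0 : ℝ) else 1)
  have hell := ell_nonneg y
  have h4 : ∑ j : Fin k, |(if j ∈ J then (0 : ℝ) else 1)| * bN y β (Pi.single j 1) ≤
      ∑ _j : Fin k, ell y / (2 * k) := by
    refine Finset.sum_le_sum fun j _ => ?_
    by_cases hj : j ∈ J
    · rw [if_pos hj, abs_zero, zero_mul]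
      positivity
    · rw [if_neg hj, abs_one, one_mul]
      exact hJ j hj
  have h5 : ∑ _j : Fin k, ell y / (2 * k) = ell y / 2 := by
    rw [Finset.sum_const, Finset.card_univ, Fintype.card_fin, nsmul_eq_mul]
    field_simp
  linarith

end aux

theorem type_step (δ : ℝ) (hδ : 0 < δ) : ∃ C : ℝ, 1 ≤ C ∧
    ∀ (E : Type u) [NormedAddCommGroup E] [NormedSpace ℝ E] [FiniteDimensional ℝ E]
      (ρ t R : ℝ) (k q m : ℕ), 1 ≤ ρ → 1 ≤ k → 1 ≤ m → 1 ≤ R → ¬ Good E ρ δ → TY E q t →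
      (∀ h : ℕ, 1 ≤ h → h ≤ k * q → FL E h (Real.sqrt h / R)) →
      C * R ^ 2 * (k : ℝ) ^ 4 ≤ m → 2 * (k * m) ^ 2 ≤ q → TY E (k * q) (8 * ρ * t) := by
  classical
  obtain ⟨C₁, hC₁, hcrit⟩ := crit_sub.{u} δ hδ
  refine ⟨32 * C₁ ^ 2, by nlinarith, ?_⟩
  intro E _ _ _ ρ t R k q m hρ hk hm hR hgood hTY hFL hCm hq x' hx'
  have hC₁0 : 0 < C₁ := by linarith
  have hρ0 : 0 < ρ := by linarith
  have hR0 : 0 < R := by linarith
  have hkm : 1 ≤ k * m := Nat.one_le_iff_ne_zero.2 (by positivity)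
  have hkm2 : k * m ≤ (k * m) ^ 2 := by nlinarith
  have hmk : m ≤ k * m := Nat.le_mul_of_pos_left m hk
  have hq1 : 1 ≤ q := by omega
  have hqk : q ≤ k * q := Nat.le_mul_of_pos_left q hk
  have hmN : m < k * q := by omega
  have ht0 : 0 ≤ t := TypeStep_tnonneg hq1 hTY
  have hkr : (1 : ℝ) ≤ k := by exact_mod_cast hk
  have hk0 : (0 : ℝ) < k := by linarith
  have hmr : (1 : ℝ) ≤ m := by exact_mod_cast hm
  have hm0 : (0 : ℝ) < m := by linarith
  have hsm : 0 < Real.sqrt m := Real.sqrt_pos.2 hm0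
  -- reindexing
  set x : Fin k × Fin q → E := fun i => x' (finProdFinEquiv i) with hxdef
  have hx : ∀ i, ‖x i‖ ≤ 1 := fun i => hx' _
  have hell : ell x' = ell x := by
    refine ell_congr fun ξ => ?_
    unfold QF
    rw [← Equiv.sum_comp finProdFinEquiv]
  have hcard : Fintype.card (Fin k × Fin q) = k * q := by simp
  have hcardr : ((Fintype.card (Fin k × Fin q) : ℕ) : ℝ) = ((k * q : ℕ) : ℝ) := by rw [hcard]
  rw [hell]
  by_contra hcon
  push Not at hcon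
  have hN0 : 0 ≤ Real.sqrt ((k * q : ℕ) : ℝ) := Real.sqrt_nonneg _
  set S : ℝ := Real.sqrt ((k * q : ℕ) : ℝ) with hS
  have hellx : 0 < ell x := lt_of_le_of_lt (by positivity) hcon
  have htS : 8 * (t * S) ≤ ell x := by
    have h1 : t * S ≤ ρ * (t * S) := le_mul_of_one_le_left (by positivity) hρ
    have h2 : 8 * ρ * t * S = 8 * (ρ * (t * S)) := by ring
    linarith
  -- greedy basis
  obtain ⟨o, ho⟩ := exists_greedy x
  have hmN' : m < Fintype.card (Fin k × Fin q) := by rw [hcard]; exact hmN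
  set mm : Fin (Fintype.card (Fin k × Fin q)) := ⟨m, hmN'⟩ with hmm
  have hsb := s_bound ho hR0 (fun h h1 h2 => hFL h h1 (by rw [hcard] at h2; exact h2)) mm
  obtain ⟨d, w, r, b, β, hd, hw, hb, hort, hQF, hblk⟩ := block_decomp x
    (fun i : Fin m => o ⟨i, i.2.trans hmN'⟩)
  have hdq : 2 * d ^ 2 ≤ q := by
    have : d ^ 2 ≤ (k * m) ^ 2 := Nat.pow_le_pow_left hd 2
    omega
  have hellw := lemmaR hx hw hq1 hdq hTY
  rw [hcardr, ← hS] at hellw
  set y : Fin r → E := fun s => opx x (b s) with hy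
  have hxy : ell x ≤ ell (fun s => opx x (w s)) + ell y := ell_le_add fun ξ => (hQF ξ).le
  have hy1 : ell x / 2 ≤ ell y := by
    have : 2 * t * S = 2 * (t * S) := by ring
    linarith
  have helly : 0 < ell y := by linarith
  -- operator bound
  set σ : ℝ := 2 * Real.sqrt 2 * R * ell y / Real.sqrt m with hσdef
  have h2pos : 0 < Real.sqrt 2 := Real.sqrt_pos.2 (by norm_num)
  have hσ0 : 0 < σ := by positivity
  have hσ1 : ‖opx x (o mm)‖ ≤ σ := by
    rw [hσdef, le_div_iff₀ hsm]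
    have h1 : Real.sqrt m ≤ Real.sqrt ((mm : ℝ) + 1) := by
      apply Real.sqrt_le_sqrt
      rw [hmm]
      simp
    calc ‖opx x (o mm)‖ * Real.sqrt m ≤ ‖opx x (o mm)‖ * Real.sqrt ((mm : ℝ) + 1) := by gcongr
      _ = Real.sqrt ((mm : ℝ) + 1) * ‖opx x (o mm)‖ := by ring
      _ ≤ Real.sqrt 2 * R * ell x := hsb
      _ ≤ Real.sqrt 2 * R * (2 * ell y) := by gcongr; linarith
      _ = 2 * Real.sqrt 2 * R * ell y := by ring
  have hOpB : OpB y σ := TypeStep_opB mm hb (fun z hz => greedy_orth ho mm hz)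
    (fun s j hj => hort s ⟨j, hj⟩) hσ1
  -- blocks
  have hNe : ∀ j, bN y β (Pi.single j 1) ≤ t * Real.sqrt q := fun j =>
    TypeStep_block hx hTY (hblk j)
  set J : Finset (Fin k) := Finset.univ.filter
    (fun j => ell y / (2 * k) ≤ bN y β (Pi.single j 1)) with hJ
  have hlarge := TypeStep_large hk y β J (fun j hj => by
    rw [hJ, Finset.mem_filter] at hj
    push Not at hj
    exact (hj (Finset.mem_univ _)).le)
  have hJne : J.Nonempty := by
    rw [Finset.nonempty_iff_ne_empty]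
    intro h0
    have h1 : (fun j : Fin k => if j ∈ J then (1 : ℝ) else 0) = 0 := by
      funext j
      rw [h0]
      simp
    rw [h1, Block_bN_zero] at hlarge
    linarith
  refine hgood (hcrit E (Fin r) (Fin k) y β J σ ρ hJne hσ0 hρ0 hOpB ?_ ?_)
  · intro j hj
    rw [hJ, Finset.mem_filter] at hj
    refine le_trans ?_ hj.2
    rw [Fintype.card_fin, hσdef, ← mul_div_assoc, div_le_div_iff₀ hsm (by positivity)]
    have h1 : 4 * Real.sqrt 2 * C₁ * R * k ^ 2 ≤ Real.sqrt m := by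
      apply Real.le_sqrt_of_sq_le
      refine le_trans (le_of_eq ?_) hCm
      have : Real.sqrt 2 ^ 2 = 2 := Real.sq_sqrt (by norm_num)
      calc (4 * Real.sqrt 2 * C₁ * R * k ^ 2) ^ 2 =
            16 * (Real.sqrt 2 ^ 2) * C₁ ^ 2 * R ^ 2 * (k : ℝ) ^ 4 := by ring
        _ = 32 * C₁ ^ 2 * R ^ 2 * (k : ℝ) ^ 4 := by rw [this]; ring
    calc C₁ * k * (2 * Real.sqrt 2 * R * ell y) * (2 * k) =
          ell y * (4 * Real.sqrt 2 * C₁ * R * k ^ 2) := by ring
      _ ≤ ell y * Real.sqrt m := by gcongr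
  · have h1 : Real.sqrt (∑ j ∈ J, bN y β (Pi.single j 1) ^ 2) ≤ t * S := by
      rw [← Real.sqrt_sq (show 0 ≤ t * S by positivity)]
      apply Real.sqrt_le_sqrt
      have hSq : S ^ 2 = k * q := by
        rw [hS, Real.sq_sqrt (by positivity)]
        push_cast
        ring
      have hsq : Real.sqrt q ^ 2 = q := Real.sq_sqrt (by positivity)
      calc ∑ j ∈ J, bN y β (Pi.single j 1) ^ 2 ≤ ∑ _j ∈ J, (t * Real.sqrt q) ^ 2 := by
            refine Finset.sum_le_sum fun j _ => ?_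
            exact pow_le_pow_left₀ (bN_nonneg _ _ _) (hNe j) 2
        _ = (J.card : ℝ) * (t ^ 2 * q) := by
            rw [Finset.sum_const, nsmul_eq_mul, mul_pow, hsq]
        _ ≤ (k : ℝ) * (t ^ 2 * q) := by
            gcongr
            calc J.card ≤ (Finset.univ : Finset (Fin k)).card := Finset.card_le_univ _
              _ = k := by simp
        _ = (t * S) ^ 2 := by rw [mul_pow, hSq]; ring
    have h2 : 8 * ρ * t * S = 8 * (ρ * (t * S)) := by ring
    calc 2 * ρ * Real.sqrt (∑ j ∈ J, bN y β (Pi.single j 1) ^ 2) ≤ 2 * ρ * (t * S) := by gcongr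
      _ = 2 * (ρ * (t * S)) := by ring
      _ ≤ ell y / 2 := by linarith
      _ ≤ _ := hlarge

end Pool.Agent.helper75.Pel
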