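import Pool.Agent.helper75.Pel.TypeStep
import Pool.Agent.helper75.Pel.FlatThm

/-!
# TypeUnit : Gaussian type 2 with polylogarithmic constants if `E` is not good

`type_unit`: wlog `ρ ≥ 1` (replace `ρ` by `max ρ 1`).  `K₁` from `flat_thm`, `C` from `type_step`.
Strong induction on `q` for `TY E q (K(1+log q)^K)`.  For `q < h₀`: `ell x ≤ q ≤ K √q` (`ell_le_sum_norm`) if
`K ≥ √h₀`.  For `h ≥ h₀` (`h₀` depends on `ρ, δ` only): `k = ⌊h^{1/30}⌋ ≥ 2`, `q = ⌈h/k⌉` (so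
`h ≤ kq ≤ 2h`, `q < h`, `q ≤ 2 h^{29/30}·` ... use `k ≥ h^{1/30}/2`... : choose `k = ⌈h^{1/30}⌉`, then
`q = ⌈h/k⌉ ≤ h^{29/30} + 1 ≤ 2 h^{29/30}` and `k ≤ 2 h^{1/30}`), `R = K₁(1+log(2h))^{K₁}`,
`m = ⌈C R² k⁴⌉ ≤ 2 C R² k⁴`; `2(km)² ≤ 8 C² R⁴ k^{10} ≤ q` by `poly_gain`.
`type_step`: `TY E (kq) (8ρ K(1+log q)^K)`, pad with zeros: `TY E h (8ρ√2 K (1+log q)^K)`
(`ell` of the padded family is the same, `√(kq) ≤ √2 √h`), and `log_gain (8√2 ρ)`.
-/

namespace Pool.Agent.helper75.Pel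

universe u

/-- Padding with zeros. -/
theorem TypeUnit_pad {E : Type u} [NormedAddCommGroup E] [NormedSpace ℝ E] [FiniteDimensional ℝ E]
    {n h : ℕ} {s : ℝ} (hn : h ≤ n) (H : TY E n s) (x : Fin h → E) (hx : ∀ i, ‖x i‖ ≤ 1) :
    ell x ≤ s * Real.sqrt n := by
  obtain ⟨r, rfl⟩ := Nat.exists_eq_add_of_le hn
  have h1 := H (Fin.append x (fun _ => 0)) (by
    intro i
    refine Fin.addCases (fun j => ?_) (fun j => ?_) i
    · rw [Fin.append_left]; exact hx j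
    · rw [Fin.append_right]; simp)
  have h2 : ell (Fin.append x (fun _ : Fin r => (0 : E))) = ell x := by
    apply ell_congr
    intro ξ
    unfold QF
    rw [Fin.sum_univ_add]
    simp
  rw [h2] at h1
  exact h1

/-- The choice of `k`, `q`, `m` at stage `h`. -/
theorem TypeUnit_choice (C : ℝ) (hC : 1 ≤ C) (K₁ : ℕ) (hK₁ : 1 ≤ K₁) : ∃ h₀ : ℕ, 3 ≤ h₀ ∧
    ∀ h : ℕ, h₀ ≤ h → ∃ k q m : ℕ, 1 ≤ k ∧ 1 ≤ q ∧ 1 ≤ m ∧ q < h ∧ h ≤ k * q ∧ k * q ≤ 2 * h ∧
      (q : ℝ) ≤ 2 * (h : ℝ) ^ (29 / 30 : ℝ) ∧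
      C * (K₁ * (1 + Real.log (2 * h)) ^ K₁) ^ 2 * (k : ℝ) ^ 4 ≤ m ∧
      2 * (k * m) ^ 2 ≤ q := by
  obtain ⟨h₂, hh₂, H₂⟩ := poly_gain (16384 * C ^ 2 * (K₁ : ℝ) ^ 4 * 2 ^ (4 * K₁)) (19 / 30) (4 * K₁)
    (by norm_num)
  refine ⟨max 3 ⌈h₂⌉₊, le_max_left _ _, ?_⟩
  intro h hh
  have h3 : 3 ≤ h := le_trans (le_max_left _ _) hh
  have hh2 : h₂ ≤ (h : ℝ) := le_trans (Nat.le_ceil _) (by exact_mod_cast le_trans (le_max_right _ _) hh)
  have hpos : (0 : ℝ) < h := by positivity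
  have h1r : (1 : ℝ) < h := by exact_mod_cast (by omega : 1 < h)
  have h1r' : (1 : ℝ) ≤ h := h1r.le
  set a : ℝ := (h : ℝ) ^ (1 / 30 : ℝ) with ha
  have ha1 : 1 < a := Real.one_lt_rpow h1r (by norm_num)
  set k : ℕ := ⌈a⌉₊ with hk
  have hka : a ≤ k := Nat.le_ceil _
  have hk2a : (k : ℝ) ≤ 2 * a := by
    have := Nat.ceil_lt_add_one (by linarith : (0 : ℝ) ≤ a)
    have h' : (k : ℝ) < a + 1 := this
    linarith
  have hk1 : (1 : ℝ) < k := by linarith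
  have hk2 : 2 ≤ k := by
    have : 1 < k := by exact_mod_cast hk1
    omega
  have hkpos : (0 : ℝ) < k := by linarith
  have hkh : k ≤ h := by
    apply Nat.ceil_le.mpr
    calc a ≤ (h : ℝ) ^ (1 : ℝ) := Real.rpow_le_rpow_of_exponent_le h1r' (by norm_num)
      _ = h := Real.rpow_one _
  set q : ℕ := ⌈(h : ℝ) / k⌉₊ with hq
  have hq1 : (h : ℝ) / k ≤ q := Nat.le_ceil _
  have hq2 : (q : ℝ) < (h : ℝ) / k + 1 := Nat.ceil_lt_add_one (by positivity)
  have hhkq : (h : ℝ) ≤ k * q := by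
    have := mul_le_mul_of_nonneg_left hq1 hkpos.le
    rwa [mul_div_cancel₀ _ hkpos.ne'] at this
  have hkq2 : (k : ℝ) * q < h + k := by
    have := mul_lt_mul_of_pos_left hq2 hkpos
    rw [mul_add, mul_div_cancel₀ _ hkpos.ne', mul_one] at this
    exact this
  have hqpos : 1 ≤ q := by
    have : (0 : ℝ) < q := lt_of_lt_of_le (by positivity) hq1
    exact_mod_cast this
  have hqh : q < h := by
    have e1 : (k : ℝ) * q < h + k := hkq2
    have e2 : k * q < h + k := by exact_mod_cast e1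
    by_contra hcon
    push Not at hcon
    have : k * h ≤ k * q := Nat.mul_le_mul_left _ hcon
    nlinarith
  -- powers
  have hb : (h : ℝ) = a * (h : ℝ) ^ (29 / 30 : ℝ) := by
    rw [ha, ← Real.rpow_add hpos]; norm_num
  have hb1 : (1 : ℝ) ≤ (h : ℝ) ^ (29 / 30 : ℝ) := Real.one_le_rpow h1r' (by norm_num)
  have hq3 : (q : ℝ) ≤ 2 * (h : ℝ) ^ (29 / 30 : ℝ) := by
    have : (h : ℝ) / k ≤ (h : ℝ) ^ (29 / 30 : ℝ) := by
      rw [div_le_iff₀ hkpos]
      calc (h : ℝ) = (h : ℝ) ^ (29 / 30 : ℝ) * a := by rw [mul_comm]; exact hb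
        _ ≤ (h : ℝ) ^ (29 / 30 : ℝ) * k := by
          apply mul_le_mul_of_nonneg_left hka (by positivity)
    linarith
  have hq4 : (h : ℝ) ^ (29 / 30 : ℝ) / 2 ≤ q := by
    refine le_trans ?_ hq1
    rw [div_le_div_iff₀ (by norm_num) hkpos]
    calc (h : ℝ) ^ (29 / 30 : ℝ) * k ≤ (h : ℝ) ^ (29 / 30 : ℝ) * (2 * a) := by
          apply mul_le_mul_of_nonneg_left hk2a (by positivity)
      _ = (a * (h : ℝ) ^ (29 / 30 : ℝ)) * 2 := by ring
      _ = h * 2 := by rw [← hb]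
  -- R
  set R : ℝ := (K₁ * (1 + Real.log (2 * h)) ^ K₁) with hR
  have hlog2 : Real.log (2 * h) = Real.log 2 + Real.log h := Real.log_mul (by norm_num) hpos.ne'
  have hl2 : Real.log 2 ≤ 1 := by
    have := Real.log_two_lt_d9; linarith
  have hl2' : 0 < Real.log 2 := Real.log_pos (by norm_num)
  have hlh : 0 ≤ Real.log h := Real.log_nonneg h1r'
  have hK₁r : (1 : ℝ) ≤ K₁ := by exact_mod_cast hK₁
  have hR1 : 1 ≤ R := by
    have : (1 : ℝ) ≤ (1 + Real.log (2 * h)) ^ K₁ := one_le_pow₀ (by rw [hlog2]; linarith)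
    rw [hR]; nlinarith
  have hR4 : R ^ 4 ≤ (K₁ : ℝ) ^ 4 * 2 ^ (4 * K₁) * (1 + Real.log h) ^ (4 * K₁) := by
    have e1 : (1 + Real.log (2 * h)) ≤ 2 * (1 + Real.log h) := by rw [hlog2]; linarith
    have e0 : 0 ≤ 1 + Real.log (2 * h) := by rw [hlog2]; linarith
    calc R ^ 4 = (K₁ : ℝ) ^ 4 * (1 + Real.log (2 * h)) ^ (4 * K₁) := by
          rw [hR, mul_pow, ← pow_mul, mul_comm K₁ 4]
      _ ≤ (K₁ : ℝ) ^ 4 * (2 * (1 + Real.log h)) ^ (4 * K₁) := by
          apply mul_le_mul_of_nonneg_left _ (by positivity)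
          exact pow_le_pow_left₀ e0 e1 _
      _ = _ := by rw [mul_pow]; ring
  set m : ℕ := ⌈C * R ^ 2 * (k : ℝ) ^ 4⌉₊ with hm
  have hCRk : 1 ≤ C * R ^ 2 * (k : ℝ) ^ 4 := by
    have e1 : 1 ≤ R ^ 2 := one_le_pow₀ hR1
    have e2 : (1 : ℝ) ≤ (k : ℝ) ^ 4 := one_le_pow₀ hk1.le
    have e3 : 1 ≤ C * R ^ 2 := by nlinarith
    nlinarith
  have hm1 : C * R ^ 2 * (k : ℝ) ^ 4 ≤ m := Nat.le_ceil _
  have hm2 : (m : ℝ) ≤ 2 * (C * R ^ 2 * (k : ℝ) ^ 4) := by
    have := Nat.ceil_lt_add_one (by linarith : (0 : ℝ) ≤ C * R ^ 2 * (k : ℝ) ^ 4)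
    have h' : (m : ℝ) < C * R ^ 2 * (k : ℝ) ^ 4 + 1 := this
    linarith
  have hmpos : 1 ≤ m := by
    have : (1 : ℝ) ≤ m := by linarith
    exact_mod_cast this
  refine ⟨k, q, m, by omega, hqpos, hmpos, hqh, by exact_mod_cast hhkq, ?_, hq3, hm1, ?_⟩
  · have e2 : k * q < h + k := by exact_mod_cast hkq2
    omega
  · have key : 2 * ((k : ℝ) * m) ^ 2 ≤ q := by
      have hkm : (k : ℝ) * m ≤ 2 * C * R ^ 2 * (k : ℝ) ^ 5 := by
        calc (k : ℝ) * m ≤ k * (2 * (C * R ^ 2 * (k : ℝ) ^ 4)) :=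
              mul_le_mul_of_nonneg_left hm2 hkpos.le
          _ = _ := by ring
      have hk10 : (k : ℝ) ^ 10 ≤ 1024 * (h : ℝ) ^ (1 / 3 : ℝ) := by
        calc (k : ℝ) ^ 10 ≤ (2 * a) ^ 10 := pow_le_pow_left₀ hkpos.le hk2a _
          _ = 1024 * a ^ 10 := by ring
          _ = 1024 * (h : ℝ) ^ (1 / 3 : ℝ) := by
            rw [ha, ← Real.rpow_natCast, ← Real.rpow_mul hpos.le]; norm_num
      have hR40 : 0 ≤ R ^ 4 := by positivity
      have hp := H₂ h hh2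
      have hsplit : (h : ℝ) ^ (29 / 30 : ℝ) = (h : ℝ) ^ (19 / 30 : ℝ) * (h : ℝ) ^ (1 / 3 : ℝ) := by
        rw [← Real.rpow_add hpos]; norm_num
      have hh13 : 0 ≤ (h : ℝ) ^ (1 / 3 : ℝ) := by positivity
      calc 2 * ((k : ℝ) * m) ^ 2 ≤ 2 * (2 * C * R ^ 2 * (k : ℝ) ^ 5) ^ 2 := by
            apply mul_le_mul_of_nonneg_left _ (by norm_num)
            exact pow_le_pow_left₀ (by positivity) hkm 2
        _ = 8 * C ^ 2 * R ^ 4 * (k : ℝ) ^ 10 := by ring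
        _ ≤ 8 * C ^ 2 * ((K₁ : ℝ) ^ 4 * 2 ^ (4 * K₁) * (1 + Real.log h) ^ (4 * K₁)) *
              (1024 * (h : ℝ) ^ (1 / 3 : ℝ)) := by
            apply mul_le_mul _ hk10 (by positivity) (by positivity)
            apply mul_le_mul_of_nonneg_left hR4 (by positivity)
        _ = (16384 * C ^ 2 * (K₁ : ℝ) ^ 4 * 2 ^ (4 * K₁) * (1 + Real.log h) ^ (4 * K₁)) *
              (h : ℝ) ^ (1 / 3 : ℝ) / 2 := by ring
        _ ≤ (h : ℝ) ^ (19 / 30 : ℝ) * (h : ℝ) ^ (1 / 3 : ℝ) / 2 := by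
            apply div_le_div_of_nonneg_right _ (by norm_num)
            exact mul_le_mul_of_nonneg_right hp hh13
        _ = (h : ℝ) ^ (29 / 30 : ℝ) / 2 := by rw [hsplit]
        _ ≤ q := hq4
    exact_mod_cast key

theorem type_unit (ρ δ : ℝ) (hδ : 0 < δ) : ∃ K : ℕ, 1 ≤ K ∧
    ∀ (E : Type u) [NormedAddCommGroup E] [NormedSpace ℝ E] [FiniteDimensional ℝ E],
      ¬ Good E ρ δ → ∀ q : ℕ, 1 ≤ q → TY E q (K * (1 + Real.log q) ^ K) := by
  obtain ⟨K₁, hK₁, HF⟩ := flat_thm.{u} ρ δ hδ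
  obtain ⟨C, hC, HS⟩ := type_step.{u} δ hδ
  set ρ' : ℝ := max ρ 1 with hρ'
  have hρ1 : 1 ≤ ρ' := le_max_right _ _
  obtain ⟨K₀, h₁, hh₁, HL⟩ := log_gain (8 * Real.sqrt 2 * ρ')
  obtain ⟨h₀, hh₀, HC⟩ := TypeUnit_choice C hC K₁ hK₁
  set N : ℕ := max h₀ ⌈h₁⌉₊ with hN
  set K : ℕ := max (max 1 K₀) N with hK
  have hK1 : 1 ≤ K := le_trans (le_max_left _ _) (le_max_left _ _)
  have hKK₀ : K₀ ≤ K := le_trans (le_max_right _ _) (le_max_left _ _)
  have hKN : N ≤ K := le_max_right _ _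
  refine ⟨K, hK1, ?_⟩
  intro E _ _ _ hE
  have hE' : ¬ Good E ρ' δ := by
    rintro ⟨F, hb, hT⟩
    exact hE ⟨F, hb, fun T => le_trans (le_max_left _ _) (hT T)⟩
  intro h
  induction h using Nat.strong_induction_on with
  | _ h IH =>
    intro hh1 x hx
    have hhr : (1 : ℝ) ≤ h := by exact_mod_cast hh1
    have hlog : 0 ≤ Real.log h := Real.log_nonneg hhr
    have hK1r : (1 : ℝ) ≤ K := by exact_mod_cast hK1
    have hpow : (1 : ℝ) ≤ (1 + Real.log h) ^ K := one_le_pow₀ (by linarith)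
    have hsq : 0 ≤ Real.sqrt h := Real.sqrt_nonneg _
    by_cases hlt : h < N
    · -- small h
      have e1 : ell x ≤ h := by
        refine le_trans (ell_le_sum_norm x) ?_
        calc ∑ i, ‖x i‖ ≤ ∑ _i : Fin h, (1 : ℝ) := Finset.sum_le_sum fun i _ => hx i
          _ = h := by simp
      have e2 : (h : ℝ) = Real.sqrt h * Real.sqrt h := (Real.mul_self_sqrt (by positivity)).symm
      have e3 : Real.sqrt h ≤ K := by
        have : Real.sqrt h ≤ h := by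
          rw [Real.sqrt_le_left (by positivity)]
          nlinarith
        have h4 : (h : ℝ) ≤ K := by exact_mod_cast (le_trans hlt.le hKN)
        linarith
      have e4 : (K : ℝ) ≤ K * (1 + Real.log h) ^ K := by nlinarith
      calc ell x ≤ Real.sqrt h * Real.sqrt h := by rw [← e2]; exact e1
        _ ≤ K * (1 + Real.log h) ^ K * Real.sqrt h :=
            mul_le_mul_of_nonneg_right (le_trans e3 e4) hsq
    · push Not at hlt
      have hh0 : h₀ ≤ h := le_trans (le_max_left _ _) hlt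
      have hh1' : h₁ ≤ (h : ℝ) :=
        le_trans (Nat.le_ceil _) (by exact_mod_cast le_trans (le_max_right _ _) hlt)
      obtain ⟨k, q, m, hk, hq, hm, hqh, hhkq, hkq, hq29, hCm, hkm⟩ := HC h hh0
      set t : ℝ := K * (1 + Real.log q) ^ K with ht
      have hqr : (1 : ℝ) ≤ q := by exact_mod_cast hq
      have hlogq : 0 ≤ Real.log q := Real.log_nonneg hqr
      have ht0 : 0 ≤ t := by positivity
      have hTq : TY E q t := IH q hqh hq
      set R : ℝ := (K₁ * (1 + Real.log (2 * h)) ^ K₁) with hR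
      have hK₁r : (1 : ℝ) ≤ K₁ := by exact_mod_cast hK₁
      have hlog2h : 0 ≤ Real.log (2 * h) := Real.log_nonneg (by linarith)
      have hR1 : 1 ≤ R := by
        have : (1 : ℝ) ≤ (1 + Real.log (2 * h)) ^ K₁ := one_le_pow₀ (by linarith)
        rw [hR]; nlinarith
      have hFL : ∀ h' : ℕ, 1 ≤ h' → h' ≤ k * q → FL E h' (Real.sqrt h' / R) := by
        intro h' h1' hle y hy
        refine le_trans ?_ (HF E hE h' h1' y hy)
        have h1r : (1 : ℝ) ≤ h' := by exact_mod_cast h1'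
        have hl0 : 0 ≤ Real.log h' := Real.log_nonneg h1r
        have hle' : (h' : ℝ) ≤ 2 * h := by exact_mod_cast (le_trans hle hkq)
        have hl : Real.log h' ≤ Real.log (2 * h) := Real.log_le_log (by linarith) hle'
        apply div_le_div_of_nonneg_left (Real.sqrt_nonneg _) (by positivity)
        rw [hR]
        apply mul_le_mul_of_nonneg_left _ (by positivity)
        exact pow_le_pow_left₀ (by linarith) (by linarith) _
      have hstep := HS E ρ' t R k q m hρ1 hk hm hR1 hE' hTq hFL hCm hkm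
      have hpad := TypeUnit_pad hhkq hstep x hx
      have hsqrt : Real.sqrt ((k * q : ℕ) : ℝ) ≤ Real.sqrt 2 * Real.sqrt h := by
        rw [← Real.sqrt_mul (by norm_num)]
        apply Real.sqrt_le_sqrt
        exact_mod_cast hkq
      have hgain := HL K hKK₀ h q hh1' hqr hq29
      calc ell x ≤ 8 * ρ' * t * Real.sqrt ((k * q : ℕ) : ℝ) := hpad
        _ ≤ 8 * ρ' * t * (Real.sqrt 2 * Real.sqrt h) := by
            apply mul_le_mul_of_nonneg_left hsqrt (by positivity)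
        _ = K * (8 * Real.sqrt 2 * ρ' * (1 + Real.log q) ^ K) * Real.sqrt h := by
            rw [ht]; ring
        _ ≤ K * (1 + Real.log h) ^ K * Real.sqrt h := by
            apply mul_le_mul_of_nonneg_right _ hsq
            apply mul_le_mul_of_nonneg_left hgain (by positivity)

end Pool.Agent.helper75.Pel
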